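import Pool.Agent.TWI.StI1
import Pool.Agent.TWT.FOI
import Pool.Agent.MUX.RQ0

/-!
# TWI, block A, module COM: `x_M(mu z)` as a quotient of integral polynomials in `x_L(z)`
-/

set_option autoImplicit false

open WeierstrassCurve Polynomial

namespace Pool.Agent.TWI

open _root_.MU3 Pool.Agent.MU3A Pool.Agent.MU3B Pool.Agent.MUX Pool.Agent.MUXU Pool.Agent.TWT
open Pool.Agent.MUXV

noncomputable section

namespace COM

variable {V : ValuationSubring ℂ} {L M : PeriodPair} {mu : ℂ} {n : ℕ}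
  {W W' : WeierstrassCurve.Affine ℂ} {ξ : ℂ →+ W.Point} {ξ' : ℂ →+ W'.Point}

/-- an element of `V`, if it is one -/
def vl (V : ValuationSubring ℂ) (x : ℂ) : V := by
  classical
  exact if h : x ∈ V then ⟨x, h⟩ else 0

lemma vl_coe {x : ℂ} (h : V.valuation x ≤ 1) : ((vl V x : V) : ℂ) = x := by
  have h1 := (ValuationSubring.valuation_le_one_iff _ _).1 h
  unfold vl
  rw [dif_pos h1]

/-- the kernel of reduction is mapped into the kernel of reduction -/
lemma inK_map (gL : GR V W L (xn L) (yy L) ξ) (gM : GR V W' M (xn M) (yy M) ξ')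
    (h : IsgN V L M mu n) {u : ℂ} (hu : InK V L (xn L) u) : InK V M (xn M) (mu * u) := by
  by_cases huL : u ∈ L.lattice
  · exact inK_of_mem (h.sub u huL)
  · exact (t_FOI V L M mu n ⟨W, ξ, gL⟩ ⟨W', ξ', gM⟩ h.ne h.sub h.odd h.unit h.ker h.vmu u hu
      huL).1

end COM

open COM in
theorem i_COM : S_COM := by
  intro V L M a2 a4 b2 b4 hGL hGM mu n hmn
  obtain ⟨W, ξ, gL, -, -⟩ := hGL
  obtain ⟨W', ξ', gM, -, -⟩ := hGM
  have hmu := hmn.ne
  have hI := hmn.sub
  have hk2 : ∀ z, mu * z ∈ M.lattice → 2 * z ∈ L.lattice → z ∈ L.lattice := by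
    intro z hz h2z
    obtain ⟨k, hk⟩ := hmn.odd
    have h1 := hmn.ker z hz
    have h2 := sub_mem h1 (nsmul_mem h2z k)
    have e : (n : ℂ) * z - k • (2 * z) = z := by
      rw [hk, nsmul_eq_mul]; push_cast; ring
    rwa [e] at h2
  have hkerK : ∀ z, mu * z ∈ M.lattice → InK V L (xn L) z → z ∈ L.lattice := fun z hz hz2 =>
    mem_of_nat_mul gL hz2 hmn.unit (hmn.ker z hz)
  obtain ⟨H, hH⟩ := x_HAL L M mu hmu hI hk2
  have htwo : ∀ w : ℂ, 2 * w ∈ L.lattice → w ∉ L.lattice → ¬ InK V L (xn L) w := by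
    intro w hw hwL hw1
    exact hwL (mem_of_nat_mul gL hw1 (n := 2) (by simpa using gL.two) (by simpa using hw))
  have htwoM : ∀ w : ℂ, 2 * w ∈ M.lattice → w ∉ M.lattice → ¬ InK V M (xn M) w := by
    intro w hw hwL hw1
    exact hwL (mem_of_nat_mul gM hw1 (n := 2) (by simpa using gM.two) (by simpa using hw))
  have hq : ∀ q ∈ H, ¬ InK V L (xn L) q := by
    intro q hq hqK
    have h1 := hkerK q (hH.mem q hq) hqK
    apply hH.ne q hq
    have := add_mem h1 h1
    rwa [← two_mul] at this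
  obtain ⟨w, -, hw2, hwL, -, -, -, -⟩ := RMin.half_period L
  have hwK := htwo w hw2 hwL
  have hwq : ∀ q ∈ H, ¬ InK V L (xn L) (w + q) := by
    intro q hq hqK
    have h1 := inK_nat gL hqK 2
    have h2 := inK_sub gL h1 (inK_of_mem (V := V) (X := xn L) hw2)
    have e : ((2 : ℕ) : ℂ) * (w + q) - 2 * w = 2 * q := by push_cast; ring
    rw [e] at h2
    apply hH.ne q hq
    apply hkerK _ _ h2
    have h3 := hH.mem q hq
    have h4 := add_mem h3 h3
    rwa [← two_mul, ← mul_assoc, mul_comm 2 mu, mul_assoc] at h4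
  have hmw : mu * w ∉ M.lattice := fun h => hwL (hk2 w h hw2)
  have hmwK : ¬ InK V M (xn M) (mu * w) := by
    apply htwoM _ _ hmw
    have := hI _ hw2
    rwa [mul_left_comm] at this
  obtain ⟨Q, hQ⟩ : ∃ Q : V[X], Q = C (vl V mu) * ∏ q ∈ H, (X - C (vl V (xn L q))) := ⟨_, rfl⟩
  obtain ⟨B, hB⟩ : ∃ B : V[X], B = ∏ q ∈ H, (X - C (vl V (xn L (w + q)))) := ⟨_, rfl⟩
  have ac : ∀ (x : ℂ) (a : V), Polynomial.aeval x (C a) = (a : ℂ) := by
    intro x a
    rw [Polynomial.aeval_C]
    rfl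
  have eQ : ∀ x : ℂ, Polynomial.aeval x Q = mu * ∏ q ∈ H, (x - xn L q) := by
    intro x
    rw [hQ, map_mul, ac, vl_coe hmn.vmu.le, map_prod]
    congr 1
    apply Finset.prod_congr rfl
    intro q hqH
    rw [map_sub, Polynomial.aeval_X, ac, vl_coe (int_X (hq q hqH)).2]
  have eB : ∀ x : ℂ, Polynomial.aeval x B = ∏ q ∈ H, (x - xn L (w + q)) := by
    intro x
    rw [hB, map_prod]
    apply Finset.prod_congr rfl
    intro q hqH
    rw [map_sub, Polynomial.aeval_X, ac, vl_coe (int_X (hwq q hqH)).2]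
  refine ⟨(X - C (vl V (xn L w))) * B ^ 2 + C (vl V (xn M (mu * w))) * Q ^ 2, Q ^ 2, ?_, ?_⟩
  · intro z hz
    have h1 := (x_POL L M (1 / 12) mu H hmu hI hH).2 w hw2 hwL z hz
    have h2 : (QI L (1 / 12) mu H).eval (L.weierstrassP z - 1 / 12) =
        Polynomial.aeval (xn L z) Q := by
      rw [eQ, QI, eval_mul, eval_C, eval_prod]
      simp only [eval_sub, eval_X, eval_C]
      rfl
    have h3 : (CI L (1 / 12) w H).eval (L.weierstrassP z - 1 / 12) =
        Polynomial.aeval (xn L z) B := by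
      rw [eB, CI, eval_prod]
      simp only [eval_sub, eval_X, eval_C]
      rfl
    rw [h2, h3] at h1
    rw [map_add, map_mul, map_mul, map_pow, map_pow, map_sub, Polynomial.aeval_X, ac, ac,
      vl_coe (int_X hwK).2, vl_coe (int_X hmwK).2]
    unfold xn at h1 ⊢
    linear_combination h1
  · intro z hz
    have hmap : ∀ u, InK V L (xn L) u → InK V M (xn M) (mu * u) := fun u hu =>
      inK_map gL gM hmn hu
    have hzL : ¬ InK V L (xn L) z := fun h => hz (hmap z h)
    refine ⟨hzL, ?_⟩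
    have hp : ∀ q ∈ H, ¬ InK V L (xn L) (z + q) := by
      intro q hqH hK
      have h1 := hmap _ hK
      apply hz
      rw [inK_congr gM (w := mu * z) ] at h1
      · exact h1
      · rw [mul_add, add_sub_cancel_left]
        exact inK_of_mem (hH.mem q hqH)
    have hm : ∀ q ∈ H, ¬ InK V L (xn L) (z - q) := by
      intro q hqH hK
      have h1 := hmap _ hK
      apply hz
      rw [inK_congr gM (w := mu * z) ] at h1
      · exact h1
      · rw [mul_sub, sub_sub_cancel_left]
        exact inK_neg gM (inK_of_mem (hH.mem q hqH))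
    have hv : V.valuation (∏ q ∈ H, (xn L z - xn L q)) = 1 := by
      rw [map_prod]
      apply Finset.prod_eq_one
      intro q hqH
      exact v_X_sub gL hzL (hq q hqH) (hp q hqH) (hm q hqH)
    rw [map_pow, eQ, map_pow, map_mul, hv, hmn.vmu, mul_one, one_pow]

end

end Pool.Agent.TWI
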