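import Pool.Agent.TWI.StI1
import Pool.Agent.MUX.RQAll
import Pool.Agent.MUX.XLib

/-!
# TWI, block A, module GRI (helper89): the lattices `L_i`, good reduction, the multipliers, `p` inert

Model: `Pool/Agent/TWT/PIS.lean` and `Pool/Agent/TWT/VPG.lean`.
-/

set_option autoImplicit false

open WeierstrassCurve Polynomial

namespace Pool.Agent.TWI

open _root_.MU3 Pool.Agent.MU3A Pool.Agent.MU3B Pool.Agent.MUX Pool.Agent.MUXU Pool.Agent.TWT
open Pool.Agent.MUXV (GR InK tX HalfI)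

noncomputable section

namespace GRI

variable {p : ℕ} {A B : ℤ} {P : Ideal (OO A B)} {V : ValuationSubring ℂ} {f : ℕ}

lemma cqF (h : CQ A B) : MUXF.CQ A B := ⟨h.hB, h.neg, h.fund1, h.fund0⟩

lemma sq_eq (x : OO A B) :
    x * x = ((2 * x.re + B * x.im : ℤ) : OO A B) * x - ((nm x : ℤ) : OO A B) := by
  have key : ∀ t n : ℤ, t = 2 * x.re + B * x.im → n = nm x →
      x * x = (t : OO A B) * x - (n : OO A B) := by
    intro t n ht hn
    unfold nm at hn
    apply QuadraticAlgebra.ext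
    · simp only [QuadraticAlgebra.re_mul, QuadraticAlgebra.re_sub, QuadraticAlgebra.re_intCast,
        QuadraticAlgebra.im_intCast, Int.cast_id]
      rw [ht, hn]
      ring
    · simp only [QuadraticAlgebra.im_mul, QuadraticAlgebra.im_sub, QuadraticAlgebra.re_intCast,
        QuadraticAlgebra.im_intCast, Int.cast_id]
      rw [ht]
      ring
  exact key _ _ rfl rfl

lemma val_le (h : CQ A B) (V : ValuationSubring ℂ) (x : OO A B) : V.valuation (emb x) ≤ 1 := by
  obtain ⟨hmul, -, hsub, hint, -⟩ := Pool.Agent.MUXV.q_EMB A B (cqF h)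
  rw [ValuationSubring.valuation_le_one_iff]
  by_contra hx
  have h1 := congrArg emb (sq_eq x)
  rw [hmul, hsub, hmul, hint, hint] at h1
  rcases V.mem_or_inv_mem (emb x) with h2 | h2
  · exact hx h2
  · have h0 : emb x ≠ 0 := by
      intro h0
      rw [h0] at hx
      exact hx V.zero_mem
    apply hx
    have h3 : emb x = ((2 * x.re + B * x.im : ℤ) : ℂ) - ((nm x : ℤ) : ℂ) * (emb x)⁻¹ := by
      field_simp
      linear_combination h1
    rw [h3]
    exact sub_mem (intCast_mem V _) (mul_mem (intCast_mem V _) h2)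

theorem p_mem (h : SetI p A B P V f) : ((p : ℕ) : OO A B) ∈ P := by
  rw [h.eP]
  exact Ideal.subset_span rfl

theorem val_lt (h : SetI p A B P V f) : V.valuation (p : ℂ) < 1 := by
  have h1 : emb ((p : ℕ) : OO A B) ∈ V.nonunits := (h.hV _).2 (p_mem h)
  rw [Pool.Agent.MUX.emb_natCast h.cq] at h1
  exact V.mem_nonunits_iff.1 h1

theorem val_int (h : SetI p A B P V f) (j : ℤ) (hj : ¬ (p : ℤ) ∣ j) :
    V.valuation (j : ℂ) = 1 := by
  have h1 : ((j : ℤ) : OO A B) ∉ P := by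
    intro hm
    have hc : IsCoprime (p : ℤ) j :=
      ((Nat.prime_iff_prime_int.1 h.pp).coprime_iff_not_dvd).2 hj
    obtain ⟨a, b, hab⟩ := hc
    apply h.hP.ne_top
    rw [Ideal.eq_top_iff_one]
    have h2 : (a : OO A B) * ((p : ℕ) : OO A B) + (b : OO A B) * ((j : ℤ) : OO A B) = 1 := by
      have h3 := congrArg (fun t : ℤ => (t : OO A B)) hab
      push_cast at h3
      exact h3
    rw [← h2]
    exact P.add_mem (P.mul_mem_left _ (p_mem h)) (P.mul_mem_left _ hm)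
  have h2 : ¬ V.valuation (j : ℂ) < 1 := by
    intro h3
    apply h1
    rw [← h.hV, Pool.Agent.MUX.emb_intCast h.cq]
    exact V.mem_nonunits_iff.2 h3
  have h4 : V.valuation (j : ℂ) ≤ 1 := (V.valuation_le_one_iff _).2 (intCast_mem V j)
  exact le_antisymm h4 (not_lt.1 h2)

theorem good (h : SetI p A B P V f) {ι : Type} (R : Reps A B (p * f) ι) (hR : GRd V R) (i : ι) :
    ∃ (W : WeierstrassCurve.Affine ℂ) (ξ : ℂ →+ W.Point),
      GR V W (R.L i) (fun z => (R.L i).weierstrassP z - 1 / 12)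
        (fun z => (R.L i).derivWeierstrassP z / 2) ξ := by
  have h5 := h.p5
  have h2 : V.valuation (2 : ℂ) = 1 := by
    have h3 := val_int h 2 (fun h4 => by
      have h6 := Int.le_of_dvd (by norm_num) h4
      omega)
    have h7 : ((2 : ℤ) : ℂ) = 2 := by norm_num
    rwa [h7] at h3
  refine Pool.Agent.MUXV.x_NGR V (R.L i) (R.nl i).nrm h2 (hR.kap i) ?_
  have h3 := hR.dis i
  have h4 : (1 : ℂ) + 1728 * Pool.Agent.MUX.kap (R.L i) = 12 * (R.L i).g₂ := by
    unfold Pool.Agent.MUX.kap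
    ring
  rwa [h4] at h3

theorem mult (h : SetI p A B P V f) {ι : Type} (R : Reps A B (p * f) ι) (hR : GRd V R) (i : ι) :
    muX R i ≠ 0 ∧ Isg (R.L R.i0) (R.L i) (muX R i) ∧ V.valuation (muX R i) = 1 ∧
      Odd (nI (R.b i)) ∧ V.valuation ((nI (R.b i) : ℕ) : ℂ) = 1 ∧
      ∀ z, muX R i * z ∈ (R.L i).lattice →
        ((nI (R.b i) : ℕ) : ℂ) * z ∈ (R.L R.i0).lattice := by
  have hC := h.cq
  have hn0 : nI (R.b i) ≠ 0 := Pool.Agent.MUX.nI_ne_zero hC (R.nl i).b_ne
  have hnC : ((nI (R.b i) : ℕ) : ℂ) ≠ 0 := by exact_mod_cast hn0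
  have ho := (R.nl i).om_ne
  have ho0 := (R.nl R.i0).om_ne
  have hmu : muX R i ≠ 0 := div_ne_zero (mul_ne_zero ho hnC) ho0
  have hisg : Isg (R.L R.i0) (R.L i) (muX R i) := by
    intro w hw
    obtain ⟨x, _, rfl⟩ := ((R.nl R.i0).mem w).1 hw
    refine ((R.nl i).mem _).2 ⟨((nI (R.b i) : ℕ) : OO A B) * x,
      Ideal.mul_mem_right _ _ (Pool.Agent.MUX.nI_mem hC (R.nl i).b_ne), ?_⟩
    rw [Pool.Agent.MUX.emb_mul hC, Pool.Agent.MUX.emb_natCast hC]
    unfold muX
    field_simp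
  have hker : ∀ z, muX R i * z ∈ (R.L i).lattice →
      ((nI (R.b i) : ℕ) : ℂ) * z ∈ (R.L R.i0).lattice := by
    intro z hz
    obtain ⟨x, _, hxz⟩ := ((R.nl i).mem _).1 hz
    refine ((R.nl R.i0).mem _).2 ⟨x, by rw [R.b0]; exact Submodule.mem_top, ?_⟩
    have h1 : R.om i * (((nI (R.b i) : ℕ) : ℂ) * z) = R.om i * (R.om R.i0 * emb x) := by
      calc R.om i * (((nI (R.b i) : ℕ) : ℂ) * z) = R.om R.i0 * (muX R i * z) := by
            unfold muX
            field_simp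
        _ = _ := by
            rw [hxz]
            ring
    exact mul_left_cancel₀ ho h1
  have hodd : Odd (nI (R.b i)) := by
    have h1 : (2 : ℤ) ∣ (f : ℤ) := dvd_trans (dvd_mul_right 2 _) h.fD
    have h2 : 2 ∣ f := by exact_mod_cast h1
    exact Nat.coprime_two_right.1 ((R.cop i).coprime_dvd_right (dvd_mul_of_dvd_right h2 p))
  have hvn : V.valuation ((nI (R.b i) : ℕ) : ℂ) = 1 := by
    have h1 : ¬ (p : ℤ) ∣ ((nI (R.b i) : ℕ) : ℤ) := by
      intro h2
      have h3 : p ∣ nI (R.b i) := by exact_mod_cast h2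
      have h4 : p ∣ 1 := by
        rw [← (R.cop i)]
        exact Nat.dvd_gcd h3 (dvd_mul_right p f)
      exact h.pp.one_lt.ne' (Nat.dvd_one.1 h4)
    have h5 := val_int h _ h1
    rwa [Int.cast_natCast] at h5
  exact ⟨hmu, hisg, Pool.Agent.MUXV.x_MUN V (R.L R.i0) (R.L i) (1 / 12) (1 / 12) (muX R i)
    (nI (R.b i)) (good h R hR R.i0) (good h R hR i) hmu hisg hodd hvn hker, hodd, hvn, hker⟩

theorem gra (h : SetI p A B P V f) {ι : Type} (R : Reps A B (p * f) ι) (hR : GRd V R) (i : ι) :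
    ∃ a2 a4 : V, GRa V (R.L i) a2 a4 := by
  obtain ⟨W, ξ, G⟩ := good h R hR i
  exact ⟨⟨W.a₂, (V.valuation_le_one_iff _).1 G.int.a2⟩, ⟨W.a₄, (V.valuation_le_one_iff _).1 G.int.a4⟩,
    W, ξ, G, rfl, rfl⟩

theorem val_emb (h : SetI p A B P V f) (x : OO A B) :
    V.valuation (emb x) ≤ 1 ∧ (V.valuation (emb x) = 1 ↔ x ∉ P) := by
  have h1 := val_le h.cq V x
  refine ⟨h1, ?_⟩
  rw [← h.hV x, ValuationSubring.mem_nonunits_iff, not_lt]
  exact ⟨fun h2 => h2.ge, fun h2 => le_antisymm h1 h2⟩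

end GRI

theorem i_GRI : S_GRI := by
  intro p A B P V f h ι R hR
  exact ⟨fun i => GRI.gra h R hR i, GRI.val_lt h, GRI.val_int h, fun x => GRI.val_emb h x,
    fun i => GRI.mult h R hR i⟩

end

end Pool.Agent.TWI
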