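import Pool.Agent.TWI.DefsI
import Pool.Agent.MUX.XLib
import Pool.Agent.MUX.HY_VAL
import Pool.Agent.MUX.XFAll
import Pool.Agent.TWB.TEI

/-!
# TWI, module TEP (helper34): the residue field of an inert prime and its Teichmüller character

`t_TEI2`: `TeiI` exists. `t_TEP`: the number of elements, the power sums, permutations of the representatives, the distance of
`w x` and `emb x`, elements `α` with `α ^ N - α` a unit.
-/

set_option autoImplicit false

namespace Pool.Agent.TWI

open _root_.MU3 Pool.Agent.MU3A Pool.Agent.MUX Pool.Agent.TWT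

noncomputable section

namespace TEP

/-- two roots of unity of order prime to the residue characteristic with the same reduction -/
lemma uniq (V : ValuationSubring ℂ) (n : ℕ) (hn : 0 < n) (hvn : V.valuation (n : ℂ) = 1)
    (ζ ξ : ℂ) (h1 : ζ ^ n = 1) (h2 : ξ ^ n = 1) (h : V.valuation (ζ - ξ) < 1) : ζ = ξ := by
  classical
  by_contra hne
  have hξ0 : ξ ≠ 0 := by
    rintro rfl
    rw [zero_pow hn.ne'] at h2
    exact zero_ne_one h2
  have hvξ : V.valuation ξ = 1 := MUXHY.Val.root_one V n ξ hn.ne' h2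
  obtain ⟨η, hη⟩ : ∃ η, η = ζ / ξ := ⟨_, rfl⟩
  have hη1 : η ^ n = 1 := by rw [hη, div_pow, h1, h2, div_one]
  have hηne : η ≠ 1 := by
    rw [hη]
    intro h3
    exact hne ((div_eq_one_iff_eq hξ0).1 h3)
  have hv1 : V.valuation (1 - η) < 1 := by
    have h3 : 1 - η = -(ζ - ξ) / ξ := by
      rw [hη]
      field_simp
      ring
    rw [h3, map_div₀, Valuation.map_neg, hvξ, div_one]
    exact h
  have hsum : ∑ i ∈ Finset.range n, η ^ i = 0 := by
    have h4 : (η - 1) * ∑ i ∈ Finset.range n, η ^ i = 0 := by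
      rw [mul_geom_sum, hη1, sub_self]
    rcases mul_eq_zero.1 h4 with h5 | h5
    · exact absurd (sub_eq_zero.1 h5) hηne
    · exact h5
  have hvη : V.valuation η = 1 := MUXHY.Val.root_one V n η hn.ne' hη1
  have hterm : ∀ i : ℕ, V.valuation (1 - η ^ i) < 1 := by
    intro i
    have h6 : 1 - η ^ i = (1 - η) * ∑ j ∈ Finset.range i, η ^ j := by
      have := mul_geom_sum η i
      linear_combination this
    rw [h6, map_mul]
    have h7 : V.valuation (∑ j ∈ Finset.range i, η ^ j) ≤ 1 := by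
      refine V.valuation.map_sum_le fun j _ => ?_
      rw [map_pow, hvη, one_pow]
    exact mul_lt_one_of_lt_of_le hv1 h7
  have h8 : (n : ℂ) = ∑ i ∈ Finset.range n, (1 - η ^ i) := by
    rw [Finset.sum_sub_distrib, hsum]
    simp
  have h9 : V.valuation (n : ℂ) < 1 := by
    rw [h8]
    exact V.valuation.map_sum_lt one_ne_zero fun i _ => hterm i
  exact absurd h9 (by rw [hvn]; exact lt_irrefl _)

/-- the situation: `P` a prime ideal of `O`, `O/P` has `q` elements, `V` above `P` -/
structure Sit {A B : ℤ} (q : ℕ) (P : Ideal (OO A B)) (V : ValuationSubring ℂ) : Prop where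
  cq : CQ A B
  prime : P.IsPrime
  ov : OverI V P
  card : Nat.card (OO A B ⧸ P) = q
  q2 : 2 < q
  vq : V.valuation ((q - 1 : ℕ) : ℂ) = 1

variable {A B : ℤ} {q : ℕ} {P : Ideal (OO A B)} {V : ValuationSubring ℂ}

theorem Sit.vle (h : Sit q P V) (x : OO A B) : V.valuation (emb x) ≤ 1 :=
  (ValuationSubring.valuation_le_one_iff _ _).2 (MUXHY.Val.emb_mem (MUXHY.toCQ h.cq) V x)

theorem Sit.vlt (h : Sit q P V) (x : OO A B) : V.valuation (emb x) < 1 ↔ x ∈ P := by
  rw [← ValuationSubring.mem_nonunits_iff]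
  exact h.ov x

theorem Sit.v1 (h : Sit q P V) (x : OO A B) : V.valuation (emb x) = 1 ↔ x ∉ P := by
  rw [← h.vlt x, not_lt]
  exact ⟨fun h1 => h1.ge, fun h1 => le_antisymm (h.vle x) h1⟩

theorem Sit.fermat (h : Sit q P V) (x : OO A B) (hx : x ∉ P) : x ^ (q - 1) - 1 ∈ P := by
  have hcard := h.card
  have hq2 := h.q2
  have hfin : Finite (OO A B ⧸ P) := Nat.finite_of_card_ne_zero (by rw [hcard]; omega)
  have hprime := h.prime
  have hdom : IsDomain (OO A B ⧸ P) := Ideal.Quotient.isDomain P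
  have : Fintype (OO A B ⧸ P) := Fintype.ofFinite _
  have hf := Finite.isField_of_domain (OO A B ⧸ P)
  letI := hf.toField
  have h1 : (Ideal.Quotient.mk P x) ≠ 0 := by
    rwa [Ne, Ideal.Quotient.eq_zero_iff_mem]
  have h2 : (Ideal.Quotient.mk P x) ^ (q - 1) = 1 := by
    have h3 := FiniteField.pow_card_sub_one_eq_one (Ideal.Quotient.mk P x) h1
    rwa [← Nat.card_eq_fintype_card, hcard] at h3
  rw [← Ideal.Quotient.eq_zero_iff_mem, map_sub, map_pow, map_one, h2, sub_self]

/-- a generator -/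
theorem Sit.gen (h : Sit q P V) : ∃ g : OO A B, g ∉ P ∧ ∀ n : ℕ, g ^ n - 1 ∈ P → q - 1 ∣ n := by
  have hcard := h.card
  have hq2 := h.q2
  have hfin : Finite (OO A B ⧸ P) := Nat.finite_of_card_ne_zero (by rw [hcard]; omega)
  have hprime := h.prime
  have hdom : IsDomain (OO A B ⧸ P) := Ideal.Quotient.isDomain P
  have : Fintype (OO A B ⧸ P) := Fintype.ofFinite _
  have hf := Finite.isField_of_domain (OO A B ⧸ P)
  letI := hf.toField
  obtain ⟨u, hu⟩ := IsCyclic.exists_generator (α := (OO A B ⧸ P)ˣ)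
  obtain ⟨g, hg⟩ := Ideal.Quotient.mk_surjective (I := P) (u : OO A B ⧸ P)
  refine ⟨g, ?_, ?_⟩
  · intro hgP
    have h1 := Ideal.Quotient.eq_zero_iff_mem.2 hgP
    rw [hg] at h1
    exact u.ne_zero h1
  · intro n hn
    have h1 := Ideal.Quotient.eq_zero_iff_mem.2 hn
    rw [map_sub, map_pow, map_one, hg, sub_eq_zero] at h1
    have h2 : u ^ n = 1 := by
      apply Units.ext
      rw [Units.val_pow_eq_pow_val, h1, Units.val_one]
    have h3 : orderOf u = q - 1 := by
      rw [orderOf_eq_card_of_forall_mem_zpowers hu, Nat.card_units, hcard]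
    rw [← h3]
    exact orderOf_dvd_of_pow_eq_one h2

/-- existence of the root of unity -/
theorem Sit.exi (h : Sit q P V) (x : OO A B) (hx : x ∉ P) :
    ∃ ζ : ℂ, ζ ^ (q - 1) = 1 ∧ V.valuation (ζ - emb x) < 1 := by
  classical
  have hq2 := h.q2
  have hq1 : 0 < q - 1 := by omega
  have h1 := (h.vlt _).2 (h.fermat x hx)
  rw [emb_sub h.cq, emb_pow h.cq, emb_one h.cq, ← TWB.TEI.prod_roots (q - 1) hq1 (emb x),
    map_prod] at h1
  by_contra hcon
  push Not at hcon
  have h4 : ∀ ζ ∈ Polynomial.nthRootsFinset (q - 1) (1 : ℂ), 1 ≤ V.valuation (emb x - ζ) := by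
    intro ζ hζ
    rw [Polynomial.mem_nthRootsFinset hq1] at hζ
    rw [← Valuation.map_sub_swap]
    exact hcon ζ hζ
  have h5 : 1 ≤ ∏ ζ ∈ Polynomial.nthRootsFinset (q - 1) (1 : ℂ), V.valuation (emb x - ζ) :=
    Finset.one_le_prod' h4
  exact absurd h1 (not_lt.2 h5)

/-- the Teichmüller character -/
theorem Sit.tei (h : Sit q P V) : ∃ w : OO A B → ℂ, w 1 = 1 ∧ (∀ x y, w (x * y) = w x * w y) ∧
    (∀ x y, x - y ∈ P → w x = w y) ∧ (∀ x, w x = 0 ↔ x ∈ P) ∧ (∀ x, x ∉ P → w x ^ (q - 1) = 1) ∧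
    ∀ x, V.valuation (w x - emb x) < 1 := by
  classical
  have hq2 := h.q2
  have hq1 : 0 < q - 1 := by omega
  have hprime := h.prime
  let w : OO A B → ℂ := fun x => if hx : x ∈ P then 0 else (h.exi x hx).choose
  have hw0 : ∀ x ∈ P, w x = 0 := fun x hx => dif_pos hx
  have hw1 : ∀ x ∉ P, w x ^ (q - 1) = 1 ∧ V.valuation (w x - emb x) < 1 := by
    intro x hx
    have h1 : w x = (h.exi x hx).choose := dif_neg hx
    rw [h1]
    exact (h.exi x hx).choose_spec
  have hwu : ∀ x ∉ P, ∀ ζ : ℂ, ζ ^ (q - 1) = 1 → V.valuation (ζ - emb x) < 1 → w x = ζ := by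
    intro x hx ζ h1 h2
    refine uniq V (q - 1) hq1 h.vq _ _ (hw1 x hx).1 h1 ?_
    have h3 : w x - ζ = (w x - emb x) - (ζ - emb x) := by ring
    rw [h3]
    exact lt_of_le_of_lt (V.valuation.map_sub _ _) (max_lt (hw1 x hx).2 h2)
  have h1P : (1 : OO A B) ∉ P := fun h1 => hprime.ne_top ((Ideal.eq_top_iff_one _).2 h1)
  have hne0 : ∀ x ∉ P, w x ≠ 0 := by
    intro x hx h0
    have := (hw1 x hx).1
    rw [h0, zero_pow hq1.ne'] at this
    exact zero_ne_one this
  refine ⟨w, ?_, ?_, ?_, ?_, ?_, ?_⟩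
  · refine hwu 1 h1P 1 (one_pow _) ?_
    rw [emb_one h.cq, sub_self, map_zero]
    exact zero_lt_one
  · intro x y
    by_cases hx : x ∈ P
    · rw [hw0 x hx, hw0 _ (P.mul_mem_right y hx), zero_mul]
    by_cases hy : y ∈ P
    · rw [hw0 y hy, hw0 _ (P.mul_mem_left x hy), mul_zero]
    have hxy : x * y ∉ P := fun h1 => (hprime.mem_or_mem h1).elim hx hy
    refine hwu _ hxy _ ?_ ?_
    · rw [mul_pow, (hw1 x hx).1, (hw1 y hy).1, one_mul]
    · have h3 : w x * w y - emb (x * y) = (w x - emb x) * w y + emb x * (w y - emb y) := by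
        rw [emb_mul h.cq]; ring
      rw [h3]
      refine lt_of_le_of_lt (V.valuation.map_add _ _) (max_lt ?_ ?_)
      · rw [map_mul, MUXHY.Val.root_one V (q - 1) (w y) hq1.ne' (hw1 y hy).1, mul_one]
        exact (hw1 x hx).2
      · exact MUXHY.Val.mul_lt (h.vle x) (hw1 y hy).2
  · intro x y hxy
    by_cases hx : x ∈ P
    · have hy : y ∈ P := by
        have := P.sub_mem hx hxy
        rwa [sub_sub_cancel] at this
      rw [hw0 x hx, hw0 y hy]
    · have hy : y ∉ P := by
        intro hy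
        have := P.add_mem hxy hy
        rw [sub_add_cancel] at this
        exact hx this
      refine hwu x hx (w y) (hw1 y hy).1 ?_
      have h3 : w y - emb x = (w y - emb y) - emb (x - y) := by
        rw [emb_sub h.cq]; ring
      rw [h3]
      exact lt_of_le_of_lt (V.valuation.map_sub _ _) (max_lt (hw1 y hy).2 ((h.vlt _).2 hxy))
  · intro x
    refine ⟨fun h1 => ?_, hw0 x⟩
    by_contra hx
    exact hne0 x hx h1
  · intro x hx
    exact (hw1 x hx).1
  · intro x
    by_cases hx : x ∈ P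
    · rw [hw0 x hx, zero_sub, Valuation.map_neg]
      exact (h.vlt x).2 hx
    · exact (hw1 x hx).2

/-- representatives exist -/
theorem Sit.rep (h : Sit q P V) : ∃ T : Finset (OO A B), RepI P T := by
  classical
  have hcard := h.card
  have hq2 := h.q2
  have hfin : Finite (OO A B ⧸ P) := Nat.finite_of_card_ne_zero (by rw [hcard]; omega)
  have : Fintype (OO A B ⧸ P) := Fintype.ofFinite _
  have hout : ∀ y : OO A B ⧸ P, Ideal.Quotient.mk P (Quotient.out y) = y := fun y =>
    Ideal.Quotient.mk_out y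
  refine ⟨(Finset.univ.filter fun y : OO A B ⧸ P => y ≠ 0).image Quotient.out, ?_, ?_, ?_⟩
  · intro x hx hxP
    obtain ⟨y, hy, rfl⟩ := Finset.mem_image.1 hx
    rw [Finset.mem_filter] at hy
    apply hy.2
    rw [← hout y]
    exact Ideal.Quotient.eq_zero_iff_mem.2 hxP
  · intro x hx y hy hxy
    obtain ⟨x', hx', rfl⟩ := Finset.mem_image.1 hx
    obtain ⟨y', hy', rfl⟩ := Finset.mem_image.1 hy
    have h1 := (Ideal.Quotient.eq (I := P)).2 hxy
    rw [hout, hout] at h1
    rw [h1]
  · intro x hx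
    refine ⟨Quotient.out (Ideal.Quotient.mk P x), ?_, ?_⟩
    · refine Finset.mem_image.2 ⟨_, ?_, rfl⟩
      rw [Finset.mem_filter]
      refine ⟨Finset.mem_univ _, ?_⟩
      rwa [Ne, Ideal.Quotient.eq_zero_iff_mem]
    · rw [← Ideal.Quotient.eq, hout]

/-- the number of representatives -/
theorem Sit.cardT (h : Sit q P V) (T : Finset (OO A B)) (hT : RepI P T) : T.card = q - 1 := by
  classical
  have hcard := h.card
  have hq2 := h.q2
  have hfin : Finite (OO A B ⧸ P) := Nat.finite_of_card_ne_zero (by rw [hcard]; omega)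
  have : Fintype (OO A B ⧸ P) := Fintype.ofFinite _
  have h1 : T.image (Ideal.Quotient.mk P) = Finset.univ.erase 0 := by
    ext y
    rw [Finset.mem_image, Finset.mem_erase]
    constructor
    · rintro ⟨x, hx, rfl⟩
      refine ⟨?_, Finset.mem_univ _⟩
      rw [Ne, Ideal.Quotient.eq_zero_iff_mem]
      exact hT.nz x hx
    · rintro ⟨hy, -⟩
      obtain ⟨x, rfl⟩ := Ideal.Quotient.mk_surjective y
      rw [Ne, Ideal.Quotient.eq_zero_iff_mem] at hy
      obtain ⟨z, hz, hxz⟩ := hT.surj x hy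
      exact ⟨z, hz, ((Ideal.Quotient.eq (I := P)).2 hxz).symm⟩
  have h2 : (T.image (Ideal.Quotient.mk P)).card = T.card := by
    apply Finset.card_image_of_injOn
    intro x hx y hy hxy
    exact hT.inj x hx y hy ((Ideal.Quotient.eq (I := P)).1 hxy)
  rw [← h2, h1, Finset.card_erase_of_mem (Finset.mem_univ _), Finset.card_univ,
    ← Nat.card_eq_fintype_card, hcard]

/-- multiplication by `y ∉ P` permutes the representatives -/
theorem Sit.perm (h : Sit q P V) (T : Finset (OO A B)) (hT : RepI P T) {M : Type}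
    [AddCommMonoid M] (F : OO A B → M) (hF : ∀ x x', x - x' ∈ P → F x = F x') (y : OO A B)
    (hy : y ∉ P) : ∑ x ∈ T, F (y * x) = ∑ x ∈ T, F x := by
  classical
  have hprime := h.prime
  have hnz : ∀ x ∈ T, y * x ∉ P := fun x hx h1 =>
    (hprime.mem_or_mem h1).elim hy (hT.nz x hx)
  choose! r hr using fun x (hx : x ∈ T) => hT.surj (y * x) (hnz x hx)
  have hmaps : ∀ x ∈ T, r x ∈ T := fun x hx => (hr x hx).1
  have hinj : ∀ x ∈ T, ∀ x' ∈ T, r x = r x' → x = x' := by
    intro x hx x' hx' hxx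
    apply hT.inj x hx x' hx'
    have h1 : y * (x - x') ∈ P := by
      have h2 : y * (x - x') = (y * x - r x) - (y * x' - r x') := by rw [hxx]; ring
      rw [h2]
      exact P.sub_mem (hr x hx).2 (hr x' hx').2
    exact (hprime.mem_or_mem h1).resolve_left hy
  have himg : T.image r = T := by
    apply Finset.eq_of_subset_of_card_le
    · intro z hz
      obtain ⟨x, hx, rfl⟩ := Finset.mem_image.1 hz
      exact hmaps x hx
    · rw [Finset.card_image_of_injOn (fun x hx x' hx' => hinj x hx x' hx')]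
  calc ∑ x ∈ T, F (y * x) = ∑ x ∈ T, F (r x) :=
        Finset.sum_congr rfl fun x hx => hF _ _ (hr x hx).2
    _ = ∑ x ∈ T.image r, F x := by
        rw [Finset.sum_image (fun x hx x' hx' => hinj x hx x' hx')]
    _ = ∑ x ∈ T, F x := by rw [himg]

/-- the power sums -/
theorem Sit.psum (h : Sit q P V) (T : Finset (OO A B)) (hT : RepI P T) (w : OO A B → ℂ)
    (hmul : ∀ x y, w (x * y) = w x * w y) (hper : ∀ x y, x - y ∈ P → w x = w y)
    (hroot : ∀ x, x ∉ P → w x ^ (q - 1) = 1) (hred : ∀ x, V.valuation (w x - emb x) < 1) :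
    (∀ j, 0 < j → j < q - 1 → ∑ x ∈ T, w x ^ j = 0) ∧
    ∑ x ∈ T, w x ^ (q - 1) = ((q - 1 : ℕ) : ℂ) := by
  have hq2 := h.q2
  constructor
  · intro j hj0 hj1
    obtain ⟨g, hg, hgn⟩ := h.gen
    have h1 := h.perm T hT (fun x => w x ^ j) (fun x x' hx => by simp only [hper x x' hx]) g hg
    have h2 : ∑ x ∈ T, w (g * x) ^ j = w g ^ j * ∑ x ∈ T, w x ^ j := by
      rw [Finset.mul_sum]
      refine Finset.sum_congr rfl fun x _ => ?_
      rw [hmul, mul_pow]
    rw [h2] at h1
    have h3 : w g ^ j ≠ 1 := by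
      intro h4
      have h5 : g ^ j - 1 ∈ P := by
        rw [← h.vlt, emb_sub h.cq, emb_pow h.cq, emb_one h.cq, ← h4]
        have h6 : emb g ^ j - w g ^ j = -((w g - emb g) *
            ∑ i ∈ Finset.range j, w g ^ i * emb g ^ (j - 1 - i)) := by
          rw [mul_comm, Commute.geom_sum₂_mul (Commute.all _ _)]
          ring
        rw [h6, Valuation.map_neg, map_mul]
        refine mul_lt_one_of_lt_of_le (hred g) ?_
        refine V.valuation.map_sum_le fun i _ => ?_
        rw [map_mul, map_pow, map_pow,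
          MUXHY.Val.root_one V (q - 1) (w g) (by omega) (hroot g hg), one_pow, one_mul]
        exact pow_le_one' (h.vle g) _
      have := Nat.le_of_dvd hj0 (hgn j h5)
      omega
    have h4 : (w g ^ j - 1) * ∑ x ∈ T, w x ^ j = 0 := by
      linear_combination h1
    exact (mul_eq_zero.1 h4).resolve_left (sub_ne_zero.2 h3)
  · rw [Finset.sum_congr rfl fun x hx => hroot x (hT.nz x hx), Finset.sum_const, h.cardT T hT,
      nsmul_eq_mul, mul_one]

end TEP

/-- the situation for an inert prime -/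
theorem sit {p : ℕ} {A B : ℤ} {P : Ideal (OO A B)} {V : ValuationSubring ℂ} (hcq : CQ A B)
    (hp : p.Prime) (hp2 : 2 < p) (eP : P = idl (A := A) (B := B) p) (hP : P.IsPrime)
    (hV : OverI V P) : TEP.Sit (p ^ 2) P V := by
  have hp0 : (p : OO A B) ≠ 0 := by
    intro h0
    have h1 := congrArg emb h0
    rw [emb_natCast hcq, emb_zero hcq] at h1
    exact hp.ne_zero (by exact_mod_cast h1)
  have hvp : V.valuation (p : ℂ) < 1 := by
    have h1 := (hV ((p : ℕ) : OO A B)).2 (by
      rw [eP]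
      exact Ideal.mem_span_singleton_self _)
    rw [ValuationSubring.mem_nonunits_iff, emb_natCast hcq] at h1
    exact h1
  refine ⟨hcq, hP, hV, ?_, ?_, ?_⟩
  · have hQ := MUXHY.toCQ hcq
    have h2 := ((MUXF.xf_NIM A B hQ).2.1 ((p : ℕ) : OO A B)).resolve_right hp0
    have h3 : nm ((p : ℕ) : OO A B) = (p : ℤ) ^ 2 := by
      unfold nm
      rw [QuadraticAlgebra.re_natCast, QuadraticAlgebra.im_natCast]
      ring
    rw [h3] at h2
    rw [eP]
    have h4 : ((p : ℤ) ^ 2).natAbs = p ^ 2 := by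
      rw [Int.natAbs_pow, Int.natAbs_natCast]
    rw [h4] at h2
    exact h2
  · nlinarith [hp.two_le]
  · have h1 := MUXHY.Val.int_one hp hvp ((p : ℤ) ^ 2 - 1) (by
      intro hd
      have h2 : (p : ℤ) ∣ 1 := by
        have h3 : (1 : ℤ) = (p : ℤ) ^ 2 - ((p : ℤ) ^ 2 - 1) := by ring
        rw [h3]
        exact dvd_sub (dvd_pow_self _ two_ne_zero) hd
      have := Int.le_of_dvd one_pos h2
      omega)
    have h2 : (((p ^ 2 - 1 : ℕ) : ℤ)) = (p : ℤ) ^ 2 - 1 := by
      rw [Nat.cast_sub (Nat.one_le_pow _ _ hp.pos)]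
      push_cast
      ring
    rw [← h2, Int.cast_natCast] at h1
    exact h1

/-- the Teichmüller character of an inert prime exists -/
theorem t_TEI2 (p : ℕ) (A B : ℤ) (P : Ideal (OO A B)) (V : ValuationSubring ℂ) (hcq : CQ A B)
    (hp : p.Prime) (hp2 : 2 < p) (eP : P = idl (A := A) (B := B) p) (hP : P.IsPrime)
    (hV : OverI V P) : ∃ w : OO A B → ℂ, TeiI p P V w := by
  obtain ⟨w, h1, h2, h3, h4, h5, h6⟩ := (sit hcq hp hp2 eP hP hV).tei
  exact ⟨w, h1, h2, h3, h4, h5, h6⟩

/-- (TEP) facts on the residue field of an inert prime. -/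
def S_TEP : Prop :=
  ∀ (p : ℕ) (A B : ℤ) (P : Ideal (OO A B)) (V : ValuationSubring ℂ) (f : ℕ), SetI p A B P V f →
    Nat.card (OO A B ⧸ P) = p ^ 2 ∧ V.valuation ((p ^ 2 - 1 : ℕ) : ℂ) = 1 ∧
    (∀ x : OO A B, V.valuation (emb x) ≤ 1 ∧ (V.valuation (emb x) < 1 ↔ x ∈ P) ∧
      (V.valuation (emb x) = 1 ↔ x ∉ P)) ∧
    (∀ x : OO A B, x ∉ P → x ^ (p ^ 2 - 1) - 1 ∈ P) ∧
    (∃ T : Finset (OO A B), RepI P T) ∧ (∃ w : OO A B → ℂ, TeiI p P V w) ∧
    (∀ N : ℕ, 1 < N → N < p ^ 2 → ∃ α : OO A B, α ∉ P ∧ Odd (nm α) ∧ ¬ (3 : ℤ) ∣ nm α ∧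
      V.valuation (emb α ^ N - emb α) = 1) ∧
    (∀ T : Finset (OO A B), RepI P T → T.card = p ^ 2 - 1 ∧
      (∀ (F : OO A B → ℂ), (∀ x x', x - x' ∈ P → F x = F x') → ∀ y, y ∉ P →
        ∑ x ∈ T, F (y * x) = ∑ x ∈ T, F x) ∧
      ∀ w : OO A B → ℂ, TeiI p P V w → (∀ j, 0 < j → j < p ^ 2 - 1 → ∑ x ∈ T, w x ^ j = 0) ∧
        ∑ x ∈ T, w x ^ (p ^ 2 - 1) = ((p ^ 2 - 1 : ℕ) : ℂ)) ∧
    ∀ w : OO A B → ℂ, TeiI p P V w → w (-1) = -1 ∧ (∀ x ∉ P, V.valuation (w x) = 1) ∧
      (∀ x, V.valuation (w x) ≤ 1) ∧ ∀ x, V.valuation (w x - emb x) ≤ V.valuation (p : ℂ)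

open TEP in
theorem t_TEP : S_TEP := by
  intro p A B P V f hS
  classical
  have hp := hS.pp
  have hp5 := hS.p5
  have hcq := hS.cq
  have hs := sit hS.cq hS.pp (by omega) hS.eP hS.hP hS.hV
  have hprime := hS.hP
  have hq2 := hs.q2
  have hpP : ((p : ℕ) : OO A B) ∈ P := by
    rw [hS.eP]
    exact Ideal.mem_span_singleton_self _
  have hvp : V.valuation (p : ℂ) < 1 := by
    have h1 := (hs.vlt ((p : ℕ) : OO A B)).2 hpP
    rwa [emb_natCast hcq] at h1
  have hvdiv : ∀ x ∈ P, V.valuation (emb x) ≤ V.valuation (p : ℂ) := by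
    intro x hx
    rw [hS.eP] at hx
    obtain ⟨y, rfl⟩ := Ideal.mem_span_singleton.1 hx
    rw [emb_mul hcq, emb_natCast hcq, map_mul]
    exact mul_le_of_le_one_right' (hs.vle y)
  refine ⟨hs.card, hs.vq, fun x => ⟨hs.vle x, hs.vlt x, hs.v1 x⟩, hs.fermat, hs.rep, ?_, ?_,
    fun T hT => ⟨hs.cardT T hT, fun F hF y hy => hs.perm T hT F hF y hy, fun w hw =>
      hs.psum T hT w hw.mul hw.per hw.root hw.red⟩, ?_⟩
  · exact t_TEI2 p A B P V hcq hp (by omega) hS.eP hS.hP hS.hV
  · intro N hN1 hN2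
    obtain ⟨g, hg, hgn⟩ := hs.gen
    -- `α ≡ g` modulo `p`, `α ≡ 1` modulo `6`
    have hcop : IsCoprime (p : ℤ) (6 : ℤ) := by
      have h1 : Nat.Coprime p 6 := by
        rw [Nat.Prime.coprime_iff_not_dvd hp]
        intro hd
        have h2 : p ∣ 2 * 3 := hd
        rcases (hp.dvd_mul).1 h2 with h3 | h3
        · have := Nat.le_of_dvd (by norm_num) h3
          omega
        · have := Nat.le_of_dvd (by norm_num) h3
          omega
      exact_mod_cast Nat.isCoprime_iff_coprime.2 h1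
    obtain ⟨a, b, hab⟩ := hcop
    have hab' : (a : OO A B) * (p : OO A B) + (b : OO A B) * 6 = 1 := by
      have := congrArg (fun z : ℤ => (z : OO A B)) hab
      push_cast at this
      exact this
    obtain ⟨α, hα⟩ : ∃ α : OO A B, α = (b : OO A B) * 6 * g + (a : OO A B) * (p : OO A B) := ⟨_, rfl⟩
    have hα1 : α - g ∈ P := by
      have h1 : α - g = (p : OO A B) * ((a : OO A B) * (1 - g)) := by
        rw [hα]
        linear_combination g * hab'
      rw [h1]
      exact P.mul_mem_right _ hpP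
    have hαP : α ∉ P := by
      intro h1
      apply hg
      have := P.sub_mem h1 hα1
      rwa [sub_sub_cancel] at this
    obtain ⟨γ, hγ⟩ : ∃ γ : OO A B, α = 1 + 6 * γ := by
      refine ⟨(b : OO A B) * (g - 1), ?_⟩
      rw [hα]
      linear_combination hab'
    have hnm : ∃ k : ℤ, nm α = 1 + 6 * k := by
      refine ⟨2 * γ.re + B * γ.im + 6 * nm γ, ?_⟩
      have h1 : α.re = 1 + 6 * γ.re := by
        rw [hγ]
        simp [QuadraticAlgebra.re_mul, QuadraticAlgebra.re_ofNat, QuadraticAlgebra.im_ofNat,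
          QuadraticAlgebra.re_one]
      have h2 : α.im = 6 * γ.im := by
        rw [hγ]
        simp [QuadraticAlgebra.im_mul, QuadraticAlgebra.re_ofNat, QuadraticAlgebra.im_ofNat,
          QuadraticAlgebra.im_one]
      unfold nm
      rw [h1, h2]
      ring
    obtain ⟨k, hk⟩ := hnm
    refine ⟨α, hαP, ?_, ?_, ?_⟩
    · rw [hk]
      exact ⟨3 * k, by ring⟩
    · rw [hk]
      intro hd
      omega
    · have h1 : emb α ^ N - emb α = emb (α * (α ^ (N - 1) - 1)) := by
        rw [emb_mul hcq, emb_sub hcq, emb_pow hcq, emb_one hcq]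
        obtain ⟨M, rfl⟩ : ∃ M, N = M + 1 := ⟨N - 1, by omega⟩
        rw [Nat.add_sub_cancel, pow_succ]
        ring
      rw [h1, hs.v1]
      intro h2
      have h3 := (hprime.mem_or_mem h2).resolve_left hαP
      have h4 : g ^ (N - 1) - 1 ∈ P := by
        have h5 : g ^ (N - 1) - 1 = (α ^ (N - 1) - 1) - (α ^ (N - 1) - g ^ (N - 1)) := by ring
        rw [h5]
        refine P.sub_mem h3 ?_
        obtain ⟨c, hc⟩ := sub_dvd_pow_sub_pow α g (N - 1)
        rw [hc]
        exact P.mul_mem_right _ hα1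
      have := Nat.le_of_dvd (by omega) (hgn _ h4)
      omega
  · intro w hw
    have hq1 : p ^ 2 - 1 ≠ 0 := by omega
    have hv1 : ∀ x ∉ P, V.valuation (w x) = 1 := fun x hx =>
      MUXHY.Val.root_one V (p ^ 2 - 1) (w x) hq1 (hw.root x hx)
    have hvle : ∀ x, V.valuation (w x) ≤ 1 := by
      intro x
      by_cases hx : x ∈ P
      · rw [(hw.zero x).2 hx, map_zero]
        exact zero_le_one
      · exact (hv1 x hx).le
    refine ⟨?_, hv1, hvle, ?_⟩
    · have h1P : (-1 : OO A B) ∉ P := by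
        intro h1
        have := P.neg_mem h1
        rw [neg_neg] at this
        exact hprime.ne_top ((Ideal.eq_top_iff_one _).2 this)
      refine uniq V (p ^ 2 - 1) (by omega) hs.vq _ _ (hw.root _ h1P) ?_ ?_
      · have hodd : Odd p := hp.odd_of_ne_two (by omega)
        obtain ⟨k, hk⟩ := hodd.pow (n := 2)
        have : p ^ 2 - 1 = 2 * k := by omega
        rw [this, pow_mul]
        simp
      · have := hw.red (-1)
        rwa [emb_neg hcq, emb_one hcq] at this
    · intro x
      by_cases hx : x ∈ P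
      · rw [(hw.zero x).2 hx, zero_sub, Valuation.map_neg]
        exact hvdiv x hx
      · obtain ⟨n, hn⟩ : ∃ n, n = p ^ 2 - 1 := ⟨_, rfl⟩
        have h1 : (w x - emb x) * ∑ i ∈ Finset.range n, w x ^ i * emb x ^ (n - 1 - i) =
            1 - emb x ^ n := by
          rw [mul_comm, Commute.geom_sum₂_mul (Commute.all _ _), hn, hw.root x hx]
        have h2 : V.valuation (1 - emb x ^ n) ≤ V.valuation (p : ℂ) := by
          have h3 := hvdiv _ (hs.fermat x hx)
          rw [emb_sub hcq, emb_pow hcq, emb_one hcq, Valuation.map_sub_swap, ← hn] at h3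
          exact h3
        have h3 : V.valuation (∑ i ∈ Finset.range n, w x ^ i * emb x ^ (n - 1 - i)) = 1 := by
          have h4 : ∑ i ∈ Finset.range n, w x ^ i * emb x ^ (n - 1 - i) =
              (n : ℂ) * w x ^ (n - 1) + ∑ i ∈ Finset.range n,
                w x ^ i * (emb x ^ (n - 1 - i) - w x ^ (n - 1 - i)) := by
            have h5 : (n : ℂ) * w x ^ (n - 1) =
                ∑ i ∈ Finset.range n, w x ^ i * w x ^ (n - 1 - i) := by
              rw [Finset.sum_congr rfl (g := fun _ => w x ^ (n - 1)), Finset.sum_const,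
                Finset.card_range, nsmul_eq_mul]
              intro i hi
              rw [← pow_add]
              congr 1
              have := Finset.mem_range.1 hi
              omega
            rw [h5, ← Finset.sum_add_distrib]
            refine Finset.sum_congr rfl fun i _ => ?_
            ring
          have h6 : V.valuation ((n : ℂ) * w x ^ (n - 1)) = 1 := by
            rw [map_mul, map_pow, hv1 x hx, one_pow, mul_one, hn]
            exact hs.vq
          have h7 : V.valuation (∑ i ∈ Finset.range n,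
              w x ^ i * (emb x ^ (n - 1 - i) - w x ^ (n - 1 - i))) < 1 := by
            refine V.valuation.map_sum_lt one_ne_zero fun i _ => ?_
            rw [map_mul, map_pow, hv1 x hx, one_pow, one_mul]
            have h8 : emb x ^ (n - 1 - i) - w x ^ (n - 1 - i) = -((w x - emb x) *
                ∑ j ∈ Finset.range (n - 1 - i), w x ^ j * emb x ^ (n - 1 - i - 1 - j)) := by
              rw [mul_comm, Commute.geom_sum₂_mul (Commute.all _ _)]
              ring
            rw [h8, Valuation.map_neg, map_mul]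
            refine mul_lt_one_of_lt_of_le (hw.red x) ?_
            refine V.valuation.map_sum_le fun j _ => ?_
            rw [map_mul, map_pow, map_pow, hv1 x hx, one_pow, one_mul]
            exact pow_le_one' (hs.vle x) _
          rw [h4, Valuation.map_add_eq_of_lt_left _ (by rw [h6]; exact h7), h6]
        have h4 := congrArg V.valuation h1
        rw [map_mul, h3, mul_one] at h4
        rw [h4]
        exact h2

end

end Pool.Agent.TWI
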