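import Pool.Agent.TWI.StI1
import Pool.Agent.TWI.TEP
import Pool.Agent.MUX.RQ0
import Pool.Agent.MUX.XLib
import Pool.Agent.TWT.FOI

/-!
# TWI, block A, module KRI (helper97): the points of order `p` are in the kernel of reduction
-/

set_option autoImplicit false

open WeierstrassCurve PowerSeries

namespace Pool.Agent.TWI

open _root_.MU3 Pool.Agent.MU3A Pool.Agent.MU3B Pool.Agent.MUX Pool.Agent.MUXU Pool.Agent.TWT
open Pool.Agent.MUXV (GR InK tX HalfI)

noncomputable section

namespace KRI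

variable {p : ℕ} {A B : ℤ} {P : Ideal (OO A B)} {V : ValuationSubring ℂ} {f : ℕ}

theorem P_ne (h : SetI p A B P V f) : P ≠ ⊥ := by
  intro h0
  have h1 : ((p : ℕ) : OO A B) ∈ P := by
    rw [h.eP]
    exact Ideal.mem_span_singleton_self _
  rw [h0, Ideal.mem_bot] at h1
  exact Pool.Agent.MUX.natCast_ne_zero' h.cq h.pp.ne_zero h1

theorem ex_rep (h : SetI p A B P V f) : ∃ T : Finset (OO A B), RepI P T := by
  classical
  have hfin : Finite (OO A B ⧸ P) := Pool.Agent.MUX.finite_quot h.cq (P_ne h)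
  have := Fintype.ofFinite (OO A B ⧸ P)
  have hs : Function.Surjective (Ideal.Quotient.mk P) := Ideal.Quotient.mk_surjective
  refine ⟨(Finset.univ.filter fun c : OO A B ⧸ P => c ≠ 0).image (Function.surjInv hs), ?_, ?_, ?_⟩
  · intro x hx hxP
    obtain ⟨c, hc, rfl⟩ := Finset.mem_image.1 hx
    have h1 : Ideal.Quotient.mk P (Function.surjInv hs c) = c := Function.surjInv_eq hs c
    rw [Ideal.Quotient.eq_zero_iff_mem.2 hxP] at h1
    exact (Finset.mem_filter.1 hc).2 h1.symm
  · intro x hx y hy hxy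
    obtain ⟨c, hc, rfl⟩ := Finset.mem_image.1 hx
    obtain ⟨d, hd, rfl⟩ := Finset.mem_image.1 hy
    have h1 := Ideal.Quotient.eq.2 hxy
    rw [Function.surjInv_eq hs c, Function.surjInv_eq hs d] at h1
    rw [h1]
  · intro x hx
    refine ⟨Function.surjInv hs (Ideal.Quotient.mk P x), ?_, ?_⟩
    · refine Finset.mem_image.2 ⟨_, Finset.mem_filter.2 ⟨Finset.mem_univ _, ?_⟩, rfl⟩
      intro h1
      exact hx (Ideal.Quotient.eq_zero_iff_mem.1 h1)
    · refine Ideal.Quotient.eq.1 ?_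
      rw [Function.surjInv_eq hs]

theorem quo (h : SetI p A B P V f) {x0 x : OO A B} (h0 : x0 ∉ P) :
    ∃ y, y * x0 - x ∈ P := by
  have hfin : Finite (OO A B ⧸ P) := Pool.Agent.MUX.finite_quot h.cq (P_ne h)
  have := h.hP
  have hd : IsDomain (OO A B ⧸ P) := inferInstance
  have hx0 : Ideal.Quotient.mk P x0 ≠ 0 := fun h1 => h0 (Ideal.Quotient.eq_zero_iff_mem.1 h1)
  have hi : Function.Injective fun c : OO A B ⧸ P => c * Ideal.Quotient.mk P x0 :=
    mul_left_injective₀ hx0
  obtain ⟨c, hc⟩ := (Finite.injective_iff_surjective.1 hi) (Ideal.Quotient.mk P x)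
  obtain ⟨y, rfl⟩ := Ideal.Quotient.mk_surjective c
  refine ⟨y, Ideal.Quotient.eq.1 ?_⟩
  rw [map_mul]
  exact hc

end KRI

open KRI in
theorem i_KRI (hR2 : S_R2I) (hR4 : S_R4I) (hG : S_GRI) (hP : S_PTI) (hM : S_MLI) : S_KRI := by
  classical
  intro p A B P V f h ι R hR i x hx
  obtain ⟨g1, hvp, hint, hemb, -⟩ := hG p A B P V f h ι R hR
  obtain ⟨a2, a4, hGa⟩ := g1 i
  obtain ⟨W, ξ, G, -, -⟩ := id hGa
  obtain ⟨p1, p2, p3, p4, p5, -, p7⟩ := hP p A B P V f h ι R i
  set L := R.L i with hLdef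
  have hp0 : (p : ℂ) ≠ 0 := Nat.cast_ne_zero.2 h.pp.ne_zero
  have hpo : Odd p := h.pp.odd_of_ne_two (by have := h.p5; omega)
  have hIs : Isg L L (p : ℂ) := by
    intro w hw
    have h1 := L.lattice.smul_mem (p : ℤ) hw
    rw [zsmul_eq_mul] at h1
    exact_mod_cast h1
  -- no points of order two
  have hno : ∀ z, (p : ℂ) * z ∈ L.lattice → 2 * z ∈ L.lattice → z ∈ L.lattice := by
    intro z h1 h2
    obtain ⟨m, hm⟩ := hpo
    have h3 : ((m : ℕ) : ℂ) * (2 * z) ∈ L.lattice := by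
      have h4 := L.lattice.smul_mem (m : ℤ) h2
      rw [zsmul_eq_mul] at h4
      exact_mod_cast h4
    have h4 : z = (p : ℂ) * z - ((m : ℕ) : ℂ) * (2 * z) := by
      rw [hm]
      push_cast
      ring
    rw [h4]
    exact sub_mem h1 h3
  obtain ⟨H, hH⟩ := Pool.Agent.MUXV.x_HAL L L (p : ℂ) hp0 hIs hno
  obtain ⟨u, hu1, hu2, hu3⟩ := hR2 V L L a2 a4 a2 a4 hGa hGa (p : ℂ) H hp0 hIs hH hvp
  obtain ⟨τ1, τ0, -⟩ := Pool.Agent.MUXV.v_tX_lt G hu3 hu2
  obtain ⟨x0, hx0⟩ := p3 u hu1
  have hx0P : x0 ∉ P := by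
    intro h1
    have h2 := (p1 x0).2 h1
    apply hu2
    have h3 := add_mem hx0 h2
    rwa [sub_add_cancel] at h3
  -- all points
  have key : ∀ x, x ∉ P → InK V L (xn L) (pt R p i x) ∧ pt R p i x ∉ L.lattice ∧
      V.valuation (tX (xn L) (yy L) (pt R p i x)) = V.valuation (tX (xn L) (yy L) u) := by
    intro x hx
    obtain ⟨y, hy⟩ := quo h (x := x) hx0P
    have hyP : y ∉ P := by
      intro h1
      apply hx
      have h2 := sub_mem (P.mul_mem_right x0 h1) hy
      rwa [sub_sub_cancel] at h2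
    obtain ⟨α, n, hα, hI⟩ := hM p A B P V f h ι R hR y hyP
    have I := hI i
    have hpx : pt R p i x ∉ L.lattice := fun h1 => hx ((p1 x).1 h1)
    have hdif : pt R p i x - emb α * u ∈ L.lattice := by
      have h1 : x - α * x0 ∈ P := by
        have h2 : x - α * x0 = -((α - y) * x0 + (y * x0 - x)) := by ring
        rw [h2]
        exact neg_mem (add_mem (P.mul_mem_right x0 hα) hy)
      have h3 := p4 x (α * x0) h1
      rw [p5] at h3
      have h4 := p7 α _ hx0
      have h5 : pt R p i x - emb α * u =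
          (pt R p i x - emb α * pt R p i x0) - emb α * (u - pt R p i x0) := by ring
      rw [h5]
      exact sub_mem h3 h4
    obtain ⟨f1, f2, f3⟩ := Pool.Agent.TWT.t_FOI V L L (emb α) n ⟨W, ξ, G⟩ ⟨W, ξ, G⟩ I.ne I.sub
      I.odd I.unit I.ker I.vmu u hu3 hu2
    refine ⟨(Pool.Agent.MUXV.inK_congr G (Or.inl hdif)).2 f1, hpx, ?_⟩
    rw [Pool.Agent.MUXV.TRA.tX_congr G hpx f2 hdif]
    have h6 : V.valuation (emb α * tX (xn L) (yy L) u) = V.valuation (tX (xn L) (yy L) u) := by
      rw [map_mul, I.vmu, one_mul]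
    rw [← h6]
    refine Valuation.map_eq_of_sub_lt _ ?_
    rw [h6]
    refine lt_of_le_of_lt f3 ?_
    rw [pow_two]
    exact mul_lt_of_lt_one_left (lt_of_le_of_ne zero_le (Ne.symm τ0)) τ1
  -- the number of classes
  obtain ⟨hrep, hdis⟩ := Pool.Agent.MUXV.x_HRE L L (p : ℂ) H hH
  obtain ⟨T, hT⟩ := ex_rep h
  have hTc : T.card = p ^ 2 - 1 :=
    (sit h.cq h.pp (by have := h.p5; omega) h.eP h.hP h.hV).cardT T hT
  have hcard : 2 * H.card + 1 = p ^ 2 := by
    have h1 : (H ∪ H.image (fun q => -q)).card = 2 * H.card := by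
      rw [Finset.card_union_of_disjoint hdis, Finset.card_image_of_injective _ neg_injective]
      ring
    have h2 : (H ∪ H.image (fun q => -q)).card = T.card := by
      symm
      have e1 : ∀ x ∈ T, ∃ q ∈ H ∪ H.image (fun q => -q), pt R p i x - q ∈ L.lattice :=
        fun x hx => hrep.surj _ (p2 x) fun h3 => hT.nz x hx ((p1 x).1 h3)
      choose! g hg1 hg2 using e1
      refine Finset.card_bij (fun x _ => g x) (fun x hx => hg1 x hx) ?_ ?_
      · intro x hx y hy hxy
        refine hT.inj x hx y hy ?_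
        refine (p1 _).1 ?_
        have h3 := sub_mem (hg2 x hx) (hg2 y hy)
        rw [hxy] at h3
        have h4 : pt R p i (x - y) = pt R p i x - g y - (pt R p i y - g y) := by
          unfold pt
          rw [Pool.Agent.MUX.emb_sub h.cq]
          ring
        rw [h4]
        exact h3
      · intro q hq
        obtain ⟨x, hx⟩ := p3 q (hrep.mem q hq)
        have hxP : x ∉ P := by
          intro h3
          apply hrep.ne q hq
          have h4 := add_mem hx ((p1 x).2 h3)
          rwa [sub_add_cancel] at h4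
        obtain ⟨y, hy, hxy⟩ := hT.surj x hxP
        refine ⟨y, hy, ?_⟩
        refine hrep.inj _ (hg1 y hy) _ hq ?_
        have h5 := p4 x y hxy
        have h6 := hg2 y hy
        have h7 : g y - q = -((q - pt R p i x) + (pt R p i x - pt R p i y) +
            (pt R p i y - g y)) := by ring
        rw [h7]
        exact neg_mem (add_mem (add_mem hx h5) h6)
    have h3 : 1 ≤ p ^ 2 := Nat.one_le_pow _ _ h.pp.pos
    omega
  have hall : ∀ u', (p : ℂ) * u' ∈ L.lattice → InK V L (xn L) u' := by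
    intro u' hu'
    obtain ⟨x', hx'⟩ := p3 u' hu'
    by_cases hxP : x' ∈ P
    · left
      have h3 := add_mem hx' ((p1 x').2 hxP)
      rwa [sub_add_cancel] at h3
    · exact (Pool.Agent.MUXV.inK_congr G (Or.inl hx')).2 (key x' hxP).1
  have hprod := hR4 V L L a2 a4 a2 a4 hGa hGa (p : ℂ) H hp0 hIs hH p 2 h.pp
    (by have := h.p5; omega) hvp hcard hall
  have hq : ∀ q ∈ H, V.valuation (xn L q) * V.valuation (tX (xn L) (yy L) u) ^ 2 = 1 := by
    intro q hq
    have hqL : q ∉ L.lattice := by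
      intro h1
      apply hH.ne q hq
      rw [two_mul]
      exact add_mem h1 h1
    obtain ⟨x', hx'⟩ := p3 q (hH.mem q hq)
    have hxP : x' ∉ P := by
      intro h3
      apply hqL
      have h4 := add_mem hx' ((p1 x').2 h3)
      rwa [sub_add_cancel] at h4
    obtain ⟨k1, k2, k3⟩ := key x' hxP
    rw [← k3, ← Pool.Agent.MUXV.TRA.tX_congr G hqL k2 hx']
    exact (Pool.Agent.MUXV.v_tX_lt G (hall q (hH.mem q hq)) hqL).2.2
  obtain ⟨k1, k2, k3⟩ := key x hx
  refine ⟨k1, k2, ?_⟩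
  rw [k3]
  have h9 : (∏ q ∈ H, V.valuation (xn L q)) * (V.valuation (tX (xn L) (yy L) u) ^ 2) ^ H.card =
      1 := by
    rw [← Finset.prod_const, ← Finset.prod_mul_distrib]
    exact Finset.prod_eq_one hq
  have h10 : p ^ 2 - 1 = 2 * H.card := by omega
  rw [h10, pow_mul]
  calc (V.valuation (tX (xn L) (yy L) u) ^ 2) ^ H.card
      = (V.valuation (p : ℂ) * ∏ q ∈ H, V.valuation (xn L q)) *
        (V.valuation (tX (xn L) (yy L) u) ^ 2) ^ H.card := by rw [hprod, one_mul]
    _ = V.valuation (p : ℂ) * ((∏ q ∈ H, V.valuation (xn L q)) *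
        (V.valuation (tX (xn L) (yy L) u) ^ 2) ^ H.card) := by rw [mul_assoc]
    _ = V.valuation (p : ℂ) := by rw [h9, mul_one]

end

end Pool.Agent.TWI
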