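import Pool.Agent.TWT.EVH
import Pool.Agent.TWT.KYR
import Pool.Agent.TWT.PRD

/-!
# TWI, module KYI (helper34): the product over the roots of unity

`A` a domain of characteristic zero, `ζ_i`, `i ∈ S`, elements with the power sums of the `N`-th roots of
unity: `Σ ζ_i ^ j = 0` for `0 < j < N`, `Σ ζ_i ^ N = N`. `E = 1 + ..`, `Q = ∏_i E(ζ_i X)`,
`G = Σ_i (X E'/E)(ζ_i X)`: `Q = 1 + g X^N + ..`, `G = N g X^N + ..`, so `Q + G = 1 + (N + 1) g X^N + ..`.
-/

set_option autoImplicit false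

open PowerSeries

namespace Pool.Agent.TWI

open Pool.Agent.TWT

/-- (PRI) the product over the roots of unity. -/
def S_PRI : Prop :=
  ∀ (A : Type) [CommRing A] [IsDomain A] [CharZero A] (N : ℕ), 0 < N → ∀ (J : Type) (S : Finset J)
    (ζ : J → A), (∀ j, 0 < j → j < N → ∑ i ∈ S, ζ i ^ j = 0) → ∑ i ∈ S, ζ i ^ N = N →
    ∀ E E' : A⟦X⟧, PowerSeries.constantCoeff E = 1 →
    E * E' = 1 → ∀ Q G : A⟦X⟧, Q = ∏ i ∈ S, PowerSeries.rescale (ζ i) E →
    G = ∑ i ∈ S, PowerSeries.rescale (ζ i) (PowerSeries.X * d⁄dX A E * E') →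
    PowerSeries.coeff 0 Q = 1 ∧ PowerSeries.coeff 0 G = 0 ∧
    (∀ j, 0 < j → j < N → PowerSeries.coeff j Q = 0 ∧ PowerSeries.coeff j G = 0) ∧
    PowerSeries.coeff N G = N * PowerSeries.coeff N Q

namespace PRI

variable {A : Type} [CommRing A]

lemma der_prod (E E' : A⟦X⟧) (hE : E * E' = 1) {J : Type} (s : Finset J) (ζ : J → A) :
    X * d⁄dX A (∏ i ∈ s, rescale (ζ i) E) =
      (∏ i ∈ s, rescale (ζ i) E) * ∑ i ∈ s, rescale (ζ i) (X * d⁄dX A E * E') := by
  classical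
  induction s using Finset.induction_on with
  | empty => simp
  | insert a s ha ih =>
    rw [Finset.prod_insert ha, Finset.sum_insert ha, Derivation.leibniz, smul_eq_mul, smul_eq_mul,
      mul_add]
    have h1 : X * ((rescale (ζ a) E) * d⁄dX A (∏ i ∈ s, rescale (ζ i) E)) =
        (rescale (ζ a) E) * (X * d⁄dX A (∏ i ∈ s, rescale (ζ i) E)) := by ring
    have h2 : X * ((∏ i ∈ s, rescale (ζ i) E) * d⁄dX A (rescale (ζ a) E)) =
        (∏ i ∈ s, rescale (ζ i) E) * (X * d⁄dX A (rescale (ζ a) E)) := by ring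
    have h3 : rescale (ζ a) E * rescale (ζ a) E' = 1 := by
      rw [← map_mul, hE, map_one]
    rw [h1, h2, ih, Pool.Agent.TWT.PRD.rescale_X_der, map_mul (rescale (ζ a)) (X * d⁄dX A E) E']
    linear_combination (-(∏ i ∈ s, rescale (ζ i) E) * rescale (ζ a) (X * d⁄dX A E)) * h3

end PRI

open PRI in
theorem t_PRI : S_PRI := by
  intro A _ _ _ N hN J S ζ hζ hζN E E' hE0 hEE Q G hQ hG
  classical
  have hcG : ∀ j, coeff j G = (∑ i ∈ S, ζ i ^ j) * coeff j (X * d⁄dX A E * E') := by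
    intro j
    rw [hG, map_sum, Finset.sum_mul]
    refine Finset.sum_congr rfl fun i _ => ?_
    rw [coeff_rescale]
  have h0G : coeff 0 G = 0 := by
    rw [hcG]
    simp
  have h0Q : coeff 0 Q = 1 := by
    rw [hQ, coeff_zero_eq_constantCoeff, map_prod]
    refine Finset.prod_eq_one fun i _ => ?_
    rw [← coeff_zero_eq_constantCoeff, coeff_rescale, coeff_zero_eq_constantCoeff, hE0]
    simp
  have hGd : ∀ j, 0 < j → j < N → coeff j G = 0 := by
    intro j hj0 hj1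
    rw [hcG, hζ j hj0 hj1, zero_mul]
  have hder : X * d⁄dX A Q = Q * G := by
    rw [hQ, hG]
    exact der_prod E E' hEE S ζ
  -- the coefficients up to `N`
  have key : ∀ j, 0 < j → j ≤ N → (j : A) * coeff j Q = coeff j G := by
    intro j hj0 hj1
    have hc : (j : A) * coeff j Q = coeff j (Q * G) := by
      rw [← hder]
      obtain ⟨i, rfl⟩ : ∃ i, j = i + 1 := ⟨j - 1, by omega⟩
      rw [coeff_succ_X_mul, coeff_derivative]
      push_cast
      ring
    rw [hc, coeff_mul, ← Finset.add_sum_erase (Finset.HasAntidiagonal.antidiagonal j) _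
      (a := ((0, j) : ℕ × ℕ)) (by simp), h0Q, one_mul, Finset.sum_eq_zero, add_zero]
    intro x hx
    rw [Finset.mem_erase, Finset.HasAntidiagonal.mem_antidiagonal] at hx
    obtain ⟨hx1, hx2⟩ := hx
    rcases Nat.eq_zero_or_pos x.2 with h | h
    · rw [h, h0G, mul_zero]
    · rw [hGd x.2 h, mul_zero]
      have : x.1 ≠ 0 := by
        intro h3
        apply hx1
        ext
        · exact h3
        · simp only
          omega
      omega
  refine ⟨h0Q, h0G, fun j hj0 hj1 => ⟨?_, hGd j hj0 hj1⟩, (key N hN le_rfl).symm⟩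
  have h1 := key j hj0 hj1.le
  rw [hGd j hj0 hj1] at h1
  exact (mul_eq_zero.1 h1).resolve_left (by exact_mod_cast hj0.ne')

/-- (KYI) evaluation at `w` modulo an ideal `I` with `w^(N+1) ∈ I`, `(N+1) w^N ∈ I`. `f i = Θ(z + i R)/Θ(z)`, `g i = (Θ'/Θ)(z + i R)`. -/
def S_KYI : Prop :=
  ∀ (A : Type) [CommRing A] [IsDomain A] [CharZero A] (N : ℕ), 0 < N → ∀ (J : Type) (S : Finset J)
    (ζ : J → A), (∀ j, 0 < j → j < N → ∑ i ∈ S, ζ i ^ j = 0) → ∑ i ∈ S, ζ i ^ N = N →
    ∀ (I : Ideal A) (w : A), w ^ (N + 1) ∈ I → ((N : A) + 1) * w ^ N ∈ I →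
    ∀ (e : ℕ → A) (f g : J → A), e 0 = 1 →
    (∀ i ∈ S, f i - ∑ k ∈ Finset.range (N + 1), e k * (ζ i * w) ^ k ∈ I) →
    (∀ i ∈ S, ζ i * w * (g i * f i) - ∑ k ∈ Finset.range (N + 1), k * e k * (ζ i * w) ^ k ∈ I) →
    ∏ i ∈ S, f i - 1 + w * ∑ i ∈ S, ζ i * g i ∈ I ∧
    ∃ r : A, w * ∑ i ∈ S, ζ i * g i - r * w ^ N ∈ I

theorem t_KYI : S_KYI := by
  intro A _ _ _ N hN J S ζ hζ hζN I w hwp hpw e f g he0 hf hg
  set q : A →+* A ⧸ I := Ideal.Quotient.mk I with hq
  have hs : q w ^ (N + 1) = 0 := by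
    rw [← map_pow]
    exact Ideal.Quotient.eq_zero_iff_mem.mpr hwp
  have hps : q ((N : A) + 1) * q w ^ N = 0 := by
    rw [← map_pow, ← map_mul]
    exact Ideal.Quotient.eq_zero_iff_mem.mpr hpw
  obtain ⟨φ, -, -, hφ⟩ := t_EVH A (A ⧸ I) q (q w) (N + 1) hs (by omega)
  set E : A⟦X⟧ := PowerSeries.mk e with hEd
  have hE0 : PowerSeries.constantCoeff E = 1 := by
    rw [hEd, ← PowerSeries.coeff_zero_eq_constantCoeff_apply, PowerSeries.coeff_mk, he0]
  have hU : IsUnit E := by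
    rw [PowerSeries.isUnit_iff_constantCoeff, hE0]
    exact isUnit_one
  obtain ⟨E', hEE⟩ := hU.exists_right_inv
  obtain ⟨hQ0, hG0, hQG, hN1⟩ := t_PRI A N hN J S ζ hζ hζN E E' hE0 hEE _ _ rfl rfl
  set Q : A⟦X⟧ := ∏ i ∈ S, PowerSeries.rescale (ζ i) E with hQd
  set G : A⟦X⟧ := ∑ i ∈ S, PowerSeries.rescale (ζ i) (PowerSeries.X * d⁄dX A E * E') with hGd
  have key : ∀ (c : A) (F : A⟦X⟧), φ (PowerSeries.rescale c F) =
      ∑ k ∈ Finset.range (N + 1), q (PowerSeries.coeff k F) * (q c * q w) ^ k := by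
    intro c F
    rw [hφ]
    refine Finset.sum_congr rfl fun k _ => ?_
    rw [PowerSeries.coeff_rescale, map_mul, map_pow]
    ring
  have h1 : ∀ i ∈ S, φ (PowerSeries.rescale (ζ i) E) = q (f i) := by
    intro i hi
    have h := Ideal.Quotient.eq_zero_iff_mem.mpr (hf i hi)
    rw [map_sub, sub_eq_zero] at h
    rw [key, hq, h, map_sum]
    refine Finset.sum_congr rfl fun k _ => ?_
    rw [hEd, PowerSeries.coeff_mk, map_mul, map_pow, map_mul]
  have h2 : ∀ i ∈ S, φ (PowerSeries.rescale (ζ i) (PowerSeries.X * d⁄dX A E)) =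
      q (ζ i * w * (g i * f i)) := by
    intro i hi
    have h := Ideal.Quotient.eq_zero_iff_mem.mpr (hg i hi)
    rw [map_sub, sub_eq_zero] at h
    rw [key, hq, h, map_sum]
    refine Finset.sum_congr rfl fun k _ => ?_
    rw [Pool.Agent.TWT.KYR.coeff_X_mul_deriv, hEd, PowerSeries.coeff_mk, map_mul, map_mul,
      map_pow, map_mul, map_mul]
  have h3 : ∀ i ∈ S, φ (PowerSeries.rescale (ζ i) (PowerSeries.X * d⁄dX A E * E')) =
      q (w * (ζ i * g i)) := by
    intro i hi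
    have h4 : q (f i) * φ (PowerSeries.rescale (ζ i) E') = 1 := by
      rw [← h1 i hi, ← map_mul, ← map_mul, hEE, map_one, map_one]
    rw [map_mul, map_mul, h2 i hi]
    calc q (ζ i * w * (g i * f i)) * φ (PowerSeries.rescale (ζ i) E')
        = q (w * (ζ i * g i)) * (q (f i) * φ (PowerSeries.rescale (ζ i) E')) := by
          rw [map_mul, map_mul, map_mul, map_mul, map_mul]
          ring
      _ = q (w * (ζ i * g i)) := by rw [h4, mul_one]
  have hφQ : φ Q = q (∏ i ∈ S, f i) := by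
    rw [hQd, map_prod, map_prod]
    exact Finset.prod_congr rfl h1
  have hφG : φ G = q (w * ∑ i ∈ S, ζ i * g i) := by
    rw [hGd, map_sum, Finset.mul_sum, map_sum]
    exact Finset.sum_congr rfl h3
  have hvQ : φ Q = 1 + q (coeff N Q) * q w ^ N := by
    rw [hφ, Finset.sum_range_succ, Finset.sum_eq_single_of_mem 0 (Finset.mem_range.mpr hN)]
    · rw [hQ0, map_one, pow_zero, mul_one]
    · intro k hk hk0
      rw [(hQG k (Nat.pos_of_ne_zero hk0) (Finset.mem_range.mp hk)).1, map_zero, zero_mul]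
  have hvG : φ G = q (coeff N G) * q w ^ N := by
    rw [hφ, Finset.sum_range_succ, Finset.sum_eq_zero, zero_add]
    intro k hk
    rcases Nat.eq_zero_or_pos k with rfl | hk0
    · rw [hG0, map_zero, zero_mul]
    · rw [(hQG k hk0 (Finset.mem_range.mp hk)).2, map_zero, zero_mul]
  constructor
  · rw [← Ideal.Quotient.eq_zero_iff_mem]
    change q _ = 0
    rw [map_add, map_sub, map_one, ← hφQ, ← hφG, hvQ, hvG, hN1]
    have h5 : q ((N : A) + 1) = q (N : A) + 1 := by rw [map_add, map_one]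
    rw [h5] at hps
    rw [map_mul]
    linear_combination q (coeff N Q) * hps
  · refine ⟨coeff N G, ?_⟩
    rw [← Ideal.Quotient.eq_zero_iff_mem]
    change q _ = 0
    rw [map_sub, ← hφG, hvG, map_mul, map_pow, sub_self]

end Pool.Agent.TWI
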