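import Pool.Agent.TWI.StI1
import Pool.Agent.TWI.KYI
import Pool.Agent.TWT.KEY
import Pool.Agent.TWT.THT

/-!
# TWI, module KY1 (helper55): the product of `Θ(z + S x)` to the first order, one lattice
-/

set_option autoImplicit false

open WeierstrassCurve

namespace Pool.Agent.TWI

open _root_.MU3 Pool.Agent.MU3A Pool.Agent.MU3B Pool.Agent.MUX Pool.Agent.MUXU Pool.Agent.TWT
open Pool.Agent.MUXV (GR InK tX)

noncomputable section

namespace KY1

variable {V : ValuationSubring ℂ}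

/-- `x ^ m < 1` gives `x < 1` -/
lemma lt_one_of_pow {x : V.ValueGroup} {m : ℕ} (h : x ^ m < 1) : x < 1 := by
  by_contra hcon
  exact absurd h (not_lt.2 (one_le_pow_of_one_le' (not_lt.1 hcon) m))

end KY1

theorem i_KY1 : S_KY1 := by
  intro V L a2 a4 hGRa p hp hp5 hpV lam hlam J T ζ S hζ hps hpN hTc w0 t0 hw0 ht0p hS
  obtain ⟨W, ξ, G, -, -⟩ := hGRa
  have hpp : 5 * 5 ≤ p ^ 2 := by
    rw [pow_two]
    exact Nat.mul_le_mul hp5 hp5
  obtain ⟨m, hm⟩ : ∃ m, p ^ 2 = m + 1 := ⟨p ^ 2 - 1, by omega⟩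
  have hm1 : 1 ≤ m := by omega
  have hvq : V.valuation ((m + 1 : ℕ) : ℂ) ≤ V.valuation (p : ℂ) := by
    rw [← hm, Nat.cast_pow, map_pow, pow_two]
    exact (mul_le_mul' hpV.le le_rfl).trans_eq (one_mul _)
  have hp0 : (p : ℂ) ≠ 0 := Nat.cast_ne_zero.2 hp.ne_zero
  rw [hm] at hlam
  simp only [hm, Nat.add_sub_cancel, show m + 1 - 2 = m - 1 by omega] at hps hpN hTc ht0p hS ⊢
  have ht1 : V.valuation t0 < 1 := KY1.lt_one_of_pow (by rw [ht0p]; exact hpV)
  have ht0 : V.valuation t0 ≠ 0 := by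
    intro h
    rw [h, zero_pow (by omega)] at ht0p
    exact (Valuation.ne_zero_iff V.valuation).2 hp0 ht0p.symm
  have hwv : V.valuation w0 = V.valuation t0 := by
    have h1 : V.valuation (w0 - t0) < V.valuation t0 := by
      refine hw0.trans_lt ?_
      rw [pow_two]
      exact mul_lt_of_lt_one_left (zero_lt_iff.2 ht0) ht1
    have h2 := Valuation.map_add_eq_of_lt_left V.valuation h1
    rw [add_sub_cancel] at h2
    exact h2
  generalize V.valuation t0 = τ at *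
  intro a H ha1 hav hH z hz haz
  obtain ⟨θ, hθ⟩ := t_THT V W L ξ G a H ha1 hav hH a2 a4
  have hzu : ∀ u : ℂ, InK V L (xn L) u → ¬ InK V L (xn L) (z + u) := by
    intro u hu h
    exact hz ((Pool.Agent.MUXV.inK_congr G (z := z + u) (w := z)
      (by rw [add_sub_cancel_left]; exact hu)).1 h)
  have hazu : ∀ u : ℂ, InK V L (xn L) u → ¬ InK V L (xn L) (a * (z + u)) := by
    intro u hu h
    refine haz ((Pool.Agent.MUXV.inK_congr G (z := a * (z + u)) (w := a * z) ?_).1 h)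
    have e : (a : ℂ) * (z + u) - a * z = (a : ℂ) * u := by ring
    rw [e]
    exact Pool.Agent.MUXV.inK_nat G hu a
  have hT := fun (u : ℂ) (hu : InK V L (xn L) u) => hθ (z + u) (hzu u hu) (hazu u hu)
  obtain ⟨hT0, hTu, -, -⟩ := hθ z hz haz
  refine ⟨fun u hu => ⟨(hT u hu).2.1, (hT u hu).2.2.2⟩, ?_⟩
  generalize hT0d : ThetaH L H z = T0 at hT0 hTu ⊢
  have hT00 : T0 ≠ 0 := by
    intro h
    rw [h, map_zero] at hTu
    exact zero_ne_one hTu
  -- coefficients
  have hAint : ∀ (f : MvPolynomial (Fin 2) V) (k : ℕ), k < m + 1 →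
      V.valuation (dd L a2 a4 f k z) ≤ 1 := fun f k hk => hlam.dint z hz f k hk
  have hcw : ∀ x ∈ T, V.valuation (ζ x * w0) ≤ τ := by
    intro x hx
    rw [map_mul, hwv]
    exact (mul_le_mul' (hζ x hx) le_rfl).trans_eq (one_mul _)
  -- the Taylor expansion with `ζ x w0`
  have tay' : ∀ (f : MvPolynomial (Fin 2) V), ∀ x ∈ T,
      V.valuation (MvPolynomial.aeval ![xn L (z + S x), yy L (z + S x)] f -
        ∑ k ∈ Finset.range (m + 1), dd L a2 a4 f k z * (ζ x * w0) ^ k) ≤ τ ^ (m + 1) := by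
    intro f x hx
    obtain ⟨hK, hL, hτx, hadv⟩ := hS x hx
    have h3 := hlam.tay (S x) hK hL z hz f
    rw [hτx] at h3
    have h5 : V.valuation (vpi lam (m + 1) (tX (xn L) (yy L) (S x))) ≤ 1 := by
      unfold vpi
      apply KEY.sum_le'
      intro j _
      rw [map_mul, map_pow, hτx]
      exact (mul_le_mul' (hlam.int j) (pow_le_one' ht1.le j)).trans_eq (one_mul _)
    have e : MvPolynomial.aeval ![xn L (z + S x), yy L (z + S x)] f -
        ∑ k ∈ Finset.range (m + 1), dd L a2 a4 f k z * (ζ x * w0) ^ k =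
        (MvPolynomial.aeval ![xn L (z + S x), yy L (z + S x)] f -
        ∑ k ∈ Finset.range (m + 1), MvPolynomial.aeval ![xn L z, yy L z] ((dW a2 a4)^[k] f) /
          (k.factorial : ℂ) * vpi lam (m + 1) (tX (xn L) (yy L) (S x)) ^ k) +
        ∑ k ∈ Finset.range (m + 1), dd L a2 a4 f k z *
          (vpi lam (m + 1) (tX (xn L) (yy L) (S x)) ^ k - (ζ x * w0) ^ k) := by
      simp only [dd, mul_sub, Finset.sum_sub_distrib]
      ring
    rw [e]
    apply KEY.add_le' h3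
    apply KEY.sum_le'
    intro k hk
    rw [map_mul]
    refine (mul_le_mul' (hAint _ k (Finset.mem_range.1 hk)) (KEY.pow_close h5 ?_ hadv k)).trans_eq
      (one_mul _)
    exact (hcw x hx).trans ht1.le
  -- elements of `V`
  have hmemV : ∀ x : ℂ, V.valuation x ≤ 1 → x ∈ V := fun x hx =>
    (ValuationSubring.valuation_le_one_iff _ _).1 hx
  classical
  obtain ⟨lift, hlift⟩ : ∃ lift : ℂ → V, ∀ x : ℂ, V.valuation x ≤ 1 → ((lift x : V) : ℂ) = x := by
    refine ⟨fun x => if h : x ∈ V then ⟨x, h⟩ else 0, fun x hx => ?_⟩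
    simp only [dif_pos (hmemV x hx)]
  obtain ⟨e, he⟩ : ∃ e : ℕ → V, ∀ k, k < m + 1 → ((e k : V) : ℂ) = dd L a2 a4 θ k z / T0 := by
    refine ⟨fun k => lift (dd L a2 a4 θ k z / T0), fun k hk => hlift _ ?_⟩
    rw [map_div₀, hTu, div_one]
    exact hAint _ k hk
  obtain ⟨f, hf⟩ : ∃ f : J → V, ∀ x ∈ T, ((f x : V) : ℂ) = ThetaH L H (z + S x) / T0 := by
    refine ⟨fun x => lift (ThetaH L H (z + S x) / T0), fun x hx => hlift _ ?_⟩
    rw [map_div₀, hTu, div_one]
    exact (hT (S x) (hS x hx).1).2.1.le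
  obtain ⟨g, hg⟩ : ∃ g : J → V, ∀ x ∈ T, ((g x : V) : ℂ) = dlX L a (z + S x) :=
    ⟨fun x => lift (dlX L a (z + S x)), fun x hx => hlift _ (hT (S x) (hS x hx).1).2.2.2⟩
  obtain ⟨ζV, hζV⟩ : ∃ ζV : J → V, ∀ x ∈ T, ((ζV x : V) : ℂ) = ζ x :=
    ⟨fun x => lift (ζ x), fun x hx => hlift _ (hζ x hx)⟩
  obtain ⟨wV, hwV⟩ : ∃ wV : V, (wV : ℂ) = w0 :=
    ⟨lift w0, hlift _ (by rw [hwv]; exact ht1.le)⟩
  obtain ⟨I, hI⟩ : ∃ I : Ideal V, ∀ r : V, r ∈ I ↔ V.valuation (r : ℂ) ≤ τ ^ (m + 1) := by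
    refine ⟨{ carrier := {r : V | V.valuation (r : ℂ) ≤ τ ^ (m + 1)}
              add_mem' := ?_
              zero_mem' := ?_
              smul_mem' := ?_ }, fun r => Iff.rfl⟩
    · intro r s hr hs
      show V.valuation (((r + s : V)) : ℂ) ≤ τ ^ (m + 1)
      rw [show (((r + s : V)) : ℂ) = (r : ℂ) + s from rfl]
      exact KEY.add_le' hr hs
    · show V.valuation (((0 : V)) : ℂ) ≤ τ ^ (m + 1)
      simp
    · intro r s hs
      show V.valuation (((r * s : V)) : ℂ) ≤ τ ^ (m + 1)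
      rw [show (((r * s : V)) : ℂ) = (r : ℂ) * s from rfl, map_mul]
      exact (mul_le_mul' ((ValuationSubring.valuation_le_one_iff _ _).2 r.2) hs).trans_eq
        (one_mul _)
  have cS : ∀ (h : ℕ → V) (s : Finset ℕ), ((∑ k ∈ s, h k : V) : ℂ) = ∑ k ∈ s, ((h k : V) : ℂ) :=
    fun h s => map_sum V.subtype h s
  have cSJ : ∀ (h : J → V) (s : Finset J), ((∑ k ∈ s, h k : V) : ℂ) = ∑ k ∈ s, ((h k : V) : ℂ) :=
    fun h s => map_sum V.subtype h s
  have cPJ : ∀ (h : J → V) (s : Finset J), ((∏ k ∈ s, h k : V) : ℂ) = ∏ k ∈ s, ((h k : V) : ℂ) :=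
    fun h s => map_prod V.subtype h s
  have cN : ∀ c : ℕ, (((c : ℕ) : V) : ℂ) = (c : ℂ) := fun c => map_natCast V.subtype c
  have hK := t_KYI V m hm1 J T ζV ?_ ?_ I wV ?_ ?_ e f g ?_ ?_ ?_
  · obtain ⟨hK1, r, hK2⟩ := hK
    rw [hI] at hK1 hK2
    have hSum : ((∑ x ∈ T, ζV x * g x : V) : ℂ) = ∑ x ∈ T, ζ x * dlX L a (z + S x) := by
      rw [cSJ]
      refine Finset.sum_congr rfl fun x hx => ?_
      rw [← hg x hx, ← hζV x hx]
      rfl
    have hP : ((∏ x ∈ T, f x : V) : ℂ) = (∏ x ∈ T, ThetaH L H (z + S x)) / T0 ^ m := by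
      rw [cPJ, Finset.prod_congr rfl fun x hx => hf x hx, Finset.prod_div_distrib,
        Finset.prod_const, hTc]
    rw [show ((∏ x ∈ T, f x - 1 + wV * ∑ x ∈ T, ζV x * g x : V) : ℂ) =
        ((∏ x ∈ T, f x : V) : ℂ) - 1 + (wV : ℂ) * ((∑ x ∈ T, ζV x * g x : V) : ℂ) from rfl,
      hP, hSum, hwV] at hK1
    rw [show ((wV * ∑ x ∈ T, ζV x * g x - r * wV ^ m : V) : ℂ) =
        (wV : ℂ) * ((∑ x ∈ T, ζV x * g x : V) : ℂ) - (r : ℂ) * (wV : ℂ) ^ m from rfl,
      hSum, hwV] at hK2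
    generalize ∑ x ∈ T, ζ x * dlX L a (z + S x) = SS at *
    generalize ∏ x ∈ T, ThetaH L H (z + S x) = Q at *
    constructor
    · have h3 : V.valuation (w0 * SS) ≤ τ ^ m := by
        have e3 : w0 * SS = (w0 * SS - (r : ℂ) * w0 ^ m) + (r : ℂ) * w0 ^ m := by ring
        rw [e3]
        apply KEY.add_le'
        · exact hK2.trans (pow_le_pow_right_of_le_one' ht1.le (by omega))
        · rw [map_mul, map_pow, hwv]
          exact (mul_le_mul' ((ValuationSubring.valuation_le_one_iff _ _).2 r.2)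
            le_rfl).trans_eq (one_mul _)
      rw [map_mul, hwv] at h3
      have e4 : τ ^ m = τ * τ ^ (m - 1) := by
        rw [← pow_succ']
        congr 1
        omega
      rw [e4] at h3
      exact (mul_le_mul_iff_right₀ (zero_lt_iff.2 ht0)).1 h3
    · have e3 : Q - T0 ^ m * (1 - w0 * SS) = T0 ^ m * (Q / T0 ^ m - 1 + w0 * SS) := by
        have : T0 ^ m ≠ 0 := pow_ne_zero _ hT00
        field_simp
        ring
      rw [e3, map_mul, map_pow, hTu, one_pow, one_mul]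
      exact hK1
  · intro j hj0 hj1
    apply Subtype.ext
    rw [cSJ]
    refine Eq.trans ?_ (hps j hj0 hj1)
    refine Finset.sum_congr rfl fun x hx => ?_
    rw [show (((ζV x ^ j : V)) : ℂ) = (ζV x : ℂ) ^ j from rfl, hζV x hx]
  · apply Subtype.ext
    rw [cSJ, cN]
    refine Eq.trans ?_ hpN
    refine Finset.sum_congr rfl fun x hx => ?_
    rw [show (((ζV x ^ m : V)) : ℂ) = (ζV x : ℂ) ^ m from rfl, hζV x hx]
  · rw [hI]
    rw [show (((wV ^ (m + 1) : V)) : ℂ) = (wV : ℂ) ^ (m + 1) from rfl, hwV, map_pow, hwv]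
  · rw [hI]
    rw [show ((((m : V) + 1) * wV ^ m : V) : ℂ) = (((m : V) : ℂ) + 1) * (wV : ℂ) ^ m from rfl,
      cN, hwV, map_mul, map_pow, hwv, pow_succ', ← Nat.cast_succ]
    refine mul_le_mul' (hvq.trans ?_) le_rfl
    rw [← ht0p]
    exact (pow_le_pow_right_of_le_one' ht1.le hm1).trans_eq (pow_one _)
  · have h3 := he 0 (by omega)
    apply Subtype.ext
    rw [h3]
    unfold dd
    simp only [Function.iterate_zero, id_eq, Nat.factorial_zero, Nat.cast_one, div_one, hT0]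
    rw [div_self hT00]
    rfl
  · intro x hx
    rw [hI]
    have h3 := tay' θ x hx
    rw [(hT (S x) (hS x hx).1).1] at h3
    have e3 : ((f x - ∑ k ∈ Finset.range (m + 1), e k * (ζV x * wV) ^ k : V) : ℂ) =
        (ThetaH L H (z + S x) -
        ∑ k ∈ Finset.range (m + 1), dd L a2 a4 θ k z * (ζ x * w0) ^ k) / T0 := by
      rw [show ((f x - ∑ k ∈ Finset.range (m + 1), e k * (ζV x * wV) ^ k : V) : ℂ) =
        ((f x : V) : ℂ) - ((∑ k ∈ Finset.range (m + 1), e k * (ζV x * wV) ^ k : V) : ℂ) from rfl,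
        hf x hx, cS, sub_div, Finset.sum_div]
      congr 1
      refine Finset.sum_congr rfl fun k hk => ?_
      rw [show ((e k * (ζV x * wV) ^ k : V) : ℂ) = ((e k : V) : ℂ) *
        ((ζV x : ℂ) * (wV : ℂ)) ^ k from rfl, he k (Finset.mem_range.1 hk), hwV, hζV x hx]
      ring
    rw [e3, map_div₀, hTu, div_one]
    exact h3
  · intro x hx
    rw [hI]
    have h3 := tay' (dW a2 a4 θ) x hx
    rw [(hT (S x) (hS x hx).1).2.2.1] at h3
    have h4 : V.valuation (dd L a2 a4 (dW a2 a4 θ) m z * (ζ x * w0) ^ (m + 1)) ≤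
        τ ^ (m + 1) := by
      rw [map_mul, map_pow]
      exact (mul_le_mul' (hAint _ m (by omega)) (pow_le_pow_left' (hcw x hx) _)).trans_eq
        (one_mul _)
    have e4 : (ζ x * w0 : ℂ) * ∑ k ∈ Finset.range (m + 1),
          dd L a2 a4 (dW a2 a4 θ) k z * (ζ x * w0) ^ k =
        ∑ k ∈ Finset.range (m + 1), (k : ℂ) * dd L a2 a4 θ k z * (ζ x * w0) ^ k +
        dd L a2 a4 (dW a2 a4 θ) m z * (ζ x * w0) ^ (m + 1) := by
      rw [Finset.mul_sum, Finset.sum_range_succ, Finset.sum_range_succ']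
      congr 1
      · rw [Nat.cast_zero, zero_mul, zero_mul, add_zero]
        refine Finset.sum_congr rfl fun k _ => ?_
        unfold dd
        rw [← Function.iterate_succ_apply, Nat.factorial_succ]
        have h5 : ((k.factorial : ℕ) : ℂ) ≠ 0 := Nat.cast_ne_zero.2 (Nat.factorial_ne_zero _)
        have h6 : ((k : ℂ) + 1) ≠ 0 := Nat.cast_add_one_ne_zero k
        push_cast
        field_simp
        rw [pow_succ]
        ring
      · ring
    have e3 : ((ζV x * wV * (g x * f x) - ∑ k ∈ Finset.range (m + 1),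
          (k : V) * e k * (ζV x * wV) ^ k : V) : ℂ) =
        ((ζ x * w0 : ℂ) * (ThetaH L H (z + S x) * dlX L a (z + S x) -
          ∑ k ∈ Finset.range (m + 1), dd L a2 a4 (dW a2 a4 θ) k z * (ζ x * w0) ^ k) +
        dd L a2 a4 (dW a2 a4 θ) m z * (ζ x * w0) ^ (m + 1)) / T0 := by
      rw [mul_sub, e4, show ((ζV x * wV * (g x * f x) - ∑ k ∈ Finset.range (m + 1),
          (k : V) * e k * (ζV x * wV) ^ k : V) : ℂ) =
        (ζV x : ℂ) * (wV : ℂ) * (((g x : V) : ℂ) * ((f x : V) : ℂ)) -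
          ((∑ k ∈ Finset.range (m + 1), (k : V) * e k * (ζV x * wV) ^ k : V) : ℂ) from rfl,
        cS, hwV, hg x hx, hf x hx]
      have e5 : ∑ k ∈ Finset.range (m + 1), (((k : V) * e k * (ζV x * wV) ^ k : V) : ℂ) =
          (∑ k ∈ Finset.range (m + 1), (k : ℂ) * dd L a2 a4 θ k z * (ζ x * w0) ^ k) / T0 := by
        rw [Finset.sum_div]
        refine Finset.sum_congr rfl fun k hk => ?_
        rw [show (((k : V) * e k * (ζV x * wV) ^ k : V) : ℂ) = (((k : ℕ) : V) : ℂ) *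
          ((e k : V) : ℂ) * ((ζV x : ℂ) * (wV : ℂ)) ^ k from rfl, cN, hwV, hζV x hx,
          he k (Finset.mem_range.1 hk)]
        ring
      rw [e5, hζV x hx]
      ring
    rw [e3, map_div₀, hTu, div_one]
    apply KEY.add_le' _ h4
    rw [map_mul]
    exact (mul_le_mul' ((hcw x hx).trans ht1.le) h3).trans_eq (one_mul _)

end

end Pool.Agent.TWI
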