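import Pool.Agent.TWI.StI1
import Pool.Agent.MU3.BAll

/-!
# TWI, block A: module LEI (helper52): the Leibniz rule for the identity of (COM)
-/

set_option autoImplicit false

namespace Pool.Agent.TWI

open _root_.MU3 Pool.Agent.MU3A Pool.Agent.MU3B Pool.Agent.MUX Pool.Agent.MUXU Pool.Agent.TWT
open Pool.Agent.MUXV (GR InK tX HalfI)

noncomputable section

namespace LEI

variable {V : ValuationSubring ℂ}

lemma hdP (L : PeriodPair) {z : ℂ} (hz : z ∉ L.lattice) :
    HasDerivAt L.weierstrassP (L.derivWeierstrassP z) z := by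
  have h1 : DifferentiableAt ℂ L.weierstrassP z :=
    (L.analyticOnNhd_weierstrassP z (by simpa using hz)).differentiableAt
  rw [← L.deriv_weierstrassP]
  exact h1.hasDerivAt

lemma dx (L : PeriodPair) {z : ℂ} (hz : z ∉ L.lattice) : HasDerivAt (xn L) (2 * yy L z) z := by
  have h1 := (hdP L hz).sub_const (1 / 12)
  have h2 : 2 * yy L z = L.derivWeierstrassP z := by
    unfold yy
    ring
  rw [h2]
  exact h1

/-- the coefficients of the curve -/
lemma coeffs {L : PeriodPair} {a2 a4 : V} (h : GRa V L a2 a4) :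
    (a2 : ℂ) = 1 / 4 ∧ (a4 : ℂ) = 1 / 48 - L.g₂ / 4 := by
  obtain ⟨W, ξ, G, e2, e4⟩ := h
  have key : ∀ x : ℂ, x ^ 3 + W.a₂ * x ^ 2 + W.a₄ * x + W.a₆ =
      (x + 1 / 12) ^ 3 - L.g₂ / 4 * (x + 1 / 12) - L.g₃ / 4 := by
    intro x
    obtain ⟨z, hz, hzx⟩ := b_SUR L (x + 1 / 12)
    obtain ⟨hn, -⟩ := G.some z hz
    have h1 := hn.1
    rw [WeierstrassCurve.Affine.equation_iff, G.int.a1, G.int.a3] at h1
    have h2 : xn L z = x := by
      unfold xn
      rw [hzx]
      ring
    have h3 : yy L z ^ 2 = (x + 1 / 12) ^ 3 - L.g₂ / 4 * (x + 1 / 12) - L.g₃ / 4 := by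
      have h4 := L.derivWeierstrassP_sq z hz
      rw [hzx] at h4
      unfold yy
      linear_combination (1 / 4) * h4
    rw [h2] at h1
    linear_combination h3 - h1
  have k0 := key 0
  have k1 := key 1
  have k2 := key (-1)
  rw [e2, e4]
  constructor
  · linear_combination (1 / 2) * k1 + (1 / 2) * k2 - k0
  · linear_combination (1 / 2) * k1 - (1 / 2) * k2

lemma dy {L : PeriodPair} {a2 a4 : V} (h : GRa V L a2 a4) {z : ℂ} (hz : z ∉ L.lattice) :
    HasDerivAt (yy L) (3 * xn L z ^ 2 + 2 * (a2 : ℂ) * xn L z + a4) z := by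
  have h1 := (b_P2 L z hz).div_const 2
  obtain ⟨e2, e4⟩ := coeffs h
  have h2 : 3 * xn L z ^ 2 + 2 * (a2 : ℂ) * xn L z + a4 =
      (6 * L.weierstrassP z ^ 2 - L.g₂ / 2) / 2 := by
    rw [e2, e4]
    unfold xn
    ring
  rw [h2]
  exact h1

/-- the value of `f` at the point of `z` -/
def Fv (L : PeriodPair) (f : MvPolynomial (Fin 2) V) (z : ℂ) : ℂ :=
  MvPolynomial.aeval ![xn L z, yy L z] f

lemma dX0 (a2 a4 : V) : dW a2 a4 (MvPolynomial.X 0) = 2 * MvPolynomial.X 1 := by
  unfold dW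
  rw [MvPolynomial.mkDerivation_X]
  rfl

lemma dX1 (a2 a4 : V) : dW a2 a4 (MvPolynomial.X 1) =
    3 * MvPolynomial.X 0 ^ 2 + 2 * MvPolynomial.C a2 * MvPolynomial.X 0 + MvPolynomial.C a4 := by
  unfold dW
  rw [MvPolynomial.mkDerivation_X]
  rfl

lemma dF {L : PeriodPair} {a2 a4 : V} (h : GRa V L a2 a4) (f : MvPolynomial (Fin 2) V) {z : ℂ}
    (hz : z ∉ L.lattice) : HasDerivAt (Fv L f) (Fv L (dW a2 a4 f) z) z := by
  induction f using MvPolynomial.induction_on with
  | C a =>
    have h1 : dW a2 a4 (MvPolynomial.C a) = 0 := by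
      have := (dW a2 a4).map_algebraMap a
      rwa [MvPolynomial.algebraMap_eq] at this
    rw [h1]
    have h2 : Fv L (0 : MvPolynomial (Fin 2) V) z = 0 := by
      unfold Fv
      rw [map_zero]
    rw [h2]
    have h3 : Fv L (MvPolynomial.C a : MvPolynomial (Fin 2) V) = fun _ => algebraMap V ℂ a := by
      funext w
      unfold Fv
      rw [MvPolynomial.aeval_C]
    rw [h3]
    exact hasDerivAt_const _ _
  | add p q hp hq =>
    have h1 : Fv L (p + q) = fun w => Fv L p w + Fv L q w := by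
      funext w
      unfold Fv
      rw [map_add]
    have h2 : Fv L (dW a2 a4 (p + q)) z = Fv L (dW a2 a4 p) z + Fv L (dW a2 a4 q) z := by
      unfold Fv
      rw [map_add, map_add]
    rw [h1, h2]
    exact hp.add hq
  | mul_X p i hp =>
    have h1 : Fv L (p * MvPolynomial.X i) =
        fun w => Fv L p w * Fv L (MvPolynomial.X i : MvPolynomial (Fin 2) V) w := by
      funext w
      unfold Fv
      rw [map_mul]
    have h2 : Fv L (dW a2 a4 (p * MvPolynomial.X i)) z =
        Fv L (dW a2 a4 p) z * Fv L (MvPolynomial.X i : MvPolynomial (Fin 2) V) z +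
          Fv L p z * Fv L (dW a2 a4 (MvPolynomial.X i)) z := by
      unfold Fv
      rw [Derivation.leibniz, map_add, smul_eq_mul, smul_eq_mul, map_mul, map_mul]
      ring
    have h3 : HasDerivAt (Fv L (MvPolynomial.X i : MvPolynomial (Fin 2) V))
        (Fv L (dW a2 a4 (MvPolynomial.X i)) z) z := by
      fin_cases i
      · have e1 : Fv L (MvPolynomial.X 0 : MvPolynomial (Fin 2) V) = xn L := by
          funext w
          unfold Fv
          rw [MvPolynomial.aeval_X]
          rfl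
        have e2 : Fv L (dW a2 a4 (MvPolynomial.X 0)) z = 2 * yy L z := by
          rw [dX0]
          unfold Fv
          rw [map_mul, MvPolynomial.aeval_X, map_ofNat]
          rfl
        show HasDerivAt (Fv L (MvPolynomial.X 0 : MvPolynomial (Fin 2) V))
          (Fv L (dW a2 a4 (MvPolynomial.X 0)) z) z
        rw [e1, e2]
        exact dx L hz
      · have e1 : Fv L (MvPolynomial.X 1 : MvPolynomial (Fin 2) V) = yy L := by
          funext w
          unfold Fv
          rw [MvPolynomial.aeval_X]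
          rfl
        have e2 : Fv L (dW a2 a4 (MvPolynomial.X 1)) z =
            3 * xn L z ^ 2 + 2 * (a2 : ℂ) * xn L z + a4 := by
          rw [dX1]
          unfold Fv
          rw [map_add, map_add, map_mul, map_mul, map_mul, map_pow, MvPolynomial.aeval_X,
            MvPolynomial.aeval_C, MvPolynomial.aeval_C, map_ofNat, map_ofNat]
          rfl
        show HasDerivAt (Fv L (MvPolynomial.X 1 : MvPolynomial (Fin 2) V))
          (Fv L (dW a2 a4 (MvPolynomial.X 1)) z) z
        rw [e1, e2]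
        exact dy h hz
    rw [h1, h2]
    exact hp.mul h3

lemma inX_ev (L : PeriodPair) (g : Polynomial V) (z : ℂ) :
    Fv L (inX g) z = Polynomial.aeval (xn L z) g := by
  unfold Fv inX
  rw [← Polynomial.aeval_algHom_apply, MvPolynomial.aeval_X]
  rfl

open Finset in
/-- the Leibniz rule -/
lemma main {L M : PeriodPair} {a2 a4 b2 b4 : V} (hL : GRa V L a2 a4) (hM : GRa V M b2 b4) {mu : ℂ}
    (hI : Isg L M mu) (P Q R : MvPolynomial (Fin 2) V)
    (h : ∀ z, mu * z ∉ M.lattice → Fv M P (mu * z) * Fv L Q z = Fv L R z) (k : ℕ) :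
    ∀ z, mu * z ∉ M.lattice → ∑ ij ∈ antidiagonal k, (k.choose ij.1 : ℂ) *
      ((mu ^ ij.1 * Fv M ((dW b2 b4)^[ij.1] P) (mu * z)) * Fv L ((dW a2 a4)^[ij.2] Q) z) =
        Fv L ((dW a2 a4)^[k] R) z := by
  induction k with
  | zero =>
    intro z hz
    rw [Finset.Nat.antidiagonal_zero, Finset.sum_singleton]
    simp only [Nat.choose_self, Nat.cast_one, one_mul, pow_zero,
      Function.iterate_zero, id_eq]
    exact h z hz
  | succ k ih =>
    intro z hz
    have hzL : z ∉ L.lattice := fun h0 => hz (hI z h0)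
    have dm : HasDerivAt (fun w : ℂ => mu * w) mu z := by
      simpa using (hasDerivAt_id z).const_mul mu
    have dc : ∀ i : ℕ, HasDerivAt (fun w => mu ^ i * Fv M ((dW b2 b4)^[i] P) (mu * w))
        (mu ^ (i + 1) * Fv M ((dW b2 b4)^[i + 1] P) (mu * z)) z := by
      intro i
      have h1 : HasDerivAt (fun w => Fv M ((dW b2 b4)^[i] P) (mu * w))
          (Fv M (dW b2 b4 ((dW b2 b4)^[i] P)) (mu * z) * mu) z :=
        HasDerivAt.comp z (dF hM ((dW b2 b4)^[i] P) hz) dm
      have h2 := h1.const_mul (mu ^ i)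
      have h3 : mu ^ i * (Fv M (dW b2 b4 ((dW b2 b4)^[i] P)) (mu * z) * mu) =
          mu ^ (i + 1) * Fv M ((dW b2 b4)^[i + 1] P) (mu * z) := by
        rw [Function.iterate_succ_apply', pow_succ]
        ring
      rwa [h3] at h2
    have db : ∀ j : ℕ, HasDerivAt (fun w => Fv L ((dW a2 a4)^[j] Q) w)
        (Fv L ((dW a2 a4)^[j + 1] Q) z) z := by
      intro j
      rw [Function.iterate_succ_apply']
      exact dF hL _ hzL
    have dS : HasDerivAt (fun w => ∑ ij ∈ antidiagonal k, (k.choose ij.1 : ℂ) *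
        ((mu ^ ij.1 * Fv M ((dW b2 b4)^[ij.1] P) (mu * w)) * Fv L ((dW a2 a4)^[ij.2] Q) w))
        (∑ ij ∈ antidiagonal k, (k.choose ij.1 : ℂ) *
          ((mu ^ (ij.1 + 1) * Fv M ((dW b2 b4)^[ij.1 + 1] P) (mu * z)) *
              Fv L ((dW a2 a4)^[ij.2] Q) z +
            (mu ^ ij.1 * Fv M ((dW b2 b4)^[ij.1] P) (mu * z)) *
              Fv L ((dW a2 a4)^[ij.2 + 1] Q) z)) z := by
      refine HasDerivAt.fun_sum fun ij _ => ?_
      exact ((dc ij.1).fun_mul (db ij.2)).const_mul _
    have dR : HasDerivAt (fun w => Fv L ((dW a2 a4)^[k] R) w) (Fv L ((dW a2 a4)^[k + 1] R) z) z := by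
      rw [Function.iterate_succ_apply']
      exact dF hL _ hzL
    have hev : (fun w => ∑ ij ∈ antidiagonal k, (k.choose ij.1 : ℂ) *
        ((mu ^ ij.1 * Fv M ((dW b2 b4)^[ij.1] P) (mu * w)) * Fv L ((dW a2 a4)^[ij.2] Q) w))
        =ᶠ[nhds z] (fun w => Fv L ((dW a2 a4)^[k] R) w) := by
      have h1 : ∀ᶠ w in nhds z, mu * w ∉ M.lattice :=
        dm.continuousAt.eventually (M.isClosed_lattice.isOpen_compl.mem_nhds hz)
      filter_upwards [h1] with w hw using ih w hw
    have key := dS.unique (dR.congr_of_eventuallyEq hev)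
    rw [← key]
    have hp := Finset.sum_antidiagonal_choose_succ_mul (R := ℂ)
      (fun i j => (mu ^ i * Fv M ((dW b2 b4)^[i] P) (mu * z)) * Fv L ((dW a2 a4)^[j] Q) z) k
    rw [hp, ← Finset.sum_add_distrib]
    refine Finset.sum_congr rfl fun ij hij => ?_
    have h5 : k.choose ij.2 = k.choose ij.1 := by
      have h6 := Finset.HasAntidiagonal.mem_antidiagonal.mp hij
      exact (Nat.choose_symm_of_eq_add h6.symm).symm
    rw [h5]
    ring

end LEI

theorem i_LEI : S_LEI := by
  intro V L M a2 a4 b2 b4 hL hM mu hmu hI PA PB h k z hz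
  have h1 := LEI.main hL hM hI (MvPolynomial.X 0) (inX PB) (inX PA) (fun w hw => by
    rw [LEI.inX_ev, LEI.inX_ev]
    have h2 : LEI.Fv M (MvPolynomial.X 0 : MvPolynomial (Fin 2) V) (mu * w) = xn M (mu * w) := by
      unfold LEI.Fv
      rw [MvPolynomial.aeval_X]
      rfl
    rw [h2]
    exact h w hw) k z hz
  rw [Finset.Nat.sum_antidiagonal_eq_sum_range_succ (fun i j => (k.choose i : ℂ) *
      ((mu ^ i * LEI.Fv M ((dW b2 b4)^[i] (MvPolynomial.X 0)) (mu * z)) *
        LEI.Fv L ((dW a2 a4)^[j] (inX PB)) z))] at h1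
  unfold dd
  unfold LEI.Fv at h1
  rw [← h1, Finset.sum_div]
  refine Finset.sum_congr rfl fun i hi => ?_
  have hik : i ≤ k := Nat.lt_succ_iff.mp (Finset.mem_range.mp hi)
  have h3 : ((k.choose i : ℕ) : ℂ) * (i.factorial : ℂ) * ((k - i).factorial : ℂ) =
      (k.factorial : ℂ) := by
    have := Nat.choose_mul_factorial_mul_factorial hik
    exact_mod_cast this
  have hf1 : (i.factorial : ℂ) ≠ 0 := by exact_mod_cast i.factorial_ne_zero
  have hf2 : ((k - i).factorial : ℂ) ≠ 0 := by exact_mod_cast (k - i).factorial_ne_zero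
  have hf3 : (k.factorial : ℂ) ≠ 0 := by exact_mod_cast k.factorial_ne_zero
  have hf4 : ((k.choose i : ℕ) : ℂ) ≠ 0 := by
    exact_mod_cast (Nat.choose_pos hik).ne'
  rw [← h3]
  field_simp

end

end Pool.Agent.TWI
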