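import Pool.Agent.TWI.StI1
import Pool.Agent.TWI.TEP

/-!
# TWI, block A, LGI (helper3): the coefficients of the formal logarithms of the `L_i` below `p²` are integral
-/

set_option autoImplicit false

open WeierstrassCurve Polynomial

namespace Pool.Agent.TWI

open _root_.MU3 Pool.Agent.MU3A Pool.Agent.MU3B Pool.Agent.MUX Pool.Agent.MUXU Pool.Agent.TWT
open Pool.Agent.MUXV (GR InK tX HalfI)

noncomputable section

theorem i_LGI (hLOG : S_LOG) (hMLI : S_MLI) : S_LGI := by
  intro p A B P V f hS ι R hG i a2 a4 hGa Λ hΛ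
  obtain ⟨-, -, hemb, -, -, -, hgen, -, -⟩ := t_TEP p A B P V f hS
  intro j
  induction j using Nat.strong_induction_on with
  | _ N ih =>
    intro hN
    rcases Nat.lt_or_ge N 2 with h2 | h2
    · interval_cases N
      · rw [hΛ.c0, map_zero]
        exact zero_le
      · rw [hΛ.c1, map_one]
    · obtain ⟨x, hxP, -, -, hx⟩ := hgen N (by omega) hN
      obtain ⟨α, n, hα, hI⟩ := hMLI p A B P V f hS ι R hG x hxP
      refine hLOG V (R.L i) a2 a4 hGa Λ hΛ (emb α) n (hI i) N h2 (fun j hj => ih j hj (by omega)) ?_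
      have hmem : (α ^ N - α) - (x ^ N - x) ∈ P := by
        have h1 : α ^ N - x ^ N ∈ P := by
          have := sub_dvd_pow_sub_pow α x N
          exact P.mem_of_dvd this hα
        have e : (α ^ N - α) - (x ^ N - x) = (α ^ N - x ^ N) - (α - x) := by ring
        rw [e]
        exact P.sub_mem h1 hα
      have e1 : ∀ y : OO A B, emb y ^ N - emb y = emb (y ^ N - y) := by
        intro y
        rw [MUX.emb_sub hS.cq, MUX.emb_pow hS.cq]
      rw [e1] at hx ⊢
      rw [((hemb _).2.2)] at hx ⊢
      intro hc
      apply hx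
      have := P.sub_mem hc hmem
      rwa [sub_sub_cancel] at this

end

end Pool.Agent.TWI
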