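import Pool.Agent.TWI.StI1
import Pool.Agent.TWT.ADV
import Pool.Agent.MUX.Q_YUN

/-!
# TWI, block A, module LOG: the coefficient of the formal logarithm is integral (helper10)
-/

set_option autoImplicit false

open WeierstrassCurve PowerSeries

namespace Pool.Agent.TWI

open _root_.MU3 Pool.Agent.MU3A Pool.Agent.MU3B Pool.Agent.MUX Pool.Agent.MUXU Pool.Agent.TWT
open Pool.Agent.MUXV (GR InK tX HalfI)

noncomputable section

namespace LOG

/-- multiplication of truncated sums modulo `T^n` -/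
lemma mul_trunc {n : ℕ} {Λ : PowerSeries ℂ} (h0 : PowerSeries.coeff 0 Λ = 0) (f g h : ℕ → ℂ)
    (hfg : ∀ k < n, ∑ i ∈ Finset.range (k + 1), f i * g (k - i) = h k) :
    (PowerSeries.X : PowerSeries ℂ) ^ n ∣
      (∑ k ∈ Finset.range n, PowerSeries.C (f k) * Λ ^ k) *
        (∑ k ∈ Finset.range n, PowerSeries.C (g k) * Λ ^ k) -
      ∑ k ∈ Finset.range n, PowerSeries.C (h k) * Λ ^ k := by
  have hX : (PowerSeries.X : PowerSeries ℂ) ∣ Λ := by
    rw [PowerSeries.X_dvd_iff, ← PowerSeries.coeff_zero_eq_constantCoeff_apply]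
    exact h0
  set F : ℕ × ℕ → PowerSeries ℂ := fun m =>
    PowerSeries.C (f m.1) * Λ ^ m.1 * (PowerSeries.C (g m.2) * Λ ^ m.2) with hF
  have h1 : (∑ k ∈ Finset.range n, PowerSeries.C (f k) * Λ ^ k) *
        (∑ k ∈ Finset.range n, PowerSeries.C (g k) * Λ ^ k) =
      ∑ m ∈ Finset.range n ×ˢ Finset.range n, F m := by
    rw [Finset.sum_mul_sum, Finset.sum_product]
  have h2 : ∑ k ∈ Finset.range n, PowerSeries.C (h k) * Λ ^ k =
      ∑ m ∈ (Finset.range n ×ˢ Finset.range n).filter (fun m => m.1 + m.2 < n), F m := by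
    rw [← ADV.sum_anti]
    refine Finset.sum_congr rfl fun k hk => ?_
    rw [Finset.mem_range] at hk
    rw [← hfg k hk, Finset.Nat.sum_antidiagonal_eq_sum_range_succ_mk, map_sum, Finset.sum_mul]
    refine Finset.sum_congr rfl fun i hi => ?_
    rw [Finset.mem_range] at hi
    rw [hF]
    have h3 : Λ ^ k = Λ ^ i * Λ ^ (k - i) := by
      rw [← pow_add]
      congr 1
      omega
    show _ = PowerSeries.C (f i) * Λ ^ i * (PowerSeries.C (g (k - i)) * Λ ^ (k - i))
    rw [h3, map_mul]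
    ring
  rw [h1, h2, ← Finset.sum_filter_add_sum_filter_not (Finset.range n ×ˢ Finset.range n)
    (fun m : ℕ × ℕ => m.1 + m.2 < n) F, add_sub_cancel_left]
  refine Finset.dvd_sum fun m hm => ?_
  rw [Finset.mem_filter, not_lt] at hm
  have h4 : (PowerSeries.X : PowerSeries ℂ) ^ n ∣ Λ ^ m.1 * Λ ^ m.2 := by
    rw [← pow_add]
    exact (pow_dvd_pow_of_dvd hX n).trans (pow_dvd_pow Λ hm.2)
  have h5 : F m = Λ ^ m.1 * Λ ^ m.2 * (PowerSeries.C (f m.1) * PowerSeries.C (g m.2)) := by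
    rw [hF]
    ring
  rw [h5]
  exact h4.mul_right _

variable {V : ValuationSubring ℂ} {L : PeriodPair} {a2 a4 : V}

lemma v_int (x : V) : V.valuation (x : ℂ) ≤ 1 := V.valuation_le_one x

/-- evaluation of `inX` -/
lemma aeval_inX (x y : ℂ) (g : Polynomial V) :
    MvPolynomial.aeval ![x, y] (inX g) = Polynomial.aeval x g := by
  unfold inX
  rw [← Polynomial.aeval_algHom_apply, MvPolynomial.aeval_X]
  rfl

lemma dd_zero (f : MvPolynomial (Fin 2) V) (z : ℂ) :
    dd L a2 a4 f 0 z = MvPolynomial.aeval ![xn L z, yy L z] f := by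
  unfold dd
  rw [Function.iterate_zero, id, Nat.factorial_zero, Nat.cast_one, div_one]

lemma dd_one (z : ℂ) : dd L a2 a4 (MvPolynomial.X 0) 1 z = 2 * yy L z := by
  unfold dd
  rw [Function.iterate_one, Nat.factorial_one, Nat.cast_one, div_one]
  unfold dW
  rw [MvPolynomial.mkDerivation_X]
  show MvPolynomial.aeval ![xn L z, yy L z]
    ((2 : MvPolynomial (Fin 2) V) * MvPolynomial.X 1) = _
  rw [map_mul, map_ofNat, MvPolynomial.aeval_X]
  rfl

/-- the coefficients of the expansion are those of an integral power series -/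
lemma exp_dvd {Λ : PowerSeries ℂ} {f : MvPolynomial (Fin 2) V} {n : ℕ} {z : ℂ}
    {G : PowerSeries V}
    (h : ∀ j < n, ((PowerSeries.coeff j G : V) : ℂ) =
        PowerSeries.coeff j (∑ k ∈ Finset.range n, PowerSeries.C (dd L a2 a4 f k z) * Λ ^ k)) :
    (PowerSeries.X : PowerSeries ℂ) ^ n ∣ PowerSeries.map V.subtype G -
      ∑ k ∈ Finset.range n, PowerSeries.C (dd L a2 a4 f k z) * Λ ^ k := by
  rw [PowerSeries.X_pow_dvd_iff]
  intro m hm
  rw [map_sub, PowerSeries.coeff_map, ← h m hm]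
  exact sub_self _

/-- integrality of a quotient -/
lemma quot {n : ℕ} {Λ : PowerSeries ℂ} (h0 : PowerSeries.coeff 0 Λ = 0) (f g h : ℕ → ℂ)
    (hfg : ∀ k < n, ∑ i ∈ Finset.range (k + 1), f i * g (k - i) = h k) (a b : PowerSeries V)
    (ha : (PowerSeries.X : PowerSeries ℂ) ^ n ∣ PowerSeries.map V.subtype a -
      ∑ k ∈ Finset.range n, PowerSeries.C (h k) * Λ ^ k)
    (hb : (PowerSeries.X : PowerSeries ℂ) ^ n ∣ PowerSeries.map V.subtype b -
      ∑ k ∈ Finset.range n, PowerSeries.C (g k) * Λ ^ k)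
    (hbu : IsUnit b) : ∀ j < n, V.valuation (PowerSeries.coeff j
      (∑ k ∈ Finset.range n, PowerSeries.C (f k) * Λ ^ k)) ≤ 1 := by
  obtain ⟨u, rfl⟩ := hbu
  set φ := PowerSeries.map V.subtype with hφ
  set SF := ∑ k ∈ Finset.range n, PowerSeries.C (f k) * Λ ^ k with hSF
  set SG := ∑ k ∈ Finset.range n, PowerSeries.C (g k) * Λ ^ k with hSG
  set SH := ∑ k ∈ Finset.range n, PowerSeries.C (h k) * Λ ^ k with hSH
  have h1 : (PowerSeries.X : PowerSeries ℂ) ^ n ∣ SF * SG - SH := mul_trunc h0 f g h hfg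
  have hu : φ u * φ (↑u⁻¹ : PowerSeries V) = 1 := by
    rw [← map_mul, Units.mul_inv, map_one]
  have h2 : SF - φ (a * (↑u⁻¹ : PowerSeries V)) =
      ((SF * SG - SH) + SF * (φ u - SG) - (φ a - SH)) * φ (↑u⁻¹ : PowerSeries V) := by
    rw [map_mul]
    linear_combination (-SF) * hu
  have h3 : (PowerSeries.X : PowerSeries ℂ) ^ n ∣ SF - φ (a * (↑u⁻¹ : PowerSeries V)) := by
    rw [h2]
    exact ((h1.add (hb.mul_left SF)).sub ha).mul_right _
  intro j hj
  rw [PowerSeries.X_pow_dvd_iff] at h3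
  have h4 := h3 j hj
  rw [map_sub, sub_eq_zero] at h4
  rw [h4, hφ, PowerSeries.coeff_map]
  exact v_int _

lemma isUnit_of_v {b : PowerSeries V} (h : V.valuation ((PowerSeries.coeff 0 b : V) : ℂ) = 1) :
    IsUnit b := by
  rw [PowerSeries.isUnit_iff_constantCoeff, ← PowerSeries.coeff_zero_eq_constantCoeff_apply]
  exact (ValuationSubring.valuation_eq_one_iff V _).2 h

end LOG

open LOG in
theorem i_LOG (hT : S_TRG) (hC : S_COM) (hL : S_LEI) : S_LOG := by
  intro V L a2 a4 hG Λ hE mu n hI N hN hint hmu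
  obtain ⟨W, ξ, G, -, -⟩ := id hG
  -- the point
  set z := L.ω₁ / 3 with hz
  have h3z : (3 : ℂ) * z ∈ L.lattice := by
    have : (3 : ℂ) * z = L.ω₁ := by rw [hz]; ring
    rw [this]
    exact L.ω₁_mem_lattice
  have hzL : z ∉ L.lattice := (MUXV.int_X (ADV.third G hI.v3).1).1
  have hmz : mu * z ∉ L.lattice := by
    intro h
    have h1 := hI.ker z h
    apply hzL
    have h2 : Nat.Coprime 3 n := (Nat.Prime.coprime_iff_not_dvd Nat.prime_three).2 hI.n3
    have h4 : ((3 : ℕ) : ℤ) * Nat.gcdA 3 n + (n : ℤ) * Nat.gcdB 3 n = 1 := by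
      have := Nat.gcd_eq_gcd_ab 3 n
      rw [h2] at this
      exact_mod_cast this.symm
    have h5 : z = (Nat.gcdA 3 n : ℂ) * (3 * z) + (Nat.gcdB 3 n : ℂ) * (n * z) := by
      have h6 : (3 : ℂ) * (Nat.gcdA 3 n : ℂ) + (n : ℂ) * (Nat.gcdB 3 n : ℂ) = 1 := by
        exact_mod_cast congrArg (Int.cast (R := ℂ)) h4
      linear_combination (-z) * h6
    rw [h5]
    refine add_mem ?_ ?_
    · rw [← zsmul_eq_mul]
      exact zsmul_mem h3z _
    · rw [← zsmul_eq_mul]
      exact zsmul_mem h1 _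
  have h3m : ((3 : ℕ) : ℂ) * (mu * z) ∈ L.lattice := by
    have : ((3 : ℕ) : ℂ) * (mu * z) = mu * (3 * z) := by push_cast; ring
    rw [this]
    exact hI.sub _ h3z
  have hv3 : V.valuation ((3 : ℕ) : ℂ) = 1 := by exact_mod_cast hI.v3
  have hk1 : ¬ InK V L (xn L) (mu * z) := fun h => hmz (MUXV.mem_of_nat_mul G h hv3 h3m)
  have hk2 : ¬ InK V L (xn L) (2 * (mu * z)) := by
    intro h
    have h1 : ((3 : ℕ) : ℂ) * (2 * (mu * z)) ∈ L.lattice := by
      have : ((3 : ℕ) : ℂ) * (2 * (mu * z)) = ((3 : ℕ) : ℂ) * (mu * z) +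
        ((3 : ℕ) : ℂ) * (mu * z) := by ring
      rw [this]
      exact add_mem h3m h3m
    have h2 := MUXV.mem_of_nat_mul G h hv3 h1
    apply hmz
    have h4 : mu * z = ((3 : ℕ) : ℂ) * (mu * z) - 2 * (mu * z) := by push_cast; ring
    rw [h4]
    exact sub_mem h3m h2
  have hy : V.valuation (yy L (mu * z)) = 1 :=
    (MUXV.tq_YUN V W L _ _ ξ G _ hk1 hk2).1
  -- the isogeny
  obtain ⟨PA, PB, hAB, hB⟩ := hC V L L a2 a4 a2 a4 hG hG mu n hI
  obtain ⟨hkz, hBu⟩ := hB z hk1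
  -- the expansion at `mu z`
  set D : ℕ → ℂ := fun k => dd L a2 a4 (MvPolynomial.X 0) k (mu * z) with hD
  have hD1 : V.valuation (D 1) = 1 := by
    rw [hD]
    show V.valuation (dd L a2 a4 (MvPolynomial.X 0) 1 (mu * z)) = 1
    rw [dd_one, map_mul, G.two, hy, one_mul]
  have hA1 : V.valuation (D N + PowerSeries.coeff N Λ * D 1) ≤ 1 := by
    obtain ⟨gx, gy, h1, -⟩ := hE.exp _ hk1
    refine (hT V (N + 1) Λ D hE.c0 hE.c1 ?_ N (by omega) hint).2 hN (by omega)
    intro j hj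
    rw [← h1 (MvPolynomial.X 0) (N + 1) j hj]
    exact v_int _
  -- the expansion at `z`
  have hA2 : V.valuation (mu ^ N * D N + PowerSeries.coeff N Λ * (mu ^ 1 * D 1)) ≤ 1 := by
    obtain ⟨gx, gy, h1, -⟩ := hE.exp _ hkz
    refine (hT V (N + 1) Λ (fun k => mu ^ k * D k) hE.c0 hE.c1 ?_ N (by omega) hint).2 hN
      (by omega)
    refine quot hE.c0 (fun k => mu ^ k * D k) (fun k => dd L a2 a4 (inX PB) k z)
      (fun k => dd L a2 a4 (inX PA) k z) ?_ (MvPolynomial.aeval ![gx, gy] (inX PA))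
      (MvPolynomial.aeval ![gx, gy] (inX PB)) (exp_dvd (fun j hj => h1 _ _ _ hj))
      (exp_dvd (fun j hj => h1 _ _ _ hj)) ?_
    · intro k _
      exact hL V L L a2 a4 a2 a4 hG hG mu hI.ne hI.sub PA PB hAB k z hmz
    · apply isUnit_of_v
      rw [h1 (inX PB) 1 0 one_pos, Finset.sum_range_one, pow_zero, mul_one,
        PowerSeries.coeff_zero_C, dd_zero, aeval_inX]
      exact hBu
  -- the difference
  have h5 : PowerSeries.coeff N Λ * D 1 * (mu ^ N - mu) =
      mu ^ N * (D N + PowerSeries.coeff N Λ * D 1) -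
        (mu ^ N * D N + PowerSeries.coeff N Λ * (mu ^ 1 * D 1)) := by ring
  have h6 : V.valuation (PowerSeries.coeff N Λ * D 1 * (mu ^ N - mu)) ≤ 1 := by
    rw [h5]
    refine (V.valuation.map_sub _ _).trans (max_le ?_ hA2)
    rw [map_mul, map_pow, hI.vmu, one_pow, one_mul]
    exact hA1
  rw [map_mul, map_mul, hD1, hmu, mul_one, mul_one] at h6
  exact h6

end

end Pool.Agent.TWI
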