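import Pool.Agent.TWI.StI1
import Pool.Agent.MUX.XLib

/-!
# TWI, block A, module MLI (helper19): complex multiplications of norm prime to `6 p` in every class modulo `P`
-/

set_option autoImplicit false

open WeierstrassCurve PowerSeries

namespace Pool.Agent.TWI

open _root_.MU3 Pool.Agent.MU3A Pool.Agent.MU3B Pool.Agent.MUX Pool.Agent.MUXU Pool.Agent.TWT
open Pool.Agent.MUXV (GR InK tX HalfI)

noncomputable section

namespace MLI

variable {A B : ℤ}

lemma nm_six (b : OO A B) : ∃ k : ℤ, nm (1 + 6 * b) = 1 + 6 * k := by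
  obtain ⟨r, s⟩ := b
  have h1 : (1 + 6 * (⟨r, s⟩ : OO A B)) = ⟨1 + 6 * r, 6 * s⟩ := by
    have h6 : (6 : OO A B) = ⟨6, 0⟩ := rfl
    have h0 : (1 : OO A B) = ⟨1, 0⟩ := rfl
    rw [h6, h0]
    ext <;> simp
  rw [h1]
  unfold nm
  refine ⟨2 * r + 6 * r ^ 2 + B * (1 + 6 * r) * s - 6 * A * s ^ 2, ?_⟩
  simp only
  ring

end MLI

open MLI in
theorem i_MLI (hG : S_GRI) : S_MLI := by
  intro p A B P V f hS ι R hR x hx
  obtain ⟨-, -, hj, hv, -⟩ := hG p A B P V f hS ι R hR
  have hC := hS.cq
  have hpr := hS.hP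
  have hpP : ((p : ℕ) : OO A B) ∈ P := by
    rw [hS.eP]
    exact Ideal.mem_span_singleton_self _
  have hcop : IsCoprime (p : ℤ) 6 := by
    rw [Int.isCoprime_iff_gcd_eq_one]
    have h1 : Nat.Coprime p 6 := by
      rw [hS.pp.coprime_iff_not_dvd]
      intro hd
      have h2 := Nat.le_of_dvd (by norm_num) hd
      have h3 := hS.p5
      have h4 := hS.pp
      interval_cases p
      · omega
      · exact absurd h4 (by norm_num)
    exact h1
  obtain ⟨u, v, huv⟩ := hcop
  have huv' : (u : OO A B) * ((p : ℕ) : OO A B) + (v : OO A B) * 6 = 1 := by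
    have := congrArg (fun t : ℤ => (t : OO A B)) huv
    push_cast at this
    exact this
  obtain ⟨al, hal⟩ : ∃ al : OO A B, al = 1 + 6 * ((v : OO A B) * (x - 1)) := ⟨_, rfl⟩
  have hax : al - x ∈ P := by
    have h1 : al - x = ((u : OO A B) * (1 - x)) * ((p : ℕ) : OO A B) := by
      rw [hal]
      linear_combination (x - 1) * huv'
    rw [h1]
    exact P.mul_mem_left _ hpP
  have haP : al ∉ P := by
    intro h1
    apply hx
    have h2 : x = al - (al - x) := by ring
    rw [h2]
    exact P.sub_mem h1 hax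
  have hstar : star al ∉ P := by
    intro h1
    apply haP
    rw [hS.eP] at h1 ⊢
    obtain ⟨t, ht⟩ := Ideal.mem_span_singleton.1 h1
    rw [Ideal.mem_span_singleton]
    refine ⟨star t, ?_⟩
    have h2 := congrArg star ht
    rw [star_star, star_mul', star_natCast] at h2
    exact h2
  obtain ⟨k, hk⟩ := nm_six ((v : OO A B) * (x - 1))
  rw [← hal] at hk
  have hnn := nm_nonneg hC al
  obtain ⟨n, hn⟩ : ∃ n : ℕ, (n : ℤ) = nm al := ⟨(nm al).toNat, Int.toNat_of_nonneg hnn⟩
  have hpn : ¬ (p : ℤ) ∣ (n : ℤ) := by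
    intro hd
    rw [hn] at hd
    obtain ⟨t, ht⟩ := hd
    have h1 : al * star al ∈ P := by
      rw [mul_star, ht]
      push_cast
      exact P.mul_mem_right _ hpP
    rcases hpr.mem_or_mem h1 with h2 | h2
    · exact haP h2
    · exact hstar h2
  have h3 : V.valuation (3 : ℂ) = 1 := by
    have := hj 3 (fun hd => by
      have h1 := Int.le_of_dvd (by norm_num) hd
      have h2 := hS.p5
      omega)
    exact_mod_cast this
  have hvn : V.valuation (n : ℂ) = 1 := by
    have := hj n hpn
    exact_mod_cast this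
  have ha0 : al ≠ 0 := by
    intro h0
    apply haP
    rw [h0]
    exact P.zero_mem
  refine ⟨al, n, hax, fun i => ?_⟩
  have hcm := IsLI.hasCM hC (R.nl i).toIsLI
  refine
    { ne := emb_ne_zero hC ha0
      sub := fun w hw => hcm al w hw
      odd := ?_
      unit := hvn
      ker := ?_
      vmu := (hv al).2.2 haP
      v3 := h3
      n3 := ?_ }
  · rw [← Int.odd_coe_nat, hn, hk]
    exact ⟨3 * k, by ring⟩
  · intro z hz
    have h1 := hcm (star al) _ hz
    have h2 : ((n : ℕ) : ℂ) * z = emb (star al) * (emb al * z) := by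
      rw [← mul_assoc, ← emb_mul hC, mul_comm (star al), mul_star, emb_intCast hC, ← hn]
      push_cast
      rfl
    rw [h2]
    exact h1
  · intro hd
    have h1 : (3 : ℤ) ∣ (n : ℤ) := by exact_mod_cast hd
    rw [hn, hk] at h1
    omega

end

end Pool.Agent.TWI
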