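import Pool.Agent.TWI.StI1
import Pool.Agent.TWI.TEP

/-! # TWI, module PTI (helper34): the points `pt R p i x` are the points of order `p` of `L_i` -/

set_option autoImplicit false

namespace Pool.Agent.TWI

open _root_.MU3 Pool.Agent.MU3A Pool.Agent.MUX

noncomputable section

theorem i_PTI : S_PTI := by
  intro p A B P V f hS ι R i
  have hC := hS.cq
  have hp5 := hS.p5
  have hs := sit hS.cq hS.pp (by omega) hS.eP hS.hP hS.hV
  have hpC : (p : ℂ) ≠ 0 := by exact_mod_cast hS.pp.ne_zero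
  have hpO : ((p : ℕ) : OO A B) ≠ 0 := natCast_ne_zero' hC hS.pp.ne_zero
  have hn0 : nI (R.b i) ≠ 0 := nI_ne_zero hC (R.nl i).b_ne
  have hnC : ((nI (R.b i) : ℕ) : ℂ) ≠ 0 := by exact_mod_cast hn0
  have hnO : ((nI (R.b i) : ℕ) : OO A B) ≠ 0 := natCast_ne_zero' hC hn0
  have hnb : ((nI (R.b i) : ℕ) : OO A B) ∈ R.b i := nI_mem hC (R.nl i).b_ne
  have ho := (R.nl i).om_ne
  have ho0 := (R.nl R.i0).om_ne
  have hdom : IsDomain (OO A B) := isDomain hC
  have hmemP : ∀ x : OO A B, x ∈ P ↔ ∃ y, x = ((p : ℕ) : OO A B) * y := by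
    intro x
    rw [hS.eP, Ideal.mem_span_singleton]
    exact Iff.rfl
  -- Bezout
  have hcop : IsCoprime ((nI (R.b i) : ℕ) : ℤ) (p : ℤ) := by
    rw [Nat.isCoprime_iff_coprime]
    exact (R.cop i).coprime_dvd_right (dvd_mul_right p f)
  obtain ⟨u, v, huv⟩ := hcop
  have huv' : (u : OO A B) * ((nI (R.b i) : ℕ) : OO A B) + (v : OO A B) * ((p : ℕ) : OO A B) = 1 := by
    have h3 := congrArg (fun t : ℤ => (t : OO A B)) huv
    push_cast at h3
    exact h3
  have hlat : ∀ z, z ∈ (R.L i).lattice ↔ ∃ x ∈ R.b i, z = R.om i * emb x := fun z =>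
    (R.nl i).mem z
  have hpt : ∀ x, pt R p i x = R.om i * nI (R.b i) * emb x / p := fun x => rfl
  have h1 : ∀ x, pt R p i x ∈ (R.L i).lattice ↔ x ∈ P := by
    intro x
    rw [hlat, hmemP]
    constructor
    · rintro ⟨y, hy, hxy⟩
      rw [hpt] at hxy
      have h2 : emb (((nI (R.b i) : ℕ) : OO A B) * x) = emb (((p : ℕ) : OO A B) * y) := by
        rw [emb_mul hC, emb_mul hC, emb_natCast hC, emb_natCast hC]
        rw [div_eq_iff hpC] at hxy
        apply mul_left_cancel₀ ho
        linear_combination hxy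
      have h3 := emb_inj hC h2
      refine ⟨u * y + v * x, ?_⟩
      calc x = ((u : OO A B) * ((nI (R.b i) : ℕ) : OO A B) + (v : OO A B) * ((p : ℕ) : OO A B)) * x := by
            rw [huv', one_mul]
        _ = (u : OO A B) * (((nI (R.b i) : ℕ) : OO A B) * x) + (v : OO A B) * ((p : ℕ) : OO A B) * x := by
            ring
        _ = _ := by
            rw [h3]
            ring
    · rintro ⟨y, rfl⟩
      refine ⟨((nI (R.b i) : ℕ) : OO A B) * y, (R.b i).mul_mem_right _ hnb, ?_⟩
      rw [hpt, emb_mul hC, emb_mul hC, emb_natCast hC, emb_natCast hC]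
      field_simp
  refine ⟨h1, ?_, ?_, ?_, ?_, ?_, ?_⟩
  · intro x
    rw [hlat]
    refine ⟨((nI (R.b i) : ℕ) : OO A B) * x, (R.b i).mul_mem_right _ hnb, ?_⟩
    rw [hpt, emb_mul hC, emb_natCast hC]
    field_simp
  · intro z hz
    obtain ⟨y, hy, hyz⟩ := (hlat _).1 hz
    refine ⟨u * y, (hlat _).2 ⟨v * y, (R.b i).mul_mem_left _ hy, ?_⟩⟩
    rw [hpt]
    have h2 : z = R.om i * emb y / p := by
      rw [eq_div_iff hpC, ← hyz]
      ring
    have h3 : emb y = emb (u : OO A B) * ((nI (R.b i) : ℕ) : ℂ) * emb y +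
        emb (v : OO A B) * (p : ℂ) * emb y := by
      have h4 := congrArg emb huv'
      rw [emb_add hC, emb_mul hC, emb_mul hC, emb_natCast hC, emb_natCast hC, emb_one hC] at h4
      linear_combination (-emb y) * h4
    rw [h2, emb_mul hC, emb_mul hC]
    field_simp
    linear_combination h3
  · intro x y hxy
    have h2 : pt R p i x - pt R p i y = pt R p i (x - y) := by
      rw [hpt, hpt, hpt, emb_sub hC]
      ring
    rw [h2, h1]
    exact hxy
  · intro x y
    rw [hpt, hpt, emb_mul hC]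
    ring
  · intro x
    have hb0 : nI (R.b R.i0) = 1 := by
      rw [R.b0]
      unfold nI
      have : Subsingleton (OO A B ⧸ (⊤ : Ideal (OO A B))) := Ideal.Quotient.subsingleton_iff.2 rfl
      exact Nat.card_of_subsingleton 0
    unfold muX pt
    rw [hb0]
    push_cast
    field_simp
  · intro α z hz
    obtain ⟨x, hx, rfl⟩ := (hlat z).1 hz
    refine (hlat _).2 ⟨α * x, (R.b i).mul_mem_left _ hx, ?_⟩
    rw [emb_mul hC]
    ring

end

end Pool.Agent.TWI
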