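import Pool.Agent.TWI.StI1
import Pool.Agent.MUX.RQ0

/-!
# TWI, block A, module R2I (helper20): composite kernel, multiplier not a unit (copy of `MUX/R_R2.lean`)
-/

set_option autoImplicit false

open WeierstrassCurve Polynomial

namespace Pool.Agent.TWI

open _root_.MU3 Pool.Agent.MU3A Pool.Agent.MU3B Pool.Agent.MUX Pool.Agent.MUXU Pool.Agent.TWT
open Pool.Agent.MUXV (GR InK tX HalfI mem_of_nat_mul inK_congr inK_of_mem inK_int inK_nat inK_sub
  int_X v_X_sub QI CI x_POL)
open Pool.Agent.MUXV.R2 (red half)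

noncomputable section

theorem i_R2I : S_R2I := by
  intro V L M a2 a4 b2 b4 hL hM mu H hmu0 hsub hH hmu
  by_contra hE
  obtain ⟨WL, ξL, gL, -, -⟩ := hL
  obtain ⟨WM, ξM, gM, -, -⟩ := hM
  have h2 : V.valuation ((2 : ℕ) : ℂ) = 1 := by simpa using gL.two
  -- no nonzero point of the kernel is in the kernel of reduction
  have hno : ∀ u, mu * u ∈ M.lattice → u ∉ L.lattice → ¬ InK V L (xn L) u := by
    intro u hu huL hu1
    exact hE ⟨u, hu, huL, hu1⟩
  have htwo : ∀ w : ℂ, 2 * w ∈ L.lattice → w ∉ L.lattice →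
      ¬ InK V L (xn L) w := by
    intro w hw hwL hw1
    exact hwL (mem_of_nat_mul gL hw1 (n := 2) h2 (by simpa using hw))
  have htwoM : ∀ w : ℂ, 2 * w ∈ M.lattice → w ∉ M.lattice →
      ¬ InK V M (xn M) w := by
    intro w hw hwL hw1
    exact hwL (mem_of_nat_mul gM hw1 (n := 2) h2 (by simpa using hw))
  have hadd : ∀ w : ℂ, 2 * w ∈ L.lattice → w ∉ L.lattice → ∀ p ∈ H,
      ¬ InK V L (xn L) (w + p) := by
    intro w hw hwL p hp hwp
    have h3 := inK_nat gL hwp 2
    have h4 := inK_sub gL h3 (inK_of_mem hw)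
    have e : ((2 : ℕ) : ℂ) * (w + p) - 2 * w = 2 * p := by push_cast; ring
    rw [e] at h4
    refine hno (2 * p) ?_ (hH.ne p hp) h4
    have := hH.mem p hp
    have h5 := add_mem this this
    have e' : mu * p + mu * p = mu * (2 * p) := by ring
    rwa [e'] at h5
  have hlw : ∀ w : ℂ, 2 * w ∈ L.lattice → w ∉ L.lattice →
      ¬ InK V M (xn M) (mu * w) := by
    intro w hw hwL
    apply htwoM
    · have := hsub _ hw
      rwa [mul_left_comm] at this
    · intro hlw
      obtain ⟨p, hp, hp' | hp'⟩ := hH.surj w hlw hwL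
      · apply hH.ne p hp
        have h5 := add_mem hp' hp'
        have h6 := sub_mem hw h5
        have e : 2 * w - (w - p + (w - p)) = 2 * p := by ring
        rwa [e] at h6
      · apply hH.ne p hp
        have h5 := add_mem hp' hp'
        have h6 := sub_mem h5 hw
        have e : (w + p + (w + p)) - 2 * w = 2 * p := by ring
        rwa [e] at h6
  have hmem : ∀ z : ℂ, ¬ InK V L (xn L) z → L.weierstrassP z - 1 / 12 ∈ V :=
    fun z hz => (ValuationSubring.valuation_le_one_iff _ _).1 (int_X hz).2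
  have hmemM : ∀ z : ℂ, ¬ InK V M (xn M) z → M.weierstrassP z - 1 / 12 ∈ V :=
    fun z hz => (ValuationSubring.valuation_le_one_iff _ _).1 (int_X hz).2
  obtain ⟨w₁, w₂, a1, a2, a3, a4, a5, a6⟩ := half L
  have hsum : ¬ InK V L (xn L) (w₁ + w₂) := by
    apply htwo _ _ a5
    rw [mul_add]; exact add_mem a1 a3
  have hdiff : ¬ InK V L (xn L) (w₁ - w₂) := by
    apply htwo _ _ a6
    rw [mul_sub]; exact sub_mem a1 a3
  have hpol := (x_POL L M (1 / 12) mu H hmu0 hsub hH).1 w₁ w₂ a1 a2 a3 a4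
  unfold QI CI at hpol
  refine red V H _ _ _ _ (fun p => L.weierstrassP p - 1 / 12)
    (fun p => L.weierstrassP (w₁ + p) - 1 / 12)
    (fun p => L.weierstrassP (w₂ + p) - 1 / 12) ?_ hmu (hmem _ (htwo _ a1 a2))
    (hmem _ (htwo _ a3 a4)) ?_ ?_ ?_ ?_ hpol
  · have h7 := sub_mem (hmemM _ (hlw _ a3 a4)) (hmemM _ (hlw _ a1 a2))
    rwa [sub_sub_sub_cancel_right] at h7
  · exact v_X_sub gL (htwo _ a1 a2) (htwo _ a3 a4) hsum hdiff
  · intro p hp
    apply hmem
    apply hno p (hH.mem p hp)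
    intro hpL
    apply hH.ne p hp
    have := add_mem hpL hpL
    rwa [← two_mul] at this
  · intro p hp
    exact hmem _ (hadd _ a1 a2 p hp)
  · intro p hp
    exact hmem _ (hadd _ a3 a4 p hp)

end

end Pool.Agent.TWI
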