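import Pool.Agent.TWI.StI1
import Pool.Agent.TWI.TEP
import Pool.Agent.TWT.FOI
import Pool.Agent.MUX.R_TRA

/-!
# TWI, block A, ROT (helper3): the truncated logarithm of the points of order `p`
-/

set_option autoImplicit false

open WeierstrassCurve Polynomial

namespace Pool.Agent.TWI

open _root_.MU3 Pool.Agent.MU3A Pool.Agent.MU3B Pool.Agent.MUX Pool.Agent.MUXU Pool.Agent.TWT
open Pool.Agent.MUXV (GR InK tX HalfI)

noncomputable section

theorem i_ROT (hVPA : S_VPA) (hKRI : S_KRI) (hMLI : S_MLI) (hPTI : S_PTI) (hGRI : S_GRI) :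
    S_ROT := by
  intro p A B P V f hS w hw ι R hG i a2 a4 hGa lam hlam x hx
  obtain ⟨-, hp1, -, -, -⟩ := hGRI p A B P V f hS ι R hG
  obtain ⟨W, ξ, hGi, -⟩ := id hGa
  have hp5 := hS.p5
  have hq : 25 ≤ p ^ 2 := by nlinarith
  have h1P : (1 : OO A B) ∉ P := fun h => hS.hP.ne_top ((Ideal.eq_top_iff_one _).2 h)
  obtain ⟨hK1, hR1, hv1⟩ := hKRI p A B P V f hS ι R hG i 1 h1P
  obtain ⟨-, hRx, -⟩ := hKRI p A B P V f hS ι R hG i x hx
  obtain ⟨α, n, hα, hI⟩ := hMLI p A B P V f hS ι R hG x hx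
  obtain ⟨-, -, -, hpt4, hpt5, -, -⟩ := hPTI p A B P V f hS ι R i
  obtain ⟨-, -, -, -, -, -, -, -, hww⟩ := t_TEP p A B P V f hS
  obtain ⟨-, -, -, hwe⟩ := hww w hw
  have hIi := hI i
  set t1 := tX (xn (R.L i)) (yy (R.L i)) (pt R p i 1) with ht1
  have hfoi := t_FOI V (R.L i) (R.L i) (emb α) n ⟨W, ξ, hGi⟩ ⟨W, ξ, hGi⟩ hIi.ne hIi.sub hIi.odd
    hIi.unit hIi.ker hIi.vmu (pt R p i 1) hK1 hR1
  rw [← hpt5 α 1, mul_one] at hfoi
  obtain ⟨-, hRα, -⟩ := hfoi
  have hvpa := hVPA V (R.L i) (R.L i) a2 a4 a2 a4 hGa hGa (emb α) n hIi (p ^ 2) (by omega) lam lam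
    hlam hlam (pt R p i 1) hK1 hR1
  rw [← hpt5 α 1, mul_one, ← ht1] at hvpa
  have hcg : tX (xn (R.L i)) (yy (R.L i)) (pt R p i x) =
      tX (xn (R.L i)) (yy (R.L i)) (pt R p i α) :=
    Pool.Agent.MUXV.TRA.tX_congr hGi hRx hRα (hpt4 x α (by
      have := P.neg_mem hα
      rwa [neg_sub] at this))
  have hv1' : V.valuation t1 < 1 := by
    by_contra h
    push Not at h
    have h2 : 1 ≤ V.valuation t1 ^ (p ^ 2 - 1) := one_le_pow₀ h
    rw [hv1] at h2
    exact absurd h2 (not_le.2 hp1)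
  have hwα : w x = w α := hw.per _ _ (by
      have := P.neg_mem hα
      rwa [neg_sub] at this)
  have hvpi : V.valuation (vpi lam (p ^ 2) t1) ≤ V.valuation t1 := by
    rw [vpi]
    refine Valuation.map_sum_le _ fun k _ => ?_
    rcases Nat.eq_zero_or_pos k with rfl | hk
    · rw [hlam.lam0, zero_mul, map_zero]
      exact zero_le
    · rw [map_mul, map_pow]
      calc V.valuation (lam k) * V.valuation t1 ^ k ≤ 1 * V.valuation t1 ^ 1 :=
            mul_le_mul' (hlam.int _) (pow_le_pow_right_of_le_one' hv1'.le hk)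
        _ = _ := by rw [one_mul, pow_one]
  rw [hcg, hwα]
  have e : vpi lam (p ^ 2) (tX (xn (R.L i)) (yy (R.L i)) (pt R p i α)) -
      w α * vpi lam (p ^ 2) t1 =
      (vpi lam (p ^ 2) (tX (xn (R.L i)) (yy (R.L i)) (pt R p i α)) -
        emb α * vpi lam (p ^ 2) t1) - (w α - emb α) * vpi lam (p ^ 2) t1 := by ring
  rw [e]
  refine (Valuation.map_sub _ _ _).trans (max_le hvpa ?_)
  rw [map_mul]
  calc V.valuation (w α - emb α) * V.valuation (vpi lam (p ^ 2) t1)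
      ≤ V.valuation t1 ^ (p ^ 2 - 1) * V.valuation t1 := by
        rw [hv1]
        exact mul_le_mul' (hwe α) hvpi
    _ = V.valuation t1 ^ (p ^ 2) := by
        rw [← pow_succ]
        congr 1
        omega

end

end Pool.Agent.TWI
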