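import Pool.Agent.TWI.StI1

/-!
# TWI, module TRG: triangular systems
-/

set_option autoImplicit false

open PowerSeries

namespace Pool.Agent.TWI

namespace TRG

/-- the powers of a power series whose coefficients below `r` are integral -/
lemma coeff_pow_mem (V : ValuationSubring ℂ) (M : PowerSeries ℂ) (r : ℕ)
    (h : ∀ i < r, PowerSeries.coeff i M ∈ V) (k : ℕ) : ∀ i < r, PowerSeries.coeff i (M ^ k) ∈ V := by
  induction k with
  | zero =>
    intro i _
    rw [pow_zero, PowerSeries.coeff_one]
    split_ifs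
    · exact V.one_mem
    · exact V.zero_mem
  | succ k ih =>
    intro i hi
    rw [pow_succ, PowerSeries.coeff_mul]
    refine V.sum_mem fun x hx => ?_
    rw [Finset.HasAntidiagonal.mem_antidiagonal] at hx
    exact V.mul_mem _ _ (ih _ (by omega)) (h _ (by omega))

/-- the coefficients of the powers of `Λ = T + ...` -/
lemma coeff_pow (Λ M : PowerSeries ℂ) (h : Λ = PowerSeries.X * M) (j k : ℕ) :
    PowerSeries.coeff j (Λ ^ k) = if k ≤ j then PowerSeries.coeff (j - k) (M ^ k) else 0 := by
  rw [h, mul_pow, PowerSeries.coeff_X_pow_mul']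

/-- the diagonal coefficient -/
lemma coeff_diag (Λ M : PowerSeries ℂ) (h : Λ = PowerSeries.X * M)
    (h1 : PowerSeries.coeff 1 Λ = 1) (j : ℕ) : PowerSeries.coeff j (Λ ^ j) = 1 := by
  have h0 : PowerSeries.constantCoeff M = 1 := by
    have := coeff_pow Λ M h 1 1
    rw [pow_one, h1, if_pos le_rfl, Nat.sub_self, pow_one,
      PowerSeries.coeff_zero_eq_constantCoeff_apply] at this
    exact this.symm
  rw [coeff_pow Λ M h, if_pos le_rfl, Nat.sub_self, PowerSeries.coeff_zero_eq_constantCoeff_apply,
    map_pow, h0, one_pow]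

end TRG

open TRG in
/-- triangular systems -/
theorem i_TRG : S_TRG := by
  intro V n Λ D h0 h1 hc N hN hΛ
  obtain ⟨M, hM⟩ : PowerSeries.X ∣ Λ := by
    rw [PowerSeries.X_dvd_iff, ← PowerSeries.coeff_zero_eq_constantCoeff_apply]
    exact h0
  have hΛ' : ∀ j < N, PowerSeries.coeff j Λ ∈ V := fun j hj =>
    (V.valuation_le_one_iff _).1 (hΛ j hj)
  have hsum : ∀ j, PowerSeries.coeff j (∑ k ∈ Finset.range n, PowerSeries.C (D k) * Λ ^ k) =
      ∑ k ∈ Finset.range n, D k * PowerSeries.coeff j (Λ ^ k) := by
    intro j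
    rw [map_sum]
    refine Finset.sum_congr rfl fun k _ => ?_
    rw [PowerSeries.coeff_C_mul]
  have hc' : ∀ j < n, ∑ k ∈ Finset.range n, D k * PowerSeries.coeff j (Λ ^ k) ∈ V := by
    intro j hj
    rw [← hsum]
    exact (V.valuation_le_one_iff _).1 (hc j hj)
  have hbig : ∀ j k, j < k → PowerSeries.coeff j (Λ ^ k) = 0 := by
    intro j k hjk
    rw [coeff_pow Λ M hM, if_neg (by omega)]
  have hD : ∀ k < N, D k ∈ V := by
    intro j
    induction j using Nat.strong_induction_on with
    | _ j ih =>
      intro hj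
      have h2 := hc' j (by omega)
      rw [← Finset.add_sum_erase _ _ (Finset.mem_range.2 (show j < n by omega)),
        coeff_diag Λ M hM h1, mul_one] at h2
      have h3 : ∑ k ∈ (Finset.range n).erase j, D k * PowerSeries.coeff j (Λ ^ k) ∈ V := by
        refine V.sum_mem fun k hk => ?_
        rw [Finset.mem_erase, Finset.mem_range] at hk
        rcases Nat.lt_or_ge k j with h4 | h4
        · exact V.mul_mem _ _ (ih k h4 (by omega)) (coeff_pow_mem V Λ N hΛ' k j hj)
        · rw [hbig j k (by omega), mul_zero]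
          exact V.zero_mem
      have h4 := sub_mem h2 h3
      rwa [add_sub_cancel_right] at h4
  refine ⟨fun k hk => (V.valuation_le_one_iff _).2 (hD k hk), fun h2N hNn => ?_⟩
  rw [V.valuation_le_one_iff]
  have h2 := hc' N hNn
  rw [← Finset.add_sum_erase _ _ (Finset.mem_range.2 hNn), coeff_diag Λ M hM h1, mul_one,
    ← Finset.add_sum_erase _ _ (show 1 ∈ (Finset.range n).erase N by
      rw [Finset.mem_erase, Finset.mem_range]; omega), pow_one] at h2
  have h3 : ∑ k ∈ ((Finset.range n).erase N).erase 1, D k * PowerSeries.coeff N (Λ ^ k) ∈ V := by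
    refine V.sum_mem fun k hk => ?_
    rw [Finset.mem_erase, Finset.mem_erase, Finset.mem_range] at hk
    rcases Nat.lt_or_ge N k with h4 | h4
    · rw [hbig N k h4, mul_zero]
      exact V.zero_mem
    · rcases Nat.eq_zero_or_pos k with h5 | h5
      · rw [h5, pow_zero, PowerSeries.coeff_one, if_neg (by omega), mul_zero]
        exact V.zero_mem
      · refine V.mul_mem _ _ (hD k (by omega)) ?_
        rw [coeff_pow Λ M hM, if_pos h4]
        refine coeff_pow_mem V M (N - 1) (fun i hi => ?_) k _ (by omega)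
        have h6 := coeff_pow Λ M hM (i + 1) 1
        rw [if_pos (by omega), pow_one, pow_one, Nat.add_sub_cancel] at h6
        rw [← h6]
        exact hΛ' _ (by omega)
  have h4 := sub_mem h2 h3
  rw [← add_assoc, add_sub_cancel_right, mul_comm (D 1)] at h4
  exact h4

end Pool.Agent.TWI
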