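import Pool.Agent.TWI.StI1
import Pool.Agent.TWI.TEP
import Pool.Agent.TWT.FOI
import Pool.Agent.MUX.R_TRA

/-!
# TWI, block A, TRI (helper3): the local parameter of the points of order `p` to first order
-/

set_option autoImplicit false

open WeierstrassCurve Polynomial

namespace Pool.Agent.TWI

open _root_.MU3 Pool.Agent.MU3A Pool.Agent.MU3B Pool.Agent.MUX Pool.Agent.MUXU Pool.Agent.TWT
open Pool.Agent.MUXV (GR InK tX HalfI)

noncomputable section

theorem i_TRI (hKRI : S_KRI) (hMLI : S_MLI) (hPTI : S_PTI) (hGRI : S_GRI) : S_TRI := by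
  intro p A B P V f hS w hw ι R hG i x hx
  obtain ⟨hGR, hp1, -, -, -⟩ := hGRI p A B P V f hS ι R hG
  obtain ⟨a2, a4, W, ξ, hGi, -⟩ := hGR i
  have hp5 := hS.p5
  have hq : 25 ≤ p ^ 2 := by nlinarith
  have h1P : (1 : OO A B) ∉ P := fun h => hS.hP.ne_top ((Ideal.eq_top_iff_one _).2 h)
  obtain ⟨hK1, hR1, hv1⟩ := hKRI p A B P V f hS ι R hG i 1 h1P
  obtain ⟨-, hRx, -⟩ := hKRI p A B P V f hS ι R hG i x hx
  obtain ⟨α, n, hα, hI⟩ := hMLI p A B P V f hS ι R hG x hx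
  obtain ⟨-, -, -, hpt4, hpt5, -, -⟩ := hPTI p A B P V f hS ι R i
  obtain ⟨-, -, -, -, -, -, -, -, hww⟩ := t_TEP p A B P V f hS
  obtain ⟨-, -, -, hwe⟩ := hww w hw
  have hIi := hI i
  set t1 := tX (xn (R.L i)) (yy (R.L i)) (pt R p i 1) with ht1
  have hfoi := t_FOI V (R.L i) (R.L i) (emb α) n ⟨W, ξ, hGi⟩ ⟨W, ξ, hGi⟩ hIi.ne hIi.sub hIi.odd
    hIi.unit hIi.ker hIi.vmu (pt R p i 1) hK1 hR1
  rw [← hpt5 α 1, mul_one] at hfoi
  obtain ⟨-, hRα, hfo⟩ := hfoi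
  have hcg : tX (xn (R.L i)) (yy (R.L i)) (pt R p i x) =
      tX (xn (R.L i)) (yy (R.L i)) (pt R p i α) :=
    Pool.Agent.MUXV.TRA.tX_congr hGi hRx hRα (hpt4 x α (by
      have := P.neg_mem hα
      rwa [neg_sub] at this))
  have hv1' : V.valuation t1 < 1 := by
    by_contra h
    push Not at h
    have h2 : 1 ≤ V.valuation t1 ^ (p ^ 2 - 1) := one_le_pow₀ h
    rw [hv1] at h2
    exact absurd h2 (not_le.2 hp1)
  have hwα : w x = w α := hw.per _ _ (by
      have := P.neg_mem hα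
      rwa [neg_sub] at this)
  rw [hcg, hwα]
  have e : tX (xn (R.L i)) (yy (R.L i)) (pt R p i α) - w α * t1 =
      (tX (xn (R.L i)) (yy (R.L i)) (pt R p i α) - emb α * t1) - (w α - emb α) * t1 := by ring
  rw [e]
  refine (Valuation.map_sub _ _ _).trans (max_le hfo ?_)
  rw [map_mul, pow_two]
  refine mul_le_mul' ((hwe α).trans ?_) le_rfl
  rw [← hv1]
  calc V.valuation t1 ^ (p ^ 2 - 1) ≤ V.valuation t1 ^ 1 :=
        pow_le_pow_right_of_le_one' hv1'.le (by omega)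
    _ = _ := pow_one _

end

end Pool.Agent.TWI
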