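import Pool.Agent.TWI.StI1

/-!
# TWI, block A: from expansions to Taylor expansions with integral coefficients
-/

set_option autoImplicit false

open WeierstrassCurve PowerSeries

namespace Pool.Agent.TWI

open _root_.MU3 Pool.Agent.MU3A Pool.Agent.MU3B Pool.Agent.MUX Pool.Agent.MUXU Pool.Agent.TWT
open Pool.Agent.MUXV (GR InK tX HalfI)

namespace TYI

/-- the coefficients below `n` of powers only depend on the truncation -/
lemma coeff_trunc_pow (Λ : PowerSeries ℂ) (n k j : ℕ) (hj : j < n) :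
    PowerSeries.coeff j (((PowerSeries.trunc n Λ : Polynomial ℂ) : PowerSeries ℂ) ^ k) =
      PowerSeries.coeff j (Λ ^ k) := by
  have h := PowerSeries.trunc_trunc_pow Λ n k
  rw [← PowerSeries.coeff_coe_trunc_of_lt hj, h, PowerSeries.coeff_coe_trunc_of_lt hj]

/-- the difference of the two evaluations is a multiple of `t ^ n` -/
lemma key (V : ValuationSubring ℂ) (n : ℕ) (Λ : PowerSeries ℂ) (D : ℕ → ℂ) (t : V)
    (hL : ∀ j < n, V.valuation (PowerSeries.coeff j Λ) ≤ 1)
    (hD : ∀ k < n, V.valuation (D k) ≤ 1) :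
    ∃ r : V, ∑ k ∈ Finset.range n, D k *
        (∑ j ∈ Finset.range n, PowerSeries.coeff j Λ * (t : ℂ) ^ j) ^ k -
      ∑ j ∈ Finset.range n, PowerSeries.coeff j (∑ k ∈ Finset.range n,
        PowerSeries.C (D k) * Λ ^ k) * (t : ℂ) ^ j = ((t ^ n * r : V) : ℂ) := by
  classical
  obtain ⟨l, hl⟩ : ∃ l : ℕ → V, ∀ j < n, ((l j : V) : ℂ) = PowerSeries.coeff j Λ :=
    ⟨fun j => if h : j < n then ⟨_, (ValuationSubring.valuation_le_one_iff _ _).1 (hL j h)⟩ else 0,
      fun j hj => by simp [hj]⟩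
  obtain ⟨d, hd⟩ : ∃ d : ℕ → V, ∀ k < n, ((d k : V) : ℂ) = D k :=
    ⟨fun j => if h : j < n then ⟨_, (ValuationSubring.valuation_le_one_iff _ _).1 (hD j h)⟩ else 0,
      fun j hj => by simp [hj]⟩
  obtain ⟨P, hP⟩ : ∃ P : Polynomial V,
      P = ∑ j ∈ Finset.range n, Polynomial.monomial j (l j) := ⟨_, rfl⟩
  obtain ⟨Q, hQ⟩ : ∃ Q : Polynomial V,
      Q = ∑ k ∈ Finset.range n, Polynomial.C (d k) * P ^ k := ⟨_, rfl⟩
  have hPm : P.map (algebraMap V ℂ) = PowerSeries.trunc n Λ := by
    ext j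
    rw [Polynomial.coeff_map, PowerSeries.coeff_trunc, hP, Polynomial.finsetSum_coeff]
    simp only [Polynomial.coeff_monomial]
    rw [Finset.sum_ite_eq']
    simp only [Finset.mem_range]
    split_ifs with h
    · exact hl j h
    · simp
  have hQm : ∀ j < n, ((Q.coeff j : V) : ℂ) = PowerSeries.coeff j (∑ k ∈ Finset.range n,
        PowerSeries.C (D k) * Λ ^ k) := by
    intro j hj
    have h1 : ((Q.coeff j : V) : ℂ) = (Q.map (algebraMap V ℂ)).coeff j := by
      rw [Polynomial.coeff_map]; rfl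
    rw [h1, ← Polynomial.coeff_coe, hQ, Polynomial.map_sum, map_sum]
    have h2 : ((∑ k ∈ Finset.range n, (Polynomial.C (d k) * P ^ k).map (algebraMap V ℂ) :
        Polynomial ℂ) : PowerSeries ℂ) = ∑ k ∈ Finset.range n,
        PowerSeries.C ((d k : V) : ℂ) *
          ((PowerSeries.trunc n Λ : Polynomial ℂ) : PowerSeries ℂ) ^ k := by
      rw [← Polynomial.coeToPowerSeries.ringHom_apply, map_sum]
      refine Finset.sum_congr rfl fun k _ => ?_
      rw [Polynomial.map_mul, Polynomial.map_pow, hPm, Polynomial.map_C, map_mul, map_pow,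
        Polynomial.coeToPowerSeries.ringHom_apply, Polynomial.coeToPowerSeries.ringHom_apply,
        Polynomial.coe_C]
      rfl
    rw [h2, map_sum]
    refine Finset.sum_congr rfl fun k hk => ?_
    rw [PowerSeries.coeff_C_mul, PowerSeries.coeff_C_mul, coeff_trunc_pow Λ n k j hj,
      hd k (Finset.mem_range.1 hk)]
  have hdvd : (Polynomial.X : Polynomial V) ^ n ∣
      Q - ∑ j ∈ Finset.range n, Polynomial.monomial j (Q.coeff j) := by
    rw [Polynomial.X_pow_dvd_iff]
    intro e he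
    rw [Polynomial.coeff_sub, Polynomial.finsetSum_coeff]
    simp only [Polynomial.coeff_monomial]
    rw [Finset.sum_ite_eq']
    simp [he]
  obtain ⟨S, hS⟩ := hdvd
  refine ⟨S.eval t, ?_⟩
  have hev := congrArg (Polynomial.eval t) hS
  rw [Polynomial.eval_sub, Polynomial.eval_mul, Polynomial.eval_pow, Polynomial.eval_X] at hev
  rw [← hev, hQ, Polynomial.eval_finsetSum]
  simp only [Polynomial.eval_mul, Polynomial.eval_C, Polynomial.eval_pow,
    Polynomial.eval_finsetSum, Polynomial.eval_monomial]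
  rw [← hQ]
  have hPt : ((P.eval t : V) : ℂ) =
      ∑ j ∈ Finset.range n, PowerSeries.coeff j Λ * (t : ℂ) ^ j := by
    rw [hP, Polynomial.eval_finsetSum]
    push_cast
    refine Finset.sum_congr rfl fun j hj => ?_
    rw [Polynomial.eval_monomial]
    push_cast
    rw [hl j (Finset.mem_range.1 hj)]
  push_cast
  rw [hPt]
  congr 1
  · refine Finset.sum_congr rfl fun k hk => ?_
    rw [hd k (Finset.mem_range.1 hk)]
  · refine Finset.sum_congr rfl fun j hj => ?_
    rw [hQm j (Finset.mem_range.1 hj)]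

end TYI

open TYI

theorem i_TYI (h : S_TRG) : S_TYI := by
  intro V L a2 a4 hG Λ hΛ n hn hint
  obtain ⟨W, ξ, G, -, -⟩ := hG
  have hdint : ∀ z, ¬ InK V L (xn L) z → ∀ (f : MvPolynomial (Fin 2) V), ∀ k < n,
      V.valuation (dd L a2 a4 f k z) ≤ 1 := by
    intro z hz f
    obtain ⟨gx, gy, h1, -⟩ := hΛ.exp z hz
    refine (h V n Λ (fun k => dd L a2 a4 f k z) hΛ.c0 hΛ.c1 ?_ n le_rfl hint).1
    intro j hj
    rw [← h1 f n j hj]
    exact (ValuationSubring.valuation_le_one_iff _ _).2
      (PowerSeries.coeff j (MvPolynomial.aeval ![gx, gy] f)).2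
  refine ⟨⟨?_, ?_, ?_, ?_⟩, hdint⟩
  · have h0 : 0 < n := by omega
    simp only [h0, if_true]
    exact hΛ.c0
  · have h1 : 1 < n := by omega
    simp only [h1, if_true]
    exact hΛ.c1
  · intro j
    by_cases hj : j < n
    · simp only [hj, if_true]
      exact hint j hj
    · simp only [hj, if_false, map_zero]
      exact zero_le_one
  · intro R hR hRL z hz f
    obtain ⟨hvt, hvt0, hvt2⟩ := Pool.Agent.MUXV.v_tX_lt G hR hRL
    obtain ⟨t, ht⟩ : ∃ t : V, (t : ℂ) = tX (xn L) (yy L) R :=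
      ⟨⟨_, (ValuationSubring.valuation_le_one_iff _ _).1 hvt.le⟩, rfl⟩
    obtain ⟨gx, gy, h1, h2⟩ := hΛ.exp z hz
    have h2' := h2 R hR hRL f n hn
    obtain ⟨r, hr⟩ := key V n Λ (fun k => dd L a2 a4 f k z) t hint (hdint z hz f)
    have hvpi : vpi (fun j => if j < n then PowerSeries.coeff j Λ else 0) n
        (tX (xn L) (yy L) R) = ∑ j ∈ Finset.range n, PowerSeries.coeff j Λ * (t : ℂ) ^ j := by
      rw [vpi, ht]
      refine Finset.sum_congr rfl fun j hj => ?_
      simp only [Finset.mem_range.1 hj, if_true]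
    have hc : ∑ j ∈ Finset.range n,
        ((PowerSeries.coeff j (MvPolynomial.aeval ![gx, gy] f) : V) : ℂ) *
          tX (xn L) (yy L) R ^ j = ∑ j ∈ Finset.range n, PowerSeries.coeff j
          (∑ k ∈ Finset.range n, PowerSeries.C (dd L a2 a4 f k z) * Λ ^ k) * (t : ℂ) ^ j := by
      rw [ht]
      refine Finset.sum_congr rfl fun j hj => ?_
      rw [h1 f n j (Finset.mem_range.1 hj)]
    rw [hc] at h2'
    have e : MvPolynomial.aeval ![xn L (z + R), yy L (z + R)] f -
        ∑ k ∈ Finset.range n, MvPolynomial.aeval ![xn L z, yy L z] ((dW a2 a4)^[k] f) /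
          (k.factorial : ℂ) *
          vpi (fun j => if j < n then PowerSeries.coeff j Λ else 0) n
            (tX (xn L) (yy L) R) ^ k =
        (MvPolynomial.aeval ![xn L (z + R), yy L (z + R)] f - ∑ j ∈ Finset.range n,
          PowerSeries.coeff j (∑ k ∈ Finset.range n,
            PowerSeries.C (dd L a2 a4 f k z) * Λ ^ k) * (t : ℂ) ^ j) -
          ((t ^ n * r : V) : ℂ) := by
      rw [← hr, hvpi]
      simp only [dd]
      ring
    rw [e]
    refine (Valuation.map_sub _ _ _).trans (max_le h2' ?_)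
    push_cast
    rw [map_mul, map_pow, ht]
    calc V.valuation (tX (xn L) (yy L) R) ^ n * V.valuation (r : ℂ)
        ≤ V.valuation (tX (xn L) (yy L) R) ^ n * 1 :=
          mul_le_mul_right ((ValuationSubring.valuation_le_one_iff _ _).2 r.2) _
      _ = V.valuation (tX (xn L) (yy L) R) ^ n := mul_one _

end Pool.Agent.TWI
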