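import Pool.Agent.TWI.StI1
import Pool.Agent.TWT.FOI
import Pool.Agent.TWT.ADV

/-!
# TWI, block A, module VPA: the truncated logarithm under an isogeny (helper68)
-/

set_option autoImplicit false

open WeierstrassCurve PowerSeries

namespace Pool.Agent.TWI

open _root_.MU3 Pool.Agent.MU3A Pool.Agent.MU3B Pool.Agent.MUX Pool.Agent.MUXU Pool.Agent.TWT
open Pool.Agent.MUXV (GR InK tX HalfI)

namespace VPA

lemma aeval_inX {V : ValuationSubring ℂ} (x y : ℂ) (g : Polynomial V) :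
    MvPolynomial.aeval ![x, y] (inX g) = Polynomial.aeval x g := by
  unfold inX
  rw [← Polynomial.aeval_algHom_apply]
  simp

/-- `n (ω₁/3) ∈ L` only if `3 ∣ n` -/
lemma third_mem {L : PeriodPair} {n : ℕ} (h : (n : ℂ) * (L.ω₁ / 3) ∈ L.lattice) : 3 ∣ n := by
  obtain ⟨m, k, hmn⟩ := L.mem_lattice.1 h
  have hi := L.indep
  rw [LinearIndependent.pair_iff] at hi
  have h1 := hi ((m : ℝ) - n / 3) k (by
    simp only [Complex.real_smul]
    push_cast
    linear_combination hmn)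
  have h2 : (m : ℝ) = n / 3 := by linarith [h1.1]
  have h4 : (3 * m : ℝ) = n := by rw [h2]; ring
  have h5 : (3 * m : ℤ) = n := by exact_mod_cast h4
  omega

/-- the Cauchy product, truncated -/
lemma cauchy {V : ValuationSubring ℂ} {q : ℕ} (F B : ℕ → ℂ)
    (hF : ∀ i < q, V.valuation (F i) ≤ 1) (hB : ∀ i < q, V.valuation (B i) ≤ 1) {w : ℂ}
    {τ : V.ValueGroup} (hτ : τ ≤ 1) (hw : V.valuation w ≤ τ) :
    V.valuation ((∑ i ∈ Finset.range q, F i * w ^ i) * (∑ j ∈ Finset.range q, B j * w ^ j) -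
      ∑ k ∈ Finset.range q, (∑ i ∈ Finset.range (k + 1), F i * B (k - i)) * w ^ k) ≤ τ ^ q := by
  set G : ℕ × ℕ → ℂ := fun m => F m.1 * B m.2 * (w ^ m.1 * w ^ m.2) with hG
  have h1 : (∑ i ∈ Finset.range q, F i * w ^ i) * (∑ j ∈ Finset.range q, B j * w ^ j) =
      ∑ m ∈ Finset.range q ×ˢ Finset.range q, G m := by
    rw [Finset.sum_mul_sum, ← Finset.sum_product']
    refine Finset.sum_congr rfl (fun m _ => ?_)
    rw [hG]
    ring
  have h2 : ∑ k ∈ Finset.range q, (∑ i ∈ Finset.range (k + 1), F i * B (k - i)) * w ^ k =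
      ∑ m ∈ (Finset.range q ×ˢ Finset.range q).filter (fun m => m.1 + m.2 < q), G m := by
    rw [← ADV.sum_anti]
    refine Finset.sum_congr rfl (fun k _ => ?_)
    rw [Finset.Nat.sum_antidiagonal_eq_sum_range_succ_mk, Finset.sum_mul]
    refine Finset.sum_congr rfl (fun i hi => ?_)
    rw [Finset.mem_range] at hi
    rw [hG]
    show F i * B (k - i) * w ^ k = F i * B (k - i) * (w ^ i * w ^ (k - i))
    rw [← pow_add]
    congr 2
    omega
  rw [h1, h2, ← Finset.sum_filter_add_sum_filter_not (Finset.range q ×ˢ Finset.range q)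
    (fun m : ℕ × ℕ => m.1 + m.2 < q) G, add_sub_cancel_left]
  refine Valuation.map_sum_le _ (fun m hm => ?_)
  rw [Finset.mem_filter, Finset.mem_product, Finset.mem_range, Finset.mem_range, not_lt] at hm
  obtain ⟨⟨hm1, hm2⟩, hm3⟩ := hm
  rw [hG]
  show V.valuation (F m.1 * B m.2 * (w ^ m.1 * w ^ m.2)) ≤ _
  rw [map_mul, map_mul, map_mul, map_pow, map_pow]
  calc V.valuation (F m.1) * V.valuation (B m.2) *
        (V.valuation w ^ m.1 * V.valuation w ^ m.2)
      ≤ 1 * 1 * (τ ^ m.1 * τ ^ m.2) :=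
        mul_le_mul' (mul_le_mul' (hF _ hm1) (hB _ hm2))
          (mul_le_mul' (pow_le_pow_left' hw _) (pow_le_pow_left' hw _))
    _ = τ ^ (m.1 + m.2) := by rw [one_mul, one_mul, pow_add]
    _ ≤ τ ^ q := pow_le_pow_right_of_le_one' hτ hm3

end VPA

theorem i_VPA (hCOM : S_COM) (hLEI : S_LEI) : S_VPA := by
  intro V L M a2 a4 b2 b4 hGL hGM mu n hI q hq lam lam' T T' R hR hRL
  have hGL2 := hGL
  have hGM2 := hGM
  obtain ⟨W, ξ, G, -, -⟩ := hGL2
  obtain ⟨W', ξ', G', -, -⟩ := hGM2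
  obtain ⟨hSK, hSM, hSt⟩ := t_FOI V L M mu n ⟨W, ξ, G⟩ ⟨W', ξ', G'⟩ hI.ne hI.sub hI.odd hI.unit
    hI.ker hI.vmu R hR hRL
  obtain ⟨hτ1, hτ0, -⟩ := MUXV.v_tX_lt G hR hRL
  set t := tX (xn L) (yy L) R with ht
  set t' := tX (xn M) (yy M) (mu * R) with ht'
  set τ := V.valuation t with hτ
  have hτ2 : τ ^ 2 ≤ τ := by
    rw [pow_two]
    exact mul_le_of_le_one_right' hτ1.le
  have hvt' : V.valuation t' ≤ τ := by
    have h1 : t' = (t' - mu * t) + mu * t := by ring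
    rw [h1]
    refine Valuation.map_add_le _ (hSt.trans hτ2) ?_
    rw [map_mul, hI.vmu, one_mul]
  -- the auxiliary point
  set z := L.ω₁ / 3 with hz
  have hmz : mu * z ∉ M.lattice := fun h => hI.n3 (VPA.third_mem (hI.ker z h))
  have h3 : V.valuation ((3 : ℕ) : ℂ) = 1 := by exact_mod_cast hI.v3
  have h3mz : ((3 : ℕ) : ℂ) * (mu * z) ∈ M.lattice := by
    have : ((3 : ℕ) : ℂ) * (mu * z) = mu * L.ω₁ := by rw [hz]; push_cast; ring
    rw [this]
    exact hI.sub _ L.ω₁_mem_lattice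
  have hz1 : ¬ InK V M (xn M) (mu * z) := fun h =>
    hmz (MUXV.mem_of_nat_mul G' h h3 h3mz)
  have hz2 : ¬ InK V M (xn M) (2 * (mu * z)) := by
    intro h
    have h4 : 2 * (mu * z) ∈ M.lattice := MUXV.mem_of_nat_mul G' h h3 (by
      have : ((3 : ℕ) : ℂ) * (2 * (mu * z)) = ((3 : ℕ) : ℂ) * (mu * z) +
        ((3 : ℕ) : ℂ) * (mu * z) := by ring
      rw [this]
      exact add_mem h3mz h3mz)
    apply hmz
    have h5 : mu * z = ((3 : ℕ) : ℂ) * (mu * z) - 2 * (mu * z) := by push_cast; ring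
    rw [h5]
    exact sub_mem h3mz h4
  have hY : V.valuation (yy M (mu * z)) = 1 :=
    (MUXV.tq_YUN V W' M (xn M) (yy M) ξ' G' (mu * z) hz1 hz2).1
  -- the quotient of polynomials
  obtain ⟨PA, PB, hAB, hPB⟩ := hCOM V L M a2 a4 b2 b4 hGL hGM mu n hI
  have hzL : ¬ InK V L (xn L) z := (hPB z hz1).1
  have hzS : ¬ InK V M (xn M) (mu * z + mu * R) := (MUXV.near G' hz1 hSK hSM).1
  have hmzR : mu * (z + R) = mu * z + mu * R := by ring
  have hzS' : ¬ InK V M (xn M) (mu * (z + R)) := by rw [hmzR]; exact hzS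
  obtain ⟨-, hPBv⟩ := hPB (z + R) hzS'
  have hE := hAB (z + R) (MUXV.int_X hzS').1
  rw [hmzR] at hE
  -- Taylor expansions
  have tA := T.tay R hR hRL z hzL (inX PA)
  have tB := T.tay R hR hRL z hzL (inX PB)
  rw [VPA.aeval_inX] at tA tB
  have tM := (T'.tay (mu * R) hSK hSM (mu * z) hz1 (MvPolynomial.X 0)).trans
    (pow_le_pow_left' hvt' q)
  rw [MvPolynomial.aeval_X] at tM
  rw [← ht, ← hτ] at tA tB
  rw [← ht'] at tM
  set w := vpi lam q t with hw
  set w' := vpi lam' q t' with hw'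
  have hvw : V.valuation w ≤ τ := ADV.v_vpi T.lam0 T.int le_rfl hτ1.le
  have hvw' : V.valuation w' ≤ τ := ADV.v_vpi T'.lam0 T'.int hvt' hτ1.le
  set D : ℕ → ℂ := fun i => dd M b2 b4 (MvPolynomial.X 0) i (mu * z) with hD
  set B : ℕ → ℂ := fun i => dd L a2 a4 (inX PB) i z with hB
  have hDv : ∀ i < q, V.valuation (D i) ≤ 1 := fun i hi => T'.dint (mu * z) hz1 _ i hi
  have hBv : ∀ i < q, V.valuation (B i) ≤ 1 := fun i hi => T.dint z hzL _ i hi
  have hFv : ∀ i < q, V.valuation (mu ^ i * D i) ≤ 1 := fun i hi => by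
    rw [map_mul, map_pow, hI.vmu, one_pow, one_mul]
    exact hDv i hi
  have hA : ∀ k, dd L a2 a4 (inX PA) k z =
      ∑ i ∈ Finset.range (k + 1), mu ^ i * D i * B (k - i) := fun k =>
    (hLEI V L M a2 a4 b2 b4 hGL hGM mu hI.ne hI.sub PA PB hAB k z hmz).symm
  have tA' : V.valuation (Polynomial.aeval (xn L (z + R)) PA -
      ∑ k ∈ Finset.range q, (∑ i ∈ Finset.range (k + 1), mu ^ i * D i * B (k - i)) * w ^ k) ≤
        τ ^ q := by
    refine le_trans (le_of_eq (congrArg _ (congrArg _ (Finset.sum_congr rfl fun k _ => ?_)))) tA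
    rw [← hA k]
    rfl
  have tB' : V.valuation (Polynomial.aeval (xn L (z + R)) PB -
      ∑ k ∈ Finset.range q, B k * w ^ k) ≤ τ ^ q := tB
  have tM' : V.valuation (xn M (mu * z + mu * R) - ∑ k ∈ Finset.range q, D k * w' ^ k) ≤
      τ ^ q := tM
  have hC := VPA.cauchy (V := V) (q := q) (fun i => mu ^ i * D i) B hFv hBv hτ1.le hvw
  -- the sum with the multiplier
  obtain ⟨SF, hSF⟩ : ∃ SF : ℂ, SF = ∑ i ∈ Finset.range q, mu ^ i * D i * w ^ i := ⟨_, rfl⟩
  have hSFv : V.valuation SF ≤ 1 := by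
    rw [hSF]
    refine Valuation.map_sum_le _ (fun i hi => ?_)
    rw [Finset.mem_range] at hi
    rw [map_mul, map_pow]
    exact mul_le_one' (hFv i hi) (pow_le_one' (hvw.trans hτ1.le) i)
  have hSF2 : SF = ∑ i ∈ Finset.range q, D i * (mu * w) ^ i := by
    rw [hSF]
    refine Finset.sum_congr rfl fun i _ => ?_
    rw [mul_pow]
    ring
  have hC' : V.valuation (SF * ∑ k ∈ Finset.range q, B k * w ^ k -
      ∑ k ∈ Finset.range q, (∑ i ∈ Finset.range (k + 1), mu ^ i * D i * B (k - i)) * w ^ k) ≤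
        τ ^ q := by
    rw [hSF]
    exact hC
  have hSB : V.valuation (SF * (Polynomial.aeval (xn L (z + R)) PB -
      ∑ k ∈ Finset.range q, B k * w ^ k)) ≤ τ ^ q := by
    rw [map_mul]
    calc _ ≤ 1 * τ ^ q := mul_le_mul' hSFv tB'
      _ = τ ^ q := one_mul _
  have h5 : V.valuation ((xn M (mu * z + mu * R) - SF) *
      Polynomial.aeval (xn L (z + R)) PB) ≤ τ ^ q := by
    have h6 := Valuation.map_sub_le _ (Valuation.map_sub_le _ tA' hC') hSB
    refine le_trans (le_of_eq (congrArg _ ?_)) h6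
    rw [sub_mul, hE]
    ring
  rw [map_mul, hPBv, mul_one] at h5
  have h7 : V.valuation (∑ k ∈ Finset.range q, D k * w' ^ k -
      ∑ k ∈ Finset.range q, D k * (mu * w) ^ k) ≤ τ ^ q := by
    have h8 := Valuation.map_sub_le _ h5 tM'
    refine le_trans (le_of_eq (congrArg _ ?_)) h8
    rw [hSF2]
    ring
  refine ADV.cancel hq D hDv ?_ hτ1 hvw' ?_ h7
  · have h8 : D 1 = 2 * yy M (mu * z) := by
      show MvPolynomial.aeval ![xn M (mu * z), yy M (mu * z)]
        (dW b2 b4 (MvPolynomial.X 0)) / ((Nat.factorial 1 : ℕ) : ℂ) = _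
      rw [dW, MvPolynomial.mkDerivation_X]
      simp
    rw [h8, map_mul, G'.two, hY, one_mul]
  · rw [map_mul, hI.vmu, one_mul]
    exact hvw

end Pool.Agent.TWI
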