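import Pool.Agent.TWI.EXP
import Pool.Agent.TWI.TRG
import Pool.Agent.TWI.COM
import Pool.Agent.TWI.LEI
import Pool.Agent.TWI.LOG
import Pool.Agent.TWI.TYI
import Pool.Agent.TWI.VPA
import Pool.Agent.TWI.KY1
import Pool.Agent.TWI.R2I
import Pool.Agent.TWI.R4I
import Pool.Agent.TWI.GRI
import Pool.Agent.TWI.PTI
import Pool.Agent.TWI.MLI
import Pool.Agent.TWI.LGI
import Pool.Agent.TWI.KRI
import Pool.Agent.TWI.TRI
import Pool.Agent.TWI.ROT
import Pool.Agent.TWI.KEYI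

/-!
# TWI, block A: everything (helper3): `S_KEYI`, `S_KRI`, `S_TRI`, `S_LGI`, `S_ROT` without hypotheses
-/

set_option autoImplicit false

namespace Pool.Agent.TWI

theorem a_LOG : S_LOG := i_LOG i_TRG i_COM i_LEI

theorem a_TYI : S_TYI := i_TYI i_TRG

theorem a_VPA : S_VPA := i_VPA i_COM i_LEI

theorem a_MLI : S_MLI := i_MLI i_GRI

theorem a_LGI : S_LGI := i_LGI a_LOG a_MLI

/-- (KRI) the points of order `p` are in the kernel of reduction -/
theorem a_KRI : S_KRI := i_KRI i_R2I i_R4I i_GRI i_PTI a_MLI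

theorem a_TRI : S_TRI := i_TRI a_KRI a_MLI i_PTI i_GRI

theorem a_ROT : S_ROT := i_ROT a_VPA a_KRI a_MLI i_PTI i_GRI

/-- (KEYI) the congruence of block A, inert case -/
theorem a_KEYI : S_KEYI := i_KEYI i_EXP a_LGI a_TYI a_ROT i_KY1 i_GRI i_PTI a_KRI

end Pool.Agent.TWI
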