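import Pool.Agent.TWI.DefsI
import Pool.Agent.TWT.StT2

/-!
# TWI, block B: a large sum `SSTI` gives a non-power, `p` inert (helper59)

As `Pool/Agent/TWT/StT2.lean` (block B for split `p`; its modules are proved, the files `Pool/Agent/TWT/X.lean` are the models: copy and adapt them).
`SetI p A B P V f`: `P = (p)` is prime, `O/P` has `q = p²` elements; `R : Reps A B (p * f) ι`, `m` a level prime to `p` (`LvM`), `M = m p`, `F = RF (idl M)`,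
`G = Gal(F/k)`. `v = V.valuation`. `x0 ∈ P`, `x0 ≡ 1` modulo `m`; `T` = representatives of the nonzero classes modulo `P` (`RepI P T`), `a_c = x0 + c m`, `c ∈ T`:
prime to `M`, `≡ 1` modulo `m`. `pt R M i (x a_c) = z + pt R p i (x c)`, `z = pt R M i (x x0)` of level `m` (`x0 = p x1`, `z = pt R m i (x x1)`).
Every `def S_X : Prop` is the statement of a module, which proves `theorem t_X (h : S_Y) ... : S_X` (hypotheses: the statements named under USES, fewer is fine)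
in `Pool/Agent/TWI/X.lean`, namespace `Pool.Agent.TWI`. The general modules of the split block B are THEOREMS which may be cited: `Pool.Agent.TWT.t_HTF`, `t_DTP`, `t_NMF`,
`t_KUM`, `t_PROG`, `t_RSF` (`Pool/Agent/TWT/HTF.lean`, ..); also all facts named in the header of `StT2.lean`.
-/

set_option autoImplicit false

open WeierstrassCurve Polynomial NumberField IsDedekindDomain

namespace Pool.Agent.TWI

open _root_.MU3 Pool.Agent.MU3A Pool.Agent.MU3B Pool.Agent.MU3C Pool.Agent.RI Pool.Agent.RID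
open Pool.Agent.MUX Pool.Agent.MUXU Pool.Agent.MUXW Pool.Agent.TWT
open Pool.Agent.MU3V (cls Sub GD algDF)
open Pool.Agent.MUXV (GR InK tX)
open Pool.Agent.MUXI (IA RE AR)
open OnePoint

noncomputable section

/-! ## 1. Ideals and valuations -/

/-- (IDPI) ideals. PROOF. `x ∈ idl p` iff `p` divides `x.re` and `x.im` ((1)). (2) `nI (sp p) = nm p = p²` (`nI_sp` of `XLib.lean`); `T` is in bijection with the nonzero classes; a set `T` exists (choose a representative in each nonzero class; `O/P` is finite). (3) `u m + v p = 1` in `ℤ`: `x0 = v p`. (4) `x0 + c m`: modulo `P`: `≡ c m ∉ P` (`P` prime, `m ∉ P` by (1)); `P` is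
maximal (finite domain), so it is prime to `p`; modulo `m`: `≡ 1`. (5) an `x` prime to `f` and not in `P` is prime to every `m p`, if the prime divisors of `m` divide `f` (stated for `m = f l^N`). -/
def S_IDPI : Prop :=
  ∀ (p : ℕ) (A B : ℤ) (P : Ideal (OO A B)) (V : ValuationSubring ℂ) (f : ℕ), SetI p A B P V f →
    (∀ c : ℤ, (c : OO A B) ∈ P ↔ (p : ℤ) ∣ c) ∧
    Nat.card (OO A B ⧸ P) = p ^ 2 ∧ (∃ T, RepI P T) ∧ (∀ T, RepI P T → T.card = p ^ 2 - 1) ∧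
    (∀ m : ℕ, ¬ p ∣ m → IsCoprime (idl (A := A) (B := B) m) P ∧
      (∃ x0 : OO A B, x0 ∈ P ∧ x0 - 1 ∈ idl (A := A) (B := B) m)) ∧
    (∀ (m : ℕ) (x0 : OO A B), m ≠ 0 → ¬ p ∣ m → x0 ∈ P → x0 - 1 ∈ idl (A := A) (B := B) m →
      ∀ c : OO A B, c ∉ P → IsCoprime (x0 + c * m) ((m * p : ℕ) : OO A B) ∧
        x0 + c * m - 1 ∈ idl (A := A) (B := B) m) ∧
    ∀ (l N : ℕ), l ∣ f → ∀ x : OO A B, IsCoprime (sp x) (idl f : Ideal (OO A B)) → x ∉ P →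
      IsCoprime x ((f * l ^ N * p : ℕ) : OO A B)

/-- (VPGI) the valuation: as `S_VPG` (`TWT/VPG.lean`), for `SetI`. -/
def S_VPGI : Prop :=
  ∀ (p : ℕ) (A B : ℤ) (P : Ideal (OO A B)) (V : ValuationSubring ℂ) (f : ℕ), SetI p A B P V f →
    V.valuation (p : ℂ) < 1 ∧ V.valuation (p : ℂ) ≠ 0 ∧
    (∀ x : OO A B, V.valuation (emb x) ≤ 1 ∧ (V.valuation (emb x) < 1 ↔ x ∈ P)) ∧
    (∀ n : ℤ, ¬ (p : ℤ) ∣ n → V.valuation (n : ℂ) = 1) ∧
    V.valuation (2 : ℂ) = 1 ∧ V.valuation (3 : ℂ) = 1 ∧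
    ∀ (ι : Type) (R : Reps A B (p * f) ι), GRd V R → ∀ i, GRn V (R.L i) ∧
      ∀ (m : ℕ) (z : ℂ), ¬ p ∣ m → (m : ℂ) * z ∈ (R.L i).lattice → InEn V (R.L i) z →
        z ∈ (R.L i).lattice

/-- (RAMGI) as `S_RAMG` (`TWT/RAMG.lean`), for `SetI`. USES VPGI. Only change: `p ∉ P²`: `P² = (p²)`, `p = p² y` is impossible (`1 = p y`, `P` would be `⊤`). -/
def S_RAMGI : Prop :=
  ∀ (p : ℕ) (A B : ℤ) (P : Ideal (OO A B)) (V : ValuationSubring ℂ) (f : ℕ), SetI p A B P V f →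
    ∀ (F : IntermediateField (kk A B) ℂ) [FiniteDimensional (kk A B) F] [IsGalois (kk A B) F],
      (∀ σ : F ≃ₐ[kk A B] F, (∀ x : F, V.valuation (x : ℂ) ≤ 1 →
        V.valuation ((σ x : ℂ) - x) < 1) → σ = 1) →
      ∀ y ∈ F, y ≠ 0 → ∃ k : ℤ, V.valuation y = V.valuation (p : ℂ) ^ k

/-- (UNRGI) as `S_UNRG` (`TWT/UNRG.lean`), for `SetI`. USES VPGI, RAMGI. -/
def S_UNRGI : Prop :=
  ∀ (p : ℕ) (A B : ℤ) (P : Ideal (OO A B)) (V : ValuationSubring ℂ) (f : ℕ), SetI p A B P V f →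
    TorX A B → ∀ (ι : Type) [Finite ι] (R : Reps A B (p * f) ι), GRd V R →
    ∀ m : ℕ, m ≠ 0 → ¬ p ∣ m → ∀ y ∈ (RF (idl m) : IntermediateField (kk A B) ℂ), y ≠ 0 →
      ∃ k : ℤ, V.valuation y = V.valuation (p : ℂ) ^ k

/-- (MUGI) as `S_MUG` (`TWT/MUG.lean`), for `SetI`. USES VPGI. -/
def S_MUGI : Prop :=
  ∀ (p : ℕ) (A B : ℤ) (P : Ideal (OO A B)) (V : ValuationSubring ℂ) (f : ℕ), SetI p A B P V f →
    ∀ (ι : Type) (R : Reps A B (p * f) ι), GRd V R → ∀ i, V.valuation (muX R i) = 1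

/-- (EABE) the second part of `S_EAB` (`TWT/EAB.lean`) with any exponent `e` in place of `p - 1`; same proof: `EtT t C ^ e * EtT t C'' = EtT t K * EtT (t ∘ (χ φ *)) C''` up to powers. -/
def S_EABE : Prop :=
  ∀ (p : ℕ) [Fact p.Prime] (G Fr Mt : Type) [Group G] [Fintype G] [Field Fr] [CharP Fr p]
    [CommGroup Mt] (χ : G →* Frˣ) (e : ℕ) (C C'' K : G → Mt) (φ : G), χ φ ≠ 1 →
      (∀ τ, C τ ^ e * C'' τ = K τ * C'' (τ * φ)) →
      (∀ t : Fr →+ ZMod p, ∃ y : Mt, y ^ p = EtT p χ t C) →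
      (∀ t : Fr →+ ZMod p, ∃ y : Mt, y ^ p = EtT p χ t K) →
      ∀ t : Fr →+ ZMod p, ∃ y : Mt, y ^ p = EtT p χ t (fun τ => (C τ / C'' τ) ^ e)

/-! ## 2. The points and the norm relation -/

/-- (KRPI) the kernel `E[p]` (model: `TWT/KRP.lean`).

USES IDPI. PROOF. `L = R.L i = om_i emb (b_i)`, `P = (p)`: `mu z ∈ L'` iff `x z ∈ L` for all `x ∈ P`, iff `p z ∈ L` (`L` is stable under `emb O`). (2) `pt R p i c - pt R p i c' = om_i N(b_i) emb (c - c')/p`; it is in `L` iff `N(b_i)(c - c') ∈ p b_i`; `c - c' ∈ P` suffices (`N(b_i) ∈ b_i`); conversely multiply by `cjI b_i`: `N(b_i) (c - c') cjI (b_i) ⊆ p N(b_i) O`, so `(c - c') cjI (b_i) ⊆ (p) = P`,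
`cjI (b_i)` contains `N(b_i)`, which is prime to `p` (`R.cop`), so `c - c' ∈ P`. (3) `0 < ` all classes: `p z ∈ L`, `z = om_i u`, `p u = emb β`, `β ∈ b_i`; `s N(b_i) + t p = 1` in `ℤ`: `u = emb (s N(b_i) β + t p β)/p = N(b_i) emb (s β)/p + emb (t β)`, so `z ≡ pt R p i (s β)` modulo `L`. So `{pt R p i c : c ∈ T}` represents the nonzero classes. Card: by (2) and `RepI.inj` the map is
injective on `T`. -/
def S_KRPI : Prop :=
  ∀ (p : ℕ) (A B : ℤ) (P : Ideal (OO A B)) (V : ValuationSubring ℂ) (f : ℕ), SetI p A B P V f →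
    ∀ (ι : Type) (R : Reps A B (p * f) ι) (i : ι) (L' : PeriodPair) (mu : ℂ),
    IsQ P (R.L i) L' mu → ∀ T : Finset (OO A B), RepI P T →
    Isg (R.L i) L' mu ∧ (∀ z, mu * z ∈ L'.lattice → (p : ℂ) * z ∈ (R.L i).lattice) ∧
    (∀ c c' : OO A B, pt R p i c - pt R p i c' ∈ (R.L i).lattice ↔ c - c' ∈ P) ∧
    IsRpM (R.L i) L' mu (T.image (pt R p i)) ∧ (T.image (pt R p i)).card = p ^ 2 - 1

/-- (NRRI) the norm relation over `P = (p)` (model: `TWT/NRR.lean`).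

USES IDPI, KRPI (and `t_HTF`, `t_DTP` of TWT). PROOF. As `S_NRR`, with these changes: `I = idl m` (`P` is coprime to `I`: IDPI), `TorX.surj (idl m) P` gives `s₀`; `x0 = p x1`, so `z_b = pt R M i0 (b x0) = om_0 emb (b x1)/m` is of level `m`. `a_c = x0 + c m`, `c ∈ T`: `pt R M i0 (b a_c) = z_b + pt R p i0 (b c)`. For `b` prime to `M` the set `b T` is a system of
representatives too (`b ∉ P`, `P` prime), so (KRPI) for `b T`, (DTP) with `n = p` and `card = p² - 1` even; the product over the classes of `E[p] - 0` does not depend on `b`. `φ(Θ(z_b)) = Θ(mu z_b; L')`. Galois theory at the end as in NRR. -/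
def S_NRRI : Prop :=
  ∀ (p : ℕ) (A B : ℤ) (P : Ideal (OO A B)) (V : ValuationSubring ℂ) (f : ℕ), SetI p A B P V f →
    TorX A B → ∀ (ι : Type) [Finite ι] (R : Reps A B (p * f) ι) (m : ℕ), LvM p f m R →
    ∀ (x0 : OO A B), x0 ∈ P → x0 - 1 ∈ idl (A := A) (B := B) m → ∀ T : Finset (OO A B), RepI P T →
    ∀ (a : ℕ) (H : Finset ℂ), 1 < a → a.Coprime (2 * m * p) → IsHalf (R.L R.i0) a H →
    ∀ θ : (RF (idl (m * p)) : IntermediateField (kk A B) ℂ),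
    (θ : ℂ) = ThetaH (R.L R.i0) H (pt R (m * p) R.i0 1) →
    ∃ (θ'' κ : (RF (idl (m * p)) : IntermediateField (kk A B) ℂ))
      (γ : OO A B →
        ((RF (idl (m * p)) : IntermediateField (kk A B) ℂ) ≃ₐ[kk A B] RF (idl (m * p))))
      (φ : (RF (idl (m * p)) : IntermediateField (kk A B) ℂ) ≃ₐ[kk A B] RF (idl (m * p)))
      (s₀ : ℂ ≃+* ℂ),
      (θ'' : ℂ) = ThetaH (R.L R.i0) H (pt R (m * p) R.i0 x0) ∧ θ ≠ 0 ∧ θ'' ≠ 0 ∧ κ ≠ 0 ∧
      (κ : ℂ) ∈ (RF (⊤ : Ideal (OO A B)) : IntermediateField (kk A B) ℂ) ∧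
      (∀ c ∈ T, HitF R (m * p) _ (γ c) R.i0 (x0 + c * m)) ∧
      (∀ c ∈ T, ∀ y : (RF (idl (m * p)) : IntermediateField (kk A B) ℂ),
        (y : ℂ) ∈ (RF (idl m) : IntermediateField (kk A B) ℂ) → γ c y = y) ∧
      (∏ c ∈ T, γ c θ) * θ'' = κ * φ θ'' ∧
      IA s₀ (idl (A := A) (B := B) m) P ∧
      ∀ y : (RF (idl (m * p)) : IntermediateField (kk A B) ℂ), s₀ (y : ℂ) = ((φ y :
        (RF (idl (m * p)) : IntermediateField (kk A B) ℂ)) : ℂ)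

/-! ## 3. The sums -/

/-- (XPCI) the conjugates of `u = ∏ γ_c θ / θ''^(q-1)` to the first order (model: `TWT/XPC.lean`).

USES S_KEYI (block A), IDPI, VPGI (and `t_HTF`). PROOF. `t0 := t0' w(m)⁻¹`, `t0'` from `S_KEYI`; `w(m)` is a root of unity (`m ∉ P`). HTF (5): `σ(γ_c θ) = Θ(L_i; pt R M i (x a_c))` (`γ_c θ = Θ(pt R M i0 a_c)` by HTF (5) for `γ_c` and `x' = 1`), `σ θ'' = Θ(L_i; z)`, `z = pt R M i (x x0)`, `pt R M i (x a_c) = z + pt R p i (x c)`. `x ∉ P` (prime to `M`), so `T' = x T` is a system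
of representatives (`RepI`), and `c ↦ x c` is injective on `T`. Apply `S_KEYI` for `T'` (`∏_(y ∈ T') = ∏_(c ∈ T)`, `Finset.prod_image`) and `H' = H i` a half system on `L_i`; divide by `Θ(z)^(q-1)`, a unit (first clause, `x = 0`: `pt R p i 0 = 0`). `w (x c) = w(m)⁻¹ w (x a_c)` (`x a_c ≡ x c m` modulo `P`). `z`, `2 z`, `a z` are not in the kernel of reduction: if `n z` is (`n = 1, 2, a`):
`m (n z) ∈ L_i` (`x0 = p x1`), so `n z ∈ L_i` (VPGI), `m ∣ n x x1`.. as in XPC: `x` and `x1` are prime to `m` (`p x1 ≡ 1`), so `m ∣ n`; `m ≥ 3`, `a > 1` prime to `m`: a contradiction. -/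
def S_XPCI : Prop :=
  ∀ (p : ℕ) (A B : ℤ) (P : Ideal (OO A B)) (V : ValuationSubring ℂ) (f : ℕ), SetI p A B P V f →
    TorX A B → ∀ (ι : Type) [Finite ι] (R : Reps A B (p * f) ι), GRd V R → ∀ (m : ℕ),
    LvM p f m R → ∀ (x0 : OO A B), x0 ∈ P → x0 - 1 ∈ idl (A := A) (B := B) m →
    ∀ w : OO A B → ℂ, TeiI p P V w → ∀ T : Finset (OO A B), RepI P T →
    ∃ t0 : ℂ, t0 ≠ 0 ∧ V.valuation t0 ^ (p ^ 2 - 1) = V.valuation (p : ℂ) ∧
    ∀ (a : ℕ) (H : Finset ℂ), 1 < a → a.Coprime (2 * m * p) → IsHalf (R.L R.i0) a H →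
    ∀ θ θ'' : (RF (idl (m * p)) : IntermediateField (kk A B) ℂ),
    (θ : ℂ) = ThetaH (R.L R.i0) H (pt R (m * p) R.i0 1) →
    (θ'' : ℂ) = ThetaH (R.L R.i0) H (pt R (m * p) R.i0 x0) →
    ∀ γ : OO A B →
      ((RF (idl (m * p)) : IntermediateField (kk A B) ℂ) ≃ₐ[kk A B] RF (idl (m * p))),
    (∀ c ∈ T, HitF R (m * p) _ (γ c) R.i0 (x0 + c * m)) →
    ∀ (σ : (RF (idl (m * p)) : IntermediateField (kk A B) ℂ) ≃ₐ[kk A B] RF (idl (m * p)))
      (i : ι) (x : OO A B), HitF R (m * p) _ σ i x →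
      V.valuation (((σ ((∏ c ∈ T, γ c θ) / θ'' ^ (p ^ 2 - 1)) :
          (RF (idl (m * p)) : IntermediateField (kk A B) ℂ)) : ℂ) - 1 +
        muX R i * t0 * ∑ c ∈ T, w (x * (x0 + c * m)) *
          dlX (R.L i) a (pt R (m * p) i (x * (x0 + c * m)))) ≤
        V.valuation (p : ℂ) * V.valuation t0 ∧
      V.valuation t0 * V.valuation (∑ c ∈ T, w (x * (x0 + c * m)) *
          dlX (R.L i) a (pt R (m * p) i (x * (x0 + c * m)))) ≤ V.valuation (p : ℂ)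

/-- (CNTI) counting, for any level (model: `TWT/CNT.lean`).

Uses `t_HTF`. PROOF. `G' i x := G i (x a)` is periodic modulo `M`, even, `0` if `x` is not prime to `M`, and `sumMod M (G' i) = sumMod M (G i)` (`x ↦ x a` permutes `O/M`). So let `a = 1`. By HTF (1)-(4) every `(i, x)`, `x` modulo `M` prime to `M`, is `(I σ, ± X σ)` for exactly one `σ` and one sign (`2 x ∉ idl M` as `x` is prime to `M` and `M ≥ 3`). -/
def S_CNTI : Prop :=
  ∀ (A B : ℤ), CQ A B → TorX A B → ∀ (n : ℕ) (ι : Type) [Fintype ι] (R : Reps A B n ι) (M : ℕ),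
    3 ≤ M → (∀ i, (nI (R.b i)).Coprime M) → ∀ (G : ι → OO A B → ℂ),
    (∀ i x y, x - y ∈ idl (A := A) (B := B) M → G i x = G i y) →
    (∀ i x, G i (-x) = G i x) →
    (∀ i x, ¬ IsCoprime x ((M : ℕ) : OO A B) → G i x = 0) →
    ∀ a : OO A B, IsCoprime a ((M : ℕ) : OO A B) →
    ∀ [Fintype (GalF A B M)] (I : GalF A B M → ι) (X : GalF A B M → OO A B),
    (∀ σ, HitF R M _ σ (I σ) (X σ)) →
    2 * ∑ σ : GalF A B M, G (I σ) (X σ * a) = ∑ i, sumMod ((M : ℕ) : OO A B) (G i)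

/-- (SIGI) the sum over `Gal(F/k)` in terms of `SDTI` (model: `TWT/SIG.lean`, but exact and simpler).

USES IDPI, VPGI, CNTI. PROOF. `M = f l^N p`, `m = f l^N`. `G i x = th i x w x mu_i dlX (L_i) a (pt R M i x)`, `th = thT R kp eta ψ`: periodic modulo `M`, even (`th` even; `w(-1) = -1` as `w(-1)² = 1`, `v(w(-1) + 1) < 1`, `v 2 = 1`; `dlX` odd), `0` if `x` is not prime to `M` (IDPI (5): `x` not prime to `f`: `eta x = 0`; `x ∈ P`: `w x = 0`). `a_c = x0 + c m` is prime to `M` and `≡ 1` modulo `m` (IDPI), so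
`th i (x a_c) = th i x`, and `Σ_σ th (I σ) (X σ) mu w (X σ a_c) dlX(pt (X σ a_c)) = Σ_σ G (I σ) (X σ a_c) = (1/2) Σ_i sumMod M (G i) = SDTI / 2` (CNTI) for every `c ∈ T`; `T.card = p² - 1`. (HTF needs `M ≥ 3` and `R.cop`: `l ∣ f`.) -/
def S_SIGI : Prop :=
  ∀ (p : ℕ) (A B : ℤ) (P : Ideal (OO A B)) (V : ValuationSubring ℂ) (f : ℕ), SetI p A B P V f →
    TorX A B → ∀ (ι : Type) [Fintype ι] (R : Reps A B (p * f) ι),
    ∀ (w : OO A B → ℂ), TeiI p P V w → ∀ (kp : ι → ℂ) (eta : OO A B → ℂ), ChD p f R kp eta →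
    ∀ (l N : ℕ), l.Prime → l ∣ f → ∀ ψ : DirichletCharacter ℂ (l ^ N), ψ (-1) = 1 →
    ∀ (x0 : OO A B), x0 ∈ P → x0 - 1 ∈ idl (A := A) (B := B) (f * l ^ N) →
    ∀ T : Finset (OO A B), RepI P T → ∀ (a : ℕ), 1 < a → a.Coprime (6 * f * p) →
    ∀ [Fintype (GalF A B (f * l ^ N * p))] (I : GalF A B (f * l ^ N * p) → ι)
      (X : GalF A B (f * l ^ N * p) → OO A B),
    (∀ σ, HitF R (f * l ^ N * p) _ σ (I σ) (X σ)) →
    2 * ∑ σ : GalF A B (f * l ^ N * p), thT R kp eta ψ (I σ) (X σ) * (muX R (I σ) *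
      ∑ c ∈ T, w (X σ * (x0 + c * (f * l ^ N : ℕ))) * dlX (R.L (I σ)) a
        (pt R (f * l ^ N * p) (I σ) (X σ * (x0 + c * (f * l ^ N : ℕ))))) =
      ((p : ℂ) ^ 2 - 1) * SDTI R (f * l ^ N * p) a (thT R kp eta ψ) w

/-- (SDEI) from `dlX` to `ee` (model: `TWT/SDE.lean`; there is no factor `oneT` here). USES IDPI, VPGI. -/
def S_SDEI : Prop :=
  ∀ (p : ℕ) (A B : ℤ) (P : Ideal (OO A B)) (V : ValuationSubring ℂ) (f : ℕ), SetI p A B P V f →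
    ∀ (ι : Type) [Fintype ι] (R : Reps A B (p * f) ι) (w : OO A B → ℂ), TeiI p P V w →
    ∀ (kp : ι → ℂ) (eta : OO A B → ℂ), ChD p f R kp eta →
    ∀ (l N : ℕ), l.Prime → l ∣ f → ∀ ψ : DirichletCharacter ℂ (l ^ N),
    ∀ (a : ℕ), 1 < a → a.Coprime (6 * f * p) →
    V.valuation (1 - (a : ℂ) ^ 2 * thT R kp eta ψ R.i0 a) = 1 →
    V.valuation (SDTI R (f * l ^ N * p) a (thT R kp eta ψ) w) =
      V.valuation (SSTI R (f * l ^ N * p) (thT R kp eta ψ) w)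

/-- (PHII) `χ(φ) ≠ 1` (model: `TWT/PHI.lean`, with `r = 1`, `y = p`: `P = sp p`). PROOF. `IA s₀ (idl m) (sp p * cjI (b i0))` (`b0`, `cjI ⊤ = ⊤`), so `(i0, mk p) ∈ XX R m h τφ`, `(χ τφ)⁻¹ = rsd V (th i0 p) ≠ 1`. -/
def S_PHII : Prop :=
  ∀ (p : ℕ) [Fact p.Prime] (A B : ℤ) (P : Ideal (OO A B)) (V : ValuationSubring ℂ) (f : ℕ),
    SetI p A B P V f → TorX A B → ∀ (ι : Type) [Finite ι] (R : Reps A B (p * f) ι)
    (kp : ι → ℂ) (eta : OO A B → ℂ), ChD p f R kp eta →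
    ∀ (l N : ℕ), l.Prime → l ∣ f → ∀ ψ : DirichletCharacter ℂ (l ^ N), ψ (-1) = 1 →
    V.valuation (1 - thT R kp eta ψ R.i0 ((p : ℕ) : OO A B)) = 1 →
    ∀ (D : IntermediateField ℚ ℂ) (h : kk A B ≤ D),
    Sub D (RF (idl (f * l ^ N)) : IntermediateField (kk A B) ℂ) → letI := algC h
    ∀ (χ : (D ≃ₐ[kk A B] D) →* (IsLocalRing.ResidueField V)ˣ),
    (∀ (τ : D ≃ₐ[kk A B] D), ∀ q ∈ XX R (f * l ^ N) h τ,
      rsd V (thT R kp eta ψ q.1 (Quotient.out q.2)) = (((χ τ)⁻¹ : (IsLocalRing.ResidueField V)ˣ) :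
        IsLocalRing.ResidueField V)) →
    ∀ (s₀ : ℂ ≃+* ℂ) (τφ : D ≃ₐ[kk A B] D), IA s₀ (idl (A := A) (B := B) (f * l ^ N)) P →
      ExtC h τφ s₀ → χ τφ ≠ 1

/-! ## 4. The result of the block -/

/-- (CRITI) from a large sum to a non-power (assembly: helper59). -/
def S_CRITI : Prop :=
  ∀ (p : ℕ) [Fact p.Prime] (A B : ℤ) (P : Ideal (OO A B)) (V : ValuationSubring ℂ) (f : ℕ),
    SetI p A B P V f → TorX A B → ∀ (ι : Type) [Fintype ι] (R : Reps A B (p * f) ι), GRd V R →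
    ∀ (w : OO A B → ℂ), TeiI p P V w → ∀ (kp : ι → ℂ) (eta : OO A B → ℂ), ChD p f R kp eta →
    ∀ (l N : ℕ), l.Prime → l ∣ f → ∀ ψ : DirichletCharacter ℂ (l ^ N), ψ (-1) = 1 →
    ∀ (a : ℕ), 1 < a → a.Coprime (6 * f * p) →
    V.valuation (1 - (a : ℂ) ^ 2 * thT R kp eta ψ R.i0 a) = 1 →
    V.valuation (1 - thT R kp eta ψ R.i0 ((p : ℕ) : OO A B)) = 1 →
    ∀ (H : Finset ℂ), IsHalf (R.L R.i0) a H →
    ∀ (θ : (RF (idl (f * l ^ N * p)) : IntermediateField (kk A B) ℂ)),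
    (θ : ℂ) = ThetaH (R.L R.i0) H (pt R (f * l ^ N * p) R.i0 1) →
    ∀ (D : IntermediateField ℚ ℂ) [FiniteDimensional ℚ D] [FiniteDimensional ℚ (kk A B)]
      (h : kk A B ≤ D),
    Sub D (RF (idl (f * l ^ N)) : IntermediateField (kk A B) ℂ) → letI := algC h
    ∀ (χ : (D ≃ₐ[kk A B] D) →* (IsLocalRing.ResidueField V)ˣ),
    (∀ (τ : D ≃ₐ[kk A B] D), ∀ q ∈ XX R (f * l ^ N) h τ,
      rsd V (thT R kp eta ψ q.1 (Quotient.out q.2)) = (((χ τ)⁻¹ : (IsLocalRing.ResidueField V)ˣ) :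
        IsLocalRing.ResidueField V)) →
    (∃ g : D ≃ₐ[kk A B] D, (∀ x : D,
      (x : ℂ) ∈ (RF (⊤ : Ideal (OO A B)) : IntermediateField (kk A B) ℂ) → g x = x) ∧ χ g ≠ 1) →
    ∀ c₀ : D, (c₀ : ℂ) = cW h θ →
    V.valuation (p : ℂ) ^ (p ^ 2 - 2) ≤
      V.valuation (SSTI R (f * l ^ N * p) (thT R kp eta ψ) w) ^ (p ^ 2 - 1) →
    ∃ t : (IsLocalRing.ResidueField V) →+ ZMod p, ∀ y : D, y ^ p ≠ Pool.Agent.TWK.sE p χ t c₀

open Pool.Agent.TWR in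
/-- (FACTI) `S_FACT` of `DefsT.lean` for `SetI` (frame, helper51: `TWF/FACT.lean` with `SetI`). -/
def S_FACTI : Prop :=
  ∀ (l g h : ℕ), Gen l g h → ∀ (p : ℕ) [Fact p.Prime] (A B : ℤ) (P : Ideal (OO A B))
    (V : ValuationSubring ℂ) (f : ℕ), SetI p A B P V f → l ^ h ∣ f → TorX A B →
    ∀ (ι : Type) [Finite ι] (R : Reps A B (p * f) ι)
    (K : IntermediateField ℚ ℂ) [FiniteDimensional ℚ K], kk A B ≤ K →
    Sub K (RF (idl f) : IntermediateField (kk A B) ℂ) →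
    ∀ (Bn : ℕ → IntermediateField ℚ ℂ), (∀ n, IsLayer l n (Bn n)) → Monotone Bn →
    ∃ (J : Type) (_ : Finite J) (kp : J → ι → ℂ) (eta : J → OO A B → ℂ),
      (∀ j, ChD p f R (kp j) (eta j)) ∧
      ∀ (n : ℕ) (hn : kk A B ≤ K ⊔ Bn (n + 1)), letI := algC hn
      ∀ χ : (↥(K ⊔ Bn (n + 1)) ≃ₐ[kk A B] ↥(K ⊔ Bn (n + 1))) →* (IsLocalRing.ResidueField V)ˣ,
      (∃ g : ↥(K ⊔ Bn (n + 1)) ≃ₐ[kk A B] ↥(K ⊔ Bn (n + 1)),
        (∀ x : ↥(K ⊔ Bn (n + 1)), (x : ℂ) ∈ K ⊔ Bn n → g x = x) ∧ χ g ≠ 1) →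
      ∃ (j : J) (ψ : DirichletCharacter ℂ (l ^ (n + 1 + h))), ψ (-1) = 1 ∧
        ψ (1 + (l : ZMod (l ^ (n + 1 + h))) ^ (n + 1 + h - 1)) ≠ 1 ∧
        ∀ (τ : ↥(K ⊔ Bn (n + 1)) ≃ₐ[kk A B] ↥(K ⊔ Bn (n + 1))),
        ∀ q ∈ XX R (f * l ^ (n + 1 + h)) hn τ,
          rsd V (thT R (kp j) (eta j) ψ q.1 (Quotient.out q.2)) =
            (((χ τ)⁻¹ : (IsLocalRing.ResidueField V)ˣ) : IsLocalRing.ResidueField V)

/-- (TEII) the Teichmüller character exists (model: `TWB/TEI.lean`, `p` replaced by `p²`). PROOF. The residue field of `V` contains `O/P` (`p²` elements); an element `x ∉ P`: `emb x ^ (p^2 - 1) ≡ 1`; the `p² - 1` different roots of unity of order dividing `p² - 1` in `ℂ` are in `V` and have different residues (`X^(p²-1) - 1` is separable modulo `p`), so exactly one of them, `w x`, is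
`≡ emb x`. -/
def S_TEII : Prop :=
  ∀ (p : ℕ) (A B : ℤ) (P : Ideal (OO A B)) (V : ValuationSubring ℂ) (f : ℕ), SetI p A B P V f →
    ∃ w : OO A B → ℂ, TeiI p P V w

end

end Pool.Agent.TWI
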