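import Pool.Agent.TWI.StI2
import Pool.Agent.MUX.E_RAM
import Pool.Agent.MUX.E_RNG

/-!
# TWI, block B: module RAMGI (helper11; after `Pool/Agent/TWT/RAMG.lean` of helper71)
-/

set_option autoImplicit false

open WeierstrassCurve Polynomial NumberField IsDedekindDomain

namespace Pool.Agent.TWI

open _root_.MU3 Pool.Agent.MU3A Pool.Agent.MU3B Pool.Agent.MU3C Pool.Agent.RI Pool.Agent.RID
open Pool.Agent.MUX Pool.Agent.MUXU Pool.Agent.MUXW Pool.Agent.TWT
open OnePoint

noncomputable section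

namespace RAMGI

variable {A B : ℤ}

/-- `p` is not in `P²`, `P = (p)` -/
theorem not_sq {p : ℕ} (hp : p.Prime) : ((p : ℕ) : OO A B) ∉ (idl (A := A) (B := B) p) ^ 2 := by
  intro hmem
  have h0 : (idl (A := A) (B := B) p) ^ 2 = Ideal.span {((p : ℕ) : OO A B) ^ 2} := by
    show (Ideal.span {((p : ℕ) : OO A B)}) ^ 2 = _
    rw [Ideal.span_singleton_pow]
  rw [h0, Ideal.mem_span_singleton] at hmem
  obtain ⟨c, hc⟩ := hmem
  have h1 : ((p : ℕ) : OO A B) ^ 2 * c = (((p : ℤ) ^ 2 : ℤ) : OO A B) * c := by push_cast; ring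
  have h2 := congrArg QuadraticAlgebra.re (hc.trans h1)
  have h3 : ((((p : ℤ) ^ 2 : ℤ) : OO A B) * c).re = (p : ℤ) ^ 2 * c.re := by
    rw [QuadraticAlgebra.re_mul]
    have e1 : ((((p : ℤ) ^ 2 : ℤ) : OO A B)).re = (p : ℤ) ^ 2 := QuadraticAlgebra.re_intCast _
    have e2 : ((((p : ℤ) ^ 2 : ℤ) : OO A B)).im = 0 := QuadraticAlgebra.im_intCast _
    rw [e1, e2]
    ring
  have h4 : ((p : ℕ) : OO A B).re = p := by simp
  rw [h3, h4] at h2
  have hp0 : (p : ℤ) ≠ 0 := by exact_mod_cast hp.ne_zero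
  have h5 : (p : ℤ) ∣ 1 := by
    refine ⟨c.re, ?_⟩
    have h6 : (p : ℤ) * 1 = p * (p * c.re) := by linear_combination h2
    exact mul_left_cancel₀ hp0 h6
  have h7 : p ∣ 1 := by exact_mod_cast h5
  exact hp.one_lt.ne' (Nat.dvd_one.1 h7)

end RAMGI

open RAMGI MUXE.RamE Pool.Agent.MU3E.RAM MUXE in
theorem t_RAMGI (h : S_VPGI) : S_RAMGI := by
  intro p A B P V f hS F _ _ htriv y hy hy0
  obtain ⟨hvp, hp0, hvP, -, -, -, -⟩ := h p A B P V f hS
  obtain ⟨⟨φ, hφ⟩, hinj, hded, hpos, hint⟩ := MUXE.te_RNG A B hS.cq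
  have hw0 : IsIntegral ℤ (wC A B) := by
    rw [hint _ (wC_mem A B)]
    exact ⟨⟨0, 1⟩, by simp [emb]⟩
  have hfd : FiniteDimensional ℚ (kk A B) :=
    IntermediateField.adjoin.finiteDimensional hw0.tower_top
  have hk : NumberField (kk A B) := ⟨⟩
  have hFQ : FiniteDimensional ℚ F := FiniteDimensional.trans ℚ (kk A B) F
  have hF : NumberField F := ⟨⟩
  have hIn : ∀ x : OO A B, IsIntegral ℤ (ek x) := by
    intro x
    have h2 : IsIntegral ℤ (emb x) := (hint (emb x) (emb_mem x)).mpr ⟨x, rfl⟩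
    have h3 : algebraMap (kk A B) ℂ (ek x) = emb x := rfl
    rw [← h3] at h2
    exact (isIntegral_algebraMap_iff (FaithfulSMul.algebraMap_injective (kk A B) ℂ)).mp h2
  -- the ring isomorphism
  let e : OO A B →+* 𝓞 (kk A B) :=
    { toFun := fun x => ⟨ek x, hIn x⟩
      map_one' := by
        apply RingOfIntegers.ext
        apply Subtype.ext
        change emb 1 = 1
        rw [← hφ, map_one]
      map_mul' := by
        intro a b
        apply RingOfIntegers.ext
        apply Subtype.ext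
        change emb (a * b) = emb a * emb b
        rw [← hφ, ← hφ, ← hφ, map_mul]
      map_zero' := by
        apply RingOfIntegers.ext
        apply Subtype.ext
        change emb 0 = 0
        rw [← hφ, map_zero]
      map_add' := by
        intro a b
        apply RingOfIntegers.ext
        apply Subtype.ext
        change emb (a + b) = emb a + emb b
        rw [← hφ, ← hφ, ← hφ, map_add] }
  have he : ∀ x, (((e x : 𝓞 (kk A B)) : kk A B) : ℂ) = emb x := fun x => rfl
  have hesurj : Function.Surjective e := by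
    intro x
    have h2 : IsIntegral ℤ ((x : kk A B) : ℂ) :=
      (RingOfIntegers.isIntegral_coe x).map (Algebra.ofId (kk A B) ℂ |>.restrictScalars ℤ)
    obtain ⟨z, hz⟩ := (hint _ (x : kk A B).2).mp h2
    refine ⟨z, ?_⟩
    apply RingOfIntegers.ext
    apply Subtype.ext
    rw [he, hz]
  have heinj : Function.Injective e := by
    rw [injective_iff_map_eq_zero]
    intro x hx
    apply hinj
    rw [← he, hx]
    rfl
  have hpC : emb ((p : ℕ) : OO A B) = (p : ℂ) := by rw [← hφ, map_natCast]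
  have hpne : (p : ℂ) ≠ 0 := by
    intro h
    exact hp0 (by rw [h, map_zero])
  obtain ⟨w, hw⟩ := exists_prime (V := V) (algebraMap F ℂ)
    (z := ((p : ℕ) : 𝓞 F)) (by
      intro h
      have h1 := congrArg (fun t : 𝓞 F => algebraMap F ℂ (t : F)) h
      have h2 : ((p : ℕ) : ℂ) = 0 := by
        simpa using h1
      exact hpne h2) (by
      have h2 : (algebraMap F ℂ) ((((p : ℕ) : 𝓞 F)) : F) = (p : ℂ) := by simp
      rw [h2]
      exact hvp)
  have hcomap : (w.asIdeal.under (𝓞 (kk A B))).comap e = P := by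
    ext z
    have hxw : z ∈ (w.asIdeal.under (𝓞 (kk A B))).comap e ↔ V.valuation (emb z) < 1 := by
      exact hw (algebraMap (𝓞 (kk A B)) (𝓞 F) (e z))
    rw [hxw]
    exact (hvP z).2
  have hmap : P.map e = w.asIdeal.under (𝓞 (kk A B)) := by
    rw [← hcomap]
    exact Ideal.map_comap_of_surjective e hesurj _
  have hep : e ((p : ℕ) : OO A B) = ((p : ℕ) : 𝓞 (kk A B)) := map_natCast e p
  have hq1 : ((p : ℕ) : 𝓞 (kk A B)) ∈ w.asIdeal.under (𝓞 (kk A B)) := by
    rw [← hmap, ← hep]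
    refine Ideal.mem_map_of_mem e ?_
    rw [hS.eP]
    exact Ideal.mem_span_singleton_self _
  have hq2 : ((p : ℕ) : 𝓞 (kk A B)) ∉ (w.asIdeal.under (𝓞 (kk A B))) ^ 2 := by
    rw [← hmap, ← Ideal.map_pow, ← hep, Ideal.mem_map_iff_of_surjective e hesurj]
    rintro ⟨z, hz, hz2⟩
    rw [heinj hz2] at hz
    rw [hS.eP] at hz
    exact not_sq hS.pp hz
  have hord := unramP (algebraMap F ℂ) hw hq1 hq2 (by
    intro σ hσ
    apply htriv σ
    intro x hx
    exact hσ x hx)
  obtain ⟨n, hn⟩ := pow_unif (algebraMap F ℂ) hw hord (x := (⟨y, hy⟩ : F))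
    (fun h => hy0 (congrArg Subtype.val h))
  refine ⟨n, ?_⟩
  have h5 : (algebraMap F ℂ) (algebraMap (kk A B) F (((p : ℕ) : 𝓞 (kk A B)) : kk A B)) = (p : ℂ) := by
    simp
  rw [h5] at hn
  exact hn

end

end Pool.Agent.TWI
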