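import Pool.Agent.TWI.DefsI
import Pool.Agent.TWT.StT1

/-!
# TWI, block A (helper3): `∏_(R ∈ E[p] - 0) Θ(z + R) / Θ(z)^(q-1)` to the first order, `p` inert, `q = p²`

As block A of the split case (`Pool/Agent/TWT/StT1.lean`: read its header, definitions `dW, qF, EqU, nF, xF, yF, vpi, HasTay` are used here), with `p`
replaced by `q = p²` (`v(t(R))^(q-1) = v p`). New: the formal logarithm `Λ` has coefficients `Λ_j ∈ V` for `j < q` although `p` divides some `j < q`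
(`S_LOG`, by the complex multiplications `α ∈ O` of odd norm prime to `3 p`).

Every `def S_X : Prop` is the statement of a module, which proves `theorem i_X : S_X` (or `theorem i_X (h : S_Y) .. : S_X` with the statements named
under USES, fewer is fine) in `Pool/Agent/TWI/X.lean`, namespace `Pool.Agent.TWI`. THEOREMS which may be cited (import the file): block A of the split
case: `Pool.Agent.TWT.t_EVH, t_UEX, t_UQN, t_ODE, t_TAF, t_PTS, t_THT, t_FOI` (files `Pool/Agent/TWT/EVH.lean`, ..), and as MODELS `t_TAY` (`TAY.lean`), `t_ADV` (`ADV.lean`), `t_KYR`, `t_KEY` (`KEY.lean`), `t_PIS`, `t_PTA`, `KEYA.lean`.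
`Sx_..`, `Sq_..` of `StVX.lean`, `StQX.lean`: `Pool.Agent.MUXV.x_X`, `q_X` (`Pool/Agent/MUX/RQ0.lean`): `x_POL, x_HAL, x_MUN, x_NGR, q_YUN, q_VQI, ..`. `Sx_..` of `StXF.lean`: `Pool.Agent.MUXF.xf_X` (`XFAll.lean`). `t_TEP : S_TEP` (helper34, `Pool/Agent/TWI/TEP.lean`): facts on `O/P`, representatives, the Teichmüller character. `XLib.lean` (namespace `Pool.Agent.MUX`):
`emb_mul`, `nm_mul`, `mul_cjI`, `mul_cancel`, `nI_ne_zero`, `nI_mem`, `IsLI.hasCM`, ...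
-/

set_option autoImplicit false

open WeierstrassCurve PowerSeries

namespace Pool.Agent.TWI

open _root_.MU3 Pool.Agent.MU3A Pool.Agent.MU3B Pool.Agent.MUX Pool.Agent.MUXU Pool.Agent.TWT
open Pool.Agent.MUXV (GR InK tX HalfI)

noncomputable section

/-! ## Definitions -/

/-- the value at `z` of the `k`-th derivative of `f`, divided by `k!` -/
def dd {V : ValuationSubring ℂ} (L : PeriodPair) (a2 a4 : V) (f : MvPolynomial (Fin 2) V) (k : ℕ)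
    (z : ℂ) : ℂ :=
  MvPolynomial.aeval ![xn L z, yy L z] ((dW a2 a4)^[k] f) / (k.factorial : ℂ)

/-- the polynomial `g(x)` as a polynomial in `x, y` -/
def inX {V : ValuationSubring ℂ} (g : Polynomial V) : MvPolynomial (Fin 2) V :=
  Polynomial.aeval (MvPolynomial.X 0) g

/-- the expansions at all points outside the kernel of reduction; `Λ` is the formal logarithm -/
structure HasExp (V : ValuationSubring ℂ) (L : PeriodPair) (a2 a4 : V) (Λ : PowerSeries ℂ) :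
    Prop where
  c0 : PowerSeries.coeff 0 Λ = 0
  c1 : PowerSeries.coeff 1 Λ = 1
  exp : ∀ z, ¬ InK V L (xn L) z → ∃ gx gy : PowerSeries V,
    (∀ (f : MvPolynomial (Fin 2) V) (n j : ℕ), j < n →
      ((PowerSeries.coeff j (MvPolynomial.aeval ![gx, gy] f) : V) : ℂ) =
        PowerSeries.coeff j (∑ k ∈ Finset.range n, PowerSeries.C (dd L a2 a4 f k z) * Λ ^ k)) ∧
    ∀ R, InK V L (xn L) R → R ∉ L.lattice → ∀ (f : MvPolynomial (Fin 2) V) (n : ℕ), 2 ≤ n →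
      V.valuation (MvPolynomial.aeval ![xn L (z + R), yy L (z + R)] f - ∑ j ∈ Finset.range n,
        ((PowerSeries.coeff j (MvPolynomial.aeval ![gx, gy] f) : V) : ℂ) *
          tX (xn L) (yy L) R ^ j) ≤ V.valuation (tX (xn L) (yy L) R) ^ n

/-- Taylor expansion modulo `t^n` (`HasTay` of the split case) with integral coefficients -/
structure HasTyI (V : ValuationSubring ℂ) (L : PeriodPair) (n : ℕ) (a2 a4 : V) (lam : ℕ → ℂ) :
    Prop extends HasTay V L (xn L) (yy L) n a2 a4 lam where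
  dint : ∀ z, ¬ InK V L (xn L) z → ∀ (f : MvPolynomial (Fin 2) V), ∀ k < n,
    V.valuation (dd L a2 a4 f k z) ≤ 1

/-- `L` has good reduction at `V`, with coefficients `a2, a4` -/
def GRa (V : ValuationSubring ℂ) (L : PeriodPair) (a2 a4 : V) : Prop :=
  ∃ (W : WeierstrassCurve.Affine ℂ) (ξ : ℂ →+ W.Point), GR V W L (xn L) (yy L) ξ ∧
    (a2 : ℂ) = W.a₂ ∧ (a4 : ℂ) = W.a₄

/-- `mu : L → M` is an isogeny of odd degree prime to the residue characteristic and to `3` -/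
structure IsgN (V : ValuationSubring ℂ) (L M : PeriodPair) (mu : ℂ) (n : ℕ) : Prop where
  ne : mu ≠ 0
  sub : Isg L M mu
  odd : Odd n
  unit : V.valuation (n : ℂ) = 1
  ker : ∀ z, mu * z ∈ M.lattice → (n : ℂ) * z ∈ L.lattice
  vmu : V.valuation mu = 1
  v3 : V.valuation (3 : ℂ) = 1
  n3 : ¬ 3 ∣ n

/-! ## 1. The formal logarithm -/

/-- (EXP) expansions.

USES (all proved) t_EVH, t_UEX, t_UQN, t_ODE, t_TAF, t_PTS. MODEL: `t_TAY` (`Pool/Agent/TWT/TAY.lean`), almost word for word. PROOF. `X = xn L`, `Y = yy L`. `U` (UEX for `A = V`), `κ ∈ V⟦T⟧` the inverse of `qF`; `Λ := Σ_(j ≥ 1) κ_(j-1)/j T^j ∈ ℂ⟦T⟧`. For `z`: `gx, gy ∈ V⟦T⟧` as in `t_TAY` (`xF`, `yF` at `x = X z`, `y = Y z`; they do not depend on `n`). First clause: map everything to `ℂ⟦T⟧`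
(`PowerSeries.map` of the inclusion), ODE holds there, and (TAF) for `A = ℂ`, `p := n` (every `(j : ℂ)`, `j > 0`, is a unit); `lamF n κ` and `Λ` have the same coefficients below `n`, so their powers have, too (`PowerSeries.trunc` or `X^n ∣ F - G → X^n ∣ F^k - G^k`: `sub_dvd_pow_sub_pow`). The inclusion commutes with `dW` and `aeval`. Second clause: (EVH) for `V → V/(t^n)`, exactly as in
`t_TAY` before (TAF) is used (there `n = p`). -/
def S_EXP : Prop :=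
  ∀ (V : ValuationSubring ℂ) (L : PeriodPair) (a2 a4 : V), GRa V L a2 a4 →
    ∃ Λ : PowerSeries ℂ, HasExp V L a2 a4 Λ

/-- (TRG) triangular systems. `c j = coeff j (Σ_(k<n) D_k Λ^k)`, `Λ = T + ..`.

PROOF. `Λ = T M`, `M_i = Λ_(i+1)`, `M_0 = 1`; `coeff j (Λ^k) = coeff (j-k) (M^k)` (`0` if `k > j`, `1` if `k = j`). If `v(M_i) ≤ 1` for `i < r` then `v(coeff i (M^k)) ≤ 1` for `i < r` (induction on `k`, `PowerSeries.coeff_mul`). `c_j = D_j + Σ_(k<j) D_k coeff (j-k) (M^k)`. Strong induction on `j < N`: `k = 0`: `coeff j 1 = 0` for `j > 0`; `1 ≤ k < j < N`: `j - k ≤ N - 2`, `v(M_(j-k)) ≤ 1`: so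
`v(D_j) ≤ 1`. `j = N`: the terms `2 ≤ k < N` only use `M_i` with `i ≤ N - 2`, the term `k = 1` is `D_1 Λ_N`. -/
def S_TRG : Prop :=
  ∀ (V : ValuationSubring ℂ) (n : ℕ) (Λ : PowerSeries ℂ) (D : ℕ → ℂ),
    PowerSeries.coeff 0 Λ = 0 → PowerSeries.coeff 1 Λ = 1 →
    (∀ j < n, V.valuation (PowerSeries.coeff j (∑ k ∈ Finset.range n,
      PowerSeries.C (D k) * Λ ^ k)) ≤ 1) →
    ∀ N ≤ n, (∀ j < N, V.valuation (PowerSeries.coeff j Λ) ≤ 1) →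
      (∀ k < N, V.valuation (D k) ≤ 1) ∧
      (2 ≤ N → N < n → V.valuation (D N + PowerSeries.coeff N Λ * D 1) ≤ 1)

/-- (COM) `x_M(mu z)` as a quotient of polynomials in `x_L(z)`.

USES `x_HAL, x_POL` (StVX). MODEL: the beginning of `t_FOI` (`Pool/Agent/TWT/FOI.lean`). PROOF. `C = {z : mu z ∈ M}` is killed by `n` modulo `L`, `C ∩ K₁(L) = L` (`mem_of_nat_mul`), `K₁` = kernel of reduction; half system `H` (HAL; no points of order two, `n` odd). `w = L.ω₁/2`. (POL), second part, `c = 1/12`: for `mu z ∉ M`: `(℘_M(mu z) - ℘_M(mu w)) Q(x)² = (x - xn L w) B(x)²`, `Q = mu ∏_(q ∈ H) (T - xn L q)`,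
`B = ∏_(q ∈ H) (T - xn L (w + q))`. All numbers are in `V` (as in `t_FOI`). `PB = Q²`, `PA = (T - xn L w) B² + xn M (mu w) Q²`. If `mu z ∉ K₁(M)`: `z ∉ L`; `z ∉ K₁(L)` and `z ± q ∉ K₁(L)` (`t_FOI`, first claim: `mu u ∈ K₁(M)` for `u ∈ K₁(L)`, `u ∉ L`; `mu (z ± q) = mu z ± mu q`, `mu q ∈ M`; if `u ∈ L` then `mu u ∈ M`): `v(xn L z - xn L q) = 1` (`v_X_sub`), `v(mu) = 1`. -/
def S_COM : Prop :=
  ∀ (V : ValuationSubring ℂ) (L M : PeriodPair) (a2 a4 b2 b4 : V), GRa V L a2 a4 →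
    GRa V M b2 b4 → ∀ (mu : ℂ) (n : ℕ), IsgN V L M mu n →
    ∃ PA PB : Polynomial V,
      (∀ z, mu * z ∉ M.lattice → xn M (mu * z) * Polynomial.aeval (xn L z) PB =
        Polynomial.aeval (xn L z) PA) ∧
      ∀ z, ¬ InK V M (xn M) (mu * z) → ¬ InK V L (xn L) z ∧
        V.valuation (Polynomial.aeval (xn L z) PB) = 1

/-- (LEI) the Leibniz rule for the identity of (COM).

PROOF. For `f ∈ V[x, y]` let `F(z) = aeval ![xn L z, yy L z] f`. `F' = aeval ![..] (dW a2 a4 f)` on `z ∉ L` (`HasDerivAt`; `xn' = 2 yy`; `yy' = 3 x² + 2 a₂ x + a₄`: differentiate `yy² = x³ + a₂ x² + a₄ x + a₆` (`GR`), or `℘'' = 6 ℘² - g₂/2`; Mathlib / `MU3B` has the derivative of `derivWeierstrassP`; see `t_FOI`, `b_TDL`. Induction on `f`: `MvPolynomial.induction_on`, `dW` is a derivation). The same for `M` at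
`mu z` (chain rule: factor `mu`). The set `{mu z ∉ M}` is open and `⊆ {z ∉ L}`. Induction on `k` of the identity `Σ_(i ≤ k) choose k i mu^i (D_M^i x)(mu z) (D_L^(k-i) PB)(z) = (D_L^k PA)(z)` for all `z` with `mu z ∉ M`: differentiate (both sides have the same derivative, as they agree on an open set) and use Pascal's rule (`Finset.sum_range_succ`-manipulation, or `iterate_derivative`-style as in
`Polynomial.iterate_derivative_mul`/`Nat.sum_antidiagonal_choose_succ_mul`). Divide by `k!`: `choose k i/k! = 1/(i! (k-i)!)`. -/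
def S_LEI : Prop :=
  ∀ (V : ValuationSubring ℂ) (L M : PeriodPair) (a2 a4 b2 b4 : V), GRa V L a2 a4 →
    GRa V M b2 b4 → ∀ (mu : ℂ), mu ≠ 0 → Isg L M mu → ∀ PA PB : Polynomial V,
    (∀ z, mu * z ∉ M.lattice → xn M (mu * z) * Polynomial.aeval (xn L z) PB =
        Polynomial.aeval (xn L z) PA) →
    ∀ (k : ℕ) (z : ℂ), mu * z ∉ M.lattice →
      ∑ i ∈ Finset.range (k + 1), mu ^ i * dd M b2 b4 (MvPolynomial.X 0) i (mu * z) *
        dd L a2 a4 (inX PB) (k - i) z = dd L a2 a4 (inX PA) k z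

/-- (LOG) the coefficient `Λ_N` is integral if `mu^N - mu` is a unit for a complex multiplication `mu`.

USES TRG, COM, LEI, `q_YUN`. PROOF. `z = L.ω₁/3`: `3 z ∈ L`, `mu z ∉ L` (otherwise `n z ∈ L`, `3 ∤ n`, `z ∈ L`; `L.ω₁/3 ∉ L`), `3 (mu z) ∈ L`, so `mu z`, `2 mu z` are not in the kernel of reduction (`mem_of_nat_mul`, `v 3 = 1`): `v(yy L (mu z)) = 1` (YUN). (COM) for `M = L`: `PA, PB`, `z ∉ K₁`. Let `n' = N + 1`, `D'_k = dd L a2 a4 (X 0) k (mu z)`; `D'_1 = 2 yy L (mu z)` (`dW (X 0) = 2 X 1`). (TRG) for the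
expansion of `X 0` at `mu z` (`HasExp.exp`): `v(D'_N + Λ_N D'_1) ≤ 1`. At `z`: `a = aeval ![gx, gy] (inX PA)`, `b = aeval ![gx, gy] (inX PB) ∈ V⟦T⟧`; the constant coefficient of `b` is `aeval (xn L z) PB` (`HasExp.exp` for `j = 0`), a unit of `V`, so `b` is a unit of `V⟦T⟧`; `F := a b⁻¹`. In `ℂ⟦T⟧` modulo `T^n'`: `a = Σ A_k Λ^k`, `b = Σ B_k Λ^k`, and with
`F_k = mu^k D'_k`: `(Σ F_k Λ^k)(Σ B_k Λ^k) = Σ A_k Λ^k` (LEI; the products `Λ^(i+j)`, `i + j ≥ n'`, are `0` modulo `T^n'` as `T ∣ Λ`). `b` is invertible in `ℂ⟦T⟧`: `F = Σ_(k<n') F_k Λ^k` modulo `T^n'`. (TRG) for `D_k = F_k`: `v(F_N + Λ_N F_1) ≤ 1`. `mu^N (D'_N + Λ_N D'_1) - (mu^N D'_N + Λ_N mu D'_1) = Λ_N D'_1 (mu^N - mu)`. -/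
def S_LOG : Prop :=
  ∀ (V : ValuationSubring ℂ) (L : PeriodPair) (a2 a4 : V), GRa V L a2 a4 →
    ∀ Λ : PowerSeries ℂ, HasExp V L a2 a4 Λ → ∀ (mu : ℂ) (n : ℕ), IsgN V L L mu n →
    ∀ N : ℕ, 2 ≤ N → (∀ j < N, V.valuation (PowerSeries.coeff j Λ) ≤ 1) →
    V.valuation (mu ^ N - mu) = 1 → V.valuation (PowerSeries.coeff N Λ) ≤ 1

/-- (TYI) from expansions to Taylor.

USES TRG. PROOF. `dint`: (TRG) with `N = n`, the `c_j` are in `V`. `lam 0 = 0`, `lam 1 = 1` (`2 ≤ n`), `int`: clear (`0` for `j ≥ n`). `tay`: `t = tX R`, `v t < 1`. Both `Σ_(j<n) c_j t^j` and `Σ_(k<n) D_k ϖ^k`, `ϖ = Σ_(j<n) lam_j t^j`: the polynomial `Σ_k D_k (Σ_(j<n) lam_j T^j)^k` has coefficients in `V` (`v(D_k) ≤ 1`) and agrees with `Σ_(k<n) D_k Λ^k` modulo `T^n`, so its coefficients below `n` are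
the `c_j` (`HasExp.exp`, first clause); the terms of degree `≥ n` are `≤ v(t)^n` at `t`. Add the second clause of `exp`. (`Polynomial` over `ℂ`, `trunc n Λ`; `Polynomial.eval_eq_sum_range`.) -/
def S_TYI : Prop :=
  ∀ (V : ValuationSubring ℂ) (L : PeriodPair) (a2 a4 : V), GRa V L a2 a4 →
    ∀ Λ : PowerSeries ℂ, HasExp V L a2 a4 Λ → ∀ n : ℕ, 2 ≤ n →
    (∀ j < n, V.valuation (PowerSeries.coeff j Λ) ≤ 1) →
    HasTyI V L n a2 a4 (fun j => if j < n then PowerSeries.coeff j Λ else 0)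

/-- (VPA) `ϖ_M(mu R) = mu ϖ_L(R)` modulo `τ^q`.

USES COM, LEI, `t_FOI`, `q_YUN`. MODEL: `t_ADV`. PROOF. `τ = v(tX_L R)`. `S = mu R`: (FOI) `S ∈ K₁(M)`, `S ∉ M`, `v(tX_M S) = τ`. `z = L.ω₁/3`, `mu z ∉ M`, `mu z, 2 mu z ∉ K₁(M)`, `v(yy M (mu z)) = 1` as in (LOG). `PA, PB` (COM), `z ∉ K₁(L)`, `mu (z + R) ∉ K₁(M)` (`S ∈ K₁(M)`): `v(PB(x(z + R))) = 1`. `HasTay` at `z`, `R` for `inX PA`, `inX PB`, `ϖ = vpi lam q (tX R)`, `v ϖ ≤ τ`:
`PA(x(z+R)) ≡ Σ_k A_k ϖ^k`, `PB(x(z+R)) ≡ Σ_k B_k ϖ^k` modulo `τ^q`, `A_k = dd L (inX PA) k z`, and `A_k = Σ_(i ≤ k) F_i B_(k-i)` (LEI), `F_i = mu^i dd M (X 0) i (mu z)`, all `v ≤ 1` for indices `< q` (`dint`). So `PA ≡ (Σ_(i<q) F_i ϖ^i) PB(x(z+R))`, and dividing by the unit: `xn M (mu z + S) ≡ Σ_(i<q) F_i ϖ^i`. `HasTay` for `M` at `mu z`, `S`, `f = X 0`: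
`xn M (mu z + S) ≡ Σ_(i<q) D'_i ϖ'^i`, `D'_i = dd M (X 0) i (mu z)`, `ϖ' = vpi lam' q (tX_M S)`, `v ϖ' ≤ τ`. Difference: `Σ_(1≤i<q) D'_i (ϖ'^i - (mu ϖ)^i) = (ϖ' - mu ϖ)(D'_1 + (valuation ≤ τ))`, `D'_1 = 2 yy M (mu z)` a unit. So `v(ϖ' - mu ϖ) ≤ τ^q`. -/
def S_VPA : Prop :=
  ∀ (V : ValuationSubring ℂ) (L M : PeriodPair) (a2 a4 b2 b4 : V), GRa V L a2 a4 →
    GRa V M b2 b4 → ∀ (mu : ℂ) (n : ℕ), IsgN V L M mu n → ∀ q : ℕ, 2 ≤ q →
    ∀ lam lam' : ℕ → ℂ, HasTyI V L q a2 a4 lam → HasTyI V M q b2 b4 lam' →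
    ∀ R, InK V L (xn L) R → R ∉ L.lattice →
      V.valuation (vpi lam' q (tX (xn M) (yy M) (mu * R)) - mu * vpi lam q (tX (xn L) (yy L) R)) ≤
        V.valuation (tX (xn L) (yy L) R) ^ q

/-! ## 2. The product over the roots of unity -/

/-- (KY1) the result for one lattice and points `S x` with `ϖ(S x) ≡ ζ x ϖ₀`, `ζ x` with the power sums of the `(q-1)`-th roots of unity.

USES `t_KYI` (PROVED by helper34: `Pool/Agent/TWI/KYI.lean`, read `S_KYI` there), `t_THT`. MODEL: `t_KEY` (`Pool/Agent/TWT/KEY.lean`; there `S c = c R`, `ζ c = c`, `q = p`; the only use of `ADV` is the congruence which is a hypothesis here; `HasTyI.dint` gives `e_k ∈ V`). `τ = v(t₀)`, `v(ϖ₀) = τ` (`v(ϖ₀ - t₀) ≤ τ²`), `v(t(S x)) = τ`;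
`v(q ϖ₀^(q-1)) ≤ v(p)^2 v(p) ≤ τ^q`, `q = p²`. `A = V`, `I = {r : v r ≤ τ^q}`, `N = q - 1`. -/
def S_KY1 : Prop :=
  ∀ (V : ValuationSubring ℂ) (L : PeriodPair) (a2 a4 : V), GRa V L a2 a4 → ∀ p : ℕ, p.Prime →
    5 ≤ p → V.valuation (p : ℂ) < 1 → ∀ lam : ℕ → ℂ, HasTyI V L (p ^ 2) a2 a4 lam →
    ∀ (J : Type) (T : Finset J) (ζ S : J → ℂ), (∀ x ∈ T, V.valuation (ζ x) ≤ 1) →
    (∀ j, 0 < j → j < p ^ 2 - 1 → ∑ x ∈ T, ζ x ^ j = 0) →
    ∑ x ∈ T, ζ x ^ (p ^ 2 - 1) = ((p ^ 2 - 1 : ℕ) : ℂ) → T.card = p ^ 2 - 1 →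
    ∀ w0 t0 : ℂ, V.valuation (w0 - t0) ≤ V.valuation t0 ^ 2 →
    V.valuation t0 ^ (p ^ 2 - 1) = V.valuation (p : ℂ) →
    (∀ x ∈ T, InK V L (xn L) (S x) ∧ S x ∉ L.lattice ∧
      V.valuation (tX (xn L) (yy L) (S x)) = V.valuation t0 ∧
      V.valuation (vpi lam (p ^ 2) (tX (xn L) (yy L) (S x)) - ζ x * w0) ≤
        V.valuation t0 ^ (p ^ 2)) →
    ∀ (a : ℕ) (H : Finset ℂ), 1 < a → V.valuation (a : ℂ) = 1 → IsHalf L (a : ℂ) H →
    ∀ z : ℂ, ¬ InK V L (xn L) z → ¬ InK V L (xn L) (a * z) →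
      (∀ u : ℂ, InK V L (xn L) u → V.valuation (ThetaH L H (z + u)) = 1 ∧
        V.valuation (dlX L a (z + u)) ≤ 1) ∧
      V.valuation (∑ x ∈ T, ζ x * dlX L a (z + S x)) ≤ V.valuation t0 ^ (p ^ 2 - 2) ∧
      V.valuation (∏ x ∈ T, ThetaH L H (z + S x) -
          ThetaH L H z ^ (p ^ 2 - 1) * (1 - w0 * ∑ x ∈ T, ζ x * dlX L a (z + S x))) ≤
        V.valuation t0 ^ (p ^ 2)

/-! ## 3. The kernel of an isogeny and the kernel of reduction (composite degrees) -/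

/-- (R2I) if the multiplier is not a unit, some point of the kernel is in the kernel of reduction.

USES `x_POL`. PROOF. `Pool/Agent/MUX/R_R2.lean` word for word: suppose no point `u ∉ L` with `mu u ∈ M` is in `K₁` (this is `hno` there, the only use of `cyc`). Then `R2.red`. -/
def S_R2I : Prop :=
  ∀ (V : ValuationSubring ℂ) (L M : PeriodPair) (a2 a4 b2 b4 : V), GRa V L a2 a4 →
    GRa V M b2 b4 → ∀ (mu : ℂ) (H : Finset ℂ), mu ≠ 0 → Isg L M mu → HalfI L M mu H →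
    V.valuation mu < 1 → ∃ u, mu * u ∈ M.lattice ∧ u ∉ L.lattice ∧ InK V L (xn L) u

/-- (R4I) kernel of order `p^k` inside the kernel of reduction.

USES `x_POL`. PROOF. `Pool/Agent/MUX/R_R4.lean` (claim (1), `tx_R4`), with `q` replaced by `N = p ^ k` (`(X - e)^N` in characteristic `p`: `sub_pow_char_pow`). `w₁, w₂` incongruent points of order two (`R2.half`). (POL) at `x = 0`, `c = 1/12`: `(e₂' - e₁') (mu ∏ (- x(q)))² = (-e₁) ∏ (x(w₁+q))² - (-e₂) ∏ (x(w₂ + q))² ≡ (-e₁)^N - (-e₂)^N ≡ (e₂ - e₁)^N`, a unit; `e₂' - e₁'` is a unit. -/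
def S_R4I : Prop :=
  ∀ (V : ValuationSubring ℂ) (L M : PeriodPair) (a2 a4 b2 b4 : V), GRa V L a2 a4 →
    GRa V M b2 b4 → ∀ (mu : ℂ) (H : Finset ℂ), mu ≠ 0 → Isg L M mu → HalfI L M mu H →
    ∀ p k : ℕ, p.Prime → p ≠ 2 → V.valuation (p : ℂ) < 1 → 2 * H.card + 1 = p ^ k →
    (∀ u, mu * u ∈ M.lattice → InK V L (xn L) u) →
    V.valuation mu * ∏ q ∈ H, V.valuation (xn L q) = 1

/-! ## 4. Points of order `p` and multipliers for the lattices `L_i` -/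

/-- (GRI) the lattices `L_i` and the multipliers `mu_i`. MODEL: `t_PIS` (`Pool/Agent/TWT/PIS.lean`).

USES `x_NGR, x_MUN` (StVX). PROOF. `v p < 1`: `OverI` for `x = p ∈ P`. Integers prime to `p` are units (`OverI`: `j ∈ P = (p)` iff `p ∣ j`; they are in `V`). `GR`: (NGR), `kp = kap` by definition, `12 g₂ = 1 + 1728 kap`. `mu_i = muX R i = om_i N(b_i)/om_0`: `L_0 = om_0 emb O` (`R.b0`), `N(b_i) ∈ b_i` (`nI_mem`): `Isg`; kernel: as `t_PIS`. `nI (b_i)` is prime to `p f` (`R.cop`), `f` is even; NOT nec. prime to `3`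
(so this is not `IsgN`). (MUN): `v(mu_i) = 1`. -/
def S_GRI : Prop :=
  ∀ (p : ℕ) (A B : ℤ) (P : Ideal (OO A B)) (V : ValuationSubring ℂ) (f : ℕ),
    SetI p A B P V f → ∀ (ι : Type) (R : Reps A B (p * f) ι), GRd V R →
    (∀ i, ∃ a2 a4 : V, GRa V (R.L i) a2 a4) ∧
    V.valuation (p : ℂ) < 1 ∧ (∀ j : ℤ, ¬ (p : ℤ) ∣ j → V.valuation (j : ℂ) = 1) ∧
    (∀ x : OO A B, V.valuation (emb x) ≤ 1 ∧ (V.valuation (emb x) = 1 ↔ x ∉ P)) ∧
    ∀ i, muX R i ≠ 0 ∧ Isg (R.L R.i0) (R.L i) (muX R i) ∧ V.valuation (muX R i) = 1 ∧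
      Odd (nI (R.b i)) ∧ V.valuation ((nI (R.b i) : ℕ) : ℂ) = 1 ∧
      ∀ z, muX R i * z ∈ (R.L i).lattice → ((nI (R.b i) : ℕ) : ℂ) * z ∈ (R.L R.i0).lattice

/-- (PTI) the points `pt R p i x` are the points of order `p` of `L_i`.

PROOF. `n = nI (b_i)`, prime to `p` (`R.cop`); `L_i = om_i emb b_i`, `pt R p i x = om_i n emb x/p`. (1) `n x/p ∈ b_i` iff `n x ∈ p b_i`; then `n x ∈ (p)`, `x ∈ (p)` (`n` prime to `p`); conversely `x = p y`: `n y ∈ b_i`. (2) definition. (3) `z = om_i emb y/p`, `y ∈ b_i`; `u n + v p = 1`: `y = n (u y) + p (v y)`, `v y ∈ b_i`: `z - pt R p i (u y) = om_i emb (v y) ∈ L_i`. (4), (5) definitions (`emb` additive,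
multiplicative); `x - y ∈ P = (p)`: `pt (x - y) = om_i n emb y' ∈ L_i`. (6) `O` is a domain and `b_i` an ideal: `emb α L_i ⊆ L_i`. -/
def S_PTI : Prop :=
  ∀ (p : ℕ) (A B : ℤ) (P : Ideal (OO A B)) (V : ValuationSubring ℂ) (f : ℕ),
    SetI p A B P V f → ∀ (ι : Type) (R : Reps A B (p * f) ι) (i : ι),
    (∀ x, pt R p i x ∈ (R.L i).lattice ↔ x ∈ P) ∧
    (∀ x, (p : ℂ) * pt R p i x ∈ (R.L i).lattice) ∧
    (∀ z, (p : ℂ) * z ∈ (R.L i).lattice → ∃ x, z - pt R p i x ∈ (R.L i).lattice) ∧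
    (∀ x y, x - y ∈ P → pt R p i x - pt R p i y ∈ (R.L i).lattice) ∧
    (∀ x y, pt R p i (x * y) = emb x * pt R p i y) ∧
    (∀ x, pt R p i x = muX R i * pt R p R.i0 x) ∧
    ∀ (α : OO A B) (z : ℂ), z ∈ (R.L i).lattice → emb α * z ∈ (R.L i).lattice

/-- (MLI) every class modulo `P`, not zero, is the class of a complex multiplication as in `IsgN`.

USES GRI. PROOF. `P = (p)`, `p ≥ 5`: `u p + v 6 = 1` (integers), `α = v 6 x + u p`: `α ≡ x` modulo `p`, `α ≡ 1` modulo `6`. `n = (nm α).natAbs`: `nm α = α star α`, `≡ 1` modulo `6` (`nm α - 1 = (α - 1) star α + (star α - 1) ∈ (6)`, an integer in `6 O` is divisible by `6`): odd, not divisible by `3`; `p ∤ nm α`: otherwise `α star α ∈ P`, `P` prime and `star P = P`: `α ∈ P`, `x ∈ P`. `v n = 1` (GRI). Kernel: `emb α z ∈ L_i` gives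
`nm α z = emb (star α) (emb α z) ∈ L_i` (`IsLI.hasCM`). `v(emb α) = 1`: GRI. `α ≠ 0`, `emb` injective. -/
def S_MLI : Prop :=
  ∀ (p : ℕ) (A B : ℤ) (P : Ideal (OO A B)) (V : ValuationSubring ℂ) (f : ℕ),
    SetI p A B P V f → ∀ (ι : Type) (R : Reps A B (p * f) ι), GRd V R → ∀ x : OO A B, x ∉ P →
    ∃ (α : OO A B) (n : ℕ), α - x ∈ P ∧ ∀ i, IsgN V (R.L i) (R.L i) (emb α) n

/-- (LGI) the coefficients of the formal logarithms of the `L_i` below `p²` are integral.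

USES LOG, MLI, `t_TEP`. PROOF. Strong induction on `j < p²`. `j = 0, 1`: `c0, c1`. `N = j ≥ 2`: (TEP) `x ∉ P`, `v(emb x^N - emb x) = 1`; (MLI) `α ≡ x` modulo `P`: `α^N - α ≡ x^N - x` modulo `P`, so `v(emb α^N - emb α) = 1`. (LOG) for `mu = emb α`. -/
def S_LGI : Prop :=
  ∀ (p : ℕ) (A B : ℤ) (P : Ideal (OO A B)) (V : ValuationSubring ℂ) (f : ℕ),
    SetI p A B P V f → ∀ (ι : Type) (R : Reps A B (p * f) ι), GRd V R → ∀ (i : ι) (a2 a4 : V),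
    GRa V (R.L i) a2 a4 → ∀ Λ : PowerSeries ℂ, HasExp V (R.L i) a2 a4 Λ →
    ∀ j < p ^ 2, V.valuation (PowerSeries.coeff j Λ) ≤ 1

/-- (KRI) the points of order `p` are in the kernel of reduction, `v(t)^(p²-1) = v p`.

USES R2I, R4I, GRI, PTI, MLI, `t_TEP`, `x_HAL, x_HRE` (StVX), `t_FOI`. PROOF. `L = L_i`. `mu = p : L → L`, `Isg`; the kernel `{z : p z ∈ L}` has no point of order two: half system `H` (HAL). `2 |H| + 1 = p²`: (HRE) `H ∪ -H` are representatives of `E[p] - 0`, and so are the `pt R p i x`, `x ∈ T`, `RepI P T`, `T.card = p² - 1` (PTI, TEP). (R2I) with `mu = p` (`v p < 1`): `u ∈ E[p]`, `u ∉ L`, in the kernel of reduction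
`K₁`. (PTI): `u ≡ pt R p i x₀`, `x₀ ∉ P`. For `x ∉ P`: `O/P` is a field: `y x₀ - x ∈ P`, `y ∉ P`; (MLI) `α ≡ y`: `pt R p i x ≡ emb α u` modulo `L`; (FOI) with `M = L`, `mu = emb α`: in `K₁`, and `v(tX(emb α u) - emb α tX u) ≤ v(tX u)²`, so `v(tX (pt x)) = v(tX u)` (`v(emb α) = 1`, `v(tX u) < 1`; `tX` is periodic: `TRA.tX_congr`). So all points of `E[p]` are in `K₁`
(`z ∈ L` too), with the same `τ = v(tX)`. (R4I), `k = 2`: `v(p) ∏_(q ∈ H) v(xn L q) = 1`, `v(xn L q) τ² = 1` (`v_tX_lt`): `v(p) = τ^(2|H|) = τ^(p²-1)`. -/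
def S_KRI : Prop :=
  ∀ (p : ℕ) (A B : ℤ) (P : Ideal (OO A B)) (V : ValuationSubring ℂ) (f : ℕ),
    SetI p A B P V f → ∀ (ι : Type) (R : Reps A B (p * f) ι), GRd V R → ∀ (i : ι) (x : OO A B),
    x ∉ P → InK V (R.L i) (xn (R.L i)) (pt R p i x) ∧ pt R p i x ∉ (R.L i).lattice ∧
      V.valuation (tX (xn (R.L i)) (yy (R.L i)) (pt R p i x)) ^ (p ^ 2 - 1) = V.valuation (p : ℂ)

/-- (TRI) the local parameter to first order (also for the TYPE block).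

USES KRI, MLI, PTI, `t_TEP`, GRI, `t_FOI`. PROOF. (MLI) `α ≡ x`: `pt R p i x ≡ emb α pt R p i 1` modulo `L_i` (PTI), (FOI): `v(tX(emb α R) - emb α tX R) ≤ v(tX R)²`; `v(emb α - w x) = v(emb α - w α) ≤ v p ≤ v(tX R)` (TEP; `v p = v(tX R)^(p²-1)`, `v(tX R) < 1`). -/
def S_TRI : Prop :=
  ∀ (p : ℕ) (A B : ℤ) (P : Ideal (OO A B)) (V : ValuationSubring ℂ) (f : ℕ),
    SetI p A B P V f → ∀ w : OO A B → ℂ, TeiI p P V w → ∀ (ι : Type)
    (R : Reps A B (p * f) ι), GRd V R → ∀ (i : ι) (x : OO A B), x ∉ P →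
      V.valuation (tX (xn (R.L i)) (yy (R.L i)) (pt R p i x) -
        w x * tX (xn (R.L i)) (yy (R.L i)) (pt R p i 1)) ≤
      V.valuation (tX (xn (R.L i)) (yy (R.L i)) (pt R p i 1)) ^ 2

/-- (ROT) `ϖ(pt x) ≡ w(x) ϖ(pt 1)` modulo `τ^q`.

USES VPA, KRI, MLI, PTI, `t_TEP`, GRI. PROOF. `L = L_i`, `R₁ = pt R p i 1`, `τ = v(tX R₁)`, `τ^(q-1) = v p`. (MLI) `α ≡ x` modulo `P`, `pt R p i x ≡ emb α R₁` modulo `L`; `tX` periodic; (VPA) for `M = L`, `mu = emb α`: `v(ϖ(emb α R₁) - emb α ϖ(R₁)) ≤ τ^q`; `v(emb α - w x) ≤ v p`, `v(ϖ(R₁)) ≤ τ`: `v((emb α - w x) ϖ(R₁)) ≤ v(p) τ = τ^q`. -/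
def S_ROT : Prop :=
  ∀ (p : ℕ) (A B : ℤ) (P : Ideal (OO A B)) (V : ValuationSubring ℂ) (f : ℕ),
    SetI p A B P V f → ∀ w : OO A B → ℂ, TeiI p P V w → ∀ (ι : Type)
    (R : Reps A B (p * f) ι), GRd V R → ∀ (i : ι) (a2 a4 : V), GRa V (R.L i) a2 a4 →
    ∀ lam : ℕ → ℂ, HasTyI V (R.L i) (p ^ 2) a2 a4 lam → ∀ x : OO A B, x ∉ P →
      V.valuation (vpi lam (p ^ 2) (tX (xn (R.L i)) (yy (R.L i)) (pt R p i x)) -
        w x * vpi lam (p ^ 2) (tX (xn (R.L i)) (yy (R.L i)) (pt R p i 1))) ≤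
      V.valuation (tX (xn (R.L i)) (yy (R.L i)) (pt R p i 1)) ^ (p ^ 2)

end

end Pool.Agent.TWI
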