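import Pool.Agent.TWI.StUI
import Pool.Agent.TWI.StI1
import Pool.Agent.TWI.RAMGI
import Pool.Agent.TWF.UNF
import Pool.Agent.MUX.W_INV

/-!
# TWI, module UNFI: a field unramified above the inert prime `p`, of degree prime to `p` over `k`, has a level prime to `p` (helper56)

As `Pool/Agent/TWF/UNF.lean`. Let `F = RF (idl (f p)) ≥ K`. The group `{σ : σ = (c), c ≡ 1 modulo f}` has at most `p² - 1`
elements and contains the inertia group at `V`, whose order is divisible by `p² - 1`, because `F` contains the element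
`x(z₀ + R) - x(z₀)`, `z₀` of order `f`, `R ∈ E[p]`, of the value `v(t(R))`, `v(t(R))^(p² - 1) = v(p)` (`S_KRI`).
-/

set_option autoImplicit false

open WeierstrassCurve Polynomial NumberField IsDedekindDomain

namespace Pool.Agent.TWI

open _root_.MU3 Pool.Agent.MU3A Pool.Agent.MU3B Pool.Agent.MU3C Pool.Agent.RI Pool.Agent.RID
open Pool.Agent.MUX Pool.Agent.MUXU Pool.Agent.MUXW Pool.Agent.TWT
open Pool.Agent.TWF (IGV unf_w unf_nf unf_one unf_lev)
open Pool.Agent.MU3V (cls Sub GD algDF)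
open Pool.Agent.MUXV (GR InK tX)
open OnePoint

noncomputable section

namespace UNFI

variable {p : ℕ} {A B : ℤ} {P : Ideal (OO A B)} {V : ValuationSubring ℂ} {f n : ℕ} {ι : Type}

open Pool.Agent.MU3E.RAM in
/-- if the value `v(y)` of an element of `F` has `v(y)^N = v(p)` then `N` divides the order of the inertia group -/
theorem dvd_card (hC : CQ A B) (hp : p.Prime) (hpP : ((p : ℕ) : OO A B) ∈ P) (hV : OverI V P)
    (hsplit : ((p : ℕ) : OO A B) ∉ P ^ 2)
    (F : IntermediateField (kk A B) ℂ) [FiniteDimensional (kk A B) F] [IsGalois (kk A B) F]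
    (N : ℕ) (hN : N ≠ 0) (y : F) (hy : V.valuation (y : ℂ) ^ N = V.valuation (p : ℂ)) :
    N ∣ Nat.card (IGV V F) := by
  have hF : NumberField F := unf_nf hC F
  obtain ⟨w, hw, hord⟩ := unf_w hC hp hpP hV hsplit F
  have hpC : (p : ℂ) ≠ 0 := by exact_mod_cast hp.ne_zero
  have hvp0 : V.valuation (p : ℂ) ≠ 0 := (V.valuation.ne_zero_iff).2 hpC
  have hy0 : (y : ℂ) ≠ 0 := by
    intro h0
    rw [h0, map_zero, zero_pow hN] at hy
    exact hvp0 hy.symm
  have hyF : y ≠ 0 := by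
    rintro rfl
    exact hy0 rfl
  have hpF : (p : F) ≠ 0 := by exact_mod_cast hp.ne_zero
  -- the quotient is a unit
  have h1 : V.valuation ((algebraMap F ℂ) (y ^ N / (p : F))) = 1 := by
    have h2 : (algebraMap F ℂ) (y ^ N / (p : F)) = (y : ℂ) ^ N / (p : ℂ) := by
      rw [map_div₀, map_pow, map_natCast]
      rfl
    rw [h2, map_div₀, map_pow, hy, div_self hvp0]
  have h2 : V.valuation ((algebraMap F ℂ) (y ^ N / (p : F))⁻¹) = 1 := by
    rw [map_inv₀, map_inv₀, h1, inv_one]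
  have h3 : w.valuation F (y ^ N / (p : F)) ≤ 1 := le_ord (algebraMap F ℂ) hw h1.le
  have h4 : w.valuation F (y ^ N / (p : F))⁻¹ ≤ 1 := le_ord (algebraMap F ℂ) hw h2.le
  have h5 : w.valuation F (y ^ N / (p : F)) = 1 := by
    refine le_antisymm h3 ?_
    rw [map_inv₀] at h4
    have h6 : w.valuation F (y ^ N / (p : F)) ≠ 0 :=
      ((w.valuation F).ne_zero_iff).2 (div_ne_zero (pow_ne_zero _ hyF) hpF)
    exact (inv_le_one₀ (zero_lt_iff.2 h6)).1 h4
  have h6 : w.valuation F y ^ N = w.valuation F (p : F) := by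
    have h7 : w.valuation F (p : F) ≠ 0 := ((w.valuation F).ne_zero_iff).2 hpF
    rw [map_div₀, map_pow, div_eq_one_iff_eq h7] at h5
    exact h5
  rw [← h6] at hord
  have h0 : w.valuation F y ≠ 0 := ((w.valuation F).ne_zero_iff).2 hyF
  rw [← WithZero.exp_log h0, ← WithZero.exp_nsmul, ← WithZero.exp_nsmul, WithZero.exp_inj,
    nsmul_eq_mul, nsmul_eq_mul] at hord
  have h7 : (N : ℤ) ∣ (Nat.card (IGV V F) : ℤ) :=
    ⟨-WithZero.log (w.valuation F y), by linear_combination hord⟩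
  exact_mod_cast h7

theorem val_int (h : SetI p A B P V f) (j : ℤ) (hj : ¬ (p : ℤ) ∣ j) :
    V.valuation (j : ℂ) = 1 := by
  have hpm : ((p : ℕ) : OO A B) ∈ P := by
    rw [h.eP]
    exact Ideal.mem_span_singleton_self _
  have h1 : ((j : ℤ) : OO A B) ∉ P := by
    intro hm
    have hc : IsCoprime (p : ℤ) j :=
      ((Nat.prime_iff_prime_int.1 h.pp).coprime_iff_not_dvd).2 hj
    obtain ⟨a, b, hab⟩ := hc
    apply h.hP.ne_top
    rw [Ideal.eq_top_iff_one]
    have h2 : (a : OO A B) * ((p : ℕ) : OO A B) + (b : OO A B) * ((j : ℤ) : OO A B) = 1 := by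
      have h3 := congrArg (fun t : ℤ => (t : OO A B)) hab
      push_cast at h3
      exact h3
    rw [← h2]
    exact P.add_mem (P.mul_mem_left _ hpm) (P.mul_mem_left _ hm)
  have h2 : ¬ V.valuation (j : ℂ) < 1 := by
    intro h3
    apply h1
    rw [← h.hV, Pool.Agent.MUX.emb_intCast h.cq]
    exact V.mem_nonunits_iff.2 h3
  have h4 : V.valuation (j : ℂ) ≤ 1 := (V.valuation_le_one_iff _).2 (intCast_mem V j)
  exact le_antisymm h4 (not_lt.1 h2)

theorem good (h : SetI p A B P V f) (R : Reps A B n ι) (hR : GRd V R) (i : ι) :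
    ∃ (W : WeierstrassCurve.Affine ℂ) (ξ : ℂ →+ W.Point),
      GR V W (R.L i) (fun z => (R.L i).weierstrassP z - 1 / 12)
        (fun z => (R.L i).derivWeierstrassP z / 2) ξ := by
  have h5 := h.p5
  have h2 : V.valuation (2 : ℂ) = 1 := by
    have h3 := val_int h 2 (fun h4 => by
      have h6 := Int.le_of_dvd (by norm_num) h4
      omega)
    have h7 : ((2 : ℤ) : ℂ) = 2 := by norm_num
    rwa [h7] at h3
  refine Pool.Agent.MUXV.x_NGR V (R.L i) (R.nl i).nrm h2 (hR.kap i) ?_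
  have h3 := hR.dis i
  have h4 : (1 : ℂ) + 1728 * Pool.Agent.MUX.kap (R.L i) = 12 * (R.L i).g₂ := by
    unfold Pool.Agent.MUX.kap
    ring
  rwa [h4] at h3

/-- an element of the inertia group is trivial on the Hilbert class field -/
theorem trH (hC : CQ A B) (T : TorX A B) (R : Reps A B n ι) (hR : GRd V R)
    {m : Ideal (OO A B)} (hm : m ≠ ⊥) (σ : RF m ≃ₐ[kk A B] RF m) (hσ : σ ∈ IGV V (RF m)) :
    TrH σ := by
  obtain ⟨s, hs, hsσ⟩ := Pool.Agent.MUXJ.LEV.lift T hm σ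
  -- the values `kap`
  have hkap : ∀ (b : Ideal (OO A B)) (L : PeriodPair) (om : ℂ), IsNL b L om →
      ∃ i, kap L = kap (R.L i) := by
    intro b L om hL
    obtain ⟨i, x, y, hx, hy, hxy⟩ := R.surj b hL.b_ne
    refine ⟨i, ?_⟩
    have h1 := Pool.Agent.MUXY.ty_SAM Pool.Agent.MUXF.xf_ALG A B hC b (R.b i) L (R.L i) om (R.om i)
      x y hL (R.nl i) hx hy hxy
    obtain ⟨-, -, h2, -⟩ := ta_SCP L (R.L i) 1 one_ne_zero (fun u => by rw [one_mul]; exact h1 u)
    unfold kap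
    rw [h2]
    norm_num
  have hfix : ∀ (b : Ideal (OO A B)) (L : PeriodPair) (om : ℂ), IsNL b L om →
      s (kap L) = kap L := by
    intro b L om hL
    obtain ⟨a, -, ha⟩ := T.act m hm s hs
    obtain ⟨b', L', om', mu, hL', hact⟩ := ha b L om hL
    obtain ⟨i, hi⟩ := hkap b L om hL
    obtain ⟨j, hj⟩ := hkap b' L' om' hL'
    have hmem : kap L ∈ (RF m : IntermediateField (kk A B) ℂ) :=
      IntermediateField.subset_adjoin _ _ ⟨b, L, om, hL, Or.inl rfl⟩
    have h1 := hσ ⟨kap L, hmem⟩ (by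
      show V.valuation (kap L) ≤ 1
      rw [hi, hR.kap i])
    rw [← hsσ, ← hact.kap] at h1
    have h2 : j = i := hR.inj j i (by
      rw [← hi, ← hj]
      exact h1)
    rw [← hact.kap, hj, h2, ← hi]
  intro x hx
  have h1 : s (x : ℂ) = (x : ℂ) := by
    have h2 : ∀ y ∈ (RF (⊤ : Ideal (OO A B)) : IntermediateField (kk A B) ℂ), s y = y := by
      intro y hy
      induction hy using IntermediateField.adjoin_induction with
      | mem y hy =>
        obtain ⟨b, L, om, hL, rfl | ⟨z, hz, hzL, rfl⟩⟩ := hy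
        · exact hfix b L om hL
        · exfalso
          apply hzL
          have h3 := hz 1 Submodule.mem_top
          rwa [Pool.Agent.MUX.emb_one hC, one_mul] at h3
      | algebraMap y =>
        have h3 := hsσ (algebraMap (kk A B) (RF m) y)
        rw [σ.commutes] at h3
        exact h3
      | add y z _ _ hy hz => rw [map_add, hy, hz]
      | inv y _ hy => rw [map_inv₀, hy]
      | mul y z _ _ hy hz => rw [map_mul, hy, hz]
    exact h2 _ hx
  apply Subtype.ext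
  rw [← hsσ, h1]

/-- the inertia group is trivial on `K` -/
theorem fixes (hC : CQ A B) (hp : p.Prime) (hpP : ((p : ℕ) : OO A B) ∈ P) (hV : OverI V P)
    (hsplit : ((p : ℕ) : OO A B) ∉ P ^ 2) (T : TorX A B)
    (K : IntermediateField ℚ ℂ) [FiniteDimensional ℚ K] (hk : kk A B ≤ K)
    {m : Ideal (OO A B)} (hm : m ≠ ⊥)
    (hK : ∀ x ∈ K, x ∈ (RF m : IntermediateField (kk A B) ℂ))
    (hun : ∀ Q : Ideal (𝓞 K), Q.IsPrime → (p : 𝓞 K) ∈ Q → (p : 𝓞 K) ∉ Q ^ 2)
    (σ : RF m ≃ₐ[kk A B] RF m) (hσ : σ ∈ IGV V (RF m)) (x : RF m) (hx : (x : ℂ) ∈ K) :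
    σ x = x := by
  obtain ⟨hgal, hfin, -⟩ := Pool.Agent.MUXJ.t_GAL A B T m hm K hk hK
  set K' : IntermediateField (kk A B) ℂ := IntermediateField.extendScalars hk with hK'
  have hle : K' ≤ RF m := fun y hy => hK y hy
  -- the ramification hypothesis for `K'`
  let e0 : K ≃+* K' :=
    { toFun := fun y => ⟨y.1, y.2⟩
      invFun := fun y => ⟨y.1, y.2⟩
      left_inv := fun _ => rfl
      right_inv := fun _ => rfl
      map_mul' := fun _ _ => rfl
      map_add' := fun _ _ => rfl }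
  let e : 𝓞 K' ≃+* 𝓞 K := RingOfIntegers.mapRingEquiv e0.symm
  have hun' : ∀ Q : Ideal (𝓞 K'), Q.IsPrime → (p : 𝓞 K') ∈ Q → (p : 𝓞 K') ∉ Q ^ 2 := by
    intro Q hQ hpQ hpQ2
    have hQ' : (Q.map e).IsPrime := Ideal.map_isPrime_of_equiv e
    refine hun (Q.map e) hQ' ?_ ?_
    · have h1 := Ideal.mem_map_of_mem e hpQ
      rwa [map_natCast] at h1
    · have h1 := Ideal.mem_map_of_mem e hpQ2
      rwa [map_natCast, Ideal.map_pow] at h1
  let _ : Algebra K' (RF m) := (IntermediateField.inclusion hle).toRingHom.toAlgebra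
  have _ : IsScalarTower (kk A B) K' (RF m) := IsScalarTower.of_algebraMap_eq fun y => rfl
  let σ' : K' ≃ₐ[kk A B] K' := σ.restrictNormal K'
  have hσ' : ∀ y : K', ((σ' y : K') : ℂ) = ((σ ⟨y.1, hle y.2⟩ : RF m) : ℂ) := by
    intro y
    have h1 := σ.restrictNormal_commutes K' y
    exact congrArg Subtype.val h1
  have h1 : σ' = 1 := by
    refine unf_one hC hp hpP hV hsplit K' hun' σ' ?_
    intro y hy
    rw [hσ']
    exact hσ ⟨y.1, hle y.2⟩ hy
  have h2 := hσ' ⟨x.1, hx⟩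
  rw [h1] at h2
  exact Subtype.ext h2.symm

/-- `absD ≥ 3`, so `f` does not divide `2` in `O` -/
theorem not_dvd_two (h : SetI p A B P V f) : ¬ ((f : ℕ) : OO A B) ∣ 2 := by
  rintro ⟨t, ht⟩
  have h1 := congrArg QuadraticAlgebra.re ht
  have h2 : (((f : ℕ) : OO A B) * t).re = (f : ℤ) * t.re := by
    rw [QuadraticAlgebra.re_mul]
    have e1 : (((f : ℕ) : OO A B)).re = (f : ℤ) := by simp
    have e2 : (((f : ℕ) : OO A B)).im = 0 := by simp
    rw [e1, e2]
    ring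
  have h3 : (2 : OO A B).re = 2 := by
    have h4 : (2 : OO A B) = ((2 : ℤ) : OO A B) := by norm_num
    rw [h4]
    exact QuadraticAlgebra.re_intCast _
  rw [h2, h3] at h1
  have h4 : (f : ℤ) ∣ 2 := ⟨t.re, h1⟩
  have h5 : 2 * absD A B ∣ 2 := h.fD.trans h4
  have h6 := Int.le_of_dvd (by norm_num) h5
  have h7 := h.cq.neg
  have h8 := h.cq.hB
  unfold absD at h6
  rcases h8 with h8 | h8
  · rw [h8] at h6 h7
    omega
  · rw [h8] at h6 h7
    omega

/-- the automorphisms which act trivially on `E[f]` are in the inertia group at `V` -/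
theorem inert (hKRI : S_KRI) (f₀ : ℕ) (h₀ : SetI p A B P V f₀) (h : SetI p A B P V f)
    (T : TorX A B) (R : Reps A B (p * f₀) ι) (hR : GRd V R)
    (σ : (RF (idl (f * p)) : IntermediateField (kk A B) ℂ) ≃ₐ[kk A B] RF (idl (f * p)))
    (c : OO A B) (hc : ActH σ ((f * p : ℕ) : OO A B) c) (hc1 : ((f : ℕ) : OO A B) ∣ c - 1) :
    σ ∈ IGV V (RF (idl (f * p))) := by
  have hC := h.cq
  have hp := h.pp
  have hpP : ((p : ℕ) : OO A B) ∈ P := by
    rw [h.eP]
    exact Ideal.mem_span_singleton_self _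
  have hsplit : ((p : ℕ) : OO A B) ∉ P ^ 2 := by
    rw [h.eP]
    exact RAMGI.not_sq hp
  have hm0 : ((f * p : ℕ) : OO A B) ≠ 0 :=
    Pool.Agent.MUX.natCast_ne_zero' hC (mul_ne_zero h.f0 hp.ne_zero)
  have hfO : ((f : ℕ) : OO A B) ≠ 0 := Pool.Agent.MUX.natCast_ne_zero' hC h.f0
  have hmI : idl (A := A) (B := B) (f * p) ≠ ⊥ := Pool.Agent.MUXJ.LEV.idl_ne
    (mul_ne_zero h.f0 hp.ne_zero)
  have hL0 : IsNL (⊤ : Ideal (OO A B)) (R.L R.i0) (R.om R.i0) := by
    have h1 := R.nl R.i0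
    rwa [R.b0] at h1
  have hom := hL0.om_ne
  have hfin := T.fin _ hmI
  have hgal := T.gal _ hmI
  have hle : (RF (idl f) : IntermediateField (kk A B) ℂ) ≤ RF (idl (f * p)) :=
    T.mono _ _ (Pool.Agent.MUXJ.LEV.idl_le (Dvd.intro _ rfl))
  obtain ⟨a1, a2, a3, a4, a5, a6, a7, a8⟩ := ty_ACM Pool.Agent.MUXV.q_EMB A B hC _ _ hL0 _ hm0
  obtain ⟨k1, k2⟩ := ty_KER Pool.Agent.MUXV.q_EMB A B hC T _ hm0
  have hfCC : (f : ℂ) ≠ 0 := by exact_mod_cast h.f0
  have hpCC : (p : ℂ) ≠ 0 := by exact_mod_cast hp.ne_zero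
  have hmem : ∀ y : OO A B, R.om R.i0 * emb y ∈ (R.L R.i0).lattice := fun y =>
    (hL0.mem _).2 ⟨y, Submodule.mem_top, rfl⟩
  have hvf : V.valuation ((f : ℕ) : ℂ) = 1 := by
    have h2 := val_int h (f : ℤ) (by exact_mod_cast h.fp)
    rwa [Int.cast_natCast] at h2
  obtain ⟨W, ξ, G⟩ := good h₀ R hR R.i0
  -- torsion of order `f`
  have htor : ∀ z : ℂ, (f : ℂ) * z ∈ (R.L R.i0).lattice →
      InK V (R.L R.i0) (fun z => (R.L R.i0).weierstrassP z - 1 / 12) z →
      z ∈ (R.L R.i0).lattice := fun z hz hK => Pool.Agent.MUXV.mem_of_nat_mul G hK hvf hz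
  -- the group
  set HP : Set ((RF (idl (f * p)) : IntermediateField (kk A B) ℂ) ≃ₐ[kk A B] RF (idl (f * p))) :=
    {τ | ∃ d : OO A B, ActH τ ((f * p : ℕ) : OO A B) d ∧ ((f : ℕ) : OO A B) ∣ d - 1} with hHP
  have hsub : IGV V (RF (idl (f * p))) ⊆ HP := by
    intro τ hτ
    obtain ⟨d, hd⟩ := k1 τ (trH hC T R hR hmI τ hτ)
    have h3 : ActH τ ((f : ℕ) : OO A B) d := a3 _ τ _ d (Nat.cast_dvd_cast (Dvd.intro _ rfl)) hd
    have h4 := ty_INV Pool.Agent.MUXV.q_EMB A B hC _ _ hL0 ((f : ℕ) : OO A B) hfO V ⟨W, ξ, G⟩ (by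
      intro z hz hK
      rw [Pool.Agent.MUX.emb_natCast hC] at hz
      exact htor z hz hK) (RF (idl (f * p))) hle τ (by
      intro x hx
      exact hτ x ((ValuationSubring.valuation_le_one_iff _ _).2 hx)) d h3
    rcases h4 with h1 | h1
    · exact ⟨d, hd, h1⟩
    · refine ⟨-d, a2 _ τ d (-d) (Or.inr (by rw [add_neg_cancel]; exact dvd_zero _)) hd, ?_⟩
      have h2 : -d - 1 = -(d + 1) := by ring
      rw [h2]
      exact (dvd_neg).2 h1
  have hHPfin : HP.Finite := Set.toFinite _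
  -- at most `p² - 1` elements
  have hfinq : Finite (OO A B ⧸ P) := Pool.Agent.MUX.finite_quot hC (by
    rw [h.eP]
    exact Pool.Agent.MUXJ.LEV.idl_ne hp.ne_zero)
  have hcardq : Nat.card (OO A B ⧸ P) = p ^ 2 := by
    have h1 : nI P = p ^ 2 := by
      rw [h.eP]
      have h2 := Pool.Agent.MUX.nI_sp hC (Pool.Agent.MUX.natCast_ne_zero' hC hp.ne_zero)
      have h3 : nm ((p : ℕ) : OO A B) = (p : ℤ) ^ 2 := by
        unfold nm
        simp
      rw [h3] at h2
      rw [h2, Int.natAbs_pow]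
      simp
    exact h1
  have hcard : HP.ncard + 1 ≤ p ^ 2 := by
    choose d hd hd1 using fun τ : HP => τ.2
    have hnz : ∀ τ : HP, d τ ∉ P := by
      intro τ hP
      obtain ⟨u, v, huv⟩ := (hd τ).cop
      apply h.hP.ne_top
      rw [Ideal.eq_top_iff_one, ← huv]
      refine P.add_mem (P.mul_mem_left _ hP) (P.mul_mem_left _ ?_)
      rw [Nat.cast_mul]
      exact P.mul_mem_left _ hpP
    have hinj : Function.Injective (fun o : Option HP =>
        o.elim (0 : OO A B ⧸ P) fun τ => Ideal.Quotient.mk P (d τ)) := by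
      rintro (_ | τ) (_ | τ') hττ
      · rfl
      · exact absurd (Ideal.Quotient.eq_zero_iff_mem.1 hττ.symm) (hnz τ')
      · exact absurd (Ideal.Quotient.eq_zero_iff_mem.1 hττ) (hnz τ)
      · have h2 : d τ - d τ' ∈ P := Ideal.Quotient.eq.1 hττ
        rw [h.eP, Ideal.mem_span_singleton] at h2
        have h3 : ((f : ℕ) : OO A B) ∣ d τ - d τ' := by
          have h4 : d τ - d τ' = (d τ - 1) - (d τ' - 1) := by ring
          rw [h4]
          exact dvd_sub (hd1 τ) (hd1 τ')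
        have hcop : IsCoprime ((f : ℕ) : OO A B) ((p : ℕ) : OO A B) := by
          have h4 : IsCoprime (f : ℤ) (p : ℤ) :=
            (Nat.isCoprime_iff_coprime.2 ((Nat.Prime.coprime_iff_not_dvd hp).2 h.fp)).symm
          have h5 := h4.map (Int.castRingHom (OO A B))
          simpa using h5
        have h5 : ((f * p : ℕ) : OO A B) ∣ d τ - d τ' := by
          rw [Nat.cast_mul]
          exact hcop.mul_dvd h3 h2
        have h6 : ActH τ'.1 ((f * p : ℕ) : OO A B) (d τ) :=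
          a2 _ _ (d τ') (d τ) (Or.inl (by
            rw [← neg_sub]
            exact (dvd_neg).2 h5)) (hd τ')
        exact congrArg Option.some (Subtype.ext (a5 _ _ _ (hd τ) h6))
    have h8 := Nat.card_le_card_of_injective _ hinj
    rw [Finite.card_option, Nat.card_coe_set_eq, hcardq] at h8
    exact h8
  -- the point of order `f`
  set z₀ : ℂ := R.om R.i0 / f with hz₀
  set w : ℂ := pt R p R.i0 1 with hw
  have hfz : (f : ℂ) * z₀ ∈ (R.L R.i0).lattice := by
    have h1 := hmem 1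
    rw [Pool.Agent.MUX.emb_one hC, mul_one] at h1
    have h2 : (f : ℂ) * z₀ = R.om R.i0 := by
      rw [hz₀]
      field_simp
    rwa [h2]
  have hdiv : ∀ j : OO A B, emb j * z₀ ∈ (R.L R.i0).lattice → ((f : ℕ) : OO A B) ∣ j := by
    intro j hj
    obtain ⟨t, -, ht⟩ := (hL0.mem _).1 hj
    refine ⟨t, ?_⟩
    apply Pool.Agent.MUX.emb_inj hC
    rw [Pool.Agent.MUX.emb_mul hC, Pool.Agent.MUX.emb_natCast hC]
    rw [hz₀] at ht
    have h2 : R.om R.i0 * emb j = R.om R.i0 * ((f : ℂ) * emb t) := by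
      calc R.om R.i0 * emb j = (f : ℂ) * (emb j * (R.om R.i0 / f)) := by
            field_simp
        _ = _ := by
            rw [ht]
            ring
    exact mul_left_cancel₀ hom h2
  have h2f := not_dvd_two h
  have he2 : emb (2 : OO A B) = 2 := by
    have h4 : (2 : OO A B) = ((2 : ℕ) : OO A B) := by norm_num
    rw [h4, Pool.Agent.MUX.emb_natCast hC]
    norm_num
  have hz2 : ¬ InK V (R.L R.i0) (fun z => (R.L R.i0).weierstrassP z - 1 / 12) (2 * z₀) := by
    intro hK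
    have h1 := htor (2 * z₀) (by
      have h2 : (f : ℂ) * (2 * z₀) = 2 * ((f : ℂ) * z₀) := by ring
      rw [h2, ← he2]
      exact Pool.Agent.TWF.UNF.cmo hC hL0 2 _ hfz) hK
    rw [← he2] at h1
    exact h2f (hdiv 2 h1)
  have hz1 : ¬ InK V (R.L R.i0) (fun z => (R.L R.i0).weierstrassP z - 1 / 12) z₀ := by
    intro hK
    apply hz2
    have h1 := Pool.Agent.MUXV.inK_nat G hK 2
    rwa [Nat.cast_two] at h1
  have h1P : (1 : OO A B) ∉ P := fun h1 => h.hP.ne_top ((Ideal.eq_top_iff_one _).2 h1)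
  obtain ⟨hwK, hwL, hwt⟩ := hKRI p A B P V f₀ h₀ ι R hR R.i0 1 h1P
  have hval : V.valuation (xn (R.L R.i0) (z₀ + w) - xn (R.L R.i0) z₀) =
      V.valuation (tX (xn (R.L R.i0)) (yy (R.L R.i0)) w) :=
    (Pool.Agent.MUXV.q_YUN V W (R.L R.i0) _ _ ξ G z₀ hz1 hz2).2 w hwK hwL
  have hpw : (p : ℂ) * w ∈ (R.L R.i0).lattice := by
    have h1 : (p : ℂ) * w = R.om R.i0 * emb ((nI (R.b R.i0) : ℕ) : OO A B) := by
      rw [hw]
      unfold pt
      rw [Pool.Agent.MUX.emb_natCast hC, Pool.Agent.MUX.emb_one hC]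
      field_simp
    rw [h1]
    exact hmem _
  have hzwK : ¬ InK V (R.L R.i0) (fun z => (R.L R.i0).weierstrassP z - 1 / 12) (z₀ + w) := by
    rw [Pool.Agent.MUXV.inK_congr G (w := z₀) (by
      rw [add_sub_cancel_left]
      exact hwK)]
    exact hz1
  -- membership in `F`
  have hxF : ∀ z : ℂ, z ∉ (R.L R.i0).lattice → ((f * p : ℕ) : ℂ) * z ∈ (R.L R.i0).lattice →
      xn (R.L R.i0) z ∈ (RF (idl (f * p)) : IntermediateField (kk A B) ℂ) := by
    intro z hzL hz
    refine IntermediateField.subset_adjoin _ _ ⟨_, _, _, hL0, Or.inr ⟨z, ?_, hzL, rfl⟩⟩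
    intro x hx
    obtain ⟨t, rfl⟩ := Ideal.mem_span_singleton.1 hx
    have h2 : emb (((f * p : ℕ) : OO A B) * t) * z = emb t * (((f * p : ℕ) : ℂ) * z) := by
      rw [Pool.Agent.MUX.emb_mul hC, Pool.Agent.MUX.emb_natCast hC]
      ring
    rw [h2]
    exact Pool.Agent.TWF.UNF.cmo hC hL0 t _ hz
  have hnat : ∀ (k : ℕ) (z : ℂ), z ∈ (R.L R.i0).lattice → (k : ℂ) * z ∈ (R.L R.i0).lattice := by
    intro k z hz
    have h1 := Pool.Agent.TWF.UNF.cmo hC hL0 ((k : ℕ) : OO A B) _ hz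
    rwa [Pool.Agent.MUX.emb_natCast hC] at h1
  have hx1 := hxF z₀ (Pool.Agent.MUXV.int_X hz1).1 (by
    have h1 : ((f * p : ℕ) : ℂ) * z₀ = (p : ℂ) * ((f : ℂ) * z₀) := by
      push_cast
      ring
    rw [h1]
    exact hnat p _ hfz)
  have hx2 := hxF (z₀ + w) (Pool.Agent.MUXV.int_X hzwK).1 (by
    have h1 : ((f * p : ℕ) : ℂ) * (z₀ + w) = (p : ℂ) * ((f : ℂ) * z₀) + (f : ℂ) * ((p : ℂ) * w) := by
      push_cast
      ring
    rw [h1]
    exact (R.L R.i0).lattice.add_mem (hnat p _ hfz) (hnat f _ hpw))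
  have hp1 : p ^ 2 - 1 ≠ 0 := by
    have h1 : 1 < p ^ 2 := Nat.one_lt_pow two_ne_zero hp.one_lt
    omega
  have hdvd : (p ^ 2 - 1) ∣ Nat.card (IGV V (RF (idl (A := A) (B := B) (f * p)))) := by
    refine dvd_card hC hp hpP h.hV hsplit _ (p ^ 2 - 1) hp1 (⟨_, hx2⟩ - ⟨_, hx1⟩) ?_
    show V.valuation (xn (R.L R.i0) (z₀ + w) - xn (R.L R.i0) z₀) ^ (p ^ 2 - 1) = _
    rw [hval]
    exact hwt
  have h1mem : (1 : (RF (idl (f * p)) : IntermediateField (kk A B) ℂ) ≃ₐ[kk A B]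
      RF (idl (f * p))) ∈ IGV V (RF (idl (f * p))) := by
    intro x _
    simp
  have hpos : 0 < (IGV V (RF (idl (A := A) (B := B) (f * p)))).ncard :=
    (Set.ncard_pos (Set.toFinite _)).2 ⟨1, h1mem⟩
  rw [Nat.card_coe_set_eq] at hdvd
  have hle2 := Nat.le_of_dvd hpos hdvd
  have heq := Set.eq_of_subset_of_ncard_le hsub (by omega) hHPfin
  rw [heq]
  exact ⟨c, hc, hc1⟩

end UNFI

open UNFI in
/-- a field unramified above the inert prime `p`, of degree prime to `p` over `k`, has a level prime to `p` -/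
theorem i_UNFI (hKRI : S_KRI) : S_UNFI := by
  intro p A B P V f₀ hS₀ T ι _ R hR K _ hk hKp M hM0 hM hun N hN0 hNp
  have hC := hS₀.cq
  have hp := hS₀.pp
  have hp2 : p ≠ 2 := by have := hS₀.p5; omega
  obtain ⟨f, hf0, hfp, hNf, hDf, hKf⟩ := unf_lev hp hp2 hC.neg hS₀.pD T
    ⟨_, _, _, R.nl R.i0⟩ K hk hKp M hM0 hM N hN0 hNp
  refine ⟨f, hf0, hfp, hNf, hDf, ?_⟩
  have hS : SetI p A B P V f := ⟨hC, hp, hS₀.p5, hS₀.eP, hS₀.hP, hS₀.hV, hS₀.pD, hf0, hfp, hDf⟩
  have hpP : ((p : ℕ) : OO A B) ∈ P := by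
    rw [hS₀.eP]
    exact Ideal.mem_span_singleton_self _
  have hsplit : ((p : ℕ) : OO A B) ∉ P ^ 2 := by
    rw [hS₀.eP]
    exact RAMGI.not_sq hp
  have hm0 : ((f * p : ℕ) : OO A B) ≠ 0 :=
    Pool.Agent.MUX.natCast_ne_zero' hC (mul_ne_zero hf0 hp.ne_zero)
  have hmI : idl (A := A) (B := B) (f * p) ≠ ⊥ := Pool.Agent.MUXJ.LEV.idl_ne
    (mul_ne_zero hf0 hp.ne_zero)
  have hfO : ((f : ℕ) : OO A B) ≠ 0 := Pool.Agent.MUX.natCast_ne_zero' hC hf0
  have hL0 : IsNL (⊤ : Ideal (OO A B)) (R.L R.i0) (R.om R.i0) := by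
    have h1 := R.nl R.i0
    rwa [R.b0] at h1
  have hfin := T.fin _ hmI
  have hgal := T.gal _ hmI
  obtain ⟨a1, a2, a3, a4, a5, a6, a7, a8⟩ := ty_ACM Pool.Agent.MUXV.q_EMB A B hC _ _ hL0 _ hm0
  obtain ⟨b1, -, -, -, -, b6, -, -⟩ := ty_ACM Pool.Agent.MUXV.q_EMB A B hC _ _ hL0 _ hfO
  obtain ⟨k1, k2⟩ := ty_KER Pool.Agent.MUXV.q_EMB A B hC T _ hm0
  have h01 : idl (A := A) (B := B) (f * p) ≤ idl f :=
    Pool.Agent.MUXJ.LEV.idl_le (Dvd.intro _ rfl)
  have h01' : (RF (idl f) : IntermediateField (kk A B) ℂ) ≤ RF (idl (f * p)) := T.mono _ _ h01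
  -- the automorphisms which are trivial on `RF (idl f)`
  have key : ∀ σ : (RF (idl (f * p)) : IntermediateField (kk A B) ℂ) ≃ₐ[kk A B] RF (idl (f * p)),
      (∀ y : (RF (idl (f * p)) : IntermediateField (kk A B) ℂ),
        (y : ℂ) ∈ (RF (idl f) : IntermediateField (kk A B) ℂ) → σ y = y) →
      ∀ x : (RF (idl (f * p)) : IntermediateField (kk A B) ℂ), (x : ℂ) ∈ K → σ x = x := by
    intro σ hσ x hx
    have hH : TrH σ := by
      intro y hy
      exact hσ y (T.mono _ _ le_top hy)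
    have hex : ∃ c : OO A B, ActH σ ((f * p : ℕ) : OO A B) c ∧ ((f : ℕ) : OO A B) ∣ c - 1 := by
      obtain ⟨c, hc⟩ := k1 σ hH
      have h1 : ActH (1 : (RF (idl f) : IntermediateField (kk A B) ℂ) ≃ₐ[kk A B] RF (idl f))
          ((f : ℕ) : OO A B) c := by
        refine a8 _ σ 1 c (Nat.cast_dvd_cast (Dvd.intro _ rfl)) ?_ hc
        intro y hy
        rw [hσ ⟨y, hy⟩ y.2]
        rfl
      rcases b1 _ _ c 1 le_rfl h1 (b6 _) with h2 | h2
      · exact ⟨c, hc, h2⟩
      · refine ⟨-c, a2 _ σ c (-c) (Or.inr (by rw [add_neg_cancel]; exact dvd_zero _)) hc, ?_⟩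
        have h3 : -c - 1 = -(c + 1) := by ring
        rw [h3]
        exact (dvd_neg).2 h2
    obtain ⟨c, hc, hc1⟩ := hex
    exact fixes hC hp hpP hS.hV hsplit T K hk hmI hKf hun σ
      (inert hKRI f₀ hS₀ hS T R hR σ c hc hc1) x hx
  let F0 : IntermediateField (kk A B) (RF (idl (A := A) (B := B) (f * p))) :=
    IntermediateField.restrict h01'
  intro x hx
  have h1 : (⟨x, hKf x hx⟩ : (RF (idl (A := A) (B := B) (f * p)) :
      IntermediateField (kk A B) ℂ)) ∈ F0 := by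
    rw [← IsGalois.fixedField_fixingSubgroup F0, IntermediateField.mem_fixedField_iff]
    intro σ hσ
    refine key σ (fun y hy => ?_) _ hx
    rw [IntermediateField.mem_fixingSubgroup_iff] at hσ
    exact hσ y ((IntermediateField.mem_restrict h01' _).2 hy)
  exact (IntermediateField.mem_restrict h01' _).1 h1

end

end Pool.Agent.TWI
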