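import Pool.Agent.TWI.StI2
import Pool.Agent.TWI.TEP
import Pool.Agent.TWT.UNITA

/-!
# TWI: the unit theorem for all large `n`, inert primes (helper59)
-/

set_option autoImplicit false

open WeierstrassCurve Polynomial NumberField IsDedekindDomain

namespace Pool.Agent.TWI

open _root_.MU3 Pool.Agent.MU3A Pool.Agent.MU3B Pool.Agent.MU3C Pool.Agent.RI Pool.Agent.RID
open Pool.Agent.MUX Pool.Agent.MUXU Pool.Agent.MUXW Pool.Agent.TWT
open Pool.Agent.TWT.UNITA (stab nI_top th0 bound)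
open Pool.Agent.MU3V (cls Sub GD algDF)
open Pool.Agent.MUXV (GR InK tX)
open OnePoint

noncomputable section

namespace UNITI

variable {p : ℕ} {A B : ℤ} {P : Ideal (OO A B)} {V : ValuationSubring ℂ} {f : ℕ}

theorem v_p_lt (hS : SetI p A B P V f) : V.valuation (p : ℂ) < 1 := by
  have h1 := (hS.hV ((p : ℕ) : OO A B)).2 (by
    rw [hS.eP]
    exact Ideal.mem_span_singleton_self _)
  rw [emb_natCast hS.cq] at h1
  exact (ValuationSubring.mem_nonunits_iff V).1 h1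

theorem eta_root {n : ℕ} {ι : Type} {R : Reps A B n ι} {kp : ι → ℂ} {eta : OO A B → ℂ}
    (hC : ChD p f R kp eta) : ∃ r : ℕ, ¬ p ∣ r ∧
      ∀ x, IsCoprime (sp x) (idl f : Ideal (OO A B)) → eta x ^ r = 1 := by
  obtain ⟨r, hr, -, h⟩ := hC.fin
  exact ⟨r, hr, fun x hx => h x ((hC.supp x).2 hx)⟩

/-- the factor at `a` -/
theorem fac_a (hS : SetI p A B P V f) {n : ℕ} {ι : Type} (R : Reps A B n ι) {kp : ι → ℂ}
    {eta : OO A B → ℂ} (hC : ChD p f R kp eta) (l : ℕ) (hl : l.Prime) (hpl : p ≠ l)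
    (hpl1 : ¬ p ∣ l - 1) (hlf : l ∣ f) (a : ℕ) (ha1 : 1 < a) (hac : a.Coprime (6 * f * p)) :
    ∃ M₀ : ℕ, ∀ M, M₀ ≤ M → ∀ ψ : DirichletCharacter ℂ (l ^ M),
      ψ (1 + (l : ZMod (l ^ M)) ^ (M - 1)) ≠ 1 →
      V.valuation (1 - (a : ℂ) ^ 2 * thT R kp eta ψ R.i0 (a : OO A B)) = 1 := by
  obtain ⟨r, hr, hη⟩ := eta_root hC
  have hv := v_p_lt hS
  have haf : a.Coprime f := Nat.Coprime.coprime_dvd_right ⟨6 * p, by ring⟩ hac
  have hap : a.Coprime p := Nat.Coprime.coprime_dvd_right ⟨6 * f, by ring⟩ hac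
  have hal : a.Coprime l := Nat.Coprime.coprime_dvd_right hlf haf
  have hla : ¬ (l : ℤ) ∣ (a : ℤ) := by
    intro h
    have h1 : l ∣ a := by exact_mod_cast h
    have h2 := Nat.dvd_gcd h1 (dvd_refl l)
    rw [hal] at h2
    exact hl.one_lt.ne' (Nat.dvd_one.1 h2)
  have ha2 : (a : ℤ) ^ 2 ≠ 1 := by
    intro h
    have h1 : (1 : ℤ) < a := by exact_mod_cast ha1
    nlinarith
  obtain ⟨M₀, hM⟩ := Pool.Agent.TWX.t_FAC V p hS.pp hv l hl hpl hpl1 r hr a hla ha2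
  refine ⟨M₀, fun M hM0 ψ hψ => ?_⟩
  have hcop : IsCoprime (sp ((a : ℕ) : OO A B)) (idl f : Ideal (OO A B)) := by
    rw [Ideal.isCoprime_span_singleton_iff]
    exact (Nat.isCoprime_iff_coprime.2 haf).map (Int.castRingHom (OO A B)) |> fun h => by
      simpa using h
  -- an inverse of `a²` modulo `p`
  obtain ⟨b, c, hbc⟩ : ∃ b c : ℤ, (a : ℤ) ^ 2 * b = 1 + p * c := by
    have h1 : IsCoprime ((a : ℤ) ^ 2) (p : ℤ) := (Nat.isCoprime_iff_coprime.2 hap).pow_left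
    obtain ⟨u, v, huv⟩ := h1
    exact ⟨u, -v, by linear_combination huv⟩
  have hpb : ¬ (p : ℤ) ∣ b := by
    intro h
    have h1 : (p : ℤ) ∣ 1 := by
      have h2 : (1 : ℤ) = (a : ℤ) ^ 2 * b - p * c := by rw [hbc]; ring
      rw [h2]
      exact dvd_sub (h.mul_left _) (Dvd.intro _ rfl)
    have h3 : p ∣ 1 := by exact_mod_cast h1
    exact hS.pp.one_lt.ne' (Nat.dvd_one.1 h3)
  have h1 := hM M hM0 ψ hψ (eta ((a : ℕ) : OO A B)) (hη _ hcop) b hpb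
  have hth : thT R kp eta ψ R.i0 ((a : ℕ) : OO A B) =
      eta ((a : ℕ) : OO A B) * ψ ((a : ℤ) : ZMod (l ^ M)) ^ 2 := by
    rw [th0 R hC ψ _ ((a : ℤ) ^ 2) (by
      have := nm_intCast (A := A) (B := B) (a : ℤ)
      simpa using this)]
    push_cast
    rw [map_pow]
  rw [hth]
  set X : ℂ := eta ((a : ℕ) : OO A B) * ψ ((a : ℤ) : ZMod (l ^ M)) ^ 2 with hX
  have e1 : 1 - (a : ℂ) ^ 2 * X = -((a : ℂ) ^ 2 * (X - b)) + (1 - (a : ℂ) ^ 2 * b) := by ring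
  have hint : ∀ z : ℤ, V.valuation (z : ℂ) ≤ 1 := fun z =>
    (V.valuation_le_one_iff _).2 (intCast_mem V z)
  have e2 : V.valuation (1 - (a : ℂ) ^ 2 * b) < 1 := by
    have h2 : 1 - (a : ℂ) ^ 2 * b = (p : ℂ) * ((-c : ℤ) : ℂ) := by
      have : ((a : ℂ) ^ 2 * b) = 1 + p * c := by exact_mod_cast hbc
      rw [this]
      push_cast
      ring
    rw [h2, map_mul]
    calc V.valuation (p : ℂ) * V.valuation ((-c : ℤ) : ℂ) ≤ V.valuation (p : ℂ) * 1 :=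
          mul_le_mul' le_rfl (hint _)
      _ < 1 := by rw [mul_one]; exact hv
  have e3 : V.valuation ((a : ℂ) ^ 2) = 1 := by
    have h3 : V.valuation ((a : ℂ) ^ 2 * b) = 1 := by
      have h4 : (a : ℂ) ^ 2 * b = 1 - (1 - (a : ℂ) ^ 2 * b) := by ring
      rw [h4]
      exact Valuation.map_one_sub_of_lt V.valuation e2
    rw [map_mul] at h3
    have h5 : V.valuation ((a : ℂ) ^ 2) ≤ 1 := by
      have := hint ((a : ℤ) ^ 2)
      simpa using this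
    refine le_antisymm h5 ?_
    by_contra h6
    rw [not_le] at h6
    have h7 : V.valuation ((a : ℂ) ^ 2) * V.valuation (b : ℂ) < 1 :=
      calc V.valuation ((a : ℂ) ^ 2) * V.valuation (b : ℂ) ≤ V.valuation ((a : ℂ) ^ 2) * 1 :=
            mul_le_mul' le_rfl (hint b)
        _ < 1 := by rw [mul_one]; exact h6
    exact absurd h3 h7.ne
  have e4 : V.valuation (-((a : ℂ) ^ 2 * (X - b))) = 1 := by
    rw [Valuation.map_neg, map_mul, e3, h1, one_mul]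
  rw [e1, ← e4]
  exact Valuation.map_add_eq_of_lt_left V.valuation (e2.trans_eq e4.symm)

/-- the factor at `p` -/
theorem fac_p (hS : SetI p A B P V f) {n : ℕ} {ι : Type} (R : Reps A B n ι)
    {kp : ι → ℂ} {eta : OO A B → ℂ} (hC : ChD p f R kp eta) (l : ℕ) (hl : l.Prime) (hpl : p ≠ l)
    (hpl1 : ¬ p ∣ l - 1) :
    ∃ M₀ : ℕ, ∀ M, M₀ ≤ M → ∀ ψ : DirichletCharacter ℂ (l ^ M),
      ψ (1 + (l : ZMod (l ^ M)) ^ (M - 1)) ≠ 1 →
      V.valuation (1 - thT R kp eta ψ R.i0 ((p : ℕ) : OO A B)) = 1 := by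
  obtain ⟨e, he, hη⟩ := eta_root hC
  have hv := v_p_lt hS
  have hlp : ¬ (l : ℤ) ∣ (p : ℤ) := by
    intro h
    have h1 : l ∣ p := by exact_mod_cast h
    exact hpl ((Nat.prime_dvd_prime_iff_eq hl hS.pp).1 h1).symm
  have hp2 : (p : ℤ) ^ 2 ≠ 1 := by
    intro h
    have h1 : p ^ 2 = 1 := by exact_mod_cast h
    have := hS.p5
    nlinarith
  obtain ⟨M₀, hM⟩ := Pool.Agent.TWX.t_FAC V p hS.pp hv l hl hpl hpl1 e he (p : ℤ) hlp hp2
  refine ⟨M₀, fun M hM0 ψ hψ => ?_⟩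
  have hcop : IsCoprime (sp ((p : ℕ) : OO A B)) (idl f : Ideal (OO A B)) := by
    rw [Ideal.isCoprime_span_singleton_iff]
    have h2 : Nat.Coprime p f := (Nat.Prime.coprime_iff_not_dvd hS.pp).2 hS.fp
    exact (Nat.isCoprime_iff_coprime.2 h2).map (Int.castRingHom (OO A B)) |> fun h => by
      simpa using h
  have h1 := hM M hM0 ψ hψ (eta ((p : ℕ) : OO A B)) (hη _ hcop) 1 (by
    intro h
    have h3 : p ∣ 1 := by exact_mod_cast h
    exact hS.pp.one_lt.ne' (Nat.dvd_one.1 h3))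
  have hth : thT R kp eta ψ R.i0 ((p : ℕ) : OO A B) =
      eta ((p : ℕ) : OO A B) * ψ ((p : ℤ) : ZMod (l ^ M)) ^ 2 := by
    rw [th0 R hC ψ _ ((p : ℤ) ^ 2) (by
      have := nm_intCast (A := A) (B := B) (p : ℤ)
      simpa using this)]
    push_cast
    rw [map_pow]
  rw [hth, ← h1, Valuation.map_sub_swap]
  push_cast
  rfl

end UNITI

open Pool.Agent.TWR UNITI in
/-- the unit theorem for all large `n`, `p` inert -/
theorem t_UNITI (hSYM : S_SYMI) (hCRIT : S_CRITI) (hFACT : S_FACTI) : S_UNITI := by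
  intro l g h hgen p _ A B P V f hS hlf hT ι _ R hG K _ _ hkK hK Bn _ hLay hMon hRF a ha1 hac H hH
  have hl : l.Prime := by
    rcases hgen with ⟨rfl, -, -⟩ | ⟨rfl, -, -⟩
    · exact Nat.prime_three
    · exact Nat.prime_two
  have hh : 1 ≤ h := by
    rcases hgen with ⟨-, -, rfl⟩ | ⟨-, -, rfl⟩ <;> norm_num
  have hl1 : l - 1 = 1 ∨ l - 1 = 2 := by
    rcases hgen with ⟨rfl, -, -⟩ | ⟨rfl, -, -⟩ <;> norm_num
  have hl3 : l ≤ 3 := by
    rcases hgen with ⟨rfl, -, -⟩ | ⟨rfl, -, -⟩ <;> norm_num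
  have hp5 := hS.p5
  have hpl : p ≠ l := by omega
  have hpl1 : ¬ p ∣ l - 1 := by
    intro hd
    have := Nat.le_of_dvd (by omega) hd
    omega
  have hlf' : l ∣ f := (dvd_pow_self l (by omega)).trans hlf
  obtain ⟨J, hJ, kp, eta, hCh, hF⟩ := hFACT l g h hgen p A B P V f hS hlf hT ι R K hkK hK Bn hLay
    hMon
  obtain ⟨w, hw⟩ := t_TEI2 p A B P V hS.cq hS.pp (by omega) hS.eP hS.hP hS.hV
  obtain ⟨n1, hn1⟩ := hSYM l g h hgen p A B P V f hS hlf' hT ι R hG w hw J kp eta hCh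
  obtain ⟨n2, hn2⟩ := stab hT K hkK Bn hMon
  choose M1 hM1 using fun j => fac_a hS R (hCh j) l hl hpl hpl1 hlf' a ha1 hac
  choose M2 hM2 using fun j => fac_p hS R (hCh j) l hl hpl hpl1
  obtain ⟨b1, hb1⟩ := bound M1
  obtain ⟨b2, hb2⟩ := bound M2
  refine ⟨max (max n1 n2) (max b1 b2), fun n hn θ hθ h0 => ?_⟩
  have hnn1 : n1 ≤ n := ((le_max_left _ _).trans (le_max_left _ _)).trans hn
  have hnn2 : n2 ≤ n := ((le_max_right _ _).trans (le_max_left _ _)).trans hn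
  have hnb1 : b1 ≤ n := ((le_max_left _ _).trans (le_max_right _ _)).trans hn
  have hnb2 : b2 ≤ n := ((le_max_right _ _).trans (le_max_right _ _)).trans hn
  let _ := algC h0
  intro c₀ hc₀ χ hχ
  obtain ⟨j, ψ, hψ1, hψ2, hval⟩ := hF n h0 χ hχ
  obtain ⟨γ, hγ1, hγχ⟩ := hχ
  refine hCRIT p A B P V f hS hT ι R hG w hw (kp j) (eta j) (hCh j) l (n + 1 + h) hl hlf' ψ hψ1 a
    ha1 hac (hM1 j (n + 1 + h) (by have := hb1 j; omega) ψ hψ2)
    (hM2 j (n + 1 + h) (by have := hb2 j; omega) ψ hψ2) H hH θ hθ (K ⊔ Bn (n + 1)) h0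
    (hRF (n + 1)) χ hval ⟨γ, fun x hx => hγ1 x (hn2 n hnn2 x x.2 hx), hγχ⟩ c₀ hc₀
    (hn1 (n + 1 + h) (by omega) j ψ hψ1 hψ2)

end

end Pool.Agent.TWI
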