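import Pool.Agent.TWI.ENDI
import Pool.Agent.TWI.UNITI
import Pool.Agent.TWI.FACTI
import Pool.Agent.TWI.UNFI
import Pool.Agent.TWF.Asm
import Pool.Agent.TWF.UNF

/-!
# TWI: assembly of Theorem C for all primes outside a finite set, except `S_CRIT`, `S_SYMI`, `S_CRITI`, `S_KRI`
-/

set_option autoImplicit false

open NumberField IsDedekindDomain

namespace Pool.Agent.TWI

open _root_.MU3 Pool.Agent.MU3 Pool.Agent.MU3A Pool.Agent.MU3B Pool.Agent.RI Pool.Agent.RID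
  Pool.Agent.MUX Pool.Agent.MUXJ Pool.Agent.MUXY Pool.Agent.TWT Pool.Agent.TWK Pool.Agent.MUXW
  Pool.Agent.MUXI Pool.Agent.MUXZ Pool.Agent.TWF

theorem a_FACTI : S_FACTI :=
  t_FACTI MUXI.i_ARF MUXI.i_IAF MUXI.i_XXF MUXI.i_LAY MUXF.xf_NIM MUXJ.j_GAL

theorem a_FINI (hSYMI : S_SYMI) (hCRITI : S_CRITI) : S_FINI :=
  t_FINI (k_FIN1 z_MEM z_TOW z_SUC z_KOL (tz_THN z_THG)) (t_UNITI hSYMI hCRITI a_FACTI)

/-- everything except `S_CRIT`, `S_SYMI`, `S_CRITI`, `S_KRI` -/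
theorem asmI (hCRIT : S_CRIT) (hSYMI : S_SYMI) (hCRITI : S_CRITI) (hKRI : S_KRI)
    (k : IntermediateField ℚ ℂ)
    (h2 : Module.finrank ℚ k = 2) (hi : ∃ z ∈ k, (starRingEnd ℂ) z ≠ z)
    (h4 : ∀ z ∈ k, z ^ 2 ≠ -1) (h3 : ∀ z ∈ k, z ^ 2 ≠ -3) :
    ∃ S : Finset ℕ, ∀ p : ℕ, p.Prime → p ∉ S → StP k p :=
  finalI (a_FIN3 hCRIT) (a_FINI hSYMI hCRITI) MUXI.i_LAY MUXI.i_IAF MUXY.z_REX MUXY.z_NLE t_UNF
    (i_UNFI hKRI) MUXC.c_TOR z_GRB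
    MUXV.q_ALU Pool.Agent.JT.j_JTR Pool.Agent.JT.j_JQF MUXJ.j_DIR MUXJ.j_LAY k h2 hi h4 h3

end Pool.Agent.TWI
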