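import Pool.Agent.TWT.DefsU

/-!
# TWI: Theorem C for the primes which are inert in `k` (MP_b78433_nt): common definitions and final statements (helper3)

As `Pool/Agent/TWT/DefsT.lean`, with `p ≥ 5` INERT in `k = kk A B`: `P = (p)` is a prime ideal, `O/P` has `p²` elements, `V` is a valuation
ring of `ℂ` above `P`, `w` the Teichmüller character of `(O/P)^*` (values in `μ_(p²-1)`), `t0^(p²-1) ~ p`.

* `SSTI R m th w = Σ_i mu_i Σ_(x mod m) th i x w(x) ee(pt R m i x; L_i)`.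
* `epI eta w x = eta x * w x`, an odd character of `(O/(f p))^*`; `PhI` : the symbol (no twist).

FINAL STATEMENTS: `S_KEYI` (block A, helper3), `S_SYMI` (block C), `S_CRITI`, `S_UNITI` (block B, helper59).
-/

set_option autoImplicit false

open WeierstrassCurve Polynomial NumberField IsDedekindDomain

namespace Pool.Agent.TWI

open _root_.MU3 Pool.Agent.MU3A Pool.Agent.MU3B Pool.Agent.MU3C Pool.Agent.RI Pool.Agent.RID
open Pool.Agent.MUX Pool.Agent.MUXU Pool.Agent.MUXW Pool.Agent.TWT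
open Pool.Agent.MU3V (cls Sub GD algDF)
open Pool.Agent.MUXV (GR InK tX)
open OnePoint

noncomputable section

/-! ## Definitions -/

/-- the standing hypotheses for an inert prime `p ≥ 5` -/
structure SetI (p : ℕ) (A B : ℤ) (P : Ideal (OO A B)) (V : ValuationSubring ℂ) (f : ℕ) : Prop where
  cq : CQ A B
  pp : p.Prime
  p5 : 5 ≤ p
  eP : P = idl (A := A) (B := B) p
  hP : P.IsPrime
  hV : OverI V P
  pD : ¬ (p : ℤ) ∣ absD A B
  f0 : f ≠ 0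
  fp : ¬ p ∣ f
  fD : 2 * absD A B ∣ (f : ℤ)

variable {A B : ℤ} {n : ℕ} {ι : Type}

/-- `w` is the Teichmüller character of `(O/P)^*`, `P = (p)` -/
structure TeiI (p : ℕ) (P : Ideal (OO A B)) (V : ValuationSubring ℂ) (w : OO A B → ℂ) : Prop where
  one : w 1 = 1
  mul : ∀ x y, w (x * y) = w x * w y
  per : ∀ x y, x - y ∈ P → w x = w y
  zero : ∀ x, w x = 0 ↔ x ∈ P
  root : ∀ x, x ∉ P → w x ^ (p ^ 2 - 1) = 1
  red : ∀ x, V.valuation (w x - emb x) < 1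

/-- `T` is a system of representatives of the classes modulo `P` which are not zero -/
structure RepI (P : Ideal (OO A B)) (T : Finset (OO A B)) : Prop where
  nz : ∀ x ∈ T, x ∉ P
  inj : ∀ x ∈ T, ∀ y ∈ T, x - y ∈ P → x = y
  surj : ∀ x, x ∉ P → ∃ y ∈ T, x - y ∈ P

/-- `Σ_i mu_i Σ_(x mod m) th i x w(x) ee(pt R m i x; L_i)` -/
def SSTI [Fintype ι] (R : Reps A B n ι) (m : ℕ) (th : ι → OO A B → ℂ) (w : OO A B → ℂ) : ℂ :=
  ∑ i, muX R i * sumMod ((m : ℕ) : OO A B) fun x => th i x * w x * ee (R.L i) (pt R m i x)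

/-- the same with the logarithmic derivative of `Θ_a` -/
def SDTI [Fintype ι] (R : Reps A B n ι) (m a : ℕ) (th : ι → OO A B → ℂ) (w : OO A B → ℂ) : ℂ :=
  ∑ i, muX R i * sumMod ((m : ℕ) : OO A B) fun x => th i x * w x * dlX (R.L i) a (pt R m i x)

/-- the character of the theta series -/
def epI (eta : OO A B → ℂ) (w : OO A B → ℂ) (x : OO A B) : ℂ := eta x * w x

/-- the weights of the symbols -/
def kkI (R : Reps A B n ι) (kp : ι → ℂ) (eta w : OO A B → ℂ) (i : ι) : ℂ :=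
  kp i * (epI eta w ((nI (R.b i) : ℕ) : OO A B))⁻¹

/-- the symbol `Φ` -/
def PhI [Fintype ι] (R : Reps A B n ι) (kp : ι → ℂ) (eta w : OO A B → ℂ)
    (x y : OnePoint ℚ) : ℂ :=
  PhiK R (epI eta w) (kkI R kp eta w) x y / R.om R.i0

/-! ## Block A (helper3) -/

/-- (KEYI) the unit `∏_(R ∈ E[p] - 0) Θ(z + R)/Θ(z)^(q-1)`, `q = p²`, to the first order. -/
def S_KEYI : Prop :=
  ∀ (p : ℕ) (A B : ℤ) (P : Ideal (OO A B)) (V : ValuationSubring ℂ) (f : ℕ),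
    SetI p A B P V f → ∀ (ι : Type) [Finite ι] (R : Reps A B (p * f) ι), GRd V R →
    ∃ t0 : ℂ, V.valuation t0 ^ (p ^ 2 - 1) = V.valuation (p : ℂ) ∧ t0 ≠ 0 ∧
      ∀ w : OO A B → ℂ, TeiI p P V w → ∀ T : Finset (OO A B), RepI P T →
      ∀ (i : ι) (a : ℕ) (H : Finset ℂ), 1 < a → a.Coprime (2 * p) → IsHalf (R.L i) a H →
      ∀ z : ℂ, ¬ InEn V (R.L i) z → ¬ InEn V (R.L i) (2 * z) → ¬ InEn V (R.L i) (a * z) →
        (∀ x : OO A B, V.valuation (ThetaH (R.L i) H (z + pt R p i x)) = 1 ∧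
          dlX (R.L i) a (z + pt R p i x) ∈ V) ∧
        V.valuation (∏ x ∈ T, ThetaH (R.L i) H (z + pt R p i x) -
            ThetaH (R.L i) H z ^ (p ^ 2 - 1) * (1 - muX R i * t0 *
              ∑ x ∈ T, w x * dlX (R.L i) a (z + pt R p i x))) ≤
          V.valuation (p : ℂ) * V.valuation t0 ∧
        V.valuation t0 * V.valuation (∑ x ∈ T, w x * dlX (R.L i) a (z + pt R p i x)) ≤
          V.valuation (p : ℂ)

/-! ## Block C -/

/-- (GAUI) the value of the symbol at a character `ψ`, even and primitive modulo `l^N`: it is a unit times `SSTI/p`. -/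
def S_GAUI : Prop :=
  ∀ (p : ℕ) (A B : ℤ) (P : Ideal (OO A B)) (V : ValuationSubring ℂ) (f : ℕ),
    SetI p A B P V f → ∀ (ι : Type) [Fintype ι] (R : Reps A B (p * f) ι)
    (w : OO A B → ℂ), TeiI p P V w → ∀ (kp : ι → ℂ) (eta : OO A B → ℂ), ChD p f R kp eta →
    ∀ (l N : ℕ), l.Prime → l ∣ f → 2 ≤ N → ∀ ψ : DirichletCharacter ℂ (l ^ N), ψ (-1) = 1 →
    ψ (1 + (l : ZMod (l ^ N)) ^ (N - 1)) ≠ 1 →
    V.valuation (p : ℂ) * V.valuation (∑ b ∈ Finset.range (l ^ N),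
      ψ⁻¹ (b : ZMod (l ^ N)) *
        sgnPart 1 (PhI R kp eta w) ∞ (((b : ℚ) / (l : ℚ) ^ N : ℚ) : OnePoint ℚ)) =
      V.valuation (SSTI R (f * l ^ N * p) (thT R kp eta ψ) w)

/-- (TYPI) the type: the values of `Φ` have valuation in `v(tau)⁻¹ v(p)^ℤ`, `v(tau)^(p²-1) = v(p)`; stated as: a value of
valuation `≥ 1` has valuation `≥ v(tau)⁻¹`. -/
def S_TYPI : Prop :=
  ∀ (p : ℕ) (A B : ℤ) (P : Ideal (OO A B)) (V : ValuationSubring ℂ) (f : ℕ),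
    SetI p A B P V f → TorX A B → ∀ (ι : Type) [Fintype ι] (R : Reps A B (p * f) ι), GRd V R →
    ∀ (w : OO A B → ℂ), TeiI p P V w → ∀ (kp : ι → ℂ) (eta : OO A B → ℂ), ChD p f R kp eta →
    ∀ x y : OnePoint ℚ, 1 ≤ V.valuation (sgnPart 1 (PhI R kp eta w) x y) →
      1 ≤ V.valuation (p : ℂ) * V.valuation (sgnPart 1 (PhI R kp eta w) x y) ^ (p ^ 2 - 1)

open Pool.Agent.TWR in
/-- (SYMI) for ALL large `n` the sums `SSTI` of all characters of level `n` are large. -/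
def S_SYMI : Prop :=
  ∀ (l g h : ℕ), Gen l g h → ∀ (p : ℕ) (A B : ℤ) (P : Ideal (OO A B)) (V : ValuationSubring ℂ)
    (f : ℕ), SetI p A B P V f → l ∣ f → TorX A B → ∀ (ι : Type) [Fintype ι]
    (R : Reps A B (p * f) ι), GRd V R → ∀ (w : OO A B → ℂ), TeiI p P V w →
    ∀ (J : Type) [Finite J] (kp : J → ι → ℂ) (eta : J → OO A B → ℂ),
    (∀ j, ChD p f R (kp j) (eta j)) → ∃ n0 : ℕ, ∀ n : ℕ, n0 ≤ n → ∀ j,
      ∀ ψ : DirichletCharacter ℂ (l ^ n), ψ (-1) = 1 →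
      ψ (1 + (l : ZMod (l ^ n)) ^ (n - 1)) ≠ 1 →
      V.valuation (p : ℂ) ^ (p ^ 2 - 2) ≤
        V.valuation (SSTI R (f * l ^ n * p) (thT R (kp j) (eta j) ψ) w) ^ (p ^ 2 - 1)

/-! ## Block B and the unit theorem (helper59) -/

open Pool.Agent.TWR in
/-- (UNITI) the input of the frame, for ALL large `n`: as `S_UNITA` of `Pool/Agent/TWT/DefsU.lean`, `p` inert. -/
def S_UNITI : Prop :=
  ∀ (l g h : ℕ), Gen l g h → ∀ (p : ℕ) [Fact p.Prime] (A B : ℤ) (P : Ideal (OO A B))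
    (V : ValuationSubring ℂ) (f : ℕ), SetI p A B P V f → l ^ h ∣ f → TorX A B →
    ∀ (ι : Type) [Fintype ι] (R : Reps A B (p * f) ι), GRd V R →
    ∀ (K : IntermediateField ℚ ℂ) [FiniteDimensional ℚ K] [FiniteDimensional ℚ (kk A B)],
    kk A B ≤ K → Sub K (RF (idl f) : IntermediateField (kk A B) ℂ) →
    ∀ (Bn : ℕ → IntermediateField ℚ ℂ) [∀ n, FiniteDimensional ℚ ↥(K ⊔ Bn n)],
    (∀ n, IsLayer l n (Bn n)) → Monotone Bn →
    (∀ n, Sub (K ⊔ Bn n) (RF (idl (f * l ^ (n + h))) : IntermediateField (kk A B) ℂ)) →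
    ∀ (a : ℕ), 1 < a → a.Coprime (6 * f * p) → ∀ (H : Finset ℂ), IsHalf (R.L R.i0) a H →
    ∃ n0 : ℕ, ∀ n : ℕ, n0 ≤ n →
    ∀ (θ : (RF (idl (f * l ^ (n + 1 + h) * p)) : IntermediateField (kk A B) ℂ)),
    (θ : ℂ) = ThetaH (R.L R.i0) H (pt R (f * l ^ (n + 1 + h) * p) R.i0 1) →
    ∀ (h0 : kk A B ≤ K ⊔ Bn (n + 1)), letI := algC h0
    ∀ (c₀ : ↥(K ⊔ Bn (n + 1))), (c₀ : ℂ) = cW h0 θ →
    ∀ χ : (↥(K ⊔ Bn (n + 1)) ≃ₐ[kk A B] ↥(K ⊔ Bn (n + 1))) →*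
      (IsLocalRing.ResidueField V)ˣ,
      (∃ g : ↥(K ⊔ Bn (n + 1)) ≃ₐ[kk A B] ↥(K ⊔ Bn (n + 1)),
        (∀ x : ↥(K ⊔ Bn (n + 1)), (x : ℂ) ∈ K ⊔ Bn n → g x = x) ∧ χ g ≠ 1) →
      ∃ t : (IsLocalRing.ResidueField V) →+ ZMod p, ∀ y : ↥(K ⊔ Bn (n + 1)),
        y ^ p ≠ Pool.Agent.TWK.sE p χ t c₀

end

end Pool.Agent.TWI
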