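import Pool.Agent.TWI.StI4
import Pool.Agent.NS.T_ALT

/-!
# TWI, block C4, module YALT: the coordinates of torsion points are algebraic (helper54)
-/

set_option autoImplicit false

namespace Pool.Agent.TWI

open _root_.MU3 Pool.Agent.MU3A Pool.Agent.MU3B Pool.Agent.MUX

open Pool.Agent.NST.ALT in
/-- (YALT) -/
theorem t_YALT : S_YALT := by
  intro A B hC T b L om hL N hN z hz hz'
  have hP : IsAlgebraic ℚ (L.weierstrassP z) := alg_RF hC T hN (wp_mem hC hL hz hz')
  have hk : IsAlgebraic ℚ (MUX.kap L) := alg_RF hC T hN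
    (IntermediateField.subset_adjoin _ _ ⟨b, L, om, hL, Or.inl rfl⟩)
  have hg2 : IsAlgebraic ℚ L.g₂ := by
    have h8 : L.g₂ = ((1 / 12 : ℚ) : ℂ) + ((144 : ℚ) : ℂ) * MUX.kap L := by
      unfold MUX.kap
      push_cast
      ring
    rw [h8]
    exact (alg_num _).add ((alg_num _).mul hk)
  have hg3 : IsAlgebraic ℚ L.g₃ := by
    have h8 : L.g₃ = ((-1 / 18 : ℚ) : ℂ) * L.g₂ := by
      rw [hL.nrm]
      push_cast
      ring
    rw [h8]
    exact (alg_num _).mul hg2
  have hD : IsAlgebraic ℚ (L.derivWeierstrassP z) := by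
    apply IsAlgebraic.of_pow two_pos
    rw [L.derivWeierstrassP_sq z hz]
    have h4 : IsAlgebraic ℚ (4 : ℂ) := by simpa using alg_num 4
    exact ((h4.mul (hP.pow 3)).sub (hg2.mul hP)).sub hg3
  constructor
  · unfold xn
    have h5 : (1 / 12 : ℂ) = (((1 / 12 : ℚ)) : ℂ) := by push_cast; ring
    rw [h5]
    exact hP.sub (alg_num _)
  · unfold yy
    rw [div_eq_mul_inv]
    have h2 : IsAlgebraic ℚ (2 : ℂ) := by simpa using alg_num 2
    exact hD.mul h2.inv

end Pool.Agent.TWI
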