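import Pool.Agent.TWI.StI4
import Pool.Agent.NS.T_ALV
import Pool.Agent.MUX.YAll

/-!
# TWI, block C4, module YALV: the values are algebraic (helper54)
-/

set_option autoImplicit false

namespace Pool.Agent.TWI

open _root_.MU3 Pool.Agent.MU3A Pool.Agent.MU3B Pool.Agent.MUX
open OnePoint

open Pool.Agent.NST in
/-- (YALV) -/
theorem t_YALV : S_YALV := by
  intro A B hC hX n hn ι _ R e he r hr her kk hkk x y
  have h := Pool.Agent.MUXY.y_ALP
  have hn0 : n ≠ 0 := by omega
  have hbot : idl (A := A) (B := B) n ≠ ⊥ := ALV.ne_bot hC hn0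
  have htop : idl (A := A) (B := B) n ≠ ⊤ := ALV.ne_top hC hn
  have hval := fun i => (h A B hC hX n ι inferInstance R _ e hbot htop he
    (fun i => ALV.cop R i) r hr her i x y).2
  have hsum : PhiK R e kk x y / R.om R.i0 =
      ∑ i, kk i * (PhiI (R.b i) e x y / R.om R.i0) := by
    rw [PhiK, Finset.sum_div]
    refine Finset.sum_congr rfl fun i _ => ?_
    rw [mul_div_assoc]
  rw [hsum]
  refine ALV.sum _ _ fun i _ => ?_
  have hk : IsAlgebraic ℚ (kk i) := by
    refine IsAlgebraic.of_pow (n := r) (Nat.pos_of_ne_zero hr) ?_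
    rw [hkk i]
    exact isAlgebraic_one
  exact hk.mul (hval i)

end Pool.Agent.TWI
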