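import Pool.Agent.TWI.StI4
import Pool.Agent.NS.T_SGU
import Pool.Agent.MUX.RQAll
import Pool.Agent.MUX.XLib

/-!
# TWI, block C4, module YSGN: the signs (helper54, after the modules SGU, SGM of MUX-NS)
-/

set_option autoImplicit false

namespace Pool.Agent.TWI

open _root_.MU3 Pool.Agent.MU3A Pool.Agent.MU3B Pool.Agent.RI Pool.Agent.MUX Pool.Agent.MUXU
open OnePoint
open Pool.Agent.MUXV (GR InK)
open Pool.Agent.MUXY (ActN Dn)
open Pool.Agent.NST (ActT KIn)

noncomputable section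

open Pool.Agent.NST.SGU in
/-- (YSGN) -/
theorem t_YSGN (hVPG : S_VPGI) : S_YSGN := by
  intro p A B P V f hS ι R hR j m' hm0 hmp hfm σ c d hcm hAct hlast i
  have hC := hS.cq
  have hD := absD_ge hC
  have hf6 : 6 ≤ f := by
    have h2 := Int.le_of_dvd (by have := hS.f0; omega) hS.fD
    omega
  obtain ⟨-, -, -, -, hv2, -, hgr⟩ := hVPG p A B P V f hS
  obtain ⟨⟨W, ξ, G⟩, hker⟩ := hgr ι R hR i
  have hmC : (m' : ℂ) ≠ 0 := Nat.cast_ne_zero.2 hm0
  obtain ⟨z, hz⟩ : ∃ z : ℂ, z = pt R m' i 1 := ⟨_, rfl⟩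
  have hmz : (m' : ℂ) * z = R.om i * nI (R.b i) := by
    rw [hz]
    unfold pt
    rw [Pool.Agent.MUX.emb_one hC]
    field_simp
  have hCM := (R.nl i).toIsLI.hasCM hC
  have hmzL : (m' : ℂ) * z ∈ (R.L i).lattice := by
    rw [hmz]
    refine ((R.nl i).mem _).2 ⟨((nI (R.b i) : ℕ) : OO A B), nI_mem hC (R.nl i).b_ne, ?_⟩
    rw [Pool.Agent.MUX.emb_natCast hC]
  have h2 : 2 * z ∉ (R.L i).lattice := by
    intro h
    obtain ⟨x, -, hx⟩ := ((R.nl i).mem _).1 h
    have h3 : emb (((2 * nI (R.b i) : ℕ) : OO A B)) = emb (((m' : ℕ) : OO A B) * x) := by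
      rw [Pool.Agent.MUX.emb_mul hC, Pool.Agent.MUX.emb_natCast hC, Pool.Agent.MUX.emb_natCast hC]
      apply mul_left_cancel₀ (R.nl i).om_ne
      push_cast
      linear_combination -2 * hmz + (m' : ℂ) * hx
    have h4 := Pool.Agent.MUX.emb_inj hC h3
    have h5 : ((2 * nI (R.b i) : ℕ) : ℤ) = (m' : ℤ) * x.re := by
      have h6 := congrArg QuadraticAlgebra.re h4
      rw [QuadraticAlgebra.re_natCast, QuadraticAlgebra.re_mul, QuadraticAlgebra.re_natCast,
        QuadraticAlgebra.im_natCast] at h6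
      rw [h6]; ring
    have h6 : m' ∣ 2 * nI (R.b i) := by
      have : (m' : ℤ) ∣ ((2 * nI (R.b i) : ℕ) : ℤ) := ⟨_, h5⟩
      exact_mod_cast this
    have h7 : f ∣ 2 * nI (R.b i) := hfm.trans h6
    have h8 : Nat.Coprime f (nI (R.b i)) := ((R.cop i).coprime_mul_left_right).symm
    have h9 := h8.dvd_of_dvd_mul_right h7
    exact absurd (Nat.le_of_dvd (by norm_num) h9) (by omega)
  have hzL : z ∉ (R.L i).lattice := fun h => h2 (by
    have := add_mem h h
    rwa [← two_mul] at this)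
  have hzK : ¬ InEn V (R.L i) z := fun h => hzL (hker m' z hmp hmzL h)
  have h2zK : ¬ InEn V (R.L i) (2 * z) := fun h => h2 (hker m' (2 * z) hmp (by
    have e : (m' : ℂ) * (2 * z) = (m' : ℂ) * z + (m' : ℂ) * z := by ring
    rw [e]
    exact add_mem hmzL hmzL) h)
  have hy1 : V.valuation (yy (R.L i) z) = 1 :=
    (Pool.Agent.MUXV.q_YUN V W (R.L i) _ _ ξ G z hzK h2zK).1
  -- the action
  have hact := hAct.act i
  have hmzL' : ((p ^ (j + 1) * m' : ℕ) : ℂ) * z ∈ (R.L i).lattice := by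
    have h1 : ((p ^ (j + 1) * m' : ℕ) : ℂ) * z = (p ^ (j + 1) : ℕ) • ((m' : ℂ) * z) := by
      rw [nsmul_eq_mul]
      push_cast
      ring
    rw [h1]
    exact nsmul_mem hmzL _
  obtain ⟨-, -, hP'⟩ := hact.act z hmzL' hzL
  have hcz : emb c * z - z ∈ (R.L i).lattice := by
    obtain ⟨y, hy⟩ := Ideal.mem_span_singleton'.1 hcm
    have h1 : emb c - 1 = emb y * m' := by
      have h2 := congrArg emb hy
      rw [Pool.Agent.MUX.emb_mul hC, Pool.Agent.MUX.emb_natCast hC, Pool.Agent.MUX.emb_sub hC,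
        Pool.Agent.MUX.emb_one hC] at h2
      exact h2.symm
    have h2 : emb c * z - z = emb y * (m' * z) := by
      linear_combination z * h1
    rw [h2]
    exact hCM y _ hmzL
  have hder : σ ((R.L i).derivWeierstrassP z) = d i * (R.L i).derivWeierstrassP z := by
    rw [← hP']
    rcases hAct.sgn i with hd | hd
    · rw [hd]
      push_cast
      rw [one_mul, one_mul]
      exact der_congr (R.L i) hcz
    · rw [hd]
      push_cast
      have h1 : -1 * emb c * z = -(emb c * z) := by ring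
      rw [h1, (R.L i).derivWeierstrassP_neg, der_congr (R.L i) hcz]
      ring
  rcases hAct.sgn i with hd | hd
  · exact hd
  · exfalso
    have hσy : σ (yy (R.L i) z) = -yy (R.L i) z := by
      unfold yy
      rw [map_div₀, hder, hd, map_ofNat]
      push_cast
      ring
    have h1 := hlast i
    rw [← hz] at h1
    have h3 := h1 hy1.le
    rw [hσy] at h3
    have h4 : -yy (R.L i) z - yy (R.L i) z = -(2 * yy (R.L i) z) := by ring
    rw [h4, Valuation.map_neg, map_mul, hy1, hv2, one_mul] at h3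
    exact lt_irrefl _ h3

end

end Pool.Agent.TWI
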