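import Pool.Agent.TWI.StI4
import Pool.Agent.TWI.PTI
import Pool.Agent.MUX.XLib

/-! # TWI, block C4, module YTAU (helper34): the number `tau` -/

set_option autoImplicit false

namespace Pool.Agent.TWI

open _root_.MU3 Pool.Agent.MU3A Pool.Agent.MU3B Pool.Agent.MU3C Pool.Agent.RI Pool.Agent.RID
open Pool.Agent.MUX Pool.Agent.MUXU Pool.Agent.MUXW Pool.Agent.TWT
open Pool.Agent.MUXV (GR InK tX)
open Pool.Agent.MUXY (ActN Dn)
open Pool.Agent.NST (ActT KIn)

noncomputable section

namespace YTAU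

lemma per (L : PeriodPair) {z u : ℂ} (h : z - u ∈ L.lattice) :
    L.weierstrassP z = L.weierstrassP u ∧ L.derivWeierstrassP z = L.derivWeierstrassP u := by
  have h1 : z = u + ((⟨z - u, h⟩ : L.lattice) : ℂ) := by
    show z = u + (z - u)
    ring
  constructor
  · conv_lhs => rw [h1]
    exact L.weierstrassP_add_coe _ _
  · conv_lhs => rw [h1]
    exact L.derivWeierstrassP_add_coe _ _

end YTAU

open YTAU in
theorem t_YTAU (h1 : S_YALT) (h2 : S_KRI) (h3 : S_TRI) : S_YTAU := by
  classical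
  intro p A B P V f hS hTor ι R hg w hw
  have hcq := hS.cq
  have hp := hS.pp
  have hp5 := hS.p5
  obtain ⟨hcard, hvq, hemb, -, ⟨T, hT⟩, -, -, hTT, hwall⟩ := t_TEP p A B P V f hS
  obtain ⟨hwm, hw1, hwle, hwc⟩ := hwall w hw
  obtain ⟨hTc, hperm, -⟩ := hTT T hT
  obtain ⟨hq1, hq2, hq3, hq4, hq5, -, -⟩ := i_PTI p A B P V f hS ι R R.i0
  set L := R.L R.i0 with hL
  set t : OO A B → ℂ := fun x => tX (xn L) (yy L) (pt R p R.i0 x) with ht
  have h1P : (1 : OO A B) ∉ P := (Ideal.ne_top_iff_one _).1 hS.hP.ne_top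
  obtain ⟨-, -, hk1⟩ := h2 p A B P V f hS ι R hg R.i0 1 h1P
  have hpP : ((p : ℕ) : OO A B) ∈ P := by
    rw [hS.eP]
    exact Ideal.mem_span_singleton_self _
  have hvp : V.valuation (p : ℂ) < 1 := by
    have h4 := (hemb ((p : ℕ) : OO A B)).2.1.2 hpP
    rwa [emb_natCast hcq] at h4
  have hvp0 : V.valuation (p : ℂ) ≠ 0 := by
    rw [Ne, map_eq_zero]
    exact_mod_cast hp.ne_zero
  have hq0 : 0 < p ^ 2 - 1 := by
    have : 25 ≤ p ^ 2 := by nlinarith
    omega
  have hk1' : V.valuation (t 1) ^ (p ^ 2 - 1) = V.valuation (p : ℂ) := hk1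
  have ht1 : V.valuation (t 1) < 1 := by
    by_contra hc
    have h4 := one_le_pow₀ (not_lt.1 hc) (n := p ^ 2 - 1)
    rw [hk1'] at h4
    exact absurd hvp (not_lt.2 h4)
  have ht0 : V.valuation (t 1) ≠ 0 := by
    intro h0
    rw [h0, zero_pow hq0.ne'] at hk1'
    exact hvp0 hk1'.symm
  have hw0 : ∀ x, x ∉ P → w x ≠ 0 := fun x hx h0 => hx ((hw.zero x).1 h0)
  -- the function `F`
  set F : OO A B → ℂ := fun x => (w x)⁻¹ * t x with hF
  have hFper : ∀ x y : OO A B, x - y ∈ P → F x = F y := by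
    intro x y hxy
    have h4 := per L (hq4 x y hxy)
    have h5 : t x = t y := by
      simp only [ht, tX, xn, yy]
      rw [h4.1, h4.2]
    simp only [hF]
    rw [h5, hw.per x y hxy]
  refine ⟨∑ x ∈ T, F x, ?_, ?_, ?_⟩
  · -- the valuation
    have hsum : ∑ x ∈ T, F x = ((p ^ 2 - 1 : ℕ) : ℂ) * t 1 + ∑ x ∈ T, (F x - t 1) := by
      rw [Finset.sum_sub_distrib, Finset.sum_const, hTc, nsmul_eq_mul]
      ring
    have hlt : V.valuation (∑ x ∈ T, (F x - t 1)) < V.valuation (t 1) := by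
      apply Valuation.map_sum_lt _ ht0
      intro x hx
      have hxP := hT.nz x hx
      have h5 : F x - t 1 = (w x)⁻¹ * (t x - w x * t 1) := by
        simp only [hF]
        have := hw0 x hxP
        field_simp
      rw [h5, map_mul, map_inv₀, hw1 x hxP, inv_one, one_mul]
      calc V.valuation (t x - w x * t 1) ≤ V.valuation (t 1) ^ 2 :=
            h3 p A B P V f hS w hw ι R hg R.i0 x hxP
        _ < V.valuation (t 1) := by
            rw [pow_two]
            have h6 := mul_lt_mul_of_pos_right ht1 (zero_lt_iff.2 ht0)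
            rwa [one_mul] at h6
    have h9 : V.valuation (((p ^ 2 - 1 : ℕ) : ℂ) * t 1) = V.valuation (t 1) := by
      rw [map_mul, hvq, one_mul]
    rw [hsum, Valuation.map_add_eq_of_lt_left _ (by rw [h9]; exact hlt), h9, hk1']
  · -- algebraic
    rw [isAlgebraic_iff_isIntegral]
    apply IsIntegral.sum
    intro x hx
    rw [← isAlgebraic_iff_isIntegral]
    have hxP := hT.nz x hx
    obtain ⟨ha1, ha2⟩ := h1 A B hcq hTor (R.b R.i0) L (R.om R.i0) (R.nl R.i0) p hp.ne_zero
      (pt R p R.i0 x) (fun hc => hxP ((hq1 x).1 hc)) (hq2 x)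
    apply IsAlgebraic.mul
    · apply IsAlgebraic.inv
      rw [isAlgebraic_iff_isIntegral]
      apply IsIntegral.of_pow hq0
      rw [hw.root x hxP]
      exact isIntegral_one
    · show IsAlgebraic ℚ (-(xn L (pt R p R.i0 x) / yy L (pt R p R.i0 x)))
      rw [div_eq_mul_inv]
      exact (ha1.mul ha2.inv).neg
  · -- conjugation
    intro m hm σ c d hact hd hc hσw
    obtain ⟨k, rfl⟩ := hm
    have hc0 := hw0 c hc
    have hterm : ∀ x ∈ T, σ (F x) = w c * F (c * x) := by
      intro x hx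
      have hxP := hT.nz x hx
      have hpx : pt R p R.i0 x ∉ L.lattice := fun hh => hxP ((hq1 x).1 hh)
      obtain ⟨-, ha2, ha3⟩ := (hact.act R.i0).act (pt R p R.i0 x) (by
        have h6 : ((p * k : ℕ) : ℂ) * pt R p R.i0 x = (k : ℕ) • ((p : ℂ) * pt R p R.i0 x) := by
          rw [nsmul_eq_mul]
          push_cast
          ring
        rw [h6]
        exact nsmul_mem (hq2 x) k) hpx
      rw [hd R.i0, Int.cast_one, one_mul, ← hq5 c x] at ha2 ha3
      have h5 : σ (t x) = t (c * x) := by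
        show σ (-(xn L (pt R p R.i0 x) / yy L (pt R p R.i0 x))) =
          -(xn L (pt R p R.i0 (c * x)) / yy L (pt R p R.i0 (c * x)))
        unfold xn yy
        rw [map_neg, map_div₀, map_sub, map_div₀, map_div₀, map_one, map_ofNat, map_ofNat,
          ← ha2, ← ha3]
      simp only [hF]
      rw [map_mul, map_inv₀, hσw, h5, hw.mul]
      have := hw0 x hxP
      field_simp
    rw [map_sum, Finset.sum_congr rfl hterm, ← Finset.mul_sum]
    congr 1
    exact hperm F hFper c hc

end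

end Pool.Agent.TWI
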