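import Pool.Agent.TWI.StI4
import Pool.Agent.NS.T_UNF

/-!
# TWI, block C4, module YUNF (helper19): the inertia field of `F` at `V` is unramified, `p` inert

The proof is that of `nt_UNF` (`NS/T_UNF.lean`, helper37).
-/

set_option autoImplicit false

open NumberField IsDedekindDomain

namespace Pool.Agent.TWI

open _root_.MU3 Pool.Agent.MU3A Pool.Agent.MU3B Pool.Agent.RI Pool.Agent.MUX Pool.Agent.MUXU
open OnePoint
open Pool.Agent.NST (KIn)
open Pool.Agent.NS (InI)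

noncomputable section

open Pool.Agent.NST.UNF Pool.Agent.MU3E.RAM in
theorem t_YUNF : S_YUNF := by
  intro p A B P V f hS F _ _ y hyK hy1
  have hcq : CQ A B := hS.cq
  have hp0 : p ≠ 0 := hS.pp.ne_zero
  have hV : OverI V (idl (A := A) (B := B) p) := hS.eP ▸ hS.hV
  obtain ⟨⟨φ, hφ⟩, hinj, hded, hpos, hint⟩ := Pool.Agent.MUXE.te_RNG A B hcq
  have hw0 : IsIntegral ℤ (wC A B) := by
    rw [hint _ (wC_mem A B)]
    exact ⟨⟨0, 1⟩, by simp [emb]⟩
  have hfd : FiniteDimensional ℚ (kk A B) :=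
    IntermediateField.adjoin.finiteDimensional hw0.tower_top
  have hk : NumberField (kk A B) := ⟨⟩
  have hFQ : FiniteDimensional ℚ F := FiniteDimensional.trans ℚ (kk A B) F
  have hF : NumberField F := ⟨⟩
  have h3O : emb ((p : ℕ) : OO A B) = (p : ℂ) := by rw [← hφ, map_natCast]
  have hv : ∀ x : OO A B, V.valuation (emb x) < 1 ↔ ((p : ℕ) : OO A B) ∣ x := by
    intro x
    rw [← ValuationSubring.mem_nonunits_iff, hV x, Ideal.mem_span_singleton]
  have hv3 : V.valuation (p : ℂ) < 1 := by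
    rw [← h3O]
    exact (hv _).2 (dvd_refl _)
  obtain ⟨w, hw⟩ := exists_prime (V := V) (algebraMap F ℂ) (z := ((p : ℕ) : 𝓞 F)) (by exact_mod_cast hp0) (by
    have h2 : (algebraMap F ℂ) ((((p : ℕ) : 𝓞 F)) : F) = (p : ℂ) := by
      have h1 : (((p : ℕ) : 𝓞 F) : F) = p := map_natCast (algebraMap (𝓞 F) F) p
      rw [h1, map_natCast]
    rw [h2]
    exact hv3)
  have hspan : w.asIdeal.under (𝓞 (kk A B)) = Ideal.span {((p : ℕ) : 𝓞 (kk A B))} := by
    ext x
    rw [Ideal.mem_span_singleton]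
    have h2 : IsIntegral ℤ ((x : kk A B) : ℂ) :=
      (RingOfIntegers.isIntegral_coe x).map (Algebra.ofId (kk A B) ℂ |>.restrictScalars ℤ)
    obtain ⟨z, hz⟩ := (hint _ (x : kk A B).2).mp h2
    have hxw : x ∈ w.asIdeal.under (𝓞 (kk A B)) ↔ V.valuation (emb z) < 1 := by
      rw [← hz]
      exact hw (algebraMap (𝓞 (kk A B)) (𝓞 F) x)
    rw [hxw, hv]
    constructor
    · rintro ⟨c, rfl⟩
      have hcI : IsIntegral ℤ (ek c) := by
        have h2 : IsIntegral ℤ (emb c) := (hint (emb c) (Pool.Agent.MU3A.emb_mem c)).mpr ⟨c, rfl⟩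
        have h3 : algebraMap (kk A B) ℂ (ek c) = emb c := rfl
        rw [← h3] at h2
        exact (isIntegral_algebraMap_iff (FaithfulSMul.algebraMap_injective (kk A B) ℂ)).mp h2
      refine ⟨⟨ek c, hcI⟩, ?_⟩
      apply RingOfIntegers.ext
      apply Subtype.ext
      rw [hz, ← hφ, map_mul, hφ, hφ, h3O]
      rfl
    · rintro ⟨c, hc⟩
      have h2 : IsIntegral ℤ ((c : kk A B) : ℂ) :=
        (RingOfIntegers.isIntegral_coe c).map (Algebra.ofId (kk A B) ℂ |>.restrictScalars ℤ)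
      obtain ⟨t, ht⟩ := (hint _ (c : kk A B).2).mp h2
      refine ⟨t, ?_⟩
      have h4 : emb z = p * emb t := by
        rw [← hz, ← ht, hc]
        rfl
      have h5 : emb (z - ((p : ℕ) : OO A B) * t) = 0 := by
        rw [← hφ, map_sub, map_mul, hφ, hφ, hφ, h3O, h4, sub_self]
      exact sub_eq_zero.1 (hinj _ h5)
  set K₁ : IntermediateField (kk A B) F :=
    IntermediateField.fixedField (w.asIdeal.inertia (F ≃ₐ[kk A B] F)) with hK₁
  have hK₁Q : FiniteDimensional ℚ K₁ := FiniteDimensional.trans ℚ (kk A B) K₁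
  have hK₁n : NumberField K₁ := ⟨⟩
  have hcard := card_fixed w K₁ hK₁
  obtain ⟨v, hvp, hvv⟩ := val_card (k := kk A B) w
  obtain ⟨v₁, -, hvv₁⟩ := val_card (k := K₁) w
  rw [hcard] at hvv₁
  set e := Nat.card (w.asIdeal.inertia (F ≃ₐ[kk A B] F)) with he
  have hval3 : w.valuation F ((p : ℕ) : F) = WithZero.exp (-1 : ℤ) ^ e := by
    have h1 := hvv ((p : ℕ) : kk A B)
    rw [map_natCast] at h1
    rw [h1]
    congr 1
    have h2 : (algebraMap (𝓞 (kk A B)) (kk A B)) ((p : ℕ) : 𝓞 (kk A B)) = ((p : ℕ) : kk A B) :=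
      map_natCast _ p
    rw [← h2, HeightOneSpectrum.valuation_of_algebraMap]
    exact v.intValuation_singleton (by exact_mod_cast hp0) (by rw [hvp, hspan])
  -- the element `y` is in `K₁`
  have hyF : y ∈ F := hyK.1
  have hyK₁ : (⟨y, hyF⟩ : F) ∈ K₁ := by
    rw [hK₁, IntermediateField.mem_fixedField_iff]
    intro σ hσ
    obtain ⟨s, hs⟩ := tu_AUE (F.restrictScalars ℚ) (by
      have h1 : Algebra.IsAlgebraic ℚ F := inferInstance
      exact h1) ((algebraMap F ℂ).comp (σ : F →+* F))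
    have hs' : ∀ x : F, s (x : ℂ) = ((σ x : F) : ℂ) := hs
    have hI : InI A B V (F : Set ℂ) s := by
      refine ⟨?_, ?_, ?_⟩
      · have h1 := hs' (algebraMap (kk A B) F ⟨wC A B, wC_mem A B⟩)
        rw [σ.commutes] at h1
        exact h1
      · intro x hx
        rw [hs' ⟨x, hx⟩]
        exact (σ ⟨x, hx⟩).2
      · intro x hx hxV
        rw [ValuationSubring.mem_nonunits_iff, hs' ⟨x, hx⟩]
        exact inertia_lt (algebraMap F ℂ) hw hσ (x := ⟨x, hx⟩)
          ((V.valuation_le_one_iff _).2 hxV)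
    apply Subtype.ext
    rw [← hs']
    exact hyK.2 s hI
  have h1 := hvv₁ ⟨⟨y, hyF⟩, hyK₁⟩
  have h2 : w.valuation F (⟨y, hyF⟩ : F) < 1 := by
    refine lt_of_le_of_ne (le_ord (algebraMap F ℂ) hw hy1.le) ?_
    intro h
    have h3 := ord_one (algebraMap F ℂ) hw h
    exact absurd h3 hy1.ne
  have h3 : w.valuation F (⟨y, hyF⟩ : F) ≤ w.valuation F ((p : ℕ) : F) := by
    have h4 : (algebraMap K₁ F) ⟨⟨y, hyF⟩, hyK₁⟩ = (⟨y, hyF⟩ : F) := rfl
    rw [h4] at h1
    rw [h1] at h2 ⊢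
    rw [hval3]
    apply pow_le_pow_left₀ zero_le
    have h5 : v₁.valuation K₁ ⟨⟨y, hyF⟩, hyK₁⟩ < 1 := by
      by_contra h6
      push Not at h6
      exact absurd h2 (not_lt.2 (one_le_pow₀ h6))
    by_cases h0 : v₁.valuation K₁ ⟨⟨y, hyF⟩, hyK₁⟩ = 0
    · rw [h0]
      exact zero_le
    · rw [← WithZero.exp_log h0] at h5 ⊢
      rw [← WithZero.exp_zero, WithZero.exp_lt_exp] at h5
      rw [WithZero.exp_le_exp]
      omega
  have h4 : w.valuation F ((⟨y, hyF⟩ : F) / ((p : ℕ) : F)) ≤ 1 := by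
    rw [map_div₀]
    have h30 : w.valuation F ((p : ℕ) : F) ≠ 0 := (map_ne_zero _).2 (by exact_mod_cast hp0)
    exact (div_le_one₀ (zero_lt_iff.2 h30)).2 h3
  have h5 := ord_le (algebraMap F ℂ) hw h4
  rw [map_div₀, map_div₀, map_natCast] at h5
  have h30 : V.valuation (p : ℂ) ≠ 0 := (map_ne_zero _).2 (by exact_mod_cast hp0)
  exact (div_le_one₀ (zero_lt_iff.2 h30)).1 h5

end

end Pool.Agent.TWI
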