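import Pool.Agent.TWI.StI4
import Pool.Agent.MUX.XLib

/-!
# TWI, block C4, module YVAK: conjugation of the values of `PhiK/om_0` (helper54, after the module VAK of MUX-NS)
-/

set_option autoImplicit false

namespace Pool.Agent.TWI

open _root_.MU3 Pool.Agent.MU3A Pool.Agent.MU3B Pool.Agent.RI Pool.Agent.MUX Pool.Agent.MUXU
open OnePoint
open Pool.Agent.MUXY (ActN Dn)
open Pool.Agent.NST (ActT KIn)

noncomputable section

/-- (YVAK) -/
theorem t_YVAK (h1 : S_YSGM) (h2 : S_YVAL) : S_YVAK := by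
  intro A B p f hQ hp hf ι _ R e he j m' hm hfm σ c d hc hT hd1 hσ kk hkk x y hx hy
  have hm0 : p ^ (j + 1) * m' ≠ 0 := mul_ne_zero (pow_ne_zero _ (by omega)) hm
  have hfm' : p * f ∣ p ^ (j + 1) * m' := by
    rw [pow_succ, mul_assoc, mul_comm (p ^ j)]
    exact (mul_dvd_mul_left p hfm).mul_right _
  have hpf : 2 ≤ p * f := by
    have := Nat.mul_le_mul hp hf
    omega
  have key : ∀ i, e c * σ (kk i * PhiI (R.b i) e x y / R.om R.i0) =
      kk i * PhiI (R.b i) e x y / R.om R.i0 := by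
    intro i
    have homi : R.om i ≠ 0 := (R.nl i).om_ne
    have hom0 : R.om R.i0 ≠ 0 := (R.nl R.i0).om_ne
    have hn : ((nI (R.b i) : ℕ) : ℂ) ≠ 0 :=
      Nat.cast_ne_zero.2 (Pool.Agent.MUX.nI_ne_zero hQ (R.nl i).b_ne)
    have e1 : kk i * PhiI (R.b i) e x y / R.om R.i0 =
        kk i * (PhiI (R.b i) e x y / R.om i) * muX R i / nI (R.b i) := by
      rw [muX]
      field_simp
    have e2 := h1 A B p f hQ hp hf ι R j m' hm hfm σ c d hc hT i
    have e3 := h2 A B (p * f) hQ hpf ι R e he _ hm0 hfm' σ c d hT hσ i x y hx hy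
    rw [hd1 i, hd1 R.i0] at e2
    rw [hd1 i] at e3
    push_cast at e2 e3
    rw [one_mul, one_mul] at e2
    rw [one_mul] at e3
    rw [e1, map_div₀, map_mul, map_mul, hkk, e2, map_natCast]
    have e4 : e c * (kk i * σ (PhiI (R.b i) e x y / R.om i) * muX R i / (nI (R.b i) : ℂ)) =
        kk i * (e c * σ (PhiI (R.b i) e x y / R.om i)) * muX R i / (nI (R.b i) : ℂ) := by
      ring
    rw [e4, e3]
  rw [PhiK, Finset.sum_div, map_sum, Finset.mul_sum]
  exact Finset.sum_congr rfl fun i _ => key i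

end

end Pool.Agent.TWI
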