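import Pool.Agent.TWI.KRI
import Pool.Agent.TWI.TRI
import Pool.Agent.TWI.MLI
import Pool.Agent.TWI.GRI
import Pool.Agent.TWI.R2I
import Pool.Agent.TWI.R4I
import Pool.Agent.TWI.PTI
import Pool.Agent.TWI.VPGI
import Pool.Agent.TWI.YUNF
import Pool.Agent.TWI.YINE
import Pool.Agent.TWI.YALT
import Pool.Agent.TWI.YALV
import Pool.Agent.TWI.YACI
import Pool.Agent.TWI.YSGN
import Pool.Agent.TWI.YSGM
import Pool.Agent.TWI.YVAL
import Pool.Agent.TWI.YVAK
import Pool.Agent.TWI.YTAU
import Pool.Agent.TWI.TYPI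
import Pool.Agent.TWI.SYI

/-!
# TWI, block C4: everything (helper54): `S_TYPI` and `S_SYMI` without hypotheses
-/

set_option autoImplicit false

namespace Pool.Agent.TWI

namespace TYAll

theorem mli : S_MLI := i_MLI i_GRI

theorem kri : S_KRI := i_KRI i_R2I i_R4I i_GRI i_PTI mli

theorem tri : S_TRI := i_TRI kri mli i_PTI i_GRI

theorem tau : S_YTAU := t_YTAU t_YALT kri tri

end TYAll

/-- (TYPI) the type of the symbol -/
theorem z_TYPI : S_TYPI :=
  t_TYPI t_YUNF (t_YINE t_VPGI) t_YALT t_YALV t_YACI (t_YSGN t_VPGI) (t_YVAK t_YSGM t_YVAL)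
    TYAll.tau

/-- (SYMI) for all large `n` the sums `SSTI` of all characters of level `n` are large -/
theorem z_SYMI : S_SYMI := t_SYMI z_TYPI

end Pool.Agent.TWI
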