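import Pool.Agent.TWI.ENDJ
import Pool.Agent.TWI.AsmI
import Pool.Agent.TWI.AAll
import Pool.Agent.TWI.TYAll
import Pool.Agent.TWF.Last

/-!
# TWI: assembly of Theorem C for all primes outside a finite set, with `E`, except `S_CRITI`, `S_URE`
-/

set_option autoImplicit false

open NumberField IsDedekindDomain

namespace Pool.Agent.TWI

open _root_.MU3 Pool.Agent.MU3 Pool.Agent.MU3A Pool.Agent.MU3B Pool.Agent.RI Pool.Agent.RID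
  Pool.Agent.MUX Pool.Agent.MUXJ Pool.Agent.MUXY Pool.Agent.TWT Pool.Agent.TWK Pool.Agent.MUXW
  Pool.Agent.MUXI Pool.Agent.MUXZ Pool.Agent.TWF

/-- all primes, except `S_CRITI` -/
theorem asmI2 (hCRITI : S_CRITI) (k : IntermediateField ℚ ℂ)
    (h2 : Module.finrank ℚ k = 2) (hi : ∃ z ∈ k, (starRingEnd ℂ) z ≠ z)
    (h4 : ∀ z ∈ k, z ^ 2 ≠ -1) (h3 : ∀ z ∈ k, z ^ 2 ≠ -3) :
    ∃ S : Finset ℕ, ∀ p : ℕ, p.Prime → p ∉ S → StP k p :=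
  asmI (Pool.Agent.TWT.t_CRIT Pool.Agent.TWT.a_KEYA) z_SYMI hCRITI a_KRI k h2 hi h4 h3

/-- all primes, with `E`, except `S_CRITI` and `S_URE` -/
theorem asmE (hURE : S_URE) (hCRITI : S_CRITI)
    (k : IntermediateField ℚ ℂ)
    (h2 : Module.finrank ℚ k = 2) (hi : ∃ z ∈ k, (starRingEnd ℂ) z ≠ z)
    (h4 : ∀ z ∈ k, z ^ 2 ≠ -1) (h3 : ∀ z ∈ k, z ^ 2 ≠ -3) :
    ∃ S : Finset ℕ, ∀ p : ℕ, p.Prime → p ∉ S → StPE k p :=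
  finalE hURE (a_FIN3 (Pool.Agent.TWT.t_CRIT Pool.Agent.TWT.a_KEYA)) (a_FINI z_SYMI hCRITI)
    MUXI.i_LAY MUXI.i_IAF MUXY.z_REX MUXY.z_NLE t_UNF (i_UNFI a_KRI) MUXC.c_TOR z_GRB
    MUXV.q_ALU Pool.Agent.JT.j_JTR Pool.Agent.JT.j_JQF MUXJ.j_DIR MUXJ.j_LAY k h2 hi h4 h3

end Pool.Agent.TWI
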