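import Pool.Agent.TWI.StI2
import Pool.Agent.TWT.HTF
import Pool.Agent.TWT.CNT

/-!
# TWI_CNTI: counting, for any level
-/

set_option autoImplicit false

open WeierstrassCurve Polynomial NumberField IsDedekindDomain

namespace Pool.Agent.TWI

open _root_.MU3 Pool.Agent.MU3A Pool.Agent.MU3B Pool.Agent.MU3C Pool.Agent.RI Pool.Agent.RID
open Pool.Agent.MUX Pool.Agent.MUXU Pool.Agent.MUXW Pool.Agent.TWT
open Pool.Agent.MU3V (cls Sub GD algDF)
open Pool.Agent.MUXV (GR InK tX)
open Pool.Agent.MUXI (IA RE AR)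

noncomputable section

theorem t_CNTI : S_CNTI := by
  intro A B hCQ hT n ι _ R M hM hcop G hper heven hzero a ha _ I X hX
  obtain ⟨-, t2, t3, t4, -, -⟩ := t_HTF A B hCQ hT n ι R M hM hcop
  let F : ι → OO A B → ℂ := fun i x => G i (x * a)
  have hFper : ∀ i x y, x - y ∈ idl (A := A) (B := B) M → F i x = F i y := by
    intro i x y hxy
    refine hper _ _ _ ?_
    rw [← sub_mul]
    exact Ideal.mul_mem_right _ _ hxy
  have hFeven : ∀ i x, F i (-x) = F i x := by
    intro i x
    show G i (-x * a) = G i (x * a)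
    rw [neg_mul]
    exact heven _ _
  have hFzero : ∀ i x, ¬ IsCoprime x ((M : ℕ) : OO A B) → F i x = 0 := by
    intro i x hx
    exact hzero _ _ fun h => hx (IsCoprime.of_mul_left_left h)
  have hc := Pool.Agent.TWT.CNT.count hM (fun σ i x => HitF R M _ σ i x) t2 t3 t4 F hFper hFeven
    hFzero I X (fun σ => (hX σ).1) hX
  refine hc.trans (Finset.sum_congr rfl fun i _ => ?_)
  rw [← Pool.Agent.TWT.CNT.sumMod_mul ha (hper i)]
  unfold sumMod
  refine finsum_congr fun q => ?_
  show G i (Quotient.out q * a) = G i (a * Quotient.out q)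
  rw [mul_comm]

end

end Pool.Agent.TWI
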