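import Pool.Agent.TWI.StI2
import Pool.Agent.TWT.EAB

/-!
# TWI, module EABE: algebra of the products `EtT` modulo `p`-th powers, any exponent
-/

set_option autoImplicit false

namespace Pool.Agent.TWI

open Pool.Agent.TWT Pool.Agent.TWT.EAB

/-- EABE -/
theorem t_EABE : S_EABE := by
  intro p _ G Fr Mt _ _ _ _ _ χ e C C'' K φ hφ hrel hC hK t
  have h1 : ∀ t : Fr →+ ZMod p, mq p (EtT p χ t C) = 1 := fun t => mq_one_iff.2 (hC t)
  have h2 : ∀ t : Fr →+ ZMod p, mq p (EtT p χ t K) = 1 := fun t => mq_one_iff.2 (hK t)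
  have h3 : ∀ t : Fr →+ ZMod p, mq p (EtT p χ t C'') = 1 := by
    refine E_triv χ C'' (χ φ) hφ fun t' => ?_
    have h4 : EtT p χ t' (fun τ => C τ ^ e * C'' τ) =
        EtT p χ t' (fun τ => K τ * C'' (τ * φ)) := by
      congr 1
      funext τ
      exact hrel τ
    rw [E_mul, E_mul, E_pow, E_shift] at h4
    have h5 := congrArg (mq p) h4
    rw [map_mul, map_mul, map_pow, h1, h2, one_pow, one_mul, one_mul] at h5
    exact h5
  rw [← mq_one_iff, E_pow, E_div, map_pow, map_div, h1, h3, div_one, one_pow]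

end Pool.Agent.TWI
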