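import Pool.Agent.TWI.StI2
import Pool.Agent.MUX.XLib

/-!
# TWI, block B: ideals prime to `p`, `P = (p)` (module IDPI)
-/

set_option autoImplicit false

namespace Pool.Agent.TWI

open _root_.MU3 Pool.Agent.MU3A Pool.Agent.MU3B Pool.Agent.MU3C Pool.Agent.RI Pool.Agent.RID
open Pool.Agent.MUX Pool.Agent.TWT

noncomputable section

namespace IDPI

variable {A B : ℤ}

lemma cop_one {I : Ideal (OO A B)} {a : OO A B} (h : a - 1 ∈ I) : IsCoprime (sp a) I := by
  rw [Ideal.isCoprime_iff_exists]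
  exact ⟨a, Ideal.subset_span rfl, 1 - a, by rw [← neg_sub]; exact I.neg_mem h, by ring⟩

lemma idl_mul (m n : ℕ) : idl (A := A) (B := B) (m * n) = idl m * idl n := by
  unfold idl
  rw [Ideal.span_singleton_mul_span_singleton, Nat.cast_mul]

/-- the norm of `(p)` -/
lemma nI_idl (h : CQ A B) {p : ℕ} (hp0 : p ≠ 0) : nI (idl (A := A) (B := B) p) = p ^ 2 := by
  have h1 := nI_sp h (natCast_ne_zero' h hp0)
  have e4 : nm ((p : ℕ) : OO A B) = ((p ^ 2 : ℕ) : ℤ) := by
    have := nm_intCast (A := A) (B := B) (p : ℤ)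
    push_cast at this ⊢
    exact this
  rw [e4, Int.natAbs_natCast] at h1
  exact h1

/-- existence of representatives -/
lemma exists_rep {P : Ideal (OO A B)} (hf : Finite (OO A B ⧸ P)) : ∃ T, RepI P T := by
  have hout : ∀ q : OO A B ⧸ P, Ideal.Quotient.mk P (Quotient.out q) = q := fun q => Quotient.out_eq q
  have hfs : Set.Finite (Quotient.out '' {q : OO A B ⧸ P | q ≠ 0}) := Set.toFinite _
  have hmem : ∀ x, x ∈ hfs.toFinset ↔ ∃ q : OO A B ⧸ P, q ≠ 0 ∧ Quotient.out q = x := by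
    intro x
    rw [Set.Finite.mem_toFinset]
    exact Iff.rfl
  refine ⟨hfs.toFinset, ?_, ?_, ?_⟩
  · intro x hx hxP
    obtain ⟨q, hq, rfl⟩ := (hmem x).1 hx
    apply hq
    rw [← hout q]
    exact Ideal.Quotient.eq_zero_iff_mem.2 hxP
  · intro x hx y hy hxy
    obtain ⟨q, -, rfl⟩ := (hmem x).1 hx
    obtain ⟨q', -, rfl⟩ := (hmem y).1 hy
    have h1 := Ideal.Quotient.eq.2 hxy
    rw [hout, hout] at h1
    rw [h1]
  · intro x hx
    refine ⟨Quotient.out (Ideal.Quotient.mk P x), (hmem _).2 ⟨_, ?_, rfl⟩, ?_⟩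
    · intro h1
      exact hx (Ideal.Quotient.eq_zero_iff_mem.1 h1)
    · refine Ideal.Quotient.eq.1 ?_
      rw [hout]

/-- the number of representatives -/
lemma card_rep {P : Ideal (OO A B)} (hf : Finite (OO A B ⧸ P)) {T : Finset (OO A B)}
    (hT : RepI P T) : T.card = Nat.card (OO A B ⧸ P) - 1 := by
  classical
  have := Fintype.ofFinite (OO A B ⧸ P)
  have h1 : T.image (Ideal.Quotient.mk P) = Finset.univ.erase (0 : OO A B ⧸ P) := by
    ext q
    rw [Finset.mem_image, Finset.mem_erase]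
    constructor
    · rintro ⟨x, hx, rfl⟩
      exact ⟨fun h => hT.nz x hx (Ideal.Quotient.eq_zero_iff_mem.1 h), Finset.mem_univ _⟩
    · rintro ⟨hq, -⟩
      obtain ⟨x, rfl⟩ := Ideal.Quotient.mk_surjective q
      obtain ⟨y, hy, hxy⟩ := hT.surj x (fun h => hq (Ideal.Quotient.eq_zero_iff_mem.2 h))
      exact ⟨y, hy, (Ideal.Quotient.eq.2 hxy).symm⟩
  have h2 : (T.image (Ideal.Quotient.mk P)).card = T.card := by
    refine Finset.card_image_of_injOn fun x hx y hy hxy => ?_
    exact hT.inj x hx y hy (Ideal.Quotient.eq.1 hxy)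
  rw [← h2, h1, Finset.card_erase_of_mem (Finset.mem_univ _), Finset.card_univ,
    Nat.card_eq_fintype_card]

end IDPI

open IDPI in
theorem t_IDPI : S_IDPI := by
  intro p A B P V f hS
  have hprime : p.Prime := hS.pp
  have hPp : P.IsPrime := hS.hP
  have hp0 : p ≠ 0 := hprime.ne_zero
  have hpP : ((p : ℕ) : OO A B) ∈ P := by
    rw [hS.eP]
    exact Ideal.subset_span rfl
  have h1P : (1 : OO A B) ∉ P := fun h => hPp.ne_top ((Ideal.eq_top_iff_one P).2 h)
  -- coprime integers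
  have hci : ∀ c : ℤ, ¬ (p : ℤ) ∣ c → IsCoprime (p : ℤ) c := fun c hpc =>
    (Int.prime_iff_natAbs_prime.2 (by simpa using hprime)).coprime_iff_not_dvd.2 hpc
  -- integers in `P`
  have hint : ∀ c : ℤ, (c : OO A B) ∈ P ↔ (p : ℤ) ∣ c := by
    intro c
    constructor
    · intro hc
      by_contra hpc
      obtain ⟨u, v, huv⟩ := hci c hpc
      apply h1P
      have h3 : ((u : ℤ) : OO A B) * (p : ℕ) + (v : ℤ) * (c : ℤ) = 1 := by
        have := congrArg (Int.cast : ℤ → OO A B) huv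
        push_cast at this
        exact this
      rw [← h3]
      exact P.add_mem (P.mul_mem_left _ hpP) (P.mul_mem_left _ hc)
    · rintro ⟨y, rfl⟩
      push_cast
      exact P.mul_mem_right _ hpP
  have hintn : ∀ c : ℕ, (c : OO A B) ∈ P ↔ p ∣ c := by
    intro c
    have h3 := hint (c : ℤ)
    rw [Int.cast_natCast] at h3
    rw [h3, Int.natCast_dvd_natCast]
  -- `P ≠ ⊥`
  have hPb : P ≠ ⊥ := by
    rintro rfl
    rw [Ideal.mem_bot] at hpP
    exact natCast_ne_zero' hS.cq hp0 hpP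
  have hfin : Finite (OO A B ⧸ P) := finite_quot hS.cq hPb
  have hnorm : Nat.card (OO A B ⧸ P) = p ^ 2 := by
    have h3 := nI_idl hS.cq hp0
    rw [← hS.eP] at h3
    exact h3
  -- `P` is maximal
  have hdom : IsDomain (OO A B ⧸ P) := Ideal.Quotient.isDomain P
  have hmax : P.IsMaximal :=
    Ideal.Quotient.maximal_of_isField P (Finite.isDomain_to_isField (OO A B ⧸ P))
  have hcP : ∀ a : OO A B, a ∉ P → IsCoprime (sp a) P := by
    intro a ha
    rw [Ideal.isCoprime_iff_sup_eq]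
    refine (Ideal.isMaximal_def.1 hmax).2 _ (lt_of_le_of_ne le_sup_right fun h3 => ha ?_)
    rw [h3]
    exact (le_sup_left : sp a ≤ sp a ⊔ P) (Ideal.subset_span rfl)
  have hmI : ∀ m : ℕ, ¬ p ∣ m → IsCoprime (idl (A := A) (B := B) m) P := by
    intro m hm
    obtain ⟨u, v, huv⟩ := hci (m : ℤ) (by rwa [Int.natCast_dvd_natCast])
    have huv' : ((u : ℤ) : OO A B) * (p : ℕ) + (v : ℤ) * (m : ℕ) = 1 := by
      have := congrArg (Int.cast : ℤ → OO A B) huv
      push_cast at this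
      exact this
    rw [Ideal.isCoprime_iff_exists]
    exact ⟨_, Ideal.mul_mem_left _ ((v : ℤ) : OO A B) (Ideal.subset_span rfl), _,
      P.mul_mem_left ((u : ℤ) : OO A B) hpP, by rw [add_comm]; exact huv'⟩
  refine ⟨hint, hnorm, exists_rep hfin, ?_, ?_, ?_, ?_⟩
  · intro T hT
    rw [card_rep hfin hT, hnorm]
  · intro m hm
    refine ⟨hmI m hm, ?_⟩
    obtain ⟨a, ha, b, hb, hab⟩ := Ideal.isCoprime_iff_exists.1 (hmI m hm)
    refine ⟨b, hb, ?_⟩
    have h3 : b - 1 = -a := by linear_combination hab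
    rw [h3]
    exact Ideal.neg_mem_iff _ |>.2 ha
  · intro m x0 hm0 hm hx0 hx01 c hc
    have hmP : ((m : ℕ) : OO A B) ∉ P := fun h3 => hm ((hintn m).1 h3)
    have h3 : x0 + c * m - 1 ∈ idl (A := A) (B := B) m := by
      have h4 : x0 + c * m - 1 = (x0 - 1) + c * m := by ring
      rw [h4]
      exact Ideal.add_mem _ hx01 (Ideal.mul_mem_left _ _ (Ideal.subset_span rfl))
    refine ⟨?_, h3⟩
    have h4 : x0 + c * m ∉ P := by
      intro h4
      have h5 := P.sub_mem h4 hx0
      rw [add_sub_cancel_left] at h5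
      exact (hPp.mem_or_mem h5).elim hc hmP
    have h5 := (cop_one h3).mul_right (hcP _ h4)
    rw [hS.eP, ← idl_mul] at h5
    exact (Ideal.isCoprime_span_singleton_iff _ _).1 h5
  · intro l N hl x hx hxP
    have h3 : IsCoprime x ((f : ℕ) : OO A B) := (Ideal.isCoprime_span_singleton_iff _ _).1 hx
    have h4 : IsCoprime x ((l : ℕ) : OO A B) := by
      obtain ⟨k, rfl⟩ := hl
      rw [Nat.cast_mul] at h3
      exact h3.of_mul_right_left
    have h5 : IsCoprime x ((p : ℕ) : OO A B) := by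
      have h6 := hcP x hxP
      rw [hS.eP] at h6
      exact (Ideal.isCoprime_span_singleton_iff _ _).1 h6
    push_cast
    exact (h3.mul_right h4.pow_right).mul_right h5

end

end Pool.Agent.TWI
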