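import Pool.Agent.TWI.StI2
import Pool.Agent.MUX.XLib

/-!
# TWI, block B, module KRPI: the kernel `E[p]` as a system of representatives, `p` inert
-/

set_option autoImplicit false

open WeierstrassCurve Polynomial NumberField IsDedekindDomain

namespace Pool.Agent.TWI

open _root_.MU3 Pool.Agent.MU3A Pool.Agent.MU3B Pool.Agent.MU3C Pool.Agent.RI Pool.Agent.RID
open Pool.Agent.MUX Pool.Agent.MUXU Pool.Agent.MUXW Pool.Agent.TWT

noncomputable section

namespace KRPI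

variable {p : ℕ} {A B : ℤ} {P : Ideal (OO A B)} {V : ValuationSubring ℂ} {f : ℕ} {ι : Type}

theorem N_cop (h : SetI p A B P V f) (R : Reps A B (p * f) ι) (i : ι) :
    ¬ (p : ℤ) ∣ ((nI (R.b i) : ℕ) : ℤ) := by
  intro h1
  have h3 : p ∣ nI (R.b i) := by exact_mod_cast h1
  have h4 : p ∣ 1 := by
    rw [← (R.cop i)]
    exact Nat.dvd_gcd h3 (dvd_mul_right p f)
  exact h.pp.one_lt.ne' (Nat.dvd_one.1 h4)

theorem N_notMem (hI : S_IDPI) (h : SetI p A B P V f) (R : Reps A B (p * f) ι) (i : ι) :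
    ((nI (R.b i) : ℕ) : OO A B) ∉ P := by
  intro hm
  apply N_cop h R i
  rw [← (hI p A B P V f h).1, Int.cast_natCast]
  exact hm

theorem N_mem (h : SetI p A B P V f) (R : Reps A B (p * f) ι) (i : ι) :
    ((nI (R.b i) : ℕ) : OO A B) ∈ R.b i := Pool.Agent.MUX.nI_mem h.cq (R.nl i).b_ne

theorem mem_P (h : SetI p A B P V f) {x : OO A B} (hx : x ∈ P) :
    ∃ t : OO A B, t * ((p : ℕ) : OO A B) = x := by
  rw [h.eP] at hx
  exact Ideal.mem_span_singleton'.1 hx

theorem p_mem (h : SetI p A B P V f) : ((p : ℕ) : OO A B) ∈ P := by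
  rw [h.eP]
  exact Ideal.mem_span_singleton_self _

theorem emb_zero' (h : SetI p A B P V f) : emb (0 : OO A B) = 0 := by
  have h1 := Pool.Agent.MUX.emb_sub h.cq (0 : OO A B) 0
  rw [sub_zero, sub_self] at h1
  exact h1

theorem diff_mem (hI : S_IDPI) (h : SetI p A B P V f) (R : Reps A B (p * f) ι) (i : ι)
    (c c' : OO A B) : pt R p i c - pt R p i c' ∈ (R.L i).lattice ↔ c - c' ∈ P := by
  have hC := h.cq
  have hp0 : (p : ℂ) ≠ 0 := by exact_mod_cast h.pp.ne_zero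
  have ho := (R.nl i).om_ne
  constructor
  · intro hm
    obtain ⟨u, _, hu⟩ := ((R.nl i).mem _).1 hm
    have h1 : ((nI (R.b i) : ℕ) : OO A B) * (c - c') = ((p : ℕ) : OO A B) * u := by
      apply Pool.Agent.MUX.emb_inj hC
      rw [Pool.Agent.MUX.emb_mul hC, Pool.Agent.MUX.emb_sub hC, Pool.Agent.MUX.emb_natCast hC,
        Pool.Agent.MUX.emb_mul hC, Pool.Agent.MUX.emb_natCast hC]
      apply mul_left_cancel₀ ho
      calc R.om i * (((nI (R.b i) : ℕ) : ℂ) * (emb c - emb c'))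
          = p * (pt R p i c - pt R p i c') := by
            unfold pt
            field_simp
        _ = _ := by
            rw [hu]
            ring
    have h2 : ((nI (R.b i) : ℕ) : OO A B) * (c - c') ∈ P := by
      rw [h1]
      exact P.mul_mem_right _ (p_mem h)
    rcases h.hP.mem_or_mem h2 with h3 | h3
    · exact absurd h3 (N_notMem hI h R i)
    · exact h3
  · intro hm
    obtain ⟨t, ht⟩ := mem_P h hm
    have h1 : emb t * (p : ℂ) = emb c - emb c' := by
      rw [← Pool.Agent.MUX.emb_natCast hC (A := A) (B := B) p, ← Pool.Agent.MUX.emb_mul hC, ht,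
        Pool.Agent.MUX.emb_sub hC]
    refine ((R.nl i).mem _).2 ⟨t * ((nI (R.b i) : ℕ) : OO A B),
      Ideal.mul_mem_left _ _ (N_mem h R i), ?_⟩
    rw [Pool.Agent.MUX.emb_mul hC, Pool.Agent.MUX.emb_natCast hC]
    apply mul_left_cancel₀ hp0
    calc (p : ℂ) * (pt R p i c - pt R p i c')
        = R.om i * ((nI (R.b i) : ℕ) : ℂ) * (emb c - emb c') := by
          unfold pt
          field_simp
      _ = _ := by
          rw [← h1]
          ring

theorem pt_zero (h : SetI p A B P V f) (R : Reps A B (p * f) ι) (i : ι) :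
    pt R p i (0 : OO A B) = 0 := by
  unfold pt
  rw [emb_zero' h]
  simp

theorem pt_mem (hI : S_IDPI) (h : SetI p A B P V f) (R : Reps A B (p * f) ι) (i : ι)
    (c : OO A B) : pt R p i c ∈ (R.L i).lattice ↔ c ∈ P := by
  have h1 := diff_mem hI h R i c 0
  rwa [pt_zero h, sub_zero, sub_zero] at h1

theorem ker_mem (h : SetI p A B P V f) (R : Reps A B (p * f) ι) (i : ι)
    (x : OO A B) (hx : x ∈ P) (c : OO A B) :
    emb x * pt R p i c ∈ (R.L i).lattice := by
  have hC := h.cq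
  have hp0 : (p : ℂ) ≠ 0 := by exact_mod_cast h.pp.ne_zero
  obtain ⟨t, ht⟩ := mem_P h hx
  have h2 : emb t * (p : ℂ) = emb x := by
    rw [← Pool.Agent.MUX.emb_natCast hC (A := A) (B := B) p, ← Pool.Agent.MUX.emb_mul hC, ht]
  refine ((R.nl i).mem _).2 ⟨t * c * ((nI (R.b i) : ℕ) : OO A B),
    Ideal.mul_mem_left _ _ (N_mem h R i), ?_⟩
  rw [Pool.Agent.MUX.emb_mul hC, Pool.Agent.MUX.emb_mul hC, Pool.Agent.MUX.emb_natCast hC, ← h2]
  unfold pt
  field_simp

theorem surj (h : SetI p A B P V f) (R : Reps A B (p * f) ι) (i : ι)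
    (z : ℂ) (hx : ∀ x ∈ P, emb x * z ∈ (R.L i).lattice) :
    ∃ c : OO A B, z - pt R p i c ∈ (R.L i).lattice := by
  have hC := h.cq
  have hp0 : (p : ℂ) ≠ 0 := by exact_mod_cast h.pp.ne_zero
  obtain ⟨u, hu, hzu⟩ := ((R.nl i).mem _).1 (hx _ (p_mem h))
  rw [Pool.Agent.MUX.emb_natCast hC] at hzu
  obtain ⟨a, e, hab⟩ :=
    ((Nat.prime_iff_prime_int.1 h.pp).coprime_iff_not_dvd).2 (N_cop h R i)
  have hab' : (a : ℂ) * (p : ℂ) + (e : ℂ) * ((nI (R.b i) : ℕ) : ℂ) = 1 := by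
    have h3 := congrArg (fun t : ℤ => (t : ℂ)) hab
    push_cast at h3
    exact h3
  refine ⟨(e : OO A B) * u, ((R.nl i).mem _).2 ⟨(a : OO A B) * u, Ideal.mul_mem_left _ _ hu, ?_⟩⟩
  rw [Pool.Agent.MUX.emb_mul hC, Pool.Agent.MUX.emb_intCast hC]
  apply mul_left_cancel₀ hp0
  calc (p : ℂ) * (z - pt R p i ((e : OO A B) * u))
      = (p : ℂ) * z - R.om i * (((nI (R.b i) : ℕ) : ℂ) * ((e : ℂ) * emb u)) := by
        unfold pt
        rw [Pool.Agent.MUX.emb_mul hC, Pool.Agent.MUX.emb_intCast hC]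
        field_simp
    _ = (p : ℂ) * (R.om i * ((a : ℂ) * emb u)) := by
        rw [hzu]
        linear_combination (-(R.om i * emb u)) * hab'

end KRPI

theorem t_KRPI (h : S_IDPI) : S_KRPI := by
  intro p A B P V f hS ι R i L' mu hQ T hT
  have hC := hS.cq
  have hd := KRPI.diff_mem h hS R i
  have hinj : ∀ c ∈ T, ∀ c' ∈ T, pt R p i c - pt R p i c' ∈ (R.L i).lattice → c = c' :=
    fun c hc c' hc' hm => hT.inj c hc c' hc' ((hd c c').1 hm)
  refine ⟨?_, ?_, hd, ⟨?_, ?_, ?_, ?_⟩, ?_⟩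
  · intro w hw
    rw [hQ.2]
    intro x _
    obtain ⟨u, hu, rfl⟩ := ((R.nl i).mem _).1 hw
    refine ((R.nl i).mem _).2 ⟨x * u, Ideal.mul_mem_left _ _ hu, ?_⟩
    rw [Pool.Agent.MUX.emb_mul hC]
    ring
  · intro z hz
    have h1 := (hQ.2 z).1 hz _ (KRPI.p_mem hS)
    rwa [Pool.Agent.MUX.emb_natCast hC] at h1
  · intro q hq
    obtain ⟨c, _, rfl⟩ := Finset.mem_image.1 hq
    rw [hQ.2]
    intro x hx
    exact KRPI.ker_mem hS R i x hx c
  · intro q hq hL
    obtain ⟨c, hc, rfl⟩ := Finset.mem_image.1 hq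
    exact hT.nz c hc ((KRPI.pt_mem h hS R i c).1 hL)
  · intro q hq q' hq' hm
    obtain ⟨c, hc, rfl⟩ := Finset.mem_image.1 hq
    obtain ⟨c', hc', rfl⟩ := Finset.mem_image.1 hq'
    rw [hinj c hc c' hc' hm]
  · intro z hz hzL
    obtain ⟨c, h1⟩ := KRPI.surj hS R i z ((hQ.2 z).1 hz)
    have hcP : c ∉ P := by
      intro hc
      apply hzL
      have h2 := (R.L i).lattice.add_mem h1 ((KRPI.pt_mem h hS R i c).2 hc)
      rwa [sub_add_cancel] at h2
    obtain ⟨y, hy, hcy⟩ := hT.surj c hcP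
    refine ⟨pt R p i y, Finset.mem_image.2 ⟨y, hy, rfl⟩, ?_⟩
    have h3 := (R.L i).lattice.add_mem h1 ((hd c y).2 hcy)
    rwa [sub_add_sub_cancel] at h3
  · rw [Finset.card_image_of_injOn]
    · exact (h p A B P V f hS).2.2.2.1 T hT
    · intro c hc c' hc' he
      refine hinj c hc c' hc' ?_
      have he' : pt R p i c = pt R p i c' := he
      rw [he', sub_self]
      exact (R.L i).lattice.zero_mem

end

end Pool.Agent.TWI
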