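import Pool.Agent.TWI.StI2
import Pool.Agent.TWT.MUG
import Pool.Agent.MUX.RQ0

/-!
# TWI, block B: module MUGI, the multipliers are units at `V`, `p` inert
-/

set_option autoImplicit false

open WeierstrassCurve Polynomial NumberField IsDedekindDomain

namespace Pool.Agent.TWI

open _root_.MU3 Pool.Agent.MU3A Pool.Agent.MU3B Pool.Agent.MU3C Pool.Agent.RI Pool.Agent.RID
open Pool.Agent.MUX Pool.Agent.MUXU Pool.Agent.MUXW Pool.Agent.TWT

open Pool.Agent.TWT.MUG in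
theorem t_MUGI (h : S_VPGI) : S_MUGI := by
  intro p A B P V f hS ι R hG i
  obtain ⟨-, -, -, hint, -, -, hlat⟩ := h p A B P V f hS
  have hGi := (hlat ι R hG i).1
  have hG0 := (hlat ι R hG R.i0).1
  have hom0 : R.om R.i0 ≠ 0 := (R.nl R.i0).om_ne
  have homi : R.om i ≠ 0 := (R.nl i).om_ne
  have hcop : (nI (R.b i)).Coprime (p * f) := R.cop i
  have hpn : ¬ p ∣ nI (R.b i) := fun hd => by
    have h2 : p ∣ Nat.gcd (nI (R.b i)) (p * f) := Nat.dvd_gcd hd (dvd_mul_right _ _)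
    rw [hcop] at h2
    exact hS.pp.one_lt.ne' (Nat.dvd_one.1 h2)
  have h2f : 2 ∣ f := by
    have h1 : (2 : ℤ) ∣ (f : ℤ) := (dvd_mul_right _ _).trans hS.fD
    exact_mod_cast h1
  have hodd : Odd (nI (R.b i)) := by
    rw [← Nat.not_even_iff_odd, even_iff_two_dvd]
    intro hd
    have h2 : 2 ∣ Nat.gcd (nI (R.b i)) (p * f) := Nat.dvd_gcd hd (h2f.mul_left _)
    rw [hcop] at h2
    omega
  have hvn : V.valuation ((nI (R.b i) : ℕ) : ℂ) = 1 := by
    have h1 := hint (nI (R.b i) : ℤ) (fun hd => hpn (by exact_mod_cast hd))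
    simpa using h1
  have hn0 : ((nI (R.b i) : ℕ) : ℂ) ≠ 0 := by
    intro h0
    rw [h0, map_zero] at hvn
    exact zero_ne_one hvn
  refine Pool.Agent.MUXV.x_MUN V (R.L R.i0) (R.L i) (1 / 12) (1 / 12) (muX R i) (nI (R.b i))
    hG0 hGi (div_ne_zero (mul_ne_zero homi hn0) hom0) ?_ hodd hvn ?_
  · intro w hw
    obtain ⟨x, -, rfl⟩ := ((R.nl R.i0).mem w).1 hw
    refine ((R.nl i).mem _).2 ⟨((nI (R.b i) : ℕ) : OO A B) * x,
      Ideal.mul_mem_right _ _ (nI_mem _), ?_⟩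
    rw [emb_nat_mul, muX]
    field_simp
  · intro z hz
    obtain ⟨x, -, hx⟩ := ((R.nl i).mem _).1 hz
    refine ((R.nl R.i0).mem _).2 ⟨x, by rw [R.b0]; trivial, ?_⟩
    rw [muX] at hx
    have h1 : R.om i * (((nI (R.b i) : ℕ) : ℂ) * z) = R.om i * (R.om R.i0 * emb x) := by
      field_simp at hx
      linear_combination R.om i * hx
    exact mul_left_cancel₀ homi h1

end Pool.Agent.TWI
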