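import Pool.Agent.TWI.StI2
import Pool.Agent.TWT.NRR
import Pool.Agent.TWT.HTF
import Pool.Agent.TWT.DTP

/-!
# TWI, module NRRI (helper85): the norm relation over `P = (p)`, `p` inert

Adaptation of `Pool/Agent/TWT/NRR.lean` (helper20).
-/

set_option autoImplicit false

open WeierstrassCurve Polynomial NumberField IsDedekindDomain

namespace Pool.Agent.TWI

open _root_.MU3 Pool.Agent.MU3A Pool.Agent.MU3B Pool.Agent.MU3C Pool.Agent.RI Pool.Agent.RID
open Pool.Agent.MUX Pool.Agent.MUXU Pool.Agent.MUXW Pool.Agent.TWT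
open Pool.Agent.MU3V (cls Sub GD algDF)
open Pool.Agent.MUXV (GR InK tX)
open Pool.Agent.MUXI (IA RE AR)
open OnePoint

noncomputable section

namespace NRRI

variable {A B : ℤ}

/-- multiplication by an element prime to `P` permutes the systems of representatives -/
lemma rep_mul {P : Ideal (OO A B)} (hP : P.IsPrime) {T : Finset (OO A B)} [DecidableEq (OO A B)]
    (hT : RepI P T) (b u v : OO A B) (hv : v ∈ P) (hbu : u * b + v = 1) :
    RepI P (T.image (fun c => b * c)) ∧ Set.InjOn (fun c => b * c) (T : Set (OO A B)) := by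
  have hbP : b ∉ P := fun h => hP.ne_top ((Ideal.eq_top_iff_one _).2 (by
    rw [← hbu]
    exact add_mem (Ideal.mul_mem_left _ _ h) hv))
  have huP : u ∉ P := fun h => hP.ne_top ((Ideal.eq_top_iff_one _).2 (by
    rw [← hbu]
    exact add_mem (Ideal.mul_mem_right _ _ h) hv))
  have hinj : ∀ x ∈ T, ∀ y ∈ T, b * x - b * y ∈ P → x = y := by
    intro x hx y hy h
    rw [← mul_sub] at h
    exact hT.inj x hx y hy ((hP.mem_or_mem h).resolve_left hbP)
  refine ⟨⟨?_, ?_, ?_⟩, ?_⟩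
  · intro x hx
    obtain ⟨c, hc, rfl⟩ := Finset.mem_image.1 hx
    exact fun h => (hP.mem_or_mem h).elim hbP (hT.nz c hc)
  · intro x hx y hy h
    obtain ⟨c, hc, rfl⟩ := Finset.mem_image.1 hx
    obtain ⟨d, hd, rfl⟩ := Finset.mem_image.1 hy
    rw [hinj c hc d hd h]
  · intro x hx
    obtain ⟨y, hy, hxy⟩ := hT.surj (u * x) (fun h => (hP.mem_or_mem h).elim huP hx)
    refine ⟨b * y, Finset.mem_image_of_mem _ hy, ?_⟩
    have h1 : x - b * y = b * (u * x - y) + v * x := by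
      linear_combination (-x) * hbu
    rw [h1]
    exact add_mem (Ideal.mul_mem_left _ _ hxy) (Ideal.mul_mem_right _ _ hv)
  · intro x hx y hy h
    apply hinj x hx y hy
    have h' : b * x = b * y := h
    rw [h', sub_self]
    exact zero_mem _

end NRRI

open Pool.Agent.TWT.NRR NRRI in
theorem t_NRRI (hIDP : S_IDPI) (hKRP : S_KRPI) : S_NRRI := by
  classical
  intro p A B P V f hG hT ι _ R m hm x0 hx0 hx0' Tr hTr a H ha hac hH θ hθ
  obtain ⟨-, -, -, d4, d5, d6, -⟩ := hIDP p A B P V f hG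
  obtain ⟨d51, -⟩ := d5 m hm.pm
  have hp5 := hG.p5
  have hm0 := hm.m0
  have hp0 : p ≠ 0 := by omega
  have hM3 : 3 ≤ m * p := by
    have h1 : 1 ≤ m := Nat.one_le_iff_ne_zero.2 hm0
    nlinarith
  have hM2 : 2 ≤ m * p := by omega
  have hM0 : m * p ≠ 0 := by omega
  have ha0 : a ≠ 0 := by omega
  have haM : a.Coprime (m * p) :=
    Nat.Coprime.coprime_dvd_right ⟨2, by ring⟩ hac
  have hap : a.Coprime (2 * p) :=
    Nat.Coprime.coprime_dvd_right ⟨m, by ring⟩ hac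
  have ha2 : a.Coprime 2 :=
    Nat.Coprime.coprime_dvd_right ⟨p, rfl⟩ hap
  obtain ⟨hmul, hez, hint, -, hdom⟩ := Pool.Agent.MUXF.xf_ALG A B (Pool.Agent.MUXY.cqF hG.cq)
  have := hdom
  have hem : ∀ x y : OO A B, emb (x * y) = emb x * emb y := fun x y => (hmul x y).1
  have hea : ∀ x y : OO A B, emb (x + y) = emb x + emb y := fun x y => (hmul x y).2.1
  have heN : ∀ k : ℕ, emb ((k : ℕ) : OO A B) = (k : ℂ) := fun k => by
    have := (hint (k : ℤ)).1
    rwa [Int.cast_natCast, Int.cast_natCast] at this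
  have hmC : (m : ℂ) ≠ 0 := by exact_mod_cast hm0
  have hpC : (p : ℂ) ≠ 0 := by exact_mod_cast hp0
  obtain ⟨f1, f2, -, -, f5, -⟩ := t_HTF A B hG.cq hT (p * f) ι R (m * p) hM3 hm.cop
  -- ideals
  have hbot : ∀ k : ℕ, k ≠ 0 → (idl (A := A) (B := B) k) ≠ ⊥ := by
    intro k hk h
    have h4 : ((k : ℕ) : OO A B) = 0 := by
      have : ((k : ℕ) : OO A B) ∈ (idl (A := A) (B := B) k) := Ideal.mem_span_singleton_self _
      rw [h] at this
      exact this
    have h5 := congrArg QuadraticAlgebra.re h4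
    simp at h5
    omega
  have hMb := hbot (m * p) hM0
  have hPprime := hG.hP
  have h1P : (1 : OO A B) ∉ P := fun h => hPprime.ne_top ((Ideal.eq_top_iff_one _).2 h)
  have hpP : ((p : ℕ) : OO A B) ∈ P := by
    rw [hG.eP]
    exact Ideal.mem_span_singleton_self _
  have hPb : P ≠ ⊥ := by
    rw [hG.eP]
    exact hbot p hp0
  have hMm : idl (A := A) (B := B) (m * p) ≤ idl m := by
    rw [Ideal.span_singleton_le_span_singleton]
    exact ⟨((p : ℕ) : OO A B), by push_cast; ring⟩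
  have hMprod : idl (A := A) (B := B) m * idl p = idl (m * p) := by
    rw [Ideal.span_singleton_mul_span_singleton]
    show Ideal.span {((m : ℕ) : OO A B) * ((p : ℕ) : OO A B)} =
      Ideal.span {((m * p : ℕ) : OO A B)}
    rw [Nat.cast_mul]
  have hf2 : 2 ≤ m := by
    have h1 : (2 : ℤ) ∣ (f : ℤ) := (Dvd.intro _ rfl).trans hG.fD
    have h2 : (2 : ℤ) ∣ (m : ℤ) := h1.trans (Int.natCast_dvd_natCast.2 hm.fm)
    have h3 : 2 ∣ m := by exact_mod_cast h2
    exact Nat.le_of_dvd (Nat.pos_of_ne_zero hm0) h3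
  have h1m : (1 : OO A B) ∉ idl (A := A) (B := B) m := by
    intro h
    obtain ⟨t, ht⟩ := Ideal.mem_span_singleton.1 h
    exact Pool.Agent.MUXI.Hit.not_unit m hf2 t ht
  have hx0m : x0 ∉ idl (A := A) (B := B) m := by
    intro h
    apply h1m
    have h2 := sub_mem h hx0'
    rwa [show x0 - (x0 - 1) = (1 : OO A B) by ring] at h2
  have hx0M : x0 ∉ idl (A := A) (B := B) (m * p) := fun h => hx0m (hMm h)
  have h1M : (1 : OO A B) ∉ idl (A := A) (B := B) (m * p) := fun h => h1m (hMm h)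
  have hcopM : ∀ x y : OO A B, IsCoprime x ((m * p : ℕ) : OO A B) →
      x * y ∈ idl (A := A) (B := B) (m * p) → y ∈ idl (A := A) (B := B) (m * p) := by
    intro x y hx hxy
    obtain ⟨t, ht⟩ := Ideal.mem_span_singleton.1 hxy
    exact Ideal.mem_span_singleton.2 (hx.symm.dvd_of_dvd_mul_left ⟨t, ht⟩)
  have hdd : ∀ c ∈ Tr, IsCoprime (x0 + c * (m : OO A B)) ((m * p : ℕ) : OO A B) ∧
      x0 + c * (m : OO A B) - 1 ∈ idl (A := A) (B := B) m := fun c hc =>
    d6 m x0 hm.m0 hm.pm hx0 hx0' c (hTr.nz c hc)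
  -- the automorphisms `γ c`
  have hγ : ∀ c : OO A B, ∃ g : GalF A B (m * p), c ∈ Tr →
      HitF R (m * p) _ g R.i0 (x0 + c * m) := by
    intro c
    by_cases hc : c ∈ Tr
    · obtain ⟨g, hg⟩ := f2 R.i0 (x0 + c * m) (hdd c hc).1
      exact ⟨g, fun _ => hg⟩
    · exact ⟨1, fun h1 => absurd h1 hc⟩
  choose γ hγ using hγ
  -- the automorphism `φ`
  have hex : ∃ (b : Ideal (OO A B)) (L : PeriodPair) (om : ℂ), IsNL b L om :=
    ⟨_, _, _, R.nl R.i0⟩
  obtain ⟨-, i2, -, -, -, -, -, -⟩ := j_IAF A B hG.cq hT hex _ (hbot m hm0)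
  obtain ⟨s₀, hs₀⟩ := i2 P hPb d51.symm
  obtain ⟨φ, hφ⟩ := Pool.Agent.MUXW.CXW.restr hT hMb hs₀.fix
  -- `θ''`
  obtain ⟨σ₁, hσ₁⟩ := f2 R.i0 1 isCoprime_one_left
  obtain ⟨hz'', -⟩ := f5 σ₁ R.i0 1 hσ₁ x0 hx0M a H H ha0 hH hH
  set θ'' : (RF (idl (m * p)) : IntermediateField (kk A B) ℂ) := ⟨_, hz''⟩ with hθ''
  have hθ''c : (θ'' : ℂ) = ThetaH (R.L R.i0) H (Pool.Agent.MUX.pt R (m * p) R.i0 x0) := rfl
  have hne : ∀ x : OO A B, x ∉ idl (A := A) (B := B) (m * p) →
      ThetaH (R.L R.i0) H (Pool.Agent.MUX.pt R (m * p) R.i0 x) ≠ 0 := fun x hx =>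
    theta_ne hG.cq R (m * p) hM0 hm.cop R.i0 a haM H hH x hx
  have hθ0 : θ ≠ 0 := by
    intro h
    apply hne 1 h1M
    rw [← hθ, h]
    rfl
  have hθ''0 : θ'' ≠ 0 := by
    intro h
    apply hne x0 hx0M
    rw [← hθ''c, h]
    rfl
  -- the lattice `L'`
  obtain ⟨b', L', om', mu, hnl', hact⟩ := hs₀.act _ _ _ (R.nl R.i0)
  have hcj : IsCj s₀ (R.L R.i0) L' := cj s₀ (R.nl R.i0).nrm hnl'.nrm hact.kap.symm
  obtain ⟨H', hH'⟩ := b_HAL L' a (by exact_mod_cast ha0) (fun w hw => by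
      have := nsmul_mem hw a
      rwa [nsmul_eq_mul] at this) (fun z h1 h2 => by
    obtain ⟨u, v, huv⟩ := Nat.isCoprime_iff_coprime.2 ha2
    have h3 : z = u * (a * z) + v * (2 * z) := by
      have h4 : ((u * (a : ℕ) + v * (2 : ℕ) : ℤ) : ℂ) = 1 := by
        rw [huv]; norm_num
      push_cast at h4
      linear_combination -z * h4
    rw [h3]
    have h5 := zsmul_mem h1 u
    have h6 := zsmul_mem h2 v
    rw [zsmul_eq_mul] at h5 h6
    exact add_mem h5 h6)
  have hker := fun (T' : Finset (OO A B)) (h : RepI P T') =>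
    hKRP p A B P V f hG ι R R.i0 L' mu hact.isq T' h
  obtain ⟨k1, k2, -, k4, k5⟩ := hker Tr hTr
  have hodd : Even (p ^ 2 - 1) := by
    rcases hG.pp.eq_two_or_odd' with h | h
    · omega
    · exact (Nat.even_sub (Nat.one_le_pow _ _ (by omega))).2 (by
        simp [Nat.even_pow, Nat.not_even_iff_odd.2 h])
  obtain ⟨C, hC0, hC⟩ := t_DTP (R.L R.i0) L' mu hact.isq.1 k1 _ k4 (by rw [k5]; exact hodd) p hp0
    k2 a H H' ha0 hap hH hH'
  set κ : (RF (idl (m * p)) : IntermediateField (kk A B) ℂ) :=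
    (∏ c ∈ Tr, γ c θ) * θ'' / φ θ'' with hκ
  have hφ0 : φ θ'' ≠ 0 := by
    intro h
    exact hθ''0 ((map_eq_zero φ).1 h)
  have hκ0 : κ ≠ 0 := by
    rw [hκ]
    refine div_ne_zero (mul_ne_zero (Finset.prod_ne_zero_iff.2 fun c _ => ?_) hθ''0) hφ0
    intro h
    exact hθ0 ((map_eq_zero (γ c)).1 h)
  have hcopa : ∀ c ∈ Tr, x0 + c * m ∉ idl (A := A) (B := B) (m * p) := by
    intro c hc h
    obtain ⟨t, ht⟩ := Ideal.mem_span_singleton.1 h
    obtain ⟨u, v, huv⟩ := (hdd c hc).1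
    refine Pool.Agent.MUXI.Hit.not_unit (A := A) (B := B) (m * p) hM2 (u * t + v) ?_
    rw [← huv, ht]
    ring
  -- the value of `σ κ`
  have key : ∀ σ : GalF A B (m * p), TrH σ →
      ((σ κ : (RF (idl (m * p)) : IntermediateField (kk A B) ℂ)) : ℂ) = C := by
    intro σ hσ
    obtain ⟨i, b, hb⟩ := f1 σ
    have hi : i = R.i0 := by
      obtain ⟨hbc, s, hs, hsv, hh⟩ := hb
      have hkT : kap (R.L R.i0) ∈ (RF (⊤ : Ideal (OO A B)) : IntermediateField (kk A B) ℂ) :=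
        IntermediateField.subset_adjoin _ _ ⟨_, _, _, R.nl R.i0, Or.inl rfl⟩
      have hkF : kap (R.L R.i0) ∈ (RF (idl (m * p)) : IntermediateField (kk A B) ℂ) :=
        hT.mono _ _ le_top hkT
      have h1 : s (kap (R.L R.i0)) = kap (R.L R.i0) := by
        have h2 := hsv ⟨_, hkF⟩
        rw [hσ ⟨_, hkF⟩ hkT] at h2
        exact h2
      have h2 : kap (R.L i) = kap (R.L R.i0) := by rw [hh.1, h1]
      obtain ⟨h3, h4⟩ := cj (RingEquiv.refl ℂ) (R.nl R.i0).nrm (R.nl i).nrm h2.symm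
      exact Pool.Agent.MUXY.y_UNJ A B hG.cq _ ι R i R.i0 h3 h4
    subst hi
    have hbc := hb.1
    have hbM : ∀ x : OO A B, x ∉ idl (A := A) (B := B) (m * p) →
        b * x ∉ idl (A := A) (B := B) (m * p) := fun x hx h => hx (hcopM b x hbc h)
    obtain ⟨hTb, hbinj⟩ : RepI P (Tr.image (fun c => b * c)) ∧
        Set.InjOn (fun c => b * c) (Tr : Set (OO A B)) := by
      obtain ⟨u, v, huv⟩ := hbc
      refine rep_mul hPprime hTr b u (v * ((m * p : ℕ) : OO A B)) ?_ huv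
      refine Ideal.mul_mem_left _ _ ?_
      rw [Nat.cast_mul]
      exact Ideal.mul_mem_left _ _ hpP
    obtain ⟨-, -, -, l4, l5⟩ := hker _ hTb
    set z := Pool.Agent.MUX.pt R (m * p) R.i0 (b * x0) with hz
    have hzL : z ∉ (R.L R.i0).lattice := fun h =>
      hbM x0 hx0M (Pool.Agent.MUXI.Hit.pt_mem hG.cq Pool.Agent.MUXF.xf_ALG R (m * p) hM0 R.i0
        (hm.cop _) _ h)
    -- the values
    have v1 : ((σ θ'' : (RF (idl (m * p)) : IntermediateField (kk A B) ℂ)) : ℂ) =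
        ThetaH (R.L R.i0) H z := by
      obtain ⟨h1, h2⟩ := f5 σ R.i0 b hb x0 hx0M a H H ha0 hH hH
      exact h2
    have v2 : ∀ c ∈ Tr,
        ((σ (γ c θ) : (RF (idl (m * p)) : IntermediateField (kk A B) ℂ)) : ℂ) =
          ThetaH (R.L R.i0) H (z + Pool.Agent.MUX.pt R p R.i0 (b * c)) := by
      intro c hc
      obtain ⟨h3, h4⟩ := f5 (γ c) R.i0 _ (hγ c hc) 1 h1M a H H ha0 hH hH
      obtain ⟨h5, h6⟩ := f5 σ R.i0 b hb _ (hcopa c hc) a H H ha0 hH hH
      have h7 : γ c θ = ⟨_, h5⟩ := by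
        apply Subtype.ext
        rw [show θ = ⟨_, h3⟩ from Subtype.ext hθ, h4, mul_one]
      rw [h7, h6]
      congr 1
      rw [hz]
      unfold Pool.Agent.MUX.pt
      rw [mul_add, hea, show b * (c * ((m : ℕ) : OO A B)) =
        ((m : ℕ) : OO A B) * (b * c) by ring, hem ((m : ℕ) : OO A B), heN]
      push_cast
      field_simp
    have hinj : Set.InjOn (Pool.Agent.MUX.pt R p R.i0)
        ((Tr.image (fun c => b * c) : Finset (OO A B)) : Set (OO A B)) :=
      Finset.card_image_iff.1 (by rw [l5, d4 _ hTb])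
    have v3 : ∏ c ∈ Tr,
        ((σ (γ c θ) : (RF (idl (m * p)) : IntermediateField (kk A B) ℂ)) : ℂ) =
        ∏ r ∈ Tr.image (Pool.Agent.MUX.pt R p R.i0), ThetaH (R.L R.i0) H (z + r) := by
      rw [← prod_rp l4 k4 (fun r => ThetaH (R.L R.i0) H (z + r)) (fun w v hv => by
        show ThetaH (R.L R.i0) H (z + (w + v)) = ThetaH (R.L R.i0) H (z + w)
        rw [← add_assoc]
        exact (b_TIN (R.L R.i0) a H H hH hH).2.2 _ _ hv), Finset.prod_image hinj,
        Finset.prod_image hbinj]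
      exact Finset.prod_congr rfl fun c hc => v2 c hc
    -- the action of `s₀`
    have hTor : Tor (idl (A := A) (B := B) m) (R.L R.i0) z := by
      intro y hy
      have h1 : y * x0 ∈ idl (A := A) (B := B) (m * p) := by
        rw [← hMprod]
        refine Ideal.mul_mem_mul hy ?_
        rw [← hG.eP]
        exact hx0
      obtain ⟨t, ht⟩ := Ideal.mem_span_singleton.1 h1
      have hI := (R.nl R.i0).mem
      refine (hI _).2 ⟨((nI (R.b R.i0) : ℕ) : OO A B) * (b * t), by rw [R.b0]; trivial, ?_⟩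
      rw [hz]
      unfold Pool.Agent.MUX.pt
      have h2 : emb y * emb (b * x0) = emb ((m * p : ℕ) : OO A B) * emb (b * t) := by
        rw [← hem, ← hem]
        congr 1
        linear_combination b * ht
      rw [heN] at h2
      rw [hem ((nI (R.b R.i0) : ℕ) : OO A B), heN]
      have hMC : ((m * p : ℕ) : ℂ) ≠ 0 := by exact_mod_cast hM0
      rw [show emb y * (R.om R.i0 * (nI (R.b R.i0) : ℂ) * emb (b * x0) / ((m * p : ℕ) : ℂ)) =
        R.om R.i0 * (nI (R.b R.i0) : ℂ) * (emb y * emb (b * x0)) / ((m * p : ℕ) : ℂ) by ring, h2]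
      field_simp
    obtain ⟨w1, w2, -⟩ : mu * z ∉ L'.lattice ∧ s₀ (xn (R.L R.i0) z) = xn L' (mu * z) ∧ True := by
      rcases hact.act z hTor with ⟨h1, -⟩ | ⟨-, h2, h3, -⟩
      · exact absurd h1 hzL
      · exact ⟨h2, h3, trivial⟩
    have v4 : s₀ (ThetaH (R.L R.i0) H z) = ThetaH L' H' (mu * z) :=
      y_THC s₀ (R.L R.i0) L' hcj (a : ℤ) H H' (by exact_mod_cast ha0)
        (by rw [Int.cast_natCast]; exact hH) (by rw [Int.cast_natCast]; exact hH') z (mu * z) hzL w1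
        (wp s₀ _ _ _ _ w2)
    have v5 : ((σ (φ θ'') : (RF (idl (m * p)) : IntermediateField (kk A B) ℂ)) : ℂ) =
        ThetaH L' H' (mu * z) := by
      have h1 : σ (φ θ'') = φ (σ θ'') := by
        have := hT.comm _ hMb σ φ
        exact congrArg (fun g : GalF A B (m * p) => g θ'') this
      rw [h1, hφ, v1, v4]
    have v6 : ThetaH L' H' (mu * z) ≠ 0 := by
      rw [← v5]
      intro h
      have h2 : σ (φ θ'') = 0 := Subtype.ext h
      exact hφ0 ((map_eq_zero σ).1 h2)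
    have v7 := hC z w1
    have hcoe : ((σ κ : (RF (idl (m * p)) : IntermediateField (kk A B) ℂ)) : ℂ) =
        (∏ c ∈ Tr,
          ((σ (γ c θ) : (RF (idl (m * p)) : IntermediateField (kk A B) ℂ)) : ℂ)) *
          ((σ θ'' : (RF (idl (m * p)) : IntermediateField (kk A B) ℂ)) : ℂ) /
          ((σ (φ θ'') : (RF (idl (m * p)) : IntermediateField (kk A B) ℂ)) : ℂ) := by
      let ρ : (RF (idl (m * p)) : IntermediateField (kk A B) ℂ) →ₐ[kk A B] ℂ :=
        (RF (idl (m * p)) : IntermediateField (kk A B) ℂ).val.comp σ.toAlgHom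
      show ρ κ = _
      rw [hκ, map_div₀, map_mul, map_prod]
      rfl
    rw [hcoe, v3, v1, v5, mul_comm, v7, mul_div_assoc, div_self v6, mul_one]
  have hκT := mem_top hT hMb κ (fun σ hσ => by
    apply Subtype.ext
    rw [key σ hσ, ← key 1 (fun x _ => rfl)]
    rfl)
  refine ⟨θ'', κ, γ, φ, s₀, rfl, hθ0, hθ''0, hκ0, hκT, fun c hc => hγ c hc, ?_, ?_,
    hs₀, fun y => (hφ y).symm⟩
  · intro c hc y hy
    obtain ⟨hxc, s, hs, hsv, hh⟩ := hγ c hc
    have hIA := (j_HIT A B hG.cq hT _ ι R (m * p) hM2 hm.cop s hs R.i0 _ hxc).1 hh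
    obtain ⟨-, -, -, -, -, -, j7, -⟩ := j_IAF A B hG.cq hT hex _ hMb
    obtain ⟨-, -, -, -, -, j6, -, -⟩ := j_IAF A B hG.cq hT hex _ (hbot m hm0)
    have h3 := j7 s _ (idl m) hMm hIA
    have h4 := (j6 s _ h3).2 ⟨x0 + c * m, (hdd c hc).2, by
      rw [R.b0]
      have : cjI (⊤ : Ideal (OO A B)) = ⊤ := Ideal.comap_top
      rw [this, Ideal.mul_top]⟩ y hy
    apply Subtype.ext
    rw [← hsv, h4]
  · rw [hκ, div_mul_cancel₀ _ hφ0]

end

end Pool.Agent.TWI
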