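import Pool.Agent.TWI.StI2
import Pool.Agent.TWT.SDE

/-!
# TWI_SDEI: from the logarithmic derivatives to `ee`, `p` inert
-/

set_option autoImplicit false

open WeierstrassCurve Polynomial NumberField IsDedekindDomain

namespace Pool.Agent.TWI

open _root_.MU3 Pool.Agent.MU3A Pool.Agent.MU3B Pool.Agent.MU3C Pool.Agent.RI Pool.Agent.RID
open Pool.Agent.MUX Pool.Agent.MUXU Pool.Agent.MUXW Pool.Agent.TWT
open Pool.Agent.MU3V (cls Sub GD algDF)
open Pool.Agent.MUXV (GR InK tX)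
open Pool.Agent.MUXI (IA RE AR)

noncomputable section

open Pool.Agent.TWT.SDE in
theorem t_SDEI (h1 : S_IDPI) : S_SDEI := by
  intro p A B P V f hS ι _ R w hw kp eta hC l N hl hlf ψ a ha1 hac hunit
  obtain ⟨id2, -⟩ := h1 p A B P V f hS
  have hcq := hS.cq
  set M : ℕ := f * l ^ N * p with hM
  have hM0 : M ≠ 0 := mul_ne_zero (mul_ne_zero hS.f0 (pow_ne_zero _ hl.ne_zero)) hS.pp.ne_zero
  -- coprimality
  have haf : a.Coprime f := Nat.Coprime.coprime_dvd_right ⟨6 * p, by ring⟩ hac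
  have hap : a.Coprime p := Nat.Coprime.coprime_dvd_right ⟨6 * f, by ring⟩ hac
  have hal : a.Coprime l := Nat.Coprime.coprime_dvd_right hlf haf
  have haM : a.Coprime M := by
    rw [hM]
    exact Nat.Coprime.mul_right (Nat.Coprime.mul_right haf (Nat.Coprime.pow_right _ hal)) hap
  have hcO : ∀ b : ℕ, a.Coprime b → IsCoprime ((a : ℕ) : OO A B) ((b : ℕ) : OO A B) := by
    intro b hb
    have h5 := (Nat.isCoprime_iff_coprime.2 hb).map (Int.castRingHom (OO A B))
    simpa using h5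
  have haP : ((a : ℕ) : OO A B) ∉ P := by
    intro h
    have h3 := (id2 (a : ℤ)).1 (by simpa using h)
    have h4 : p ∣ a := by exact_mod_cast h3
    have h5 : p ∣ 1 := by
      rw [← hap.gcd_eq_one]
      exact Nat.dvd_gcd h4 dvd_rfl
    exact hS.pp.one_lt.ne' (Nat.dvd_one.1 h5)
  have hwa : w (a : OO A B) ≠ 0 := fun h => haP ((hw.zero _).1 h)
  have hpP : ((p : ℕ) : OO A B) ∈ P := by
    have h := (id2 (p : ℤ)).2 dvd_rfl
    simpa using h
  have hpM : ((M : ℕ) : OO A B) ∈ P := by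
    rw [hM, Nat.cast_mul]
    exact P.mul_mem_left _ hpP
  have hMP : ∀ x : OO A B, x ∈ idl (A := A) (B := B) M → x ∈ P := by
    intro x hx
    obtain ⟨t, rfl⟩ := Ideal.mem_span_singleton.1 hx
    exact P.mul_mem_right _ hpM
  have hMf : ∀ x : OO A B, x ∈ idl (A := A) (B := B) M → x ∈ idl (A := A) (B := B) f := by
    intro x hx
    obtain ⟨t, rfl⟩ := Ideal.mem_span_singleton.1 hx
    rw [Ideal.mem_span_singleton]
    refine Dvd.dvd.mul_right ?_ _
    exact Nat.cast_dvd_cast ⟨l ^ N * p, by rw [hM]; ring⟩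
  have hMl : ∀ x : OO A B, x ∈ idl (A := A) (B := B) M → x ∈ idl (A := A) (B := B) (l ^ N) := by
    intro x hx
    obtain ⟨t, rfl⟩ := Ideal.mem_span_singleton.1 hx
    rw [Ideal.mem_span_singleton]
    refine Dvd.dvd.mul_right ?_ _
    exact Nat.cast_dvd_cast ⟨f * p, by rw [hM]; ring⟩
  -- the character
  have hth : ∀ (i : ι) (x : OO A B), thT R kp eta ψ i ((a : OO A B) * x) =
      thT R kp eta ψ R.i0 (a : OO A B) * thT R kp eta ψ i x := by
    intro i x
    unfold thT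
    rw [hC.mul, hC.kp0, R.b0, nI_top, nm_nat_mul, nm_nat]
    have e1 : (((a : ℤ) ^ 2 * nm x * (nI (R.b i) : ℤ) : ℤ) : ZMod (l ^ N)) =
        (((a : ℤ) ^ 2 * ((1 : ℕ) : ℤ) : ℤ) : ZMod (l ^ N)) *
          ((nm x * (nI (R.b i) : ℤ) : ℤ) : ZMod (l ^ N)) := by
      push_cast
      ring
    rw [e1, map_mul]
    ring
  have hth_per : ∀ (i : ι) (x y : OO A B), x - y ∈ idl (A := A) (B := B) M →
      thT R kp eta ψ i x = thT R kp eta ψ i y := by
    intro i x y hxy
    unfold thT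
    rw [hC.per x y (hMf _ hxy)]
    have h3 := nm_per (l ^ N) (hMl _ hxy)
    have h4 : ((nm x * (nI (R.b i) : ℤ) : ℤ) : ZMod (l ^ N)) =
        ((nm y * (nI (R.b i) : ℤ) : ℤ) : ZMod (l ^ N)) := by
      rw [← sub_eq_zero, ← Int.cast_sub, ZMod.intCast_zmod_eq_zero_iff_dvd, ← sub_mul]
      exact h3.mul_right _
    rw [h4]
  set c0 : ℂ := thT R kp eta ψ R.i0 (a : OO A B) with hc0
  -- `c0` has valuation one
  have hv0 : V.valuation c0 = 1 := by
    rw [hc0]
    unfold thT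
    rw [hC.kp0, one_mul, map_mul]
    obtain ⟨r, hr, -, hr2⟩ := hC.fin
    have hr0 : r ≠ 0 := fun h => hr (h ▸ dvd_zero p)
    have he : eta (a : OO A B) ≠ 0 := by
      rw [hC.supp, Ideal.isCoprime_span_singleton_iff]
      exact hcO f haf
    rw [val_root V hr0 (hr2 _ he), one_mul, R.b0, nI_top, nm_nat]
    have hu : IsUnit ((((a : ℤ) ^ 2 * ((1 : ℕ) : ℤ) : ℤ)) : ZMod (l ^ N)) := by
      have h5 : ((((a : ℤ) ^ 2 * ((1 : ℕ) : ℤ) : ℤ)) : ZMod (l ^ N)) =
          ((a : ℕ) : ZMod (l ^ N)) ^ 2 := by push_cast; ring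
      rw [h5]
      exact ((ZMod.isUnit_iff_coprime a (l ^ N)).2 (Nat.Coprime.pow_right _ hal)).pow 2
    obtain ⟨u, hu⟩ := hu
    rw [← hu]
    have : NeZero (l ^ N) := ⟨pow_ne_zero _ hl.ne_zero⟩
    refine val_root V (r := Fintype.card (ZMod (l ^ N))ˣ) Fintype.card_ne_zero ?_
    rw [← map_pow, ← Units.val_pow_eq_pow_val, pow_card_eq_one, Units.val_one, map_one]
  have hc00 : c0 ≠ 0 := by
    intro h
    rw [h, map_zero] at hv0
    exact zero_ne_one hv0
  -- valuation of `w a`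
  have hvw : V.valuation (w (a : OO A B)) = 1 :=
    val_root V (Nat.sub_ne_zero_of_lt (Nat.one_lt_pow two_ne_zero hS.pp.one_lt)) (hw.root _ haP)
  have hint : V.valuation ((a : ℂ) - w (a : OO A B)) < 1 := by
    have h3 := hw.red (a : OO A B)
    rw [Valuation.map_sub_swap]
    simpa [emb] using h3
  have hq : V.valuation ((a : ℂ) / w (a : OO A B) - 1) < 1 := by
    rw [show (a : ℂ) / w (a : OO A B) - 1 = ((a : ℂ) - w (a : OO A B)) / w (a : OO A B) by
      field_simp, map_div₀, hvw, div_one]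
    exact hint
  -- the sums
  have hfin := finR (A := A) (B := B) M hM0
  have key : ∀ i : ι, sumMod ((M : ℕ) : OO A B) (fun x =>
      thT R kp eta ψ i x * w x * dlX (R.L i) a (pt R M i x)) =
      ((a : ℂ) * (c0 * w (a : OO A B))⁻¹ - (a : ℂ) ^ 2) * sumMod ((M : ℕ) : OO A B) (fun x =>
      thT R kp eta ψ i x * w x * ee (R.L i) (pt R M i x)) := by
    intro i
    obtain ⟨ptp1, ptp2⟩ := Pool.Agent.MUXI.ti_PTP A B hcq (p * f) ι R M hM0 i
    set G : OO A B → ℂ := fun x =>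
      thT R kp eta ψ i x * w x * ee (R.L i) (pt R M i x) with hG
    have hGp : ∀ x y, x - y ∈ Ideal.span {((M : ℕ) : OO A B)} → G x = G y := by
      intro x y hxy
      simp only [hG]
      rw [hth_per i x y hxy, hw.per x y (hMP _ hxy), (ptp1 x y hxy).2.1]
    have e1 := sumMod_mul (hcO M haM) hGp
    have e2 : sumMod ((M : ℕ) : OO A B) (fun x =>
        thT R kp eta ψ i x * w x * dlX (R.L i) a (pt R M i x)) =
        (a : ℂ) * (c0 * w (a : OO A B))⁻¹ *
          sumMod ((M : ℕ) : OO A B) (fun x => G (((a : ℕ) : OO A B) * x)) -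
        (a : ℂ) ^ 2 * sumMod ((M : ℕ) : OO A B) G := by
      rw [← sumMod_cmul, ← sumMod_cmul, ← sumMod_sub hfin]
      congr 1
      funext x
      simp only [hG]
      rw [hth, hw.mul, ← ptp2]
      unfold dlX
      field_simp
    rw [e2, e1]
    ring
  have hSDT : SDTI R M a (thT R kp eta ψ) w =
      ((a : ℂ) * (c0 * w (a : OO A B))⁻¹ - (a : ℂ) ^ 2) * SSTI R M (thT R kp eta ψ) w := by
    unfold SDTI SSTI
    rw [Finset.mul_sum]
    refine Finset.sum_congr rfl fun i _ => ?_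
    rw [key i]
    ring
  have hfac : (a : ℂ) * (c0 * w (a : OO A B))⁻¹ - (a : ℂ) ^ 2 =
      c0⁻¹ * (((a : ℂ) / w (a : OO A B) - 1) + (1 - (a : ℂ) ^ 2 * c0)) := by
    field_simp
    ring
  have hvf : V.valuation ((a : ℂ) * (c0 * w (a : OO A B))⁻¹ - (a : ℂ) ^ 2) = 1 := by
    rw [hfac, map_mul, map_inv₀, hv0, inv_one, one_mul, Valuation.map_add_eq_of_lt_right]
    · exact hunit
    · rw [hunit]
      exact hq
  rw [hSDT, map_mul, hvf, one_mul]

end

end Pool.Agent.TWI
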