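import Pool.Agent.TWI.StI2
import Pool.Agent.TWT.SIG

/-!
# TWI, block B, module SIGI: the sum over the Galois group in terms of `SDTI`
-/

set_option autoImplicit false

open WeierstrassCurve Polynomial NumberField IsDedekindDomain

namespace Pool.Agent.TWI

open _root_.MU3 Pool.Agent.MU3A Pool.Agent.MU3B Pool.Agent.MU3C Pool.Agent.RI Pool.Agent.RID
open Pool.Agent.MUX Pool.Agent.MUXU Pool.Agent.MUXW Pool.Agent.TWT
open Pool.Agent.MU3V (cls Sub GD algDF)
open Pool.Agent.MUXV (GR InK tX)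
open Pool.Agent.MUXI (IA RE AR)
open OnePoint

noncomputable section

namespace SIGI

variable {A B : ℤ}

lemma emb_neg_one : emb (-1 : OO A B) = -1 := by
  rw [Pool.Agent.TWT.SIG.emb_neg']
  simp only [emb, QuadraticAlgebra.re_one, QuadraticAlgebra.im_one]
  push_cast
  ring

lemma w_neg_one {p : ℕ} {P : Ideal (OO A B)} {V : ValuationSubring ℂ} {w : OO A B → ℂ}
    (hw : TeiI p P V w) (h2 : V.valuation (2 : ℂ) = 1) : w (-1) = -1 := by
  have h1 : w (-1) * w (-1) = 1 := by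
    rw [← hw.mul, neg_mul_neg, one_mul, hw.one]
  have h3 : (w (-1) - 1) * (w (-1) + 1) = 0 := by linear_combination h1
  rcases mul_eq_zero.1 h3 with h | h
  · exfalso
    have h4 := hw.red (-1)
    have h6 : w (-1) = 1 := by linear_combination h
    rw [h6, emb_neg_one] at h4
    have h7 : (1 : ℂ) - (-1) = 2 := by ring
    rw [h7, h2] at h4
    exact lt_irrefl _ h4
  · linear_combination h

lemma w_neg {p : ℕ} {P : Ideal (OO A B)} {V : ValuationSubring ℂ} {w : OO A B → ℂ}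
    (hw : TeiI p P V w) (h2 : V.valuation (2 : ℂ) = 1) (x : OO A B) : w (-x) = -w x := by
  rw [← neg_one_mul, hw.mul, w_neg_one hw h2, neg_one_mul]

end SIGI

open SIGI in
theorem t_SIGI (h1 : S_IDPI) (h2 : S_VPGI) (h4 : S_CNTI) : S_SIGI := by
  intro p A B P V f hS hT ι _ R w hw kp eta hC l N hl hlf ψ hψ x0 hx0 hx1 T hTr a ha1 hacop _ I X
    hhit
  obtain ⟨-, -, -, id4, -, id6, id7⟩ := h1 p A B P V f hS
  obtain ⟨-, -, -, -, vp5, -, -⟩ := h2 p A B P V f hS
  have hp0 : p ≠ 0 := hS.pp.ne_zero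
  have hl0 : l ^ N ≠ 0 := pow_ne_zero _ hl.ne_zero
  have hm0 : f * l ^ N ≠ 0 := mul_ne_zero hS.f0 hl0
  have hM0 : f * l ^ N * p ≠ 0 := mul_ne_zero hm0 hp0
  have hM3 : 3 ≤ f * l ^ N * p := by
    have h5 := hS.p5
    have h6 : 1 * p ≤ f * l ^ N * p := Nat.mul_le_mul_right _ (Nat.one_le_iff_ne_zero.2 hm0)
    omega
  have hpl : ¬ p ∣ l := fun h => hS.fp (h.trans hlf)
  have hpm : ¬ p ∣ f * l ^ N := by
    intro h
    rcases (Nat.Prime.dvd_mul hS.pp).1 h with h | h
    · exact hS.fp h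
    · exact hpl (hS.pp.dvd_of_dvd_pow h)
  have hcopi : ∀ i, (nI (R.b i)).Coprime (f * l ^ N * p) := by
    intro i
    have h5 := R.cop i
    have h6 : (nI (R.b i)).Coprime p := Nat.Coprime.coprime_mul_right_right h5
    have h7 : (nI (R.b i)).Coprime f := Nat.Coprime.coprime_mul_left_right h5
    have h8 : (nI (R.b i)).Coprime l := Nat.Coprime.coprime_dvd_right hlf h7
    exact Nat.Coprime.mul_right (Nat.Coprime.mul_right h7 (Nat.Coprime.pow_right _ h8)) h6
  have hpP : ((p : ℕ) : OO A B) ∈ P := by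
    rw [hS.eP]
    exact Ideal.mem_span_singleton_self _
  have hMP : idl (A := A) (B := B) (f * l ^ N * p) ≤ P := by
    rw [Ideal.span_singleton_le_iff_mem, Nat.cast_mul]
    exact Ideal.mul_mem_left _ _ hpP
  -- the function
  let G : ι → OO A B → ℂ := fun i x => muX R i *
    (thT R kp eta ψ i x * w x * dlX (R.L i) a (pt R (f * l ^ N * p) i x))
  have hsdt : ∑ i, sumMod ((f * l ^ N * p : ℕ) : OO A B) (G i) =
      SDTI R (f * l ^ N * p) a (thT R kp eta ψ) w := by
    unfold SDTI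
    refine Finset.sum_congr rfl fun i _ => ?_
    exact Pool.Agent.MUXI.TSH.sumMod_cmul _ _
  have hcnt : ∀ c ∈ T, 2 * ∑ σ : GalF A B (f * l ^ N * p),
      G (I σ) (X σ * (x0 + c * (f * l ^ N : ℕ))) =
      SDTI R (f * l ^ N * p) a (thT R kp eta ψ) w := by
    intro c hc
    rw [← hsdt]
    refine h4 A B hS.cq hT (p * f) ι R (f * l ^ N * p) hM3 hcopi G ?_ ?_ ?_
      (x0 + c * (f * l ^ N : ℕ)) (id6 (f * l ^ N) x0 hm0 hpm hx0 hx1 c (hTr.nz c hc)).1 I X hhit
    · intro i x y hxy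
      have e1 := Pool.Agent.TWT.SIG.th_per hC ψ (m := f * l ^ N * p) (by
        rw [mul_assoc]; exact dvd_mul_right _ _) (by
        rw [mul_comm f, mul_assoc]; exact dvd_mul_right _ _) i hxy
      have e3 := hw.per x y (hMP hxy)
      have e4 := ((j_PTP A B hS.cq (p * f) ι R (f * l ^ N * p) hM0 i).1 x y hxy).2.2 a
      simp only [G]
      rw [e1, e3, e4]
    · intro i x
      simp only [G]
      rw [Pool.Agent.TWT.SIG.th_neg hC, w_neg hw vp5, Pool.Agent.TWT.SIG.pt_neg,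
        Pool.Agent.TWT.SIG.dlX_neg]
      ring
    · intro i x hx
      simp only [G]
      by_cases he : eta x = 0
      · unfold thT
        rw [he]
        ring
      by_cases hxP : x ∈ P
      · rw [(hw.zero x).2 hxP]
        ring
      exact absurd (id7 l N hlf x ((hC.supp x).1 he) hxP) hx
  -- the values of `G`
  have hG' : ∀ σ : GalF A B (f * l ^ N * p), ∀ c ∈ T,
      G (I σ) (X σ * (x0 + c * (f * l ^ N : ℕ))) =
        thT R kp eta ψ (I σ) (X σ) * (muX R (I σ) * (w (X σ * (x0 + c * (f * l ^ N : ℕ))) *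
          dlX (R.L (I σ)) a (pt R (f * l ^ N * p) (I σ)
            (X σ * (x0 + c * (f * l ^ N : ℕ)))))) := by
    intro σ c hc
    have e1 : thT R kp eta ψ (I σ) (X σ * (x0 + c * (f * l ^ N : ℕ))) =
        thT R kp eta ψ (I σ) (X σ) := by
      refine Pool.Agent.TWT.SIG.th_per hC ψ (m := f * l ^ N) (dvd_mul_right _ _)
        (dvd_mul_left _ _) _ ?_
      have h5 : X σ * (x0 + c * (f * l ^ N : ℕ)) - X σ =
          X σ * (x0 + c * (f * l ^ N : ℕ) - 1) := by ring
      rw [h5]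
      exact Ideal.mul_mem_left _ _ (id6 (f * l ^ N) x0 hm0 hpm hx0 hx1 c (hTr.nz c hc)).2
    simp only [G]
    rw [e1]
    ring
  have hcard : ((T.card : ℕ) : ℂ) = (p : ℂ) ^ 2 - 1 := by
    rw [id4 T hTr, Nat.cast_sub (Nat.one_le_iff_ne_zero.2 (pow_ne_zero _ hp0))]
    push_cast
    ring
  have hsum : ∑ c ∈ T, 2 * ∑ σ : GalF A B (f * l ^ N * p),
      G (I σ) (X σ * (x0 + c * (f * l ^ N : ℕ))) =
      ((p : ℂ) ^ 2 - 1) * SDTI R (f * l ^ N * p) a (thT R kp eta ψ) w := by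
    rw [Finset.sum_congr rfl hcnt, Finset.sum_const, nsmul_eq_mul, hcard]
  rw [← hsum, ← Finset.mul_sum, Finset.sum_comm]
  congr 1
  refine Finset.sum_congr rfl fun σ _ => ?_
  rw [Finset.sum_congr rfl fun c hc => hG' σ c hc, ← Finset.mul_sum, ← Finset.mul_sum]

end

end Pool.Agent.TWI
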