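import Pool.Agent.TWI.StI2
import Pool.Agent.TWT.XPC

/-!
# TWI, block B, XPCI (after helper33's `TWT/XPC.lean`): the conjugates of `∏ γ_c θ / θ''^(q-1)` to the first order
-/

set_option autoImplicit false

open Finset

namespace Pool.Agent.TWI

open _root_.MU3 Pool.Agent.MU3A Pool.Agent.MU3B Pool.Agent.MUX Pool.Agent.MUXU Pool.Agent.MUXW
open Pool.Agent.TWT
open Pool.Agent.MUXV (GR InK tX inK_nat)

noncomputable section

namespace XPCI

open Pool.Agent.TWT.XPC

theorem three_le {p : ℕ} {A B : ℤ} {P : Ideal (OO A B)} {V : ValuationSubring ℂ} {f m : ℕ}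
    (hS : SetI p A B P V f) (hm : m ≠ 0) (hfm : f ∣ m) : 3 ≤ m := by
  have h0 : 0 < absD A B := absD_pos hS.cq
  have h1 : (2 * absD A B) ∣ (m : ℤ) := hS.fD.trans (by exact_mod_cast hfm)
  have h2 : absD A B ≠ 1 := by
    intro h
    unfold absD at h
    have h3 : B * B + 4 * A = -1 := by linarith
    have h4 : B * B % 4 = 0 ∨ B * B % 4 = 1 := by
      rcases Int.even_or_odd' B with ⟨k, hk | hk⟩ <;> subst hk <;> ring_nf <;> omega
    omega
  have h5 : 2 * absD A B ≤ m := Int.le_of_dvd (by exact_mod_cast Nat.pos_of_ne_zero hm) h1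
  omega

/-- the points are not in the kernel of reduction -/
theorem not_inEn (hVPG : S_VPGI) {p : ℕ} {A B : ℤ} {P : Ideal (OO A B)} {V : ValuationSubring ℂ}
    {f : ℕ} (hS : SetI p A B P V f) {ι : Type} {R : Reps A B (p * f) ι} (hG : GRd V R) {m : ℕ}
    (hm : LvM p f m R) {i : ι} {y : OO A B} (hy : IsCoprime y ((m : ℕ) : OO A B)) {k : ℕ}
    (hk : ¬ m ∣ k) : ¬ InEn V (R.L i) (k * pt R (m * p) i y) := by
  intro h
  have hcq := hS.cq
  obtain ⟨⟨W, ξ, hW⟩, hV⟩ := (hVPG p A B P V f hS).2.2.2.2.2.2 ι R hG i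
  have h1 : InEn V (R.L i) ((p : ℕ) * (k * pt R (m * p) i y)) := inK_nat hW h p
  have hp0 : (p : ℂ) ≠ 0 := by exact_mod_cast hS.pp.ne_zero
  have hm0 : (m : ℂ) ≠ 0 := by exact_mod_cast hm.m0
  have h2 : ((p : ℕ) : ℂ) * (k * pt R (m * p) i y) = R.om i * nI (R.b i) * (k * emb y) / m := by
    unfold pt
    push_cast
    field_simp
  rw [h2] at h1
  have hL := (R.nl i).toIsLI
  have h3 : (m : ℂ) * (R.om i * nI (R.b i) * (k * emb y) / m) ∈ (R.L i).lattice := by
    refine (hL.mem _).2 ⟨((nI (R.b i) : ℕ) : OO A B) * (((k : ℕ) : OO A B) * y),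
      Ideal.mul_mem_right _ _ (nI_mem hcq hL.b_ne), ?_⟩
    rw [emb_mul hcq, emb_mul hcq, emb_natCast hcq, emb_natCast hcq]
    field_simp
  have h4 := hV m _ hm.pm h3 h1
  obtain ⟨b, _, hb⟩ := (hL.mem _).1 h4
  rw [div_eq_iff hm0, mul_assoc, mul_assoc] at hb
  have h5 := mul_left_cancel₀ hL.om_ne hb
  have h6 : ((nI (R.b i) : ℕ) : OO A B) * (((k : ℕ) : OO A B) * y) = b * ((m : ℕ) : OO A B) := by
    apply emb_inj hcq
    rw [emb_mul hcq, emb_mul hcq, emb_natCast hcq, emb_natCast hcq, emb_mul hcq, emb_natCast hcq]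
    exact h5
  have h7 : ((m : ℕ) : OO A B) ∣ ((nI (R.b i) : ℕ) : OO A B) * (((k : ℕ) : OO A B) * y) :=
    ⟨b, by rw [h6, mul_comm]⟩
  have h8 : IsCoprime ((m : ℕ) : OO A B) ((nI (R.b i) : ℕ) : OO A B) := by
    have h9 : (nI (R.b i)).Coprime m := Nat.Coprime.coprime_mul_right_right (hm.cop i)
    have h10 := (Nat.isCoprime_iff_coprime.2 h9).symm
    have h11 := h10.map (Int.castRingHom (OO A B))
    simpa using h11
  have h12 := h8.dvd_of_dvd_mul_left h7
  have h13 : ((m : ℕ) : OO A B) ∣ ((k : ℕ) : OO A B) := hy.symm.dvd_of_dvd_mul_right h12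
  exact hk (nat_idl (A := A) (B := B) (Ideal.mem_span_singleton.2 h13))

theorem x0_cop {A B : ℤ} {m : ℕ} {x0 : OO A B}
    (h2 : x0 - 1 ∈ (idl m : Ideal (OO A B))) : IsCoprime x0 ((m : ℕ) : OO A B) := by
  obtain ⟨u, hu⟩ := Ideal.mem_span_singleton.1 h2
  refine ⟨1, -u, ?_⟩
  rw [one_mul, neg_mul, mul_comm u, ← hu, ← sub_eq_add_neg, sub_sub_cancel]

/-- the image of the quotient under an automorphism of a field `F` -/
theorem field_part {A B : ℤ} {F : IntermediateField (kk A B) ℂ} (σ : F ≃ₐ[kk A B] F)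
    (γ : OO A B → (F ≃ₐ[kk A B] F)) (θ θ'' : F) (t : OO A B → ℂ) (D : ℂ) (T : Finset (OO A B))
    (e : ℕ) (h1 : ∀ c ∈ T, ((σ (γ c θ) : F) : ℂ) = t c) (h2 : ((σ θ'' : F) : ℂ) = D) :
    ((σ ((∏ c ∈ T, γ c θ) / θ'' ^ e) : F) : ℂ) = (∏ c ∈ T, t c) / D ^ e := by
  have e0 : ((σ ((∏ c ∈ T, γ c θ) / θ'' ^ e) : F) : ℂ) =
      (F.val.comp σ.toAlgHom) ((∏ c ∈ T, γ c θ) / θ'' ^ e) := rfl
  rw [e0, map_div₀, map_prod, map_pow]
  congr 1
  · exact prod_congr rfl fun c hc => h1 c hc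
  · rw [← h2]
    rfl

/-- the valuation of a root of unity -/
theorem val_root {V : ValuationSubring ℂ} {z : ℂ} {n : ℕ} (hn : n ≠ 0) (h : z ^ n = 1) :
    V.valuation z = 1 := by
  have h1 : V.valuation z ^ n = 1 := by rw [← map_pow, h, map_one]
  rcases lt_trichotomy (V.valuation z) 1 with h2 | h2 | h2
  · exact absurd h1 (pow_lt_one' h2 hn).ne
  · exact h2
  · exact absurd h1 (one_lt_pow' h2 hn).ne'

/-- multiplication of the representatives by `x` -/
theorem rep_mul {A B : ℤ} {P : Ideal (OO A B)} [DecidableEq (OO A B)] (hPp : P.IsPrime)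
    {T : Finset (OO A B)} (hT : RepI P T) {x u : OO A B} (hx : x ∉ P) (hu : x * u - 1 ∈ P) :
    RepI P (T.image (fun c => x * c)) := by
  refine ⟨?_, ?_, ?_⟩
  · intro y hy
    obtain ⟨c, hc, rfl⟩ := mem_image.1 hy
    intro h
    rcases hPp.mem_or_mem h with h1 | h1
    · exact hx h1
    · exact hT.nz c hc h1
  · intro y hy y' hy' h
    obtain ⟨c, hc, rfl⟩ := mem_image.1 hy
    obtain ⟨c', hc', rfl⟩ := mem_image.1 hy'
    rw [← mul_sub] at h
    rcases hPp.mem_or_mem h with h1 | h1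
    · exact absurd h1 hx
    · rw [hT.inj c hc c' hc' h1]
  · intro y hy
    have huP : u * y ∉ P := by
      intro h
      have h2 : x * (u * y) ∈ P := P.mul_mem_left x h
      have h3 : (x * u - 1) * y ∈ P := P.mul_mem_right y hu
      have h4 : y = x * (u * y) - (x * u - 1) * y := by ring
      rw [h4] at hy
      exact hy (P.sub_mem h2 h3)
    obtain ⟨c, hc, hc1⟩ := hT.surj (u * y) huP
    refine ⟨x * c, mem_image.2 ⟨c, hc, rfl⟩, ?_⟩
    have h3 : (x * u - 1) * y ∈ P := P.mul_mem_right y hu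
    have h4 : x * (u * y - c) ∈ P := P.mul_mem_left x hc1
    have h5 : y - x * c = x * (u * y - c) - (x * u - 1) * y := by ring
    rw [h5]
    exact P.sub_mem h4 h3

end XPCI

open XPCI Pool.Agent.TWT.XPC in
/-- XPCI -/
theorem t_XPCI (hKEYI : S_KEYI) (hIDP : S_IDPI) (hVPG : S_VPGI) (hHTF : S_HTF) : S_XPCI := by
  classical
  intro p A B P V f hS hT ι _ R hG m hm x0 hx0 hx01 w hw T hTr
  have hcq := hS.cq
  have hp5 := hS.p5
  have hpp := hS.pp
  obtain ⟨t0, ht0, ht00, hK⟩ := hKEYI p A B P V f hS ι R hG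
  obtain ⟨hI1, hI2, -, hI3, hI4, hI5, -⟩ := hIDP p A B P V f hS
  have hm3 : 3 ≤ m := XPCI.three_le hS hm.m0 hm.fm
  have hM3 : 3 ≤ m * p := by nlinarith
  have hM1 : m * p ≠ 1 := by omega
  obtain ⟨-, -, -, -, hT5, -⟩ := hHTF A B hcq hT (p * f) ι R (m * p) hM3 hm.cop
  -- `w m`
  have hpP : ((p : ℕ) : OO A B) ∈ P := by
    rw [hS.eP]
    exact Ideal.mem_span_singleton_self _
  have hmP : ((m : ℕ) : OO A B) ∉ P := by
    intro h
    have h1 := (hI1 (m : ℤ)).1 (by rwa [Int.cast_natCast])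
    exact hm.pm (by exact_mod_cast h1)
  have hwm0 : w ((m : ℕ) : OO A B) ≠ 0 := fun h => hmP ((hw.zero _).1 h)
  have hq : p ^ 2 - 1 ≠ 0 := by
    have : 5 ^ 2 ≤ p ^ 2 := Nat.pow_le_pow_left hp5 2
    omega
  have hvwm : V.valuation (w ((m : ℕ) : OO A B)) = 1 := val_root hq (hw.root _ hmP)
  have hvt : V.valuation (t0 * (w ((m : ℕ) : OO A B))⁻¹) = V.valuation t0 := by
    rw [map_mul, map_inv₀, hvwm, inv_one, mul_one]
  refine ⟨t0 * (w ((m : ℕ) : OO A B))⁻¹, mul_ne_zero ht00 (inv_ne_zero hwm0), by rw [hvt, ht0], ?_⟩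
  intro a H ha hac hH θ θ'' hθ hθ'' γ hγ σ i x hσ
  have ha0 : a ≠ 0 := by omega
  have hac2 : a.Coprime 2 := by
    have h1 : a.Coprime (2 * (m * p)) := by rwa [← mul_assoc]
    exact Nat.Coprime.coprime_mul_right_right h1
  have hacm : a.Coprime m := by
    have h1 : a.Coprime (2 * m) := Nat.Coprime.coprime_mul_right_right hac
    exact Nat.Coprime.coprime_mul_left_right h1
  have hacp : a.Coprime (2 * p) := by
    have h1 : a.Coprime p := Nat.Coprime.coprime_mul_left_right hac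
    exact Nat.Coprime.mul_right hac2 h1
  obtain ⟨H', hH'⟩ := exists_half (R.L i) ha0 hac2
  have hx0c : IsCoprime x0 ((m : ℕ) : OO A B) := XPCI.x0_cop hx01
  have hxM : IsCoprime x ((m * p : ℕ) : OO A B) := hσ.1
  have hxx : IsCoprime (x * x0) ((m : ℕ) : OO A B) := xx_cop hxM hx0c
  have hx0n : x0 ∉ idl (A := A) (B := B) (m * p) := x0_nmem (by omega) hx0c
  -- the conjugates of the factors
  have hγθ : ∀ c ∈ T, ∃ hz : ThetaH (R.L R.i0) H (pt R (m * p) R.i0
      (x0 + c * m)) ∈ (RF (idl (m * p)) : IntermediateField (kk A B) ℂ),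
      γ c θ = ⟨_, hz⟩ := by
    intro c hc
    obtain ⟨hz, e⟩ := hT5 (γ c) R.i0 _ (hγ c hc) 1 (one_nmem hM1) a H H ha0 hH hH
    have e1 : θ = ⟨_, hz⟩ := Subtype.ext hθ
    rw [← e1, mul_one] at e
    exact ⟨e ▸ (γ c θ).2, Subtype.ext e⟩
  have hσγ : ∀ c ∈ T, ((σ (γ c θ) : (RF (idl (m * p)) :
      IntermediateField (kk A B) ℂ)) : ℂ) =
      ThetaH (R.L i) H' (pt R (m * p) i (x * (x0 + c * m))) := by
    intro c hc
    obtain ⟨hz, e⟩ := hγθ c hc
    obtain ⟨hz', e'⟩ := hT5 σ i x hσ (x0 + c * m)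
      (cop_nmem hM1 (hγ c hc).1) a H H' ha0 hH hH'
    rw [e]
    exact e'
  have hσθ : ((σ θ'' : (RF (idl (m * p)) : IntermediateField (kk A B) ℂ)) : ℂ) =
      ThetaH (R.L i) H' (pt R (m * p) i (x * x0)) := by
    obtain ⟨hz', e'⟩ := hT5 σ i x hσ x0 hx0n a H H' ha0 hH hH'
    have e1 : θ'' = ⟨_, hz'⟩ := Subtype.ext hθ''
    rw [e1]
    exact e'
  -- the points
  obtain ⟨z, hz⟩ : ∃ z, z = pt R (m * p) i (x * x0) := ⟨_, rfl⟩
  have hptc : ∀ c : OO A B, pt R (m * p) i (x * (x0 + c * m)) = z + pt R p i (x * c) := by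
    intro c
    have e : x * (x0 + c * m) = x * x0 + ((1 : ℕ) : OO A B) * m * (x * c) := by
      rw [Nat.cast_one]
      ring
    rw [e, pt_sum hcq R hm.m0, ← hz, Nat.cast_one, one_mul]
  -- `x` modulo `P`
  obtain ⟨u, hu⟩ : ∃ u, x * u - 1 ∈ P := by
    obtain ⟨u, v, huv⟩ := hxM
    refine ⟨u, ?_⟩
    have h1 : x * u - 1 = -(v * m) * p := by
      rw [← huv]
      push_cast
      ring
    rw [h1]
    exact P.mul_mem_left _ hpP
  have hxP : x ∉ P := by
    intro h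
    refine hS.hP.ne_top ((Ideal.eq_top_iff_one P).2 ?_)
    have h1 : x * u ∈ P := P.mul_mem_right u h
    have h2 : (1 : OO A B) = x * u - (x * u - 1) := by ring
    rw [h2]
    exact P.sub_mem h1 hu
  have hinj : ∀ c ∈ T, ∀ c' ∈ T, x * c = x * c' → c = c' := by
    intro c hc c' hc' h
    refine hTr.inj c hc c' hc' ?_
    have h1 : x * (c - c') ∈ P := by
      rw [mul_sub, h, sub_self]
      exact P.zero_mem
    exact (hS.hP.mem_or_mem h1).resolve_left hxP
  have hT' := rep_mul hS.hP hTr hxP hu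
  have hwx : ∀ c : OO A B, w (x * (x0 + c * m)) = w (x * c) * w ((m : ℕ) : OO A B) := by
    intro c
    rw [← hw.mul]
    refine hw.per _ _ ?_
    have e : x * (x0 + c * m) - x * c * m = x * x0 := by ring
    rw [e]
    exact P.mul_mem_left x hx0
  -- the points are not in the kernel of reduction
  have hn1 : ¬ m ∣ 1 := fun h => by
    have := Nat.le_of_dvd one_pos h
    omega
  have hn2 : ¬ m ∣ 2 := fun h => by
    have := Nat.le_of_dvd two_pos h
    omega
  have hna : ¬ m ∣ a := fun h => by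
    have h1 : m ∣ 1 := by
      rw [← (Nat.coprime_iff_gcd_eq_one.1 hacm)]
      exact Nat.dvd_gcd h (dvd_refl m)
    exact hn1 h1
  have hE1 : ¬ InEn V (R.L i) z := by
    have h := XPCI.not_inEn hVPG hS hG hm (i := i) hxx hn1
    rwa [Nat.cast_one, one_mul, ← hz] at h
  have hE2 : ¬ InEn V (R.L i) (2 * z) := by
    have h := XPCI.not_inEn hVPG hS hG hm (i := i) hxx hn2
    rw [← hz] at h
    exact_mod_cast h
  have hEa : ¬ InEn V (R.L i) (a * z) := by
    have h := XPCI.not_inEn hVPG hS hG hm (i := i) hxx hna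
    rwa [← hz] at h
  obtain ⟨hK1, hK2, hK3⟩ := hK w hw _ hT' i a H' ha hacp hH' z hE1 hE2 hEa
  rw [prod_image hinj, sum_image hinj] at hK2
  rw [sum_image hinj] at hK3
  have hsum : ∑ c ∈ T, w (x * (x0 + c * m)) * dlX (R.L i) a (pt R (m * p) i (x * (x0 + c * m))) =
      w ((m : ℕ) : OO A B) * ∑ c ∈ T, w (x * c) * dlX (R.L i) a (z + pt R p i (x * c)) := by
    rw [mul_sum]
    refine sum_congr rfl fun c _ => ?_
    rw [hptc, hwx]
    ring
  rw [hsum]
  constructor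
  · rw [field_part σ γ θ θ'' (fun c => ThetaH (R.L i) H' (z + pt R p i (x * c)))
      (ThetaH (R.L i) H' z) T (p ^ 2 - 1) (fun c hc => by rw [hσγ c hc, hptc])
      (by rw [hσθ, ← hz])]
    have hD : V.valuation (ThetaH (R.L i) H' z ^ (p ^ 2 - 1)) = 1 := by
      have h := (hK1 0).1
      have h0 : pt R p i (0 : OO A B) = 0 := by
        unfold pt
        rw [emb_zero hcq]
        simp
      rw [h0, add_zero] at h
      rw [map_pow, h, one_pow]
    rw [hvt]
    have e : muX R i * (t0 * (w ((m : ℕ) : OO A B))⁻¹) *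
        (w ((m : ℕ) : OO A B) * ∑ c ∈ T, w (x * c) * dlX (R.L i) a (z + pt R p i (x * c))) =
        muX R i * t0 * ∑ c ∈ T, w (x * c) * dlX (R.L i) a (z + pt R p i (x * c)) := by
      field_simp
    rw [e]
    exact val_div hD hK2
  · rw [hvt, map_mul, hvwm, one_mul]
    exact hK3

end

end Pool.Agent.TWI
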