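import Pool.Agent.TWI.CRITI
import Pool.Agent.TWI.IDPI
import Pool.Agent.TWI.VPGI
import Pool.Agent.TWI.RAMGI
import Pool.Agent.TWI.UNRGI
import Pool.Agent.TWI.MUGI
import Pool.Agent.TWI.EABE
import Pool.Agent.TWI.KRPI
import Pool.Agent.TWI.NRRI
import Pool.Agent.TWI.XPCI
import Pool.Agent.TWI.CNTI
import Pool.Agent.TWI.SIGI
import Pool.Agent.TWI.SDEI
import Pool.Agent.TWI.PHII
import Pool.Agent.TWT.KUM
import Pool.Agent.TWT.PRO
import Pool.Agent.TWT.RSF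
import Pool.Agent.TWT.EAB
import Pool.Agent.TWT.NMF
import Pool.Agent.TWT.HTF
import Pool.Agent.TWT.DTP
import Pool.Agent.TWI.AAll

/-!
# TWI, block B complete (helper59): `S_CRITI`, without hypotheses
-/

set_option autoImplicit false

namespace Pool.Agent.TWI

open Pool.Agent.TWT

theorem t_CRITI (hKEYI : S_KEYI) : S_CRITI :=
  CRITI.main t_IDPI t_VPGI (t_UNRGI t_VPGI (t_RAMGI t_VPGI)) (t_MUGI t_VPGI) t_KUM
    t_PROG t_RSF t_EAB t_EABE t_NMF t_HTF (t_NRRI t_IDPI (t_KRPI t_IDPI))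
    (t_XPCI hKEYI t_IDPI t_VPGI t_HTF)
    (t_SIGI t_IDPI t_VPGI t_CNTI)
    (t_SDEI t_IDPI) t_PHII

theorem a_CRITI : S_CRITI := t_CRITI a_KEYI

end Pool.Agent.TWI
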