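import Pool.Agent.TWI.StI2
import Pool.Agent.TWT.CRA

/-!
# TWI, block B, assembly, part 1 (helper59): the powers, any exponent
-/

set_option autoImplicit false

open WeierstrassCurve Polynomial NumberField IsDedekindDomain

namespace Pool.Agent.TWI

open _root_.MU3 Pool.Agent.MU3A Pool.Agent.MU3B Pool.Agent.MU3C Pool.Agent.RI Pool.Agent.RID
open Pool.Agent.MUX Pool.Agent.MUXU Pool.Agent.MUXW Pool.Agent.TWT
open Pool.Agent.TWT.CRA
open Pool.Agent.MU3V (cls Sub GD algDF)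
open Pool.Agent.MUXV (GR InK tX)
open Pool.Agent.MUXI (IA RE AR)
open OnePoint

noncomputable section

namespace CRAI

theorem partA (hNMF : S_NMF) (hEAB : S_EAB) (hEABE : S_EABE) (p : ℕ) [Fact p.Prime] (A B : ℤ) (hcq : CQ A B)
    (hT : TorX A B) (m : ℕ) (hm : m ≠ 0) (D : IntermediateField ℚ ℂ) [FiniteDimensional ℚ D]
    [FiniteDimensional ℚ (kk A B)] (h : kk A B ≤ D)
    (hs : Sub D (RF (idl m) : IntermediateField (kk A B) ℂ)) (Fr : Type) [Field Fr] [CharP Fr p]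
    (T : Finset (OO A B)) :
    letI := algC h
    ∀ (χ : (D ≃ₐ[kk A B] D) →* Frˣ) (g : D ≃ₐ[kk A B] D), (∀ x : D, (x : ℂ) ∈
      (RF (⊤ : Ideal (OO A B)) : IntermediateField (kk A B) ℂ) → g x = x) → χ g ≠ 1 →
    ∀ (θ θ'' κ : (RF (idl (m * p)) : IntermediateField (kk A B) ℂ))
      (γ : OO A B →
        ((RF (idl (m * p)) : IntermediateField (kk A B) ℂ) ≃ₐ[kk A B] RF (idl (m * p))))
      (φ : (RF (idl (m * p)) : IntermediateField (kk A B) ℂ) ≃ₐ[kk A B] RF (idl (m * p)))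
      (τφ : D ≃ₐ[kk A B] D), θ ≠ 0 → θ'' ≠ 0 → κ ≠ 0 →
      (κ : ℂ) ∈ (RF (⊤ : Ideal (OO A B)) : IntermediateField (kk A B) ℂ) →
      (∀ c ∈ T, ∀ y : (RF (idl (m * p)) : IntermediateField (kk A B) ℂ),
        (y : ℂ) ∈ (RF (idl m) : IntermediateField (kk A B) ℂ) → γ c y = y) →
      (∏ c ∈ T, γ c θ) * θ'' = κ * φ θ'' → Ext1 h τφ φ → χ τφ ≠ 1 →
    ∀ c₀ : D, (c₀ : ℂ) = cW h θ →
    (∀ t : Fr →+ ZMod p, ∃ y : D, y ^ p = Pool.Agent.TWK.sE p χ t c₀) →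
    ∀ t : Fr →+ ZMod p, ∃ y : D, ((y ^ p : D) : ℂ) = ∏ τ : D ≃ₐ[kk A B] D,
      cWt h ((∏ c ∈ T, γ c θ) / θ'' ^ T.card) τ ^
        (t ((χ τ)⁻¹ : Frˣ)).val := by
  let _ := algC h
  intro χ g hg hgχ θ θ'' κ γ φ τφ hθ hθ'' hκ hκ1 hγ hrel hφ hχφ c₀ hc₀ hpow t
  have hp : p.Prime := Fact.out
  have hmp : m * p ≠ 0 := mul_ne_zero hm hp.ne_zero
  have hsF := subF hT m p hs
  haveI := hT.fin _ (idl_ne (A := A) (B := B) hmp)
  haveI := hT.gal _ (idl_ne (A := A) (B := B) hmp)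
  have MEM := ty_MEM A B _ (hT.fin _ (idl_ne hmp)) (hT.gal _ (idl_ne hmp))
    (hT.comm _ (idl_ne hmp)) D h hsF
  have NMF := hNMF A B hcq hT (m * p) hmp D h hsF
  -- multiplicativity
  have mul : ∀ x y : (RF (idl (m * p)) : IntermediateField (kk A B) ℂ), x ≠ 0 → y ≠ 0 →
      ∀ τ : D ≃ₐ[kk A B] D, cWt h (x * y) τ = cWt h x τ * cWt h y τ :=
    fun x y hx hy τ => ((NMF x y hx hy).1 τ).1
  have inv : ∀ x : (RF (idl (m * p)) : IntermediateField (kk A B) ℂ), x ≠ 0 →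
      ∀ τ : D ≃ₐ[kk A B] D, cWt h x⁻¹ τ = (cWt h x τ)⁻¹ :=
    fun x hx τ => ((NMF x x hx hx).1 τ).2
  have pw : ∀ x : (RF (idl (m * p)) : IntermediateField (kk A B) ℂ), x ≠ 0 → ∀ (n : ℕ)
      (τ : D ≃ₐ[kk A B] D), cWt h (x ^ n) τ = cWt h x τ ^ n := by
    intro x hx n τ
    induction n with
    | zero => rw [pow_zero, pow_zero, cWt_one]
    | succ n ih => rw [pow_succ, pow_succ, mul _ _ (pow_ne_zero n hx) hx, ih]
  have hγ0 : ∀ c, γ c θ ≠ 0 := fun c => (map_ne_zero_iff _ (γ c).injective).2 hθ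
  have hγ1 : ∀ c ∈ T, ∀ τ : D ≃ₐ[kk A B] D, cWt h (γ c θ) τ = cWt h θ τ := by
    intro c h1 τ
    have e : Ext1 h (1 : D ≃ₐ[kk A B] D) (γ c) := by
      intro y hy
      rw [hγ c h1 ⟨y, hy⟩ (hs y y.2)]
      rfl
    rw [(NMF θ θ hθ hθ).2.1 τ 1 (γ c) e, mul_one]
  have prd : ∀ (s : Finset (OO A B)), s ⊆ T → ∀ τ : D ≃ₐ[kk A B] D,
      cWt h (∏ c ∈ s, γ c θ) τ = cWt h θ τ ^ s.card := by
    classical
    intro s
    induction s using Finset.induction_on with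
    | empty => intro _ τ; rw [Finset.prod_empty, Finset.card_empty, pow_zero, cWt_one]
    | insert a s ha ih =>
      intro hsub τ
      rw [Finset.prod_insert ha, Finset.card_insert_of_notMem ha, pow_succ,
        mul _ _ (hγ0 a) (Finset.prod_ne_zero_iff.2 fun c _ => hγ0 c),
        ih (fun x hx => hsub (Finset.mem_insert_of_mem hx))]
      rw [hγ1 a (hsub (Finset.mem_insert_self a s)), mul_comm]
  have hprod0 : (∏ c ∈ T, γ c θ) ≠ 0 :=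
    Finset.prod_ne_zero_iff.2 fun c _ => hγ0 c
  have prd' : ∀ τ : D ≃ₐ[kk A B] D,
      cWt h (∏ c ∈ T, γ c θ) τ = cWt h θ τ ^ T.card := by
    intro τ
    rw [prd _ (Finset.Subset.refl _)]
  -- the units
  let U : ∀ x : (RF (idl (m * p)) : IntermediateField (kk A B) ℂ), x ≠ 0 →
      (D ≃ₐ[kk A B] D) → Dˣ := fun x hx τ =>
    Units.mk0 ⟨cWt h x τ, ((MEM x hx).2.1 τ).1⟩
      (fun e => ((MEM x hx).2.1 τ).2 (congrArg Subtype.val e))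
  have hU : ∀ x hx τ, (((U x hx τ : Dˣ) : D) : ℂ) = cWt h x τ := fun x hx τ => rfl
  have R1 : ∀ τ, U θ hθ τ ^ T.card * U θ'' hθ'' τ = U κ hκ τ * U θ'' hθ'' (τ * τφ) := by
    intro τ
    apply Units.ext
    apply Subtype.ext
    push_cast
    rw [hU θ hθ τ, hU θ'' hθ'' τ, hU κ hκ τ, hU θ'' hθ'' (τ * τφ), ← prd', ← mul _ _ hprod0 hθ'', hrel,
      mul _ _ hκ ((map_ne_zero_iff _ φ.injective).2 hθ''), (NMF θ'' θ'' hθ'' hθ'').2.1 τ τφ φ hφ]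
  have R2 : ∀ τ, U κ hκ (τ * g) = U κ hκ τ := by
    intro τ
    apply Units.ext
    apply Subtype.ext
    rw [hU κ hκ (τ * g), hU κ hκ τ]
    exact (NMF κ κ hκ hκ).2.2 hκ1 g hg τ
  -- powers
  have P1 : ∀ t : Fr →+ ZMod p, ∃ y : Dˣ, y ^ p = EtT p χ t (U θ hθ) := by
    intro t
    obtain ⟨y, hy⟩ := hpow t
    have e0 : ∀ δ : D ≃ₐ[kk A B] D, δ c₀ = ((U θ hθ δ : Dˣ) : D) := by
      intro δ
      apply Subtype.ext
      rw [hU θ hθ δ]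
      have h1 : cW h θ ∈ D := hc₀ ▸ c₀.2
      have h2 : c₀ = ⟨cW h θ, h1⟩ := Subtype.ext hc₀
      rw [h2]
      exact (MEM θ hθ).2.2.1 δ h1
    have e1 : y ^ p = ((EtT p χ t (U θ hθ) : Dˣ) : D) := by
      rw [hy]
      unfold Pool.Agent.TWK.sE EtT
      rw [Units.coe_prod]
      refine Finset.prod_congr (by congr) fun δ _ => ?_
      rw [e0 δ]
      push_cast
      rfl
    have hy0 : y ≠ 0 := by
      intro h0
      rw [h0, zero_pow hp.ne_zero] at e1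
      exact (EtT p χ t (U θ hθ)).ne_zero e1.symm
    exact ⟨Units.mk0 y hy0, Units.ext (by push_cast; exact e1)⟩
  have E1 := (hEAB p (D ≃ₐ[kk A B] D) Fr Dˣ χ).1 (U κ hκ) g hgχ R2
  obtain ⟨y, hy⟩ := hEABE p (D ≃ₐ[kk A B] D) Fr Dˣ χ T.card (U θ hθ) (U θ'' hθ'') (U κ hκ) τφ hχφ R1
    P1 E1 t
  refine ⟨(y : D), ?_⟩
  have h1 : ((y : D) ^ p) = ((EtT p χ t (fun τ => (U θ hθ τ / U θ'' hθ'' τ) ^ T.card) : Dˣ) : D) := by
    rw [← hy]; push_cast; rfl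
  rw [h1]
  unfold EtT
  rw [Units.coe_prod]
  push_cast
  refine Finset.prod_congr (by congr) fun τ _ => ?_
  have e : cWt h ((∏ c ∈ T, γ c θ) / θ'' ^ T.card) τ =
      (cWt h θ τ / cWt h θ'' τ) ^ T.card := by
    rw [div_eq_mul_inv, mul _ _ hprod0 (inv_ne_zero (pow_ne_zero _ hθ'')),
      inv _ (pow_ne_zero _ hθ''), pw _ hθ'', prd', div_pow, div_eq_mul_inv]
  rw [e]
  push_cast
  rw [hU θ hθ τ, hU θ'' hθ'' τ]

end CRAI

end

end Pool.Agent.TWI
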