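import Pool.Agent.TWI.CRAI
import Pool.Agent.TWT.CRB

/-!
# TWI, block B, assembly, part 2 (helper59): the valuations
-/

set_option autoImplicit false

open WeierstrassCurve Polynomial NumberField IsDedekindDomain

namespace Pool.Agent.TWI

open _root_.MU3 Pool.Agent.MU3A Pool.Agent.MU3B Pool.Agent.MU3C Pool.Agent.RI Pool.Agent.RID
open Pool.Agent.MUX Pool.Agent.MUXU Pool.Agent.MUXW Pool.Agent.TWT
open Pool.Agent.TWT.CRB
open Pool.Agent.MU3V (cls Sub GD algDF)
open Pool.Agent.MUXV (GR InK tX)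
open Pool.Agent.MUXI (IA RE AR)
open OnePoint

noncomputable section

namespace CRBI

theorem partB (hKUM : S_KUM) (hPRO : PROG) (hRSF : S_RSF)
    (p : ℕ) [Fact p.Prime] (A B : ℤ) (V : ValuationSubring ℂ) (hT : TorX A B)
    (hv1 : V.valuation (p : ℂ) < 1) (hv0 : V.valuation (p : ℂ) ≠ 0)
    (m : ℕ) (hunr : ∀ y ∈ (RF (idl m) : IntermediateField (kk A B) ℂ), y ≠ 0 →
      ∃ k : ℤ, V.valuation y = V.valuation (p : ℂ) ^ k)
    (D : IntermediateField ℚ ℂ) [FiniteDimensional ℚ D] [FiniteDimensional ℚ (kk A B)]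
    (h : kk A B ≤ D) (hs : Sub D (RF (idl m) : IntermediateField (kk A B) ℂ)) :
    letI := algC h
    ∀ (χ : (D ≃ₐ[kk A B] D) →* (IsLocalRing.ResidueField V)ˣ)
      (u : (RF (idl (m * p)) : IntermediateField (kk A B) ℂ))
      (ρ : GalF A B (m * p) → (D ≃ₐ[kk A B] D)), (∀ σ, Ext1 h (ρ σ) σ) →
    ∀ [Fintype (GalF A B (m * p))] (e th : GalF A B (m * p) → ℂ) (q : ℂ),
      V.valuation (p : ℂ) ^ 2 ≤ V.valuation q → V.valuation q < V.valuation (p : ℂ) →
      (∀ σ, V.valuation (e σ) ≤ V.valuation (p : ℂ)) →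
      (∀ σ, V.valuation (((σ u : (RF (idl (m * p)) : IntermediateField (kk A B) ℂ)) : ℂ) - 1 -
        e σ) ≤ V.valuation q) →
      (∀ σ, rsd V (th σ) = (((χ (ρ σ))⁻¹ : (IsLocalRing.ResidueField V)ˣ) :
        IsLocalRing.ResidueField V)) →
      (∀ t : (IsLocalRing.ResidueField V) →+ ZMod p, ∃ y : D, ((y ^ p : D) : ℂ) =
        ∏ τ : D ≃ₐ[kk A B] D,
          cWt h u τ ^ (t ((χ τ)⁻¹ : (IsLocalRing.ResidueField V)ˣ)).val) →
      V.valuation (∑ σ, th σ * e σ) < V.valuation (p : ℂ) := by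
  let _ := algC h
  intro χ u ρ hρ _ e th q hq2 hq1 he hu hth hpow
  classical
  have hp : p.Prime := Fact.out
  have hp0 : (p : ℂ) ≠ 0 := by exact_mod_cast hp.ne_zero
  haveI := charP_res V p hv1
  have hsF := Pool.Agent.TWT.CRA.subF hT m p hs
  -- the elements `e σ / p`
  have hdiv : ∀ x : ℂ, V.valuation (x / p) = V.valuation x / V.valuation (p : ℂ) :=
    fun x => map_div₀ _ _ _
  have heV : ∀ σ, e σ / p ∈ V := by
    intro σ
    rw [← ValuationSubring.valuation_le_one_iff, hdiv]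
    exact div_le_one_of_le₀ (he σ) zero_le
  let eV : GalF A B (m * p) → V := fun σ => ⟨e σ / p, heV σ⟩
  have hthne : ∀ σ, rsd V (th σ) ≠ 0 := by
    intro σ
    rw [hth σ]
    exact Units.ne_zero _
  choose hthV hthr using fun σ => rsd_ne V (hthne σ)
  let tV : GalF A B (m * p) → V := fun σ => ⟨th σ, hthV σ⟩
  have key : ∀ g : GalF A B (m * p) → V, (∑ σ, IsLocalRing.residue V (g σ) *
      IsLocalRing.residue V (eV σ) = 0 ↔
      V.valuation (∑ σ, (g σ : ℂ) * e σ) < V.valuation (p : ℂ)) := by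
    intro g
    have e1 : ∑ σ, IsLocalRing.residue V (g σ) * IsLocalRing.residue V (eV σ) =
        IsLocalRing.residue V (∑ σ, g σ * eV σ) := by
      rw [map_sum]
      exact Finset.sum_congr rfl fun σ _ => (map_mul _ _ _).symm
    rw [e1, IsLocalRing.residue_eq_zero_iff, ValuationSubring.valuation_lt_one_iff]
    have e2 : ((∑ σ, g σ * eV σ : V) : ℂ) = (∑ σ, (g σ : ℂ) * e σ) / p := by
      rw [Finset.sum_div]
      push_cast
      exact Finset.sum_congr rfl fun σ _ => by rw [mul_div_assoc]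
    rw [e2, hdiv, div_lt_one₀ (zero_lt_iff.2 hv0)]
  -- the functionals
  have F1 : ∀ t : (IsLocalRing.ResidueField V) →+ ZMod p,
      V.valuation (∑ σ, (((t ((χ (ρ σ))⁻¹ : (IsLocalRing.ResidueField V)ˣ)).val : ℕ) : ℂ) * e σ) <
        V.valuation (p : ℂ) := by
    intro t
    set n : (D ≃ₐ[kk A B] D) → ℕ := fun τ =>
      (t ((χ τ)⁻¹ : (IsLocalRing.ResidueField V)ˣ)).val with hn
    obtain ⟨y, hy⟩ := hpow t
    have e1 : (∏ τ : D ≃ₐ[kk A B] D, cWt h u τ ^ n τ) = ∏ σ : GalF A B (m * p),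
        ((σ u : (RF (idl (m * p)) : IntermediateField (kk A B) ℂ)) : ℂ) ^ n (ρ σ) := by
      rw [← Finset.prod_fiberwise Finset.univ ρ]
      refine Finset.prod_congr (by congr) fun τ _ => ?_
      rw [cWt_fib h hsF ρ hρ u τ, ← Finset.prod_pow]
      refine Finset.prod_congr rfl fun σ hσ => ?_
      rw [(Finset.mem_filter.1 hσ).2]
    have e2 := hPRO V (p : ℂ) q hv1 hq2 hq1.le (GalF A B (m * p)) Finset.univ
      (fun σ => ((σ u : (RF (idl (m * p)) : IntermediateField (kk A B) ℂ)) : ℂ)) e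
      (fun σ => n (ρ σ)) (fun σ _ => he σ) (fun σ _ => hu σ)
    have e3 : V.valuation (∑ σ : GalF A B (m * p), ((n (ρ σ) : ℕ) : ℂ) * e σ) ≤
        V.valuation (p : ℂ) := by
      refine Valuation.map_sum_le _ fun σ _ => ?_
      rw [map_mul]
      calc V.valuation ((n (ρ σ) : ℕ) : ℂ) * V.valuation (e σ) ≤ 1 * V.valuation (p : ℂ) :=
            mul_le_mul' (v_nat V _) (he σ)
        _ = V.valuation (p : ℂ) := one_mul _
    have hy' : (y : ℂ) ^ p = ∏ σ : GalF A B (m * p),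
        ((σ u : (RF (idl (m * p)) : IntermediateField (kk A B) ℂ)) : ℂ) ^ n (ρ σ) := by
      rw [← e1, ← hy]
      push_cast
      rfl
    rw [← hy'] at e2
    set Sg := ∑ σ : GalF A B (m * p), ((n (ρ σ) : ℕ) : ℂ) * e σ with hSg
    have e4 : V.valuation ((y : ℂ) ^ p - 1) ≤ V.valuation (p : ℂ) := by
      have : (y : ℂ) ^ p - 1 = ((y : ℂ) ^ p - 1 - Sg) + Sg := by ring
      rw [this]
      exact Valuation.map_add_le _ (e2.trans hq1.le) e3
    have e5 := hKUM V p hp hv1 (y : ℂ) (fun hy0 => hunr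
      ((y : ℂ) - 1) (sub_mem (hs y y.2) (one_mem _)) hy0) e4
    have e6 : Sg = ((y : ℂ) ^ p - 1) - ((y : ℂ) ^ p - 1 - Sg) := by ring
    rw [e6]
    exact (Valuation.map_sub_le V.valuation (e5.trans hq2) e2).trans_lt hq1
  have F2 := hRSF p (IsLocalRing.ResidueField V) (D ≃ₐ[kk A B] D)
    (fun τ => (((χ τ)⁻¹ : (IsLocalRing.ResidueField V)ˣ) : IsLocalRing.ResidueField V))
    (fun τ => ∑ σ ∈ Finset.univ.filter (fun σ => ρ σ = τ), IsLocalRing.residue V (eV σ)) ?_
  · have e1 : ∑ σ, IsLocalRing.residue V (tV σ) * IsLocalRing.residue V (eV σ) = 0 := by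
      rw [← F2, ← Finset.sum_fiberwise Finset.univ ρ]
      refine Finset.sum_congr (by congr) fun τ _ => ?_
      rw [Finset.mul_sum]
      refine Finset.sum_congr rfl fun σ hσ => ?_
      rw [← (Finset.mem_filter.1 hσ).2, ← hth σ, hthr σ]
    exact (key tV).1 e1
  · intro t
    have e1 := (key (fun σ => (((t ((χ (ρ σ))⁻¹ : (IsLocalRing.ResidueField V)ˣ)).val : ℕ) : V))).2
      (by
        refine lt_of_eq_of_lt ?_ (F1 t)
        congr 1)
    rw [← e1, ← Finset.sum_fiberwise Finset.univ ρ]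
    refine Finset.sum_congr (by congr) fun τ _ => ?_
    rw [Finset.mul_sum]
    refine Finset.sum_congr rfl fun σ hσ => ?_
    rw [← (Finset.mem_filter.1 hσ).2, map_natCast]

end CRBI

end

end Pool.Agent.TWI
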