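import Pool.Agent.TWK.PVX
import Pool.Agent.TWK.GRD
import Pool.Agent.MUX.XLib

/-!
# TWI, module PVI (helper96): every large prime is split or inert; existence of `P`, `V`, good reduction
-/

set_option autoImplicit false

open NumberField IsDedekindDomain
open scoped nonZeroDivisors Pointwise

namespace Pool.Agent.TWI

open _root_.MU3 Pool.Agent.MU3 Pool.Agent.MU3A Pool.Agent.MU3B Pool.Agent.RI Pool.Agent.RID
open Pool.Agent.MUX Pool.Agent.MUXU Pool.Agent.MUXW Pool.Agent.TWT Pool.Agent.TWK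

noncomputable section

namespace PVIx

variable {A B : ℤ}

/-- the kernel of a homomorphism `O → ℤ/p` -/
theorem isPN_ker {p : ℕ} (hp : p.Prime) (ψ : OO A B →+* ZMod p) : IsPN p (RingHom.ker ψ) := by
  have hpF := Fact.mk hp
  have hsurj : Function.Surjective ψ := ZMod.ringHom_surjective ψ
  have hmax : (RingHom.ker ψ).IsMaximal := RingHom.ker_isMaximal_of_surjective ψ hsurj
  refine ⟨hmax.isPrime, ?_, ?_⟩
  · rw [RingHom.mem_ker, map_natCast, CharP.cast_eq_zero]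
  · unfold MUX.nI
    rw [Nat.card_congr (RingHom.quotientKerEquivOfSurjective hsurj).toEquiv, Nat.card_zmod]

/-- an ideal of norm `p` is maximal -/
theorem max_of_isPN {p : ℕ} (hp : p.Prime) {Q : Ideal (OO A B)} (hQ : IsPN p Q) :
    Q.IsMaximal := by
  have hcard : Nat.card (OO A B ⧸ Q) = p := hQ.norm
  have hfin : Finite (OO A B ⧸ Q) := Nat.finite_of_card_ne_zero (by rw [hcard]; exact hp.ne_zero)
  have := Fintype.ofFinite (OO A B ⧸ Q)
  have hc1 : Fintype.card (OO A B ⧸ Q) = p := by rw [← Nat.card_eq_fintype_card, hcard]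
  apply Ideal.Quotient.maximal_of_isField
  let e := ZMod.ringEquivOfPrime (OO A B ⧸ Q) hp hc1
  have hpF := Fact.mk hp
  exact e.symm.toMulEquiv.isField (Field.toIsField (ZMod p))

/-- every ideal of norm `p` is the kernel of a homomorphism to `ℤ/p` -/
theorem ker_of_isPN {p : ℕ} (hp : p.Prime) {Q : Ideal (OO A B)} (hQ : IsPN p Q) :
    ∃ ψ : OO A B →+* ZMod p, RingHom.ker ψ = Q := by
  have hcard : Nat.card (OO A B ⧸ Q) = p := hQ.norm
  have hfin : Finite (OO A B ⧸ Q) := Nat.finite_of_card_ne_zero (by rw [hcard]; exact hp.ne_zero)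
  have := Fintype.ofFinite (OO A B ⧸ Q)
  have hc1 : Fintype.card (OO A B ⧸ Q) = p := by rw [← Nat.card_eq_fintype_card, hcard]
  let e := ZMod.ringEquivOfPrime (OO A B ⧸ Q) hp hc1
  refine ⟨(e.symm : (OO A B ⧸ Q) →+* ZMod p).comp (Ideal.Quotient.mk Q), ?_⟩
  ext x
  rw [RingHom.mem_ker, RingHom.comp_apply]
  constructor
  · intro h
    have h1 : Ideal.Quotient.mk Q x = 0 := by
      have h2 := congrArg e h
      rw [map_zero] at h2
      simpa using h2
    exact (Ideal.Quotient.eq_zero_iff_mem).1 h1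
  · intro h
    rw [(Ideal.Quotient.eq_zero_iff_mem).2 h, map_zero]

theorem isPN_cj {p : ℕ} (hp : p.Prime) {Q : Ideal (OO A B)} (hQ : IsPN p Q) :
    IsPN p (cjI Q) := by
  obtain ⟨ψ, hψ⟩ := ker_of_isPN hp hQ
  have h := isPN_ker hp (ψ.comp (starRingEnd (OO A B)))
  have e : RingHom.ker (ψ.comp (starRingEnd (OO A B))) = cjI Q := by
    unfold cjI
    ext x
    rw [RingHom.mem_ker, Ideal.mem_comap, ← hψ, RingHom.mem_ker, RingHom.comp_apply]
  rwa [e] at h

theorem exV_isPN (hc : MUX.CQ A B) {p : ℕ} (hp : p.Prime) {Q : Ideal (OO A B)} (hQ : IsPN p Q) :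
    ∃ V : ValuationSubring ℂ, OverI V Q ∧ (p : ℂ) ∈ V.nonunits :=
  PVXx.exV hc Q p hQ.mem (max_of_isPN hp hQ)

theorem mem_idl {m : ℕ} {x : OO A B} :
    x ∈ idl (A := A) (B := B) m ↔ (m : ℤ) ∣ x.re ∧ (m : ℤ) ∣ x.im := by
  rw [Ideal.mem_span_singleton]
  constructor
  · rintro ⟨y, hy⟩
    rw [hy]
    constructor
    · refine ⟨y.re, ?_⟩
      simp
    · refine ⟨y.im, ?_⟩
      simp
  · rintro ⟨⟨a, ha⟩, ⟨b, hb⟩⟩
    refine ⟨⟨a, b⟩, ?_⟩
    ext
    · simp [ha]
    · simp [hb]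

/-- the element `nm x` is not divisible by `p` if `D` is no square -/
theorem dvd_nm {p : ℕ} (hp : p.Prime) (hsq : ¬ IsSquare ((B ^ 2 + 4 * A : ℤ) : ZMod p))
    {x : OO A B} (h : (p : ℤ) ∣ nm x) : (p : ℤ) ∣ x.re ∧ (p : ℤ) ∣ x.im := by
  have hpF := Fact.mk hp
  have h1 : ((nm x : ℤ) : ZMod p) = 0 := (ZMod.intCast_zmod_eq_zero_iff_dvd _ _).2 h
  have h2 : (2 * (x.re : ZMod p) + B * x.im) ^ 2 = ((B ^ 2 + 4 * A : ℤ) : ZMod p) * (x.im) ^ 2 := by
    unfold nm at h1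
    push_cast at h1 ⊢
    linear_combination 4 * h1
  have h3 : (x.im : ZMod p) = 0 := by
    by_contra h4
    apply hsq
    refine ⟨(2 * (x.re : ZMod p) + B * x.im) / x.im, ?_⟩
    field_simp
    linear_combination -h2
  have h5 : (x.re : ZMod p) ^ 2 = 0 := by
    unfold nm at h1
    push_cast at h1
    rw [h3] at h1
    linear_combination h1
  exact ⟨(ZMod.intCast_zmod_eq_zero_iff_dvd _ _).1 (pow_eq_zero_iff (two_ne_zero) |>.1 h5),
    (ZMod.intCast_zmod_eq_zero_iff_dvd _ _).1 h3⟩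

end PVIx

open PVIx

/-- (PVD) an odd prime is split (or ramified), or `(p)` is a prime ideal -/
theorem t_PVD (A B : ℤ) (hc : MUX.CQ A B) (p : ℕ) (hp : p.Prime) (hp2 : p ≠ 2) :
    (∃ P : Ideal (OO A B), IsPN p P) ∨ (idl (A := A) (B := B) p).IsPrime := by
  have hpF := Fact.mk hp
  by_cases hsq : IsSquare ((B ^ 2 + 4 * A : ℤ) : ZMod p)
  · left
    obtain ⟨s, hs⟩ := hsq
    have h20 : (2 : ZMod p) ≠ 0 := by
      intro h
      have h1 : ((2 : ℕ) : ZMod p) = 0 := by exact_mod_cast h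
      rw [ZMod.natCast_eq_zero_iff] at h1
      have h2 := (Nat.prime_dvd_prime_iff_eq hp Nat.prime_two).1 h1
      exact hp2 h2
    have hr : ((B + s) / 2 : ZMod p) * ((B + s) / 2) =
        (A : ZMod p) + B * ((B + s) / 2) := by
      push_cast at hs
      field_simp
      linear_combination -hs
    let ψ : OO A B →+* ZMod p :=
      (QuadraticAlgebra.lift (R := ℤ) (a := A) (b := B) (A := ZMod p)
        ⟨((B + s) / 2 : ZMod p), by simpa [zsmul_eq_mul] using hr⟩).toRingHom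
    exact ⟨_, isPN_ker hp ψ⟩
  · right
    obtain ⟨-, -, -, -, -, -, -, -, -, hnm, -⟩ := Pool.Agent.MUXV.tq_EMB A B (Cxs.toCQ hc)
    constructor
    · intro h
      have h1 : (1 : OO A B) ∈ idl (A := A) (B := B) p := by rw [h]; trivial
      have h2 := (mem_idl.1 h1).1
      have h3 : (p : ℤ) ∣ 1 := h2
      have h4 : p ∣ 1 := by exact_mod_cast h3
      exact hp.one_lt.ne' (Nat.dvd_one.1 h4)
    · intro x y hxy
      obtain ⟨h1, h2⟩ := mem_idl.1 hxy
      have h3 : (p : ℤ) ∣ nm (x * y) := by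
        unfold nm
        exact ((((dvd_pow h1 two_ne_zero)).add (by
          exact (Dvd.dvd.mul_left h1 _).mul_right _)).sub
            (Dvd.dvd.mul_left (dvd_pow h2 two_ne_zero) _))
      rw [hnm] at h3
      rcases (Nat.prime_iff_prime_int.1 hp).dvd_or_dvd h3 with h4 | h4
      · exact Or.inl (mem_idl.2 (dvd_nm hp hsq h4))
      · exact Or.inr (mem_idl.2 (dvd_nm hp hsq h4))

namespace PVIx

variable {A B : ℤ}

/-- `(p)` prime is maximal -/
theorem max_idl (hc : MUX.CQ A B) {p : ℕ} (hp : p.Prime)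
    (h : (idl (A := A) (B := B) p).IsPrime) : (idl (A := A) (B := B) p).IsMaximal := by
  have h0 : idl (A := A) (B := B) p ≠ ⊥ := by
    intro hb
    have h1 : ((p : ℕ) : OO A B) ∈ idl (A := A) (B := B) p := Ideal.mem_span_singleton_self _
    rw [hb, Ideal.mem_bot] at h1
    exact natCast_ne_zero' hc hp.ne_zero h1
  have hfin := finite_quot hc h0
  have hdom : IsDomain (OO A B ⧸ idl (A := A) (B := B) p) := Ideal.Quotient.isDomain _
  exact Ideal.Quotient.maximal_of_isField _ (Finite.isField_of_domain _)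

theorem exV_idl (hc : MUX.CQ A B) {p : ℕ} (hp : p.Prime)
    (h : (idl (A := A) (B := B) p).IsPrime) :
    ∃ V : ValuationSubring ℂ, OverI V (idl (A := A) (B := B) p) ∧ (p : ℂ) ∈ V.nonunits :=
  PVXx.exV hc _ p (Ideal.mem_span_singleton_self _) (max_idl hc hp h)

/-- a number prime to `p` is a unit at `V` -/
theorem v_one {V : ValuationSubring ℂ} {p n : ℕ} (hp : p.Prime) (hV : (p : ℂ) ∈ V.nonunits)
    (hn : ¬ p ∣ n) : V.valuation (n : ℂ) = 1 := by
  rw [ValuationSubring.mem_nonunits_iff] at hV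
  have hint : ∀ z : ℤ, V.valuation (z : ℂ) ≤ 1 := fun z =>
    (V.valuation_le_one_iff _).2 (intCast_mem V z)
  have hcop : IsCoprime (p : ℤ) (n : ℤ) := by
    rw [Nat.isCoprime_iff_coprime]
    exact (Nat.Prime.coprime_iff_not_dvd hp).2 hn
  obtain ⟨a, b, hab⟩ := hcop
  refine le_antisymm (by exact_mod_cast hint n) ?_
  by_contra hlt
  rw [not_le] at hlt
  have h1 : V.valuation ((a : ℂ) * p + b * n) < 1 := by
    apply Valuation.map_add_lt
    · rw [map_mul]
      exact lt_of_le_of_lt (mul_le_of_le_one_left' (hint a)) hV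
    · rw [map_mul]
      exact lt_of_le_of_lt (mul_le_of_le_one_left' (hint b)) hlt
  have h2 : ((a : ℂ) * p + b * n) = 1 := by exact_mod_cast hab
  rw [h2, map_one] at h1
  exact lt_irrefl _ h1

end PVIx

/-- (GOOD) outside a finite set of primes: `p ≥ 5`, unramified, and split with `P`, `V`, `V'`, or inert with `V`,
everything of good reduction. -/
theorem t_GOOD (A B : ℤ) (hc : MUX.CQ A B) (T : TorX A B) (hGRB : Sy_GRB)
    (hALU : Pool.Agent.MUXV.Sq_ALU) (N₁ : ℕ) (ι₁ : Type) [Finite ι₁] (R₁ : Reps A B N₁ ι₁) :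
    ∃ n₀ : ℕ, n₀ ≠ 0 ∧ ∀ p : ℕ, p.Prime → ¬ p ∣ n₀ → 5 ≤ p ∧ ¬ (p : ℤ) ∣ absD A B ∧
      ((∃ (P : Ideal (OO A B)) (V V' : ValuationSubring ℂ), IsPN p P ∧ IsPN p (cjI P) ∧
        OverI V P ∧ OverI V' (cjI P) ∧ (p : ℂ) ∈ V.nonunits ∧ (p : ℂ) ∈ V'.nonunits ∧
        (∀ (N₀ : ℕ) (ι : Type) (R : Reps A B N₀ ι), GRd V R) ∧
        ∀ (N₀ : ℕ) (ι : Type) (R : Reps A B N₀ ι), GRd V' R) ∨
      ((idl (A := A) (B := B) p).IsPrime ∧ ∃ V : ValuationSubring ℂ,
        OverI V (idl (A := A) (B := B) p) ∧ (p : ℂ) ∈ V.nonunits ∧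
        ∀ (N₀ : ℕ) (ι : Type) (R : Reps A B N₀ ι), GRd V R)) := by
  obtain ⟨m, hm, hgr⟩ := t_GRD A B hc T hGRB hALU N₁ ι₁ R₁
  have hD : (absD A B).natAbs ≠ 0 := by
    have h1 := hc.neg
    unfold absD
    omega
  refine ⟨6 * (absD A B).natAbs * m, by positivity, fun p hp hpn => ?_⟩
  have h6 : ¬ p ∣ 6 := fun h => hpn (h.mul_right _ |>.mul_right _)
  have hpD : ¬ p ∣ (absD A B).natAbs := fun h => hpn ((h.mul_left _).mul_right _)
  have hpm : ¬ p ∣ m := fun h => hpn (h.mul_left _)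
  have h5 : 5 ≤ p := by
    by_contra h
    have h1 := hp.two_le
    have h2 : p < 5 := by omega
    interval_cases p
    · exact h6 (by norm_num)
    · exact h6 (by norm_num)
    · exact absurd hp (by norm_num)
  refine ⟨h5, fun h => hpD (by rwa [← Int.natCast_dvd]), ?_⟩
  rcases t_PVD A B hc p hp (by omega) with ⟨P, hP⟩ | hP
  · left
    obtain ⟨V, hV, hpV⟩ := PVIx.exV_isPN hc hp hP
    have hP' := PVIx.isPN_cj hp hP
    obtain ⟨V', hV', hpV'⟩ := PVIx.exV_isPN hc hp hP'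
    exact ⟨P, V, V', hP, hP', hV, hV', hpV, hpV', hgr V (PVIx.v_one hp hpV hpm),
      hgr V' (PVIx.v_one hp hpV' hpm)⟩
  · right
    obtain ⟨V, hV, hpV⟩ := PVIx.exV_idl hc hp hP
    exact ⟨hP, V, hV, hpV, hgr V (PVIx.v_one hp hpV hpm)⟩

end

end Pool.Agent.TWI
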