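import Pool.Agent.TWI.DefsI

/-!
# TWI: statement of module UNFI (helper56)
-/

set_option autoImplicit false

open NumberField IsDedekindDomain

namespace Pool.Agent.TWI

open _root_.MU3 Pool.Agent.MU3 Pool.Agent.MU3A Pool.Agent.MU3B Pool.Agent.RI Pool.Agent.RID
  Pool.Agent.MUX Pool.Agent.TWT

/-- UNFI: as `Pool.Agent.TWF.S_UNF`, `p` inert in `k`. -/
def S_UNFI : Prop :=
  ∀ (p : ℕ) (A B : ℤ) (P : Ideal (OO A B)) (V : ValuationSubring ℂ) (f₀ : ℕ),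
    SetI p A B P V f₀ → TorX A B →
    ∀ (ι : Type) [Finite ι] (R : Reps A B (p * f₀) ι), GRd V R →
    ∀ (K : IntermediateField ℚ ℂ) [FiniteDimensional ℚ K] (hk : kk A B ≤ K),
    ¬ p ∣ Module.finrank (kk A B) (IntermediateField.extendScalars hk) →
    ∀ M : ℕ, M ≠ 0 → (∀ x ∈ K, x ∈ (RF (idl M) : IntermediateField (kk A B) ℂ)) →
    (∀ Q : Ideal (𝓞 K), Q.IsPrime → (p : 𝓞 K) ∈ Q → (p : 𝓞 K) ∉ Q ^ 2) →
    ∀ N : ℕ, N ≠ 0 → ¬ p ∣ N →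
    ∃ f : ℕ, f ≠ 0 ∧ ¬ p ∣ f ∧ N ∣ f ∧ 2 * absD A B ∣ (f : ℤ) ∧
      ∀ x ∈ K, x ∈ (RF (idl f) : IntermediateField (kk A B) ℂ)

end Pool.Agent.TWI
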