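import Pool.Agent.TWF.END3
import Pool.Agent.TWF.ENDE
import Pool.Agent.TWI.FINI
import Pool.Agent.TWI.PVI
import Pool.Agent.TWI.StUI

/-!
# TWI: the final theorem for all primes outside a finite set, with a Galois `p`-extension `E / k` (helper51)
-/

set_option autoImplicit false

open NumberField IsDedekindDomain

namespace Pool.Agent.TWI

open _root_.MU3 Pool.Agent.MU3 Pool.Agent.MU3A Pool.Agent.MU3B Pool.Agent.RI Pool.Agent.RID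
  Pool.Agent.MUX Pool.Agent.MUXJ Pool.Agent.MUXY Pool.Agent.TWT Pool.Agent.TWK Pool.Agent.TWF
open Pool.Agent.MU3V (Sub)

/-- The statement for the field `k` and the prime `p`. -/
def StPE (k : IntermediateField ℚ ℂ) (p : ℕ) : Prop :=
  ∀ (K : IntermediateField ℚ ℂ) [FiniteDimensional ℚ K] (hk : k ≤ K),
    IsGalois k (IntermediateField.extendScalars hk) →
    (∀ σ τ : (IntermediateField.extendScalars hk) ≃ₐ[k] (IntermediateField.extendScalars hk),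
      σ * τ = τ * σ) →
    ¬ p ∣ Module.finrank k (IntermediateField.extendScalars hk) →
    (∀ Q : Ideal (𝓞 K), Q.IsPrime → (p : 𝓞 K) ∈ Q → (p : 𝓞 K) ∉ Q ^ 2) →
    ∀ (E : IntermediateField ℚ ℂ) [FiniteDimensional ℚ E] (hE : k ≤ E),
    IsGalois k (IntermediateField.extendScalars hE) →
    (∃ c : ℕ, Module.finrank k (IntermediateField.extendScalars hE) = p ^ c) →
    ∀ l : ℕ, (l = 2 ∨ l = 3) → ∃ n₀ : ℕ, ∀ B₀ : IntermediateField ℚ ℂ, IsLayer l n₀ B₀ →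
      (∀ a : ℕ, ¬ l ^ (a + 1) ∣ Module.finrank k (IntermediateField.extendScalars hk) →
        ∀ n : ℕ, n₀ + a ≤ n → ∀ B B' : IntermediateField ℚ ℂ, IsLayer l n B →
        IsLayer l (n + 1) B' → ∀ (L : IntermediateField ℚ ℂ) (hL : k ≤ L),
        L ≤ K ⊔ B' → ¬ L ≤ K ⊔ B →
        IsCyclic ((IntermediateField.extendScalars hL) ≃ₐ[k]
          (IntermediateField.extendScalars hL)) →
        ∀ (L₁ : IntermediateField ℚ ℂ) (h₁ : k ≤ L₁) (h₂ : L₁ ≤ L),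
        ¬ l ∣ Module.finrank k (IntermediateField.extendScalars h₁) →
        (∃ e : ℕ, Module.finrank L₁ (IntermediateField.extendScalars h₂) = l ^ e) →
        ∀ (m : ℕ) (Q : IntermediateField ℚ ℂ), IsLayer p m Q →
          padicValNat p (classNo (L ⊔ E ⊔ Q)) = padicValNat p (classNo (L₁ ⊔ B₀ ⊔ E ⊔ Q))) ∧
      ∀ n : ℕ, n₀ ≤ n → ∀ B : IntermediateField ℚ ℂ, IsLayer l n B →
        ∀ L : IntermediateField ℚ ℂ, k ≤ L → L ≤ K ⊔ B →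
        ∀ (m : ℕ) (Q : IntermediateField ℚ ℂ), IsLayer p m Q →
          padicValNat p (classNo (L ⊔ E ⊔ Q)) =
            padicValNat p (classNo ((L ⊓ (K ⊔ B₀)) ⊔ E ⊔ Q))

/-- From the class numbers of the fields `L` to the final statement for one field `K` and one prime `l`. -/
theorem fin_gE (hURE : S_URE) (p l : ℕ) [Fact p.Prime] [Fact l.Prime] (hpl : p ≠ l)
    (k K : IntermediateField ℚ ℂ) (h2 : Module.finrank ℚ k = 2)
    (hi : ∃ z ∈ k, (starRingEnd ℂ) z ≠ z) [FiniteDimensional ℚ K]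
    (Bn : ℕ → IntermediateField ℚ ℂ)
    [∀ n, FiniteDimensional ℚ ↥(K ⊔ Bn n)] (hT : Twr l k K Bn)
    (E : IntermediateField ℚ ℂ) [FiniteDimensional ℚ E] (hkE : k ≤ E)
    (hGE : IsGalois k (IntermediateField.extendScalars hkE)) (c : ℕ)
    (hdE : Module.finrank k (IntermediateField.extendScalars hkE) = p ^ c)
    (huni : ∀ (n : ℕ) (Q : IntermediateField ℚ ℂ), IsLayer l n Q → Q = Bn n)
    (hmain : ∃ n₁ : ℕ, ∀ n : ℕ, n₁ ≤ n → ∀ b : ℕ, ∀ L : IntermediateField ℚ ℂ, k ≤ L →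
      L ≤ K ⊔ Bn (n + b) →
        padicValNat p (classNo L) = padicValNat p (classNo (L ⊓ (K ⊔ Bn n)))) :
    ∃ n₀ : ℕ, ∀ B₀ : IntermediateField ℚ ℂ, IsLayer l n₀ B₀ →
      (∀ a : ℕ, ¬ l ^ (a + 1) ∣ Module.finrank k (IntermediateField.extendScalars hT.hk) →
        ∀ n : ℕ, n₀ + a ≤ n → ∀ B B' : IntermediateField ℚ ℂ, IsLayer l n B →
        IsLayer l (n + 1) B' → ∀ (L : IntermediateField ℚ ℂ) (hL : k ≤ L),
        L ≤ K ⊔ B' → ¬ L ≤ K ⊔ B →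
        IsCyclic ((IntermediateField.extendScalars hL) ≃ₐ[k]
          (IntermediateField.extendScalars hL)) →
        ∀ (L₁ : IntermediateField ℚ ℂ) (h₁ : k ≤ L₁) (h₂ : L₁ ≤ L),
        ¬ l ∣ Module.finrank k (IntermediateField.extendScalars h₁) →
        (∃ e : ℕ, Module.finrank L₁ (IntermediateField.extendScalars h₂) = l ^ e) →
        ∀ (m : ℕ) (Q : IntermediateField ℚ ℂ), IsLayer p m Q →
          padicValNat p (classNo (L ⊔ E ⊔ Q)) = padicValNat p (classNo (L₁ ⊔ B₀ ⊔ E ⊔ Q))) ∧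
      ∀ n : ℕ, n₀ ≤ n → ∀ B : IntermediateField ℚ ℂ, IsLayer l n B →
        ∀ L : IntermediateField ℚ ℂ, k ≤ L → L ≤ K ⊔ B →
        ∀ (m : ℕ) (Q : IntermediateField ℚ ℂ), IsLayer p m Q →
          padicValNat p (classNo (L ⊔ E ⊔ Q)) =
            padicValNat p (classNo ((L ⊓ (K ⊔ B₀)) ⊔ E ⊔ Q)) := by
  obtain ⟨n₁, hn₁⟩ := hmain
  obtain ⟨n₂, hn₂⟩ := endE hURE p l hpl k K h2 hi Bn hT E hkE hGE c hdE
  obtain ⟨n₃, hn₃⟩ := grow l k K Bn hT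
  have hno := hn₃ (n₁ + n₂ + n₃) (by omega)
  have hall : ∀ n, n₁ + n₂ + n₃ ≤ n → ∀ L : IntermediateField ℚ ℂ, k ≤ L → L ≤ K ⊔ Bn n →
      ∀ (m : ℕ) (Q : IntermediateField ℚ ℂ), IsLayer p m Q →
        padicValNat p (classNo (L ⊔ E ⊔ Q)) =
          padicValNat p (classNo ((L ⊓ (K ⊔ Bn (n₁ + n₂ + n₃))) ⊔ E ⊔ Q)) := by
    intro n hn L hkL hL m Q hQ
    obtain ⟨b, rfl⟩ := Nat.exists_eq_add_of_le hn
    exact hn₂ _ (by omega) b L hkL hL (hn₁ _ (by omega) b L hkL hL) m Q hQ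
  refine ⟨n₁ + n₂ + n₃, fun B₀ hB₀ => ?_⟩
  obtain rfl := huni _ B₀ hB₀
  refine ⟨?_, ?_⟩
  · intro a ha n hn B₁ B₂ hB₁ hB₂ L hkL hL hnL hcyc L₁ hk1 h1L hd1 hd2 m Q hQ
    obtain ⟨e, he⟩ := hd2
    obtain rfl := huni n B₁ hB₁
    obtain rfl := huni (n + 1) B₂ hB₂
    obtain ⟨r, hr, hdr⟩ := dvd_split l a _ ha
    rw [hall (n + 1) (by omega) L hkL hL m Q hQ,
      cor2 l a r _ hr k K Bn hT hdr hno (n + 1) (by omega) L hkL hL hcyc hnL L₁ hk1 h1L e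
        (dvd_of_eq he) hd1]
  · intro n hn B₁ hB₁ L hkL hL m Q hQ
    obtain rfl := huni n B₁ hB₁
    exact hall n hn L hkL hL m Q hQ

/-- the statement for `k = kk A B` and one good prime `p` -/
theorem fin_pE (hURE : S_URE) (hFIN : S_FIN3) (hFINI : S_FINI) (hLAY : Pool.Agent.MUXI.Si_LAY)
    (hIAF : Pool.Agent.MUXI.Si_IAF) (hREX : Sy_REX) (hUNF : S_UNF) (hUNFI : S_UNFI)
    (hJTR : Pool.Agent.JT.Sj_JTR) (hDIR : Sj_DIR)
    (hLAYs : Sj_LAY) (A B : ℤ) (hc : CQ A B) (T : TorX A B) (hNL : NLex A B)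
    (hd3 : absD A B ≠ 3) (hd4 : absD A B ≠ 4) (hk2 : Module.finrank ℚ (kk A B) = 2)
    (hki : ∃ z ∈ kk A B, (starRingEnd ℂ) z ≠ z) (p : ℕ) (hp : p.Prime)
    (hp5 : 5 ≤ p) (hpD : ¬ (p : ℤ) ∣ absD A B)
    (hgood : (∃ (P : Ideal (OO A B)) (V V' : ValuationSubring ℂ), IsPN p P ∧ IsPN p (cjI P) ∧
        OverI V P ∧ OverI V' (cjI P) ∧ (p : ℂ) ∈ V.nonunits ∧ (p : ℂ) ∈ V'.nonunits ∧
        (∀ (N₀ : ℕ) (ι : Type) (R : Reps A B N₀ ι), GRd V R) ∧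
        ∀ (N₀ : ℕ) (ι : Type) (R : Reps A B N₀ ι), GRd V' R) ∨
      ((idl (A := A) (B := B) p).IsPrime ∧ ∃ V : ValuationSubring ℂ,
        OverI V (idl (A := A) (B := B) p) ∧ (p : ℂ) ∈ V.nonunits ∧
        ∀ (N₀ : ℕ) (ι : Type) (R : Reps A B N₀ ι), GRd V R)) : StPE (kk A B) p := by
  intro K fdK hk hG hab hdeg hram E fdE hkE hGE hdE l hl
  obtain ⟨c, hdE⟩ := hdE
  have hpF : Fact p.Prime := ⟨hp⟩
  have hU : TorU A B K := hJTR A B hc T hNL K hk hG hab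
  obtain ⟨M, hM0, hM⟩ := hDIR A B hc T K hU
  -- the exponent `h`
  obtain ⟨g, h, hgen, hls⟩ : ∃ g h : ℕ, Pool.Agent.TWR.Gen l g h ∧
      ((l = 3 ∧ h = 1) ∨ (l = 2 ∧ h = 2)) := by
    rcases hl with rfl | rfl
    · exact ⟨5, 2, Or.inr ⟨rfl, rfl, rfl⟩, Or.inr ⟨rfl, rfl⟩⟩
    · exact ⟨4, 1, Or.inl ⟨rfl, rfl, rfl⟩, Or.inl ⟨rfl, rfl⟩⟩
  have hlp : l.Prime := by
    rcases hl with rfl | rfl
    · exact Nat.prime_two
    · exact Nat.prime_three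
  have hlF : Fact l.Prime := ⟨hlp⟩
  have hpl' : p ≠ l := by rcases hl with rfl | rfl <;> omega
  have hpl : ¬ p ∣ l ^ h := by
    intro h3
    exact hpl' ((Nat.prime_dvd_prime_iff_eq hp hlp).1 (hp.dvd_of_dvd_pow h3))
  -- a base level
  have hD0 : absD A B ≠ 0 := by
    intro h3
    exact hpD (by rw [h3]; exact dvd_zero _)
  have hDn : (((absD A B).natAbs : ℕ) : ℤ) = |absD A B| := Int.natCast_natAbs _
  have e1 : 2 * (absD A B).natAbs ≠ 0 := mul_ne_zero two_ne_zero (Int.natAbs_ne_zero.2 hD0)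
  have e2 : ¬ p ∣ 2 * (absD A B).natAbs := by
    intro h3
    rcases (Nat.Prime.dvd_mul hp).1 h3 with h4 | h4
    · have := Nat.le_of_dvd (by norm_num) h4
      omega
    · exact hpD (Int.natCast_dvd.2 h4)
  have e3 : 2 * absD A B ∣ ((2 * (absD A B).natAbs : ℕ) : ℤ) := by
    rw [Nat.cast_mul, hDn, Nat.cast_two]
    exact mul_dvd_mul_left 2 ((dvd_abs _ _).2 dvd_rfl)
  obtain ⟨Bn, hlay, hmono, huni⟩ := layers hLAYs l hl
  have hfL : ∀ n, FiniteDimensional ℚ ↥(K ⊔ Bn n) := fun n => by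
    have : FiniteDimensional ℚ (Bn n) := (LAY_thm l n (Bn n) (hlay n)).1
    exact IntermediateField.finiteDimensional_sup K (Bn n)
  have fdk : FiniteDimensional ℚ (kk A B) := FiniteDimensional.of_injective
    (IntermediateField.inclusion hk).toLinearMap
    (IntermediateField.inclusion hk).toRingHom.injective
  have hT : Twr l (kk A B) K Bn := ⟨hk, hG, hab, hlay, hmono⟩
  have hNL' : ∃ (b : Ideal (OO A B)) (L : PeriodPair) (om : ℂ), IsNL b L om := hNL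
  refine fin_gE hURE p l hpl' (kk A B) K hk2 hki Bn hT E hkE hGE c hdE huni ?_
  rcases hgood with ⟨P, V, V', hP, -, hV, hV', -, -, hR, hR'⟩ | ⟨hPr, V, hV, -, hR⟩
  · have hSet : SetG p A B P V (2 * (absD A B).natAbs) := ⟨hc, hp, hp5, hP, hV, hpD, e1, e2, e3⟩
    obtain ⟨ι, iι, ⟨R⟩⟩ := hREX A B hc hd3 hd4 1 one_ne_zero
    obtain ⟨f, hf0, hfp, hlf, hfD, hKf⟩ := hUNF p A B P V V' _ hSet hV' T 1 ι R
      (hR 1 ι R) (hR' 1 ι R) K hk hdeg M hM0 hM hram (l ^ h)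
      (pow_ne_zero _ hlp.ne_zero) hpl
    have hS : SetG p A B P V f := ⟨hc, hp, hp5, hP, hV, hpD, hf0, hfp, hfD⟩
    obtain ⟨ι', iι', ⟨R'⟩⟩ := hREX A B hc hd3 hd4 (p * f) (mul_ne_zero hp.ne_zero hf0)
    exact hFIN l g h hgen p A B P V f hS hlf T ι' R' (hR _ _ R') K hk hdeg hKf Bn
      hlay hmono (fun n => lvl hLAY hIAF l h hls A B hc T hNL' f hf0 K hKf n (Bn n) (hlay n))
  · have hSet : SetI p A B (idl (A := A) (B := B) p) V (2 * (absD A B).natAbs) :=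
      ⟨hc, hp, hp5, rfl, hPr, hV, hpD, e1, e2, e3⟩
    obtain ⟨ι, iι, ⟨R⟩⟩ := hREX A B hc hd3 hd4 (p * (2 * (absD A B).natAbs))
      (mul_ne_zero hp.ne_zero e1)
    obtain ⟨f, hf0, hfp, hlf, hfD, hKf⟩ := hUNFI p A B _ V _ hSet T ι R
      (hR _ ι R) K hk hdeg M hM0 hM hram (l ^ h) (pow_ne_zero _ hlp.ne_zero) hpl
    have hS : SetI p A B (idl (A := A) (B := B) p) V f :=
      ⟨hc, hp, hp5, rfl, hPr, hV, hpD, hf0, hfp, hfD⟩
    obtain ⟨ι', iι', ⟨R'⟩⟩ := hREX A B hc hd3 hd4 (p * f) (mul_ne_zero hp.ne_zero hf0)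
    exact hFINI l g h hgen p A B _ V f hS hlf T ι' R' (hR _ _ R') K hk hdeg hKf Bn
      hlay hmono (fun n => lvl hLAY hIAF l h hls A B hc T hNL' f hf0 K hKf n (Bn n) (hlay n))

/-- All imaginary quadratic `k` except `ℚ(i)` and `ℚ(√-3)`, all primes outside a finite set. -/
theorem finalE (hURE : S_URE) (hFIN : S_FIN3) (hFINI : S_FINI) (hLAY : Pool.Agent.MUXI.Si_LAY)
    (hIAF : Pool.Agent.MUXI.Si_IAF)
    (hREX : Sy_REX) (hNLE : Sy_NLE) (hUNF : S_UNF) (hUNFI : S_UNFI)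
    (hTOR : ∀ A B : ℤ, CQ A B → TorX A B)
    (hGRB : Pool.Agent.MUXW.Sy_GRB) (hALU : Pool.Agent.MUXV.Sq_ALU)
    (hJTR : Pool.Agent.JT.Sj_JTR) (hJQF : Pool.Agent.JT.Sj_JQF) (hDIR : Sj_DIR)
    (hLAYs : Sj_LAY) (k : IntermediateField ℚ ℂ) (h2 : Module.finrank ℚ k = 2)
    (hi : ∃ z ∈ k, (starRingEnd ℂ) z ≠ z) (h4 : ∀ z ∈ k, z ^ 2 ≠ -1)
    (h3 : ∀ z ∈ k, z ^ 2 ≠ -3) :
    ∃ S : Finset ℕ, ∀ p : ℕ, p.Prime → p ∉ S → StPE k p := by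
  obtain ⟨d, hd, rfl, -⟩ := hJQF k h2 hi
  have hd1 : d ≠ 1 := by
    rintro rfl
    exact h4 _ kk_one Complex.I_sq
  have hd3 : d ≠ 3 := by
    rintro rfl
    obtain ⟨z, hz, hz3⟩ := kk_three
    exact h3 z hz hz3
  have hc : CQ (MUXZ.pA d) (MUXZ.pB d) := MUXZ.cq_p hd
  have T := hTOR _ _ hc
  have hD3 : absD (MUXZ.pA d) (MUXZ.pB d) ≠ 3 := by
    rw [MUXZ.absD_p]
    split_ifs <;> omega
  have hD4 : absD (MUXZ.pA d) (MUXZ.pB d) ≠ 4 := by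
    rw [MUXZ.absD_p]
    split_ifs <;> omega
  have hNL : NLex (MUXZ.pA d) (MUXZ.pB d) := by
    obtain ⟨L, om, hL⟩ := hNLE _ _ hc hD3 hD4 ⊤ (by
      have h1 := natCast_ne_zero' hc one_ne_zero
      intro h5
      have h6 : ((1 : ℕ) : OO (MUXZ.pA d) (MUXZ.pB d)) ∈
        (⊤ : Ideal (OO (MUXZ.pA d) (MUXZ.pB d))) := Submodule.mem_top
      rw [h5, Ideal.mem_bot] at h6
      exact h1 h6)
    exact ⟨⊤, L, om, hL⟩
  obtain ⟨ι, iι, ⟨R⟩⟩ := hREX _ _ hc hD3 hD4 1 one_ne_zero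
  obtain ⟨n₀, hn0, hn₀⟩ := t_GOOD _ _ hc T hGRB hALU 1 ι R
  refine ⟨n₀.primeFactors, fun p hp hpS => ?_⟩
  have hpn' : ¬ p ∣ n₀ := fun h5 => hpS (Nat.mem_primeFactors.2 ⟨hp, h5, hn0⟩)
  obtain ⟨hp5, hpD, hgood⟩ := hn₀ p hp hpn'
  exact fin_pE hURE hFIN hFINI hLAY hIAF hREX hUNF hUNFI hJTR hDIR hLAYs _ _ hc T hNL hD3 hD4 h2 hi
    p hp hp5 hpD hgood

end Pool.Agent.TWI
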