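import Pool.Agent.TWI.StI1
import Pool.Agent.TWT.EVH
import Pool.Agent.TWT.UEX
import Pool.Agent.TWT.UQN
import Pool.Agent.TWT.ODE
import Pool.Agent.TWT.TAF
import Pool.Agent.TWT.PTS
import Pool.Agent.TWT.TAY

/-!
# TWI, module EXP: the expansions at the points outside the kernel of reduction (helper43)
-/

set_option autoImplicit false

open WeierstrassCurve PowerSeries

namespace Pool.Agent.TWI

open _root_.MU3 Pool.Agent.MU3A Pool.Agent.MU3B Pool.Agent.MUX Pool.Agent.MUXU Pool.Agent.TWT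
open Pool.Agent.MUXV (GR InK tX HalfI)
open Pool.Agent.TWT.TAY

namespace EXP

/-! ## Formal part -/

section
variable {A B : Type} [CommRing A] [CommRing B] (φ : A →+* B)

lemma map_ddX (g : PowerSeries A) :
    PowerSeries.map φ (d⁄dX A g) = d⁄dX B (PowerSeries.map φ g) := by
  ext j
  rw [PowerSeries.coeff_map, PowerSeries.coeff_derivative, PowerSeries.coeff_derivative,
    PowerSeries.coeff_map, map_mul, map_add, map_natCast, map_one]

lemma map_dW (a2 a4 : A) (f : MvPolynomial (Fin 2) A) :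
    MvPolynomial.map φ (dW a2 a4 f) = dW (φ a2) (φ a4) (MvPolynomial.map φ f) := by
  induction f using MvPolynomial.induction_on with
  | C a =>
    rw [MvPolynomial.map_C, MvPolynomial.derivation_C, MvPolynomial.derivation_C, map_zero]
  | add p q hp hq => rw [map_add, map_add, map_add, map_add, hp, hq]
  | mul_X p i hp =>
    rw [Derivation.leibniz, map_mul, Derivation.leibniz, map_add, smul_eq_mul, smul_eq_mul,
      smul_eq_mul, smul_eq_mul, map_mul, map_mul, hp, MvPolynomial.map_X]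
    congr 2
    unfold dW
    rw [MvPolynomial.mkDerivation_X, MvPolynomial.mkDerivation_X]
    fin_cases i
    · simp
    · simp

lemma map_dW_iter (a2 a4 : A) (k : ℕ) (f : MvPolynomial (Fin 2) A) :
    MvPolynomial.map φ ((dW a2 a4)^[k] f) = (dW (φ a2) (φ a4))^[k] (MvPolynomial.map φ f) := by
  induction k generalizing f with
  | zero => rfl
  | succ k ih => rw [Function.iterate_succ_apply, Function.iterate_succ_apply, ih, map_dW]

lemma map_aev (g h : PowerSeries A) (f : MvPolynomial (Fin 2) A) :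
    PowerSeries.map φ (MvPolynomial.aeval ![g, h] f) =
      MvPolynomial.aeval ![PowerSeries.map φ g, PowerSeries.map φ h] (MvPolynomial.map φ f) := by
  have h1 : ∀ a : A, PowerSeries.map φ (algebraMap A (PowerSeries A) a) =
      ((PowerSeries.C : B →+* PowerSeries B).comp φ) a := by
    intro a
    rw [show algebraMap A (PowerSeries A) a = PowerSeries.C a from rfl, PowerSeries.map_C]
    rfl
  rw [map_ev (PowerSeries.map φ) _ h1 g h f, MvPolynomial.aeval_def, MvPolynomial.eval₂_map]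
  rfl

end

/-- the formal logarithm -/
noncomputable def lamI (κ : PowerSeries ℂ) : PowerSeries ℂ :=
  PowerSeries.mk fun j => if 0 < j then PowerSeries.coeff (j - 1) κ * Ring.inverse (j : ℂ) else 0

lemma lamI_dvd (κ : PowerSeries ℂ) (n : ℕ) :
    (PowerSeries.X : PowerSeries ℂ) ^ n ∣ lamF n κ - lamI κ := by
  rw [PowerSeries.X_pow_dvd_iff]
  intro m hm
  rw [map_sub]
  unfold lamF lamI
  rw [PowerSeries.coeff_mk, PowerSeries.coeff_mk]
  by_cases h : 0 < m
  · rw [if_pos ⟨h, hm⟩, if_pos h, sub_self]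
  · rw [if_neg (fun h' => h h'.1), if_neg h, sub_self]

lemma coeff_sum_eq (κ : PowerSeries ℂ) (n : ℕ) (c : ℕ → ℂ) (j : ℕ) (hj : j < n) :
    PowerSeries.coeff j (∑ k ∈ Finset.range n, PowerSeries.C (c k) * lamF n κ ^ k) =
      PowerSeries.coeff j (∑ k ∈ Finset.range n, PowerSeries.C (c k) * lamI κ ^ k) := by
  have h : (PowerSeries.X : PowerSeries ℂ) ^ n ∣
      (∑ k ∈ Finset.range n, PowerSeries.C (c k) * lamF n κ ^ k) -
        ∑ k ∈ Finset.range n, PowerSeries.C (c k) * lamI κ ^ k := by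
    rw [← Finset.sum_sub_distrib]
    refine Finset.dvd_sum fun k _ => ?_
    rw [← mul_sub]
    exact Dvd.dvd.mul_left ((lamI_dvd κ n).trans (sub_dvd_pow_sub_pow _ _ k)) _
  rw [PowerSeries.X_pow_dvd_iff] at h
  have h2 := h j hj
  rw [map_sub, sub_eq_zero] at h2
  exact h2

/-- the first clause, formally -/
lemma first (V : ValuationSubring ℂ) (a2 a4 : V) (gx gy κ : PowerSeries V)
    (hdx : d⁄dX V gx = κ * (2 * gy))
    (hdy : d⁄dX V gy = κ * (3 * gx ^ 2 + 2 * PowerSeries.C a2 * gx + PowerSeries.C a4))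
    (f : MvPolynomial (Fin 2) V) (n j : ℕ) (hj : j < n) :
    ((PowerSeries.coeff j (MvPolynomial.aeval ![gx, gy] f) : V) : ℂ) =
      PowerSeries.coeff j (∑ k ∈ Finset.range n, PowerSeries.C
        (MvPolynomial.aeval ![((PowerSeries.constantCoeff gx : V) : ℂ),
          ((PowerSeries.constantCoeff gy : V) : ℂ)] ((dW a2 a4)^[k] f) / (k.factorial : ℂ)) *
        lamI (PowerSeries.map (algebraMap V ℂ) κ) ^ k) := by
  have hM2 : PowerSeries.map (algebraMap V ℂ) (2 : PowerSeries V) = 2 := map_ofNat _ 2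
  have hM3 : PowerSeries.map (algebraMap V ℂ) (3 : PowerSeries V) = 3 := map_ofNat _ 3
  have h1 := congrArg (PowerSeries.map (algebraMap V ℂ)) hdx
  rw [map_ddX, map_mul, map_mul, hM2] at h1
  have h2 := congrArg (PowerSeries.map (algebraMap V ℂ)) hdy
  rw [map_ddX, map_mul, map_add, map_add, map_mul, map_pow, map_mul, map_mul, hM2, hM3,
    PowerSeries.map_C, PowerSeries.map_C] at h2
  have hT := t_TAF ℂ n (fun j h0 _ => by
      rw [isUnit_iff_ne_zero]
      exact_mod_cast h0.ne') (algebraMap V ℂ a2) (algebraMap V ℂ a4) _ _ _ h1 h2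
    (MvPolynomial.map (algebraMap V ℂ) f) j hj
  rw [← map_aev, PowerSeries.coeff_map, coeff_sum_eq _ n _ j hj] at hT
  have e0 : ((PowerSeries.coeff j (MvPolynomial.aeval ![gx, gy] f) : V) : ℂ) =
      algebraMap V ℂ (PowerSeries.coeff j (MvPolynomial.aeval ![gx, gy] f)) := rfl
  rw [e0, hT]
  congr 1
  refine Finset.sum_congr rfl fun k _ => ?_
  congr 2
  rw [← map_dW_iter, MvPolynomial.aeval_map_algebraMap, Ring.inverse_eq_inv', div_eq_mul_inv]
  rfl

end EXP

open EXP

theorem i_EXP : S_EXP := by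
  intro V L a2 a4 hG
  obtain ⟨W, ξ, G, ha2, ha4⟩ := hG
  obtain ⟨a6, ha6⟩ : ∃ a6 : V, (a6 : ℂ) = W.a₆ :=
    ⟨⟨W.a₆, (ValuationSubring.valuation_le_one_iff _ _).1 G.int.a6⟩, rfl⟩
  have hinj : Function.Injective (algebraMap V ℂ) := Subtype.val_injective
  obtain ⟨U, hU0, hU⟩ := t_UEX V a2 a4 a6
  have hq0 : PowerSeries.constantCoeff (qF (PowerSeries.C a2) (PowerSeries.C a4)
      (PowerSeries.C a6) PowerSeries.X U) = 1 := by
    simp [qF]
  obtain ⟨κ, hκ⟩ : ∃ κ : V⟦X⟧, κ * qF (PowerSeries.C a2) (PowerSeries.C a4) (PowerSeries.C a6)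
      PowerSeries.X U = 1 := by
    have h1 : IsUnit (qF (PowerSeries.C a2) (PowerSeries.C a4) (PowerSeries.C a6)
      PowerSeries.X U) := by
      rw [PowerSeries.isUnit_iff_constantCoeff, hq0]
      exact isUnit_one
    obtain ⟨u, hu⟩ := h1
    exact ⟨↑u⁻¹, by rw [← hu]; exact u.inv_mul⟩
  have hκ0 : PowerSeries.constantCoeff κ = 1 := by
    have := congrArg PowerSeries.constantCoeff hκ
    rwa [map_mul, hq0, mul_one, map_one] at this
  refine ⟨lamI (PowerSeries.map (algebraMap V ℂ) κ), ?_, ?_, ?_⟩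
  · simp [lamI]
  · simp [lamI, hκ0]
  · intro z hz
    obtain ⟨x, hx⟩ : ∃ x : V, (x : ℂ) = xn L z :=
      ⟨⟨_, (ValuationSubring.valuation_le_one_iff _ _).1 (Pool.Agent.MUXV.int_X hz).2⟩, rfl⟩
    obtain ⟨y, hy⟩ : ∃ y : V, (y : ℂ) = yy L z :=
      ⟨⟨_, (ValuationSubring.valuation_le_one_iff _ _).1 (Pool.Agent.MUXV.int_Y G hz)⟩, rfl⟩
    have hcurve : y ^ 2 = x ^ 3 + a2 * x ^ 2 + a4 * x + a6 := by
      obtain ⟨h1, -⟩ := G.some z (Pool.Agent.MUXV.int_X hz).1
      have h2 := (Affine.equation_iff _ _).1 h1.1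
      rw [G.int.a1, G.int.a3] at h2
      apply Subtype.val_injective
      push_cast
      rw [hx, hy, ha2, ha4, ha6]
      linear_combination h2
    obtain ⟨E, hE⟩ : ∃ E : V⟦X⟧, E * (1 - PowerSeries.C x * PowerSeries.X ^ 2 * U) = 1 := by
      have h1 : IsUnit (1 - PowerSeries.C x * PowerSeries.X ^ 2 * U) := by
        rw [PowerSeries.isUnit_iff_constantCoeff]
        simp
      obtain ⟨w, hw⟩ := h1
      exact ⟨↑w⁻¹, by rw [← hw]; exact w.inv_mul⟩
    have hE0 : PowerSeries.constantCoeff E = 1 := by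
      have := congrArg PowerSeries.constantCoeff hE
      rw [map_mul] at this
      simpa using this
    obtain ⟨gx, hgx⟩ : ∃ gx : V⟦X⟧, gx = xF (PowerSeries.C a2) (PowerSeries.C a4)
      (PowerSeries.C a6) (PowerSeries.C x) (PowerSeries.C y) PowerSeries.X U E := ⟨_, rfl⟩
    obtain ⟨gy, hgy⟩ : ∃ gy : V⟦X⟧, gy = yF (PowerSeries.C a2) (PowerSeries.C a4)
      (PowerSeries.C a6) (PowerSeries.C x) (PowerSeries.C y) PowerSeries.X U E := ⟨_, rfl⟩
    obtain ⟨hdx, hdy⟩ := t_ODE V a2 a4 a6 x y hcurve U E κ hU hE hκ gx gy hgx hgy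
    have hgx0 : PowerSeries.constantCoeff gx = x := by
      rw [hgx]; simp [xF]
    have hgy0 : PowerSeries.constantCoeff gy = y := by
      have h2 : PowerSeries.constantCoeff (2 : V⟦X⟧) = 2 := map_ofNat _ 2
      rw [hgy]
      simp [yF, nF, hU0, hE0, h2]
      ring
    refine ⟨gx, gy, ?_, ?_⟩
    · intro f n j hj
      have h := first V a2 a4 gx gy κ hdx hdy f n j hj
      rw [hgx0, hgy0, hx, hy] at h
      exact h
    · intro R hR hRL f n hn
      obtain ⟨hvt, hvt0, hvt2⟩ := Pool.Agent.MUXV.v_tX_lt G hR hRL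
      obtain ⟨hu1, hEq, he1, hXe, hYe⟩ := t_PTS V W L (xn L) (yy L) ξ G z R hz hR hRL _ _ rfl rfl
      obtain ⟨t, ht⟩ : ∃ t : V, (t : ℂ) = tX (xn L) (yy L) R :=
        ⟨⟨_, (ValuationSubring.valuation_le_one_iff _ _).1 hvt.le⟩, rfl⟩
      obtain ⟨u, hu⟩ : ∃ u : V, (u : ℂ) = 1 / (xn L R * (tX (xn L) (yy L) R) ^ 2) :=
        ⟨⟨_, (ValuationSubring.valuation_le_one_iff _ _).1 hu1.le⟩, rfl⟩
      rw [← ht] at hu hEq he1 hXe hYe hvt ⊢
      rw [← hu] at hEq he1 hXe hYe
      rw [← hx] at he1 hXe hYe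
      rw [← hy] at hXe hYe
      rw [← ha2, ← ha4, ← ha6] at hEq hXe hYe
      have hEqV : EqU a2 a4 a6 t u := inj_EqU (algebraMap V ℂ) hinj hEq
      obtain ⟨e, he⟩ : ∃ e : V, (e : ℂ) = 1 / (1 - (x : ℂ) * (t : ℂ) ^ 2 * u) :=
        ⟨⟨_, (ValuationSubring.valuation_le_one_iff _ _).1 (by
          rw [map_div₀, map_one, he1, div_one])⟩, rfl⟩
      have hne : (1 - (x : ℂ) * (t : ℂ) ^ 2 * u) ≠ 0 := by
        intro h0
        rw [h0, map_zero] at he1
        exact zero_ne_one he1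
      have heV : e * (1 - x * t ^ 2 * u) = 1 := by
        apply Subtype.val_injective
        push_cast
        rw [he]
        field_simp
      rw [← he] at hXe hYe
      -- the quotient
      obtain ⟨I, hI⟩ : ∃ I : Ideal V, I = Ideal.span {t ^ n} := ⟨_, rfl⟩
      obtain ⟨π, hπ⟩ : ∃ π : V →+* V ⧸ I, π = Ideal.Quotient.mk I := ⟨_, rfl⟩
      have hsp : (π t) ^ n = 0 := by
        rw [← map_pow, hπ, Ideal.Quotient.eq_zero_iff_mem, hI]
        exact Ideal.mem_span_singleton_self _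
      obtain ⟨φ, hφX, hφC, hφ⟩ := t_EVH V (V ⧸ I) π (π t) n hsp hn
      have hφU : φ U = π u := by
        refine t_UQN (V ⧸ I) (π a2) (π a4) (π a6) (π t) _ _ n hsp ?_ (map_EqU π hEqV)
        have := map_EqU φ hU
        rwa [hφC, hφC, hφC, hφX] at this
      have hφE : φ E = π e := by
        have h1 := congrArg φ hE
        rw [map_mul, map_sub, map_one, map_mul, map_mul, map_pow, hφC, hφX, hφU] at h1
        have h2 := congrArg π heV
        rw [map_mul, map_sub, map_one, map_mul, map_mul, map_pow] at h2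
        calc φ E = φ E * (π e * (1 - π x * π t ^ 2 * π u)) := by rw [h2, mul_one]
          _ = π e * (φ E * (1 - π x * π t ^ 2 * π u)) := by ring
          _ = π e := by rw [h1, mul_one]
      obtain ⟨XV, hXV⟩ : ∃ XV : V, XV = xF a2 a4 a6 x y t u e := ⟨_, rfl⟩
      obtain ⟨YV, hYV⟩ : ∃ YV : V, YV = yF a2 a4 a6 x y t u e := ⟨_, rfl⟩
      have hXVc : xn L (z + R) = (XV : ℂ) := by
        rw [hXe, hXV]
        exact (map_xF (algebraMap V ℂ) a2 a4 a6 x y t u e).symm
      have hYVc : yy L (z + R) = (YV : ℂ) := by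
        rw [hYe, hYV]
        exact (map_yF (algebraMap V ℂ) a2 a4 a6 x y t u e).symm
      have hφgx : φ gx = π XV := by
        rw [hgx, hXV, map_xF, map_xF, hφC, hφC, hφC, hφC, hφC, hφX, hφU, hφE]
      have hφgy : φ gy = π YV := by
        rw [hgy, hYV, map_yF, map_yF, hφC, hφC, hφC, hφC, hφC, hφX, hφU, hφE]
      have hL : π (MvPolynomial.aeval ![XV, YV] f) = π (∑ j ∈ Finset.range n,
          PowerSeries.coeff j (MvPolynomial.aeval ![gx, gy] f) * t ^ j) := by
        have h1 : φ (MvPolynomial.aeval ![gx, gy] f) = π (MvPolynomial.aeval ![XV, YV] f) := by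
          rw [map_ev φ π (fun a => hφC a) gx gy f, hφgx, hφgy,
            ← map_ev π π (fun _ => rfl) XV YV f]
        rw [← h1, hφ, map_sum]
        refine Finset.sum_congr rfl fun j _ => ?_
        rw [map_mul, map_pow]
      rw [hπ] at hL
      have hmem := Ideal.Quotient.eq.1 hL
      rw [hI] at hmem
      obtain ⟨r, hr⟩ := Ideal.mem_span_singleton'.1 hmem
      have key : MvPolynomial.aeval ![xn L (z + R), yy L (z + R)] f -
          ∑ j ∈ Finset.range n, ((PowerSeries.coeff j (MvPolynomial.aeval ![gx, gy] f) : V) : ℂ) *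
            (t : ℂ) ^ j = ((r * t ^ n : V) : ℂ) := by
        rw [hr, hXVc, hYVc, ← coe_ev]
        push_cast
        rfl
      rw [key]
      push_cast
      rw [map_mul, map_pow]
      calc V.valuation (r : ℂ) * V.valuation (t : ℂ) ^ n ≤ 1 * V.valuation (t : ℂ) ^ n :=
            mul_le_mul_left ((ValuationSubring.valuation_le_one_iff _ _).2 r.2) _
        _ = V.valuation (t : ℂ) ^ n := one_mul _

end Pool.Agent.TWI
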