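import Pool.Agent.TWI.StI1
import Pool.Agent.TWI.TEP
import Pool.Agent.TWT.FOI

/-!
# TWI, block A: assembly (helper3)
-/

set_option autoImplicit false

open WeierstrassCurve Polynomial

namespace Pool.Agent.TWI

open _root_.MU3 Pool.Agent.MU3A Pool.Agent.MU3B Pool.Agent.MUX Pool.Agent.MUXU Pool.Agent.TWT
open Pool.Agent.MUXV (GR InK tX HalfI)

noncomputable section

theorem i_KEYI (hEXP : S_EXP) (hLGI : S_LGI) (hTYI : S_TYI) (hROT : S_ROT) (hKY1 : S_KY1)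
    (hGRI : S_GRI) (hPTI : S_PTI) (hKRI : S_KRI) : S_KEYI := by
  intro p A B P V f hS ι _ R hG
  obtain ⟨hGR, hp1, hint, -, hmu⟩ := hGRI p A B P V f hS ι R hG
  have hp5 := hS.p5
  have hq : 25 ≤ p ^ 2 := by nlinarith
  have h1P : (1 : OO A B) ∉ P := fun h => hS.hP.ne_top ((Ideal.eq_top_iff_one _).2 h)
  obtain ⟨hK0, hR0, hv0⟩ := hKRI p A B P V f hS ι R hG R.i0 1 h1P
  set t0 := tX (xn (R.L R.i0)) (yy (R.L R.i0)) (pt R p R.i0 1) with ht0
  have hp0 : V.valuation (p : ℂ) ≠ 0 := by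
    rw [(Valuation.ne_zero_iff _)]
    exact_mod_cast hS.pp.ne_zero
  have hτ0 : V.valuation t0 ≠ 0 := by
    intro h
    rw [h, zero_pow (by omega)] at hv0
    exact hp0 hv0.symm
  have hτ1 : V.valuation t0 < 1 := by
    by_contra h
    push Not at h
    have h2 : 1 ≤ V.valuation t0 ^ (p ^ 2 - 1) := one_le_pow₀ h
    rw [hv0] at h2
    exact absurd h2 (not_le.2 hp1)
  set τ := V.valuation t0 with hτ
  refine ⟨t0, hv0, fun h => hτ0 (by rw [hτ, h, map_zero]), ?_⟩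
  intro w hw T hT i a H ha1 hac hH z hz hz2 haz
  obtain ⟨hμ0, hIsg, hvμ, hodd, hvn, hker⟩ := hmu i
  obtain ⟨a2, a4, hGa⟩ := hGR i
  obtain ⟨hpt1, hpt2, -, -, -, hpt6, -⟩ := hPTI p A B P V f hS ι R i
  have hGR' : ∀ j, ∃ (W : WeierstrassCurve.Affine ℂ) (ξ : ℂ →+ W.Point),
      GR V W (R.L j) (xn (R.L j)) (yy (R.L j)) ξ := by
    intro j
    obtain ⟨b2, b4, W, ξ, h, -⟩ := hGR j
    exact ⟨W, ξ, h⟩
  have hfoi := t_FOI V (R.L R.i0) (R.L i) (muX R i) (nI (R.b i)) (hGR' R.i0) (hGR' i) hμ0 hIsg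
    hodd hvn hker hvμ (pt R p R.i0 1) hK0 hR0
  rw [← hpt6 1] at hfoi
  obtain ⟨hKi, hRi, hti⟩ := hfoi
  set ti := tX (xn (R.L i)) (yy (R.L i)) (pt R p i 1) with htid
  have hτ2 : τ ^ 2 < τ := by
    rw [pow_two]
    exact mul_lt_of_lt_one_right (zero_lt_iff.2 hτ0) hτ1
  have hvti : V.valuation ti = τ := by
    have e : ti = muX R i * t0 + (ti - muX R i * t0) := by ring
    have h1 : V.valuation (muX R i * t0) = τ := by rw [map_mul, hvμ, one_mul]
    rw [e, Valuation.map_add_eq_of_lt_left, h1]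
    rw [h1]
    exact lt_of_le_of_lt hti hτ2
  have hva : V.valuation (a : ℂ) = 1 := by
    have := hint (a : ℤ) (fun h => by
      have h1 : p ∣ a := by exact_mod_cast h
      have h2 : p ∣ Nat.gcd a (2 * p) := Nat.dvd_gcd h1 (Dvd.intro_left 2 rfl)
      rw [hac] at h2
      exact hS.pp.one_lt.ne' (Nat.dvd_one.1 h2))
    simpa using this
  -- the formal logarithm of `L_i`
  obtain ⟨Λ, hΛ⟩ := hEXP V (R.L i) a2 a4 hGa
  have hlam := hTYI V (R.L i) a2 a4 hGa Λ hΛ (p ^ 2) (by omega)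
    (hLGI p A B P V f hS ι R hG i a2 a4 hGa Λ hΛ)
  set lam : ℕ → ℂ := fun j => if j < p ^ 2 then PowerSeries.coeff j Λ else 0 with hlamd
  set w0 := vpi lam (p ^ 2) ti with hw0
  have hti1 : V.valuation ti < 1 := by rw [hvti]; exact hτ1
  have hw0t : V.valuation (w0 - ti) ≤ V.valuation ti ^ 2 := by
    rw [hw0, vpi]
    obtain ⟨m, hm⟩ : ∃ m, p ^ 2 = m + 2 := ⟨p ^ 2 - 2, by omega⟩
    rw [hm, Finset.sum_range_succ', Finset.sum_range_succ']
    have e0 : lam 0 = 0 := hlam.lam0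
    have e1 : lam (0 + 1) = 1 := hlam.lam1
    rw [e0, e1]
    have e : ∑ k ∈ Finset.range m, lam (k + 1 + 1) * ti ^ (k + 1 + 1) + 1 * ti ^ (0 + 1) +
        0 * ti ^ 0 - ti = ∑ k ∈ Finset.range m, lam (k + 1 + 1) * ti ^ (k + 1 + 1) := by ring
    rw [e]
    refine Valuation.map_sum_le _ fun k _ => ?_
    rw [map_mul, map_pow]
    calc V.valuation (lam (k + 1 + 1)) * V.valuation ti ^ (k + 1 + 1)
        ≤ 1 * V.valuation ti ^ 2 :=
          mul_le_mul' (hlam.int _) (pow_le_pow_right_of_le_one' hti1.le (by omega))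
      _ = _ := one_mul _
  obtain ⟨-, -, hemb, -, -, -, -, hTT, hww⟩ := t_TEP p A B P V f hS
  obtain ⟨hcard, hperm, hps⟩ := hTT T hT
  obtain ⟨hps1, hps2⟩ := hps w hw
  obtain ⟨-, -, hwle, -⟩ := hww w hw
  have hpow : ∀ b : ℂ, V.valuation b ^ (p ^ 2 - 1) = V.valuation (p : ℂ) → V.valuation b = τ := by
    intro b hb
    rw [← hv0] at hb
    exact (pow_left_inj (by omega)).mp hb
  have hS' : ∀ x ∈ T, InK V (R.L i) (xn (R.L i)) (pt R p i x) ∧ pt R p i x ∉ (R.L i).lattice ∧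
      V.valuation (tX (xn (R.L i)) (yy (R.L i)) (pt R p i x)) = V.valuation ti ∧
      V.valuation (vpi lam (p ^ 2) (tX (xn (R.L i)) (yy (R.L i)) (pt R p i x)) - w x * w0) ≤
        V.valuation ti ^ (p ^ 2) := by
    intro x hx
    have hxP := hT.nz x hx
    obtain ⟨h1, h2, h3⟩ := hKRI p A B P V f hS ι R hG i x hxP
    refine ⟨h1, h2, ?_, ?_⟩
    · rw [hvti]
      exact hpow _ h3
    · exact hROT p A B P V f hS w hw ι R hG i a2 a4 hGa lam hlam x hxP
  obtain ⟨h1, h2, h3⟩ := hKY1 V (R.L i) a2 a4 hGa p hS.pp hp5 hp1 lam hlam (OO A B) T w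
    (pt R p i) (fun x _ => hwle x) hps1 hps2 hcard w0 ti hw0t (by rw [hvti]; exact hv0) hS' a H
    ha1 hva hH z hz haz
  rw [hvti] at h2 h3 hw0t
  set Sg := ∑ x ∈ T, w x * dlX (R.L i) a (z + pt R p i x) with hSg
  have hΘ : V.valuation (ThetaH (R.L i) H z) = 1 := by
    have := (h1 0 (Or.inl (zero_mem _))).1
    simpa using this
  have hpt' : V.valuation (p : ℂ) * τ = τ ^ (p ^ 2) := by
    rw [← hv0, ← pow_succ]
    congr 1
    omega
  refine ⟨fun x => ?_, ?_, ?_⟩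
  · have hx : InK V (R.L i) (xn (R.L i)) (pt R p i x) := by
      by_cases hxP : x ∈ P
      · exact Or.inl ((hpt1 x).2 hxP)
      · exact (hKRI p A B P V f hS ι R hG i x hxP).1
    exact ⟨(h1 _ hx).1, (ValuationSubring.valuation_le_one_iff _ _).1 (h1 _ hx).2⟩
  · rw [hpt']
    have e : ∏ x ∈ T, ThetaH (R.L i) H (z + pt R p i x) -
        ThetaH (R.L i) H z ^ (p ^ 2 - 1) * (1 - muX R i * t0 * Sg) =
        (∏ x ∈ T, ThetaH (R.L i) H (z + pt R p i x) -
        ThetaH (R.L i) H z ^ (p ^ 2 - 1) * (1 - w0 * Sg)) -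
        ThetaH (R.L i) H z ^ (p ^ 2 - 1) * ((w0 - muX R i * t0) * Sg) := by ring
    rw [e]
    refine (Valuation.map_sub _ _ _).trans (max_le h3 ?_)
    rw [map_mul, map_pow, hΘ, one_pow, one_mul, map_mul]
    have h4 : V.valuation (w0 - muX R i * t0) ≤ τ ^ 2 := by
      have e2 : w0 - muX R i * t0 = (w0 - ti) + (ti - muX R i * t0) := by ring
      rw [e2]
      exact (Valuation.map_add _ _ _).trans (max_le hw0t hti)
    calc V.valuation (w0 - muX R i * t0) * V.valuation Sg ≤ τ ^ 2 * τ ^ (p ^ 2 - 2) :=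
          mul_le_mul' h4 h2
      _ = τ ^ (p ^ 2) := by rw [← pow_add]; congr 1; omega
  · calc τ * V.valuation Sg ≤ τ * τ ^ (p ^ 2 - 2) := mul_le_mul' le_rfl h2
      _ = V.valuation (p : ℂ) := by
        rw [← hv0, ← pow_succ']
        congr 1
        omega

end

end Pool.Agent.TWI
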