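import Pool.Agent.TWI.LastE
import Pool.Agent.TWI.BAllI

/-!
# TWI: Theorem C for all primes outside a finite set
-/

set_option autoImplicit false

open NumberField

namespace Pool.Agent.TWI

open Pool.Agent.RI

/-- Theorem C for all primes outside a finite set. -/
theorem last (k : IntermediateField ℚ ℂ)
    (h2 : Module.finrank ℚ k = 2) (hi : ∃ z ∈ k, (starRingEnd ℂ) z ≠ z)
    (h4 : ∀ z ∈ k, z ^ 2 ≠ -1) (h3 : ∀ z ∈ k, z ^ 2 ≠ -3) :
    ∃ S : Finset ℕ, ∀ p : ℕ, p.Prime → p ∉ S → StPE k p :=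
  lastE a_CRITI k h2 hi h4 h3

end Pool.Agent.TWI
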