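import Pool.Agent.TWG.SUM
import Pool.Agent.N2.G_GptT
import Pool.Agent.TWB.DPL
import Pool.Agent.TWB.H1G
import Pool.Agent.TWB.TWB

/-!
# TWI, block C (helper19): the symbol of an odd character modulo `(n)`: properties and Theorem G

`QI R e wt = PhiK R e wt / om_(i0)`, `e` an odd character modulo `(n)`, `|D|` divides `n`. For every valuation ring `V`
with `LocN A B V` (in particular for `V` above `(p)`, `p` inert) and good reduction of `L_(i0)`.
-/

set_option autoImplicit false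

namespace Pool.Agent.TWI

open _root_.MU3 Pool.Agent.MU3A Pool.Agent.MU3B Pool.Agent.MU3F Pool.Agent.MUX Pool.Agent.MUXH
  Pool.Agent.MuSym OnePoint Pool.Agent.TWG Pool.Agent.NS Pool.Agent.NSG Pool.Agent.N2
open Pool.Agent.MUXHY (toCQ toEI toLI nI_eq cjI_eq PhiI_eq)
open scoped ComplexConjugate

noncomputable section

variable {A B : ℤ} {n : ℕ} {ι : Type}

/-- the symbol -/
def QI [Fintype ι] (R : Reps A B n ι) (e : OO A B → ℂ) (wt : ι → ℂ) (x y : OnePoint ℚ) : ℂ :=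
  PhiK R e wt x y / R.om R.i0

/-- the level -/
def NI (A B : ℤ) (n : ℕ) : ℕ := (absD A B).toNat * n ^ 2

lemma Dpos (hc : MUX.CQ A B) : 0 < absD A B := by
  have := hc.neg
  unfold absD
  omega

lemma NI_cast (hc : MUX.CQ A B) : ((NI A B n : ℕ) : ℤ) = absD A B * (n : ℤ) ^ 2 := by
  unfold NI
  push_cast
  rw [Int.toNat_of_nonneg (Dpos hc).le]

lemma NI_ne (hc : MUX.CQ A B) (hn : n ≠ 0) : NI A B n ≠ 0 := by
  have h := Dpos hc
  unfold NI
  have h7 : (absD A B).toNat ≠ 0 := by omega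
  exact mul_ne_zero h7 (pow_ne_zero _ hn)

lemma idl_ne_bot (hn : n ≠ 0) : (idl (A := A) (B := B) n) ≠ ⊥ := by
  rw [Ne, Ideal.span_singleton_eq_bot]
  exact Pool.Agent.MUXN.Gdt.nat_ne n hn

lemma idl_ne_top (hc : MUX.CQ A B) (hn : 2 ≤ n) : (idl (A := A) (B := B) n) ≠ ⊤ := by
  intro h
  have h1 : (1 : OO A B) ∈ (idl (A := A) (B := B) n) := by rw [h]; trivial
  obtain ⟨t, ht⟩ := Ideal.mem_span_singleton.1 h1
  have h2 := congrArg nm ht
  obtain ⟨hal, hx, hz, -, -⟩ := MUXF.xf_ALG A B (toCQ hc)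
  rw [(hal _ _).2.2] at h2
  have h3 : nm (1 : OO A B) = 1 := by
    have := (hz 1).2
    simpa using this
  have h4 : nm ((n : ℕ) : OO A B) = (n : ℤ) ^ 2 := by
    have := (hz n).2
    simpa using this
  rw [h3, h4] at h2
  have h5 : (n : ℤ) ∣ 1 := ⟨n * nm t, by rw [h2]; ring⟩
  have h6 := Int.eq_one_of_dvd_one (by positivity) h5
  omega

open MUXHY.Sym in
/-- `QI` is a symbol -/
theorem q_SYM [Fintype ι] (hc : MUX.CQ A B) (hn : n ≠ 0) (R : Reps A B n ι) (e : OO A B → ℂ)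
    (he : MUX.IsEI (idl n) e) (wt : ι → ℂ) : IsSym (NI A B n) (nuX e) (QI R e wt) := by
  refine MUXHY.Sym.isSym_lin (fun c => ?_) wt (R.om R.i0)
  have h6 := MUXT.main_FTI A B hc.hB hc.neg (R.b c) (R.nl c).b_ne e n
      (Nat.pos_of_ne_zero hn) he.mul
      (fun x y hxy => he.per x y (Ideal.mem_of_dvd _ hxy (Ideal.mem_span_singleton_self _))) he.neg
  refine (h6.2 _ (NI_ne hc hn) ?_).1
  rw [NI_cast hc]
  refine ⟨1, ?_⟩
  unfold absD
  ring

/-- roots of unity -/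
theorem q_ROU (hc : MUX.CQ A B) (hn : n ≠ 0) (e : OO A B → ℂ)
    (he : MUX.IsEI (idl n) e) : ∃ r : ℕ, r ≠ 0 ∧ ∀ x, e x ≠ 0 → e x ^ r = 1 :=
  MUXHY.y_ROU A B hc _ e (idl_ne_bot hn) he

open MUXHY.Chr in
/-- the nebentypus -/
theorem q_CHR (V : ValuationSubring ℂ) (hc : MUX.CQ A B) (hn : n ≠ 0)
    (hD : absD A B ∣ (n : ℤ)) (e : OO A B → ℂ) (he : MUX.IsEI (idl n) e) :
    nuX e 1 = 1 ∧ (∀ d, V.valuation (nuX e d) ≤ 1) ∧ (∀ d, IsAlgebraic ℚ (nuX e d)) ∧
    ∀ d d' : ℤ, ((NI A B n : ℕ) : ℤ) ∣ d - d' → nuX e d = nuX e d' := by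
  obtain ⟨r, hr0, hr⟩ := q_ROU hc hn e he
  have ev : ∀ x, V.valuation (e x) ≤ 1 := by
    intro x
    by_cases hx : e x = 0
    · rw [hx, map_zero]
      exact zero_le_one
    · exact (MUXHY.Val.root_one V r (e x) hr0 (hr x hx)).le
  have ea : ∀ x, IsAlgebraic ℚ (e x) := by
    intro x
    by_cases hx : e x = 0
    · rw [hx]
      exact isAlgebraic_zero
    · exact IsAlgebraic.of_pow (Nat.pos_of_ne_zero hr0) (by rw [hr x hx]; exact isAlgebraic_one)
  have hgD : idl n ≤ MUX.sp ((absD A B : ℤ) : OO A B) := by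
    rw [Ideal.span_singleton_le_span_singleton]
    obtain ⟨k, hk⟩ := hD
    refine ⟨(k : OO A B), ?_⟩
    have := congrArg (fun n : ℤ => (n : OO A B)) hk
    simpa using this
  have hcopD : ∀ d : ℤ, e (d : OO A B) ≠ 0 → IsCoprime d (absD A B) := by
    intro d hd
    have h5 := (he.supp _).1 hd
    apply coprime_int (A := A) (B := B)
    rw [← Ideal.isCoprime_span_singleton_iff]
    rw [Ideal.isCoprime_iff_sup_eq] at h5 ⊢
    exact top_le_iff.1 (h5 ▸ sup_le_sup_left hgD _)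
  refine ⟨?_, ?_, ?_, ?_⟩
  · unfold nuX
    have : ((1 : ℤ) : OO A B) = 1 := by push_cast; rfl
    rw [chiX_one, this, he.one]
    norm_num
  · intro d
    unfold nuX
    rw [map_mul]
    exact mul_le_one' (MUXHY.Val.int_le V _) (ev _)
  · intro d
    unfold nuX
    exact (isAlgebraic_intCast (R := ℚ) (A := ℂ) _).mul (ea _)
  · intro d d' hd
    rw [NI_cast hc] at hd
    obtain ⟨t, ht⟩ := hd
    have hD : absD A B ∣ d - d' := ⟨(n : ℤ) ^ 2 * t, by rw [ht]; ring⟩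
    unfold nuX
    by_cases hcop : IsCoprime d (absD A B)
    · have h5 : chiX A B d' = chiX A B d := ((MUXF.xf_CHI A B (toCQ hc) d hcop).2.2 d' hD)
      have h6 : e (d : OO A B) = e (d' : OO A B) := by
        apply he.per
        have h7 : (d : OO A B) - (d' : OO A B) =
            (((absD A B * n * t : ℤ)) : OO A B) * ((n : ℕ) : OO A B) := by
          have h8 : (d : OO A B) - (d' : OO A B) = ((d - d' : ℤ) : OO A B) := by push_cast; rfl
          rw [h8, ht]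
          push_cast
          ring
        rw [h7]
        exact Ideal.mul_mem_left _ _ (Ideal.mem_span_singleton_self _)
      rw [h5, h6]
    · have h5 : e (d : OO A B) = 0 := by
        by_contra hne
        exact hcop (hcopD d hne)
      have h6 : e (d' : OO A B) = 0 := by
        by_contra hne
        apply hcop
        obtain ⟨s, hs⟩ := hD
        have h7 : d = d' + absD A B * s := by linarith
        rw [h7]
        exact (IsCoprime.add_mul_left_left_iff).2 (hcopD d' hne)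
      rw [h5, h6, mul_zero, mul_zero]

/-- the values are algebraic -/
theorem q_ALG [Fintype ι] (hc : MUX.CQ A B) (hn : 2 ≤ n) (R : Reps A B n ι) (e : OO A B → ℂ)
    (he : MUX.IsEI (idl n) e) (wt : ι → ℂ) (hw : ∀ i, IsAlgebraic ℚ (wt i)) (x y : OnePoint ℚ) :
    IsAlgebraic ℚ (QI R e wt x y) := by
  have hn0 : n ≠ 0 := by omega
  obtain ⟨r, hr, her⟩ := q_ROU hc hn0 e he
  have hcop := MUXY.z_COP A B n ι R (idl n) 1
    (by rw [pow_one]; exact Ideal.mem_span_singleton_self _)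
  have h := fun i => (MUXY.z_ALP A B hc (MUXC.c_TOR A B hc) n ι inferInstance R (idl n) e
    (idl_ne_bot hn0) (idl_ne_top hc hn) he hcop r hr her i x y).2
  have e1 : QI R e wt x y = ∑ i, wt i * (PhiI (R.b i) e x y / R.om R.i0) := by
    unfold QI PhiK
    rw [Finset.sum_div]
    exact Finset.sum_congr rfl fun i _ => by ring
  rw [e1]
  exact (IsIntegral.sum _ fun i _ => ((hw i).mul (h i)).isIntegral).isAlgebraic

/-- depletion -/
theorem q_DEP [Fintype ι] (hc : MUX.CQ A B) (hn : n ≠ 0) (R : Reps A B n ι) (e : OO A B → ℂ)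
    (he : MUX.IsEI (idl n) e) (wt : ι → ℂ) (l : ℕ) (hl : l.Prime) (hln : l ∣ n) (x : ℚ) :
    ∑ k ∈ Finset.range l, QI R e wt ∞ ((x + (k : ℚ) / l : ℚ) : OnePoint ℚ) = 0 := by
  have hgl : idl n ≤ Ideal.span {((l : ℕ) : OO A B)} := by
    rw [Ideal.span_singleton_le_span_singleton]
    obtain ⟨k, hk⟩ := hln
    refine ⟨(k : OO A B), ?_⟩
    rw [hk]
    push_cast
    rfl
  unfold QI PhiK
  rw [← Finset.sum_div, Finset.sum_comm]
  have h0 : ∀ i : ι, ∑ k ∈ Finset.range l, wt i *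
      PhiI (R.b i) e ∞ ((x + (k : ℚ) / l : ℚ) : OnePoint ℚ) = 0 := by
    intro i
    rw [← Finset.mul_sum, Pool.Agent.TWB.t_DPL A B hc _ _ e l (R.nl i).b_ne (idl_ne_bot hn) he
      hl hgl x, mul_zero]
  rw [Finset.sum_congr rfl fun i _ => h0 i, Finset.sum_const_zero, zero_div]

lemma mob_id (x : OnePoint ℚ) : mob 1 0 0 1 x = x := by
  induction x using OnePoint.rec with
  | infty => simp [mob]
  | coe r => simp [mob]

/-- integrality for a normalised lattice with good reduction -/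
theorem q_BIN (V : ValuationSubring ℂ) (p : ℕ) (hp : p.Prime) (hpV : (p : ℂ) ∈ V.nonunits)
    (L : PeriodPair) (hn : L.g₂ = -18 * L.g₃) (hka : IsAlgebraic ℚ (kap L))
    (hk : V.valuation (kap L) = 1) (hd : V.valuation (1 + 1728 * kap L) = 1) :
    BinP V L {kap L} where
  alg := by
    intro x hx
    rw [Finset.mem_singleton.1 hx]
    exact hka
  bin := by
    intro K _ hK N hN hζ Z z hQS hz hz0 hden hcusp hper
    exact MUXN.tg_BIN MU3Q.wq MUXN.z_GP MUXN.z_DV K V p hp hpV N hN hζ L hn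
      (hK _ (Finset.mem_singleton_self _)) hk hd Z z hQS hz hz0 hden hcusp hper

/-- Theorem G -/
theorem q_G [Fintype ι] (hc : MUX.CQ A B) (hn : 2 ≤ n) (V : ValuationSubring ℂ) (p : ℕ)
    (hp : p.Prime) (hpV : (p : ℂ) ∈ V.nonunits) (hLoc : LocN A B V) (R : Reps A B n ι)
    (hk : V.valuation (kap (R.L R.i0)) = 1) (hd : V.valuation (1 + 1728 * kap (R.L R.i0)) = 1)
    (e : OO A B → ℂ) (he : MUX.IsEI (idl n) e) (wt : ι → ℂ) (hw : V.valuation (wt R.i0) = 1)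
    (N' : ℕ) (hN : N' ≠ 0) (hN' : NI A B n ∣ N') :
    ∃ a b c d : ℤ, a * d - b * c = 1 ∧ (N' : ℤ) ∣ c ∧ (N' : ℤ) ∣ d - 1 ∧
      1 ≤ V.valuation (QI R e wt ∞ (mob a b c d ∞)) := by
  have hn0 : n ≠ 0 := by omega
  obtain ⟨r, hr, her⟩ := q_ROU hc hn0 e he
  obtain ⟨u1, u2⟩ := t_UNT MUXF.xf_IDL MUXF.xf_NIM MUXF.xf_ALG A B hc _ _ _ (R.nl R.i0)
  have hdom : IsDomain (OO A B) := (MUXF.xf_ALG A B (toCQ hc)).2.2.2.2
  have hka : IsAlgebraic ℚ (kap (R.L R.i0)) := by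
    have hne : (⊤ : Ideal (OO A B)) ≠ ⊥ := bot_ne_top.symm
    have hmem : kap (R.L R.i0) ∈ (RF (⊤ : Ideal (OO A B)) : IntermediateField (kk A B) ℂ) :=
      IntermediateField.subset_adjoin _ _ ⟨_, _, _, R.nl R.i0, Or.inl rfl⟩
    exact Pool.Agent.MUXW.GRB.alg_RF hc (MUXC.c_TOR A B hc) ⊤ hne hmem
  have hB := q_BIN V p hp hpV (R.L R.i0) (R.nl R.i0).nrm hka hk hd
  have hL : LatO A B (R.L R.i0) (1 * R.om R.i0) := by
    rw [one_mul]
    refine ⟨(R.nl R.i0).om_ne, fun z => ?_⟩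
    rw [(R.nl R.i0).mem, R.b0]
    constructor
    · rintro ⟨x, -, hx⟩
      exact ⟨x, hx⟩
    · rintro ⟨x, hx⟩
      exact ⟨x, Submodule.mem_top, hx⟩
  have hNd : absD A B * ((n : ℕ) : ℤ) ^ 2 ∣ (N' : ℤ) := by
    rw [← NI_cast hc]
    exact Int.natCast_dvd_natCast.2 hN'
  obtain ⟨a, b, c, d, m1, m2, m3, m4⟩ := gptQ MUXN.z_RET MUXN.z_NFE MUXN.z_DSC MUXN.z_ZL MUXN.z_FK
    MUXN.z_FGG MUXT.main_FTI MUXF.xf_CHI MUXY.z_CON MUXY.z_ALP MUXY.z_FEC MUXY.z_COP MUXF.xf_ALG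
    MUXF.xf_IDL MUXF.xf_QB MUXF.xf_BDD MUXF.xf_TSM hc u1 u2 hLoc (MUXC.c_TOR A B hc) hn R
    one_ne_zero isAlgebraic_one hB hL he hr her hw hN hNd (q := 1) one_pos (fun _ => 1)
    (by simp)
  refine ⟨a, b, c, d, m1, m2, m3, ?_⟩
  have e1 : (∑ t : Fin 1, (fun _ : Fin 1 => (1 : ℂ)) t * zq 1 ^ (t : ℕ)) = 1 := by simp
  rw [e1, map_one] at m4
  refine m4.trans (le_of_eq ?_)
  congr 1
  unfold QI
  simp [mob_id]

open MUXHY.Prx in
/-- the projector -/
theorem q_PRJ [Fintype ι] (hc : MUX.CQ A B) (hn : n ≠ 0) (V : ValuationSubring ℂ)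
    (hD : absD A B ∣ (n : ℤ)) (hvD : V.valuation (absD A B : ℂ) = 1) (R : Reps A B n ι)
    (e : OO A B → ℂ) (he : MUX.IsEI (idl n) e) (wt : ι → ℂ) (s : ℂ) :
    ∃ (q : ℕ) (c : ℕ → ℂ), q ≠ 0 ∧ (∀ t, V.valuation (c t) ≤ 1) ∧ ∀ x y : OnePoint ℚ,
      ∑ t ∈ Finset.range q, c t * sgnPart s (QI R e wt) (mob q t 0 q x) (mob q t 0 q y) =
        QI R e wt x y := by
  have hg := idl_ne_bot (A := A) (B := B) hn
  have hgD : idl n ≤ MUX.sp ((absD A B : ℤ) : OO A B) := by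
    rw [Ideal.span_singleton_le_span_singleton]
    obtain ⟨k, hk⟩ := hD
    refine ⟨(k : OO A B), ?_⟩
    have := congrArg (fun n : ℤ => (n : OO A B)) hk
    simpa using this
  obtain ⟨φ, hφ, hper, hφ2⟩ := MUXF.xf_PHX A B (toCQ hc)
  have hDp := Dpos hc
  have hqD : (((absD A B).toNat : ℕ) : ℤ) = absD A B := Int.toNat_of_nonneg hDp.le
  have hq : (absD A B).toNat ≠ 0 := by omega
  have hv : V.valuation (((absD A B).toNat : ℕ) : ℂ) = 1 := by
    have h5 : (((absD A B).toNat : ℕ) : ℂ) = ((absD A B : ℤ) : ℂ) := by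
      rw [← Int.cast_natCast (R := ℂ) (absD A B).toNat, hqD]
    rw [h5]; exact hvD
  refine ⟨(absD A B).toNat, fun t => (1 / ((absD A B).toNat : ℂ)) *
    ∑ n ∈ Finset.range (absD A B).toNat, φ n * ex (-(t * n) / (absD A B).toNat), hq,
    fun t => MUXHY.Prx.val_le V (MUXHY.Val.root_one V) _ hq hv φ hφ t, fun x y => ?_⟩
  have key : ∀ c, ∑ t ∈ Finset.range (absD A B).toNat, ((1 / ((absD A B).toNat : ℂ)) *
      ∑ n ∈ Finset.range (absD A B).toNat, φ n * ex (-(t * n) / (absD A B).toNat)) *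
      sgnPart s (PhiI (R.b c) e) (mob (absD A B).toNat t 0 (absD A B).toNat x)
        (mob (absD A B).toNat t 0 (absD A B).toNat y) = PhiI (R.b c) e x y := by
    intro c
    exact MUXF.xf_PRJ A B (toCQ hc) (R.b c) _ e (R.nl c).b_ne hg (toEI he) _ φ hq
      (fun n => by rw [hqD]; exact hper n)
      (hφ2 (R.b c) _ e (R.nl c).b_ne (toEI he) hgD) s x y
  have sgn : ∀ x y, sgnPart s (QI R e wt) x y = (∑ c, wt c * sgnPart s (PhiI (R.b c) e) x y) /
      R.om R.i0 := by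
    intro x y
    unfold sgnPart QI PhiK
    rw [← mul_div_assoc, ← add_div, Finset.mul_sum, ← Finset.sum_add_distrib]
    congr 1
    refine Finset.sum_congr rfl fun c _ => ?_
    ring
  simp only [sgn]
  unfold QI PhiK
  simp only [← mul_div_assoc]
  rw [← Finset.sum_div]
  congr 1
  simp only [Finset.mul_sum (s := (Finset.univ : Finset ι))]
  rw [Finset.sum_comm]
  refine Finset.sum_congr rfl fun c _ => ?_
  rw [← key c, Finset.mul_sum]
  refine Finset.sum_congr rfl fun t _ => ?_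
  ring

open Pool.Agent.TWB.H1GAux in
/-- Theorem G for the even (odd) part -/
theorem q_GS [Fintype ι] (hc : MUX.CQ A B) (hn : 2 ≤ n) (V : ValuationSubring ℂ) (p : ℕ)
    (hp : p.Prime) (hpV : (p : ℂ) ∈ V.nonunits) (hLoc : LocN A B V) (R : Reps A B n ι)
    (hk : V.valuation (kap (R.L R.i0)) = 1) (hd : V.valuation (1 + 1728 * kap (R.L R.i0)) = 1)
    (hD : absD A B ∣ (n : ℤ)) (hvD : V.valuation (absD A B : ℂ) = 1)
    (e : OO A B → ℂ) (he : MUX.IsEI (idl n) e) (wt : ι → ℂ) (hw : V.valuation (wt R.i0) = 1)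
    (s : ℂ) (M : ℕ) (hM0 : M ≠ 0) (hdvd : NI A B n ∣ M) :
    ∃ a b c d : ℤ, a * d - b * c = 1 ∧ (M : ℤ) ∣ c ∧ (M : ℤ) ∣ d - 1 ∧
      1 ≤ V.valuation (sgnPart s (QI R e wt) ∞ (mob a b c d ∞)) := by
  by_contra hcon
  push Not at hcon
  obtain ⟨q, c, hq, hc', hprj⟩ := q_PRJ hc (by omega) V hD hvD R e he wt s
  obtain ⟨D, hD⟩ : ∃ D : ℤ, D = (q : ℤ) := ⟨_, rfl⟩
  have hD0 : D ≠ 0 := by rw [hD]; exact_mod_cast hq
  obtain ⟨α, β, γ, δ, h1, h2, h3, h4⟩ := q_G hc hn V p hp hpV hLoc R hk hd e he wt hw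
    (M * q ^ 2) (mul_ne_zero hM0 (pow_ne_zero _ hq)) (dvd_mul_of_dvd_left hdvd _)
  have hcast : ((M * q ^ 2 : ℕ) : ℤ) = M * D ^ 2 := by
    push_cast
    rw [hD]
  rw [hcast] at h2 h3
  obtain ⟨u, hu⟩ := h2
  obtain ⟨t, ht⟩ := h3
  have hterm : ∀ k ∈ Finset.range q, V.valuation (c k *
      sgnPart s (QI R e wt) (mob q k 0 q ∞) (mob q k 0 q (mob α β γ δ ∞))) < 1 := by
    intro k _
    have e1 : γ = D ^ 2 * (M * u) := by rw [hu]; ring
    have e2 : mob D k 0 D (mob α β γ δ ∞) =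
        mob (α + k * D * (M * u)) (β + k * D * M * (t - (β * u - α * t)) - k ^ 2 * (M * u))
          (D ^ 2 * (M * u)) (δ - k * D * (M * u)) ∞ := by
      rw [e1]
      exact conj_mob D k α (M * u) hD0 _ _ _ _
    have hδ2 : δ = 1 + M * D ^ 2 * t := by linarith
    have hα2 : α = 1 + M * D ^ 2 * (β * u - α * t) := by
      have h5 : α = 1 + β * γ - α * (δ - 1) := by linarith
      rw [ht, hu] at h5
      linarith
    rw [← hD, e2, mob_inf, map_mul]
    have h5 := hcon (α + k * D * (M * u))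
      (β + k * D * M * (t - (β * u - α * t)) - k ^ 2 * (M * u))
      (D ^ 2 * (M * u)) (δ - k * D * (M * u)) ?_ ?_ ?_
    · exact mul_lt_one_of_nonneg_of_lt_one_right (hc' k) zero_le h5
    · have e3 : δ - α = M * D ^ 2 * (t - (β * u - α * t)) := by linarith
      have e4 : α * δ - β * (D ^ 2 * (M * u)) = 1 := by rw [← e1]; exact h1
      linear_combination e4 + (k * D * (M * u)) * e3
    · exact Dvd.intro_left (D ^ 2 * u) (by ring)
    · refine ⟨D ^ 2 * t - k * D * u, ?_⟩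
      rw [hδ2]
      ring
  have hsum : V.valuation (QI R e wt ∞ (mob α β γ δ ∞)) < 1 := by
    rw [← hprj ∞ (mob α β γ δ ∞)]
    exact V.valuation.map_sum_lt one_ne_zero hterm
  exact absurd h4 (not_le.2 hsum)

end

end Pool.Agent.TWI
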