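import Pool.Agent.TWI.StI1
import Pool.Agent.TWI.StI2
import Pool.Agent.TWI.TEP
import Pool.Agent.NS.StTN

/-!
# TWI, block C4: the TYPE of the symbol, `p` inert (helper54)

`SetI p A B P V f`, `v = V.valuation`, `q = p²`, `L_i = R.L i`, `om_i = R.om i`, `mu_i = muX R i`. Model: block TN of MUX-NS (`Pool/Agent/NS/StTN.lean`, files `NS/T_X.lean`), there `p = 3` and the
lattices have no good normalised model; here (`GRd`) there are no `u, e, lam`, everything is simpler. RESULT: `S_TYPI` of `DefsI.lean`.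

IDEA. `e = epI eta w`, `y0` = a value of `Φ` (`= PhiK/om_0`). `σ` in the inertia group at `V` of a large Galois extension `F / k`. `σ` is trivial on `RF (m')`, `m'` prime to `p` (YINE), so it acts on the points of level
`m = p^(j+1) m'` of every `L_i` as `d_i c`, `c ∈ O`, `c ≡ 1` modulo `m'`, `d_i = ±1` (YACI), `d_i = 1` (YSGN), `σ mu_i = mu_i` (YSGM), `e(c) σ(P_i/om_i) = P_i/om_i` (YVAL), `e(c) σ(y0) = y0` (YVAK), `e(c) = w(c)`.
`tau = Σ w(x)⁻¹ t(pt R p i0 x)`: `σ tau = w(c) tau`, `v(tau)^(q-1) = v p` (YTAU). So `y0 tau` is in the inertia field of `F`, where `v < 1` implies `v ≤ v p` (YUNF). If `v(y0) ≥ 1` then `v(y0 tau) ≥ v(tau) > v(p)`, so `v(y0 tau) ≥ 1`.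

Every `def S_X : Prop` is the statement of a module, which proves `theorem t_X (h : S_Y) ... : S_X` (hypotheses: the statements `S_..` named under USES, fewer is fine) in `Pool/Agent/TWI/X.lean`, namespace `Pool.Agent.TWI`
(private lemmas in `Pool.Agent.TWI.X`). `ActT`, `KIn` are the definitions of `NS/StTN.lean` (general). The lemmas of the model files (`namespace Pool.Agent.NST.X`) may be cited, import the file: many are general. Unconditional: `Pool.Agent.MUXU.u_X` (`MUX/UAll.lean`), `Pool.Agent.MUXY.y_X : Sy_X`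
(`MUX/YAll.lean`), `Pool.Agent.MUXV.x_X`, `q_X` (`MUX/RQAll.lean`), `MUX/XLib.lean`, `Pool.Agent.TWI.t_TEP`.
-/

set_option autoImplicit false

open WeierstrassCurve Polynomial NumberField IsDedekindDomain

namespace Pool.Agent.TWI

open _root_.MU3 Pool.Agent.MU3A Pool.Agent.MU3B Pool.Agent.MU3C Pool.Agent.RI Pool.Agent.RID
open Pool.Agent.MUX Pool.Agent.MUXU Pool.Agent.MUXW Pool.Agent.TWT
open Pool.Agent.MUXV (GR InK tX)
open Pool.Agent.MUXY (ActN Dn)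
open Pool.Agent.NST (ActT KIn)
open OnePoint

noncomputable section

/-! ## 1. Fields -/

/-- (YUNF) the inertia field is unramified.

MODEL: `nt_UNF` (`Pool/Agent/NS/T_UNF.lean`) with `3` replaced by `p` (its lemmas `inertia_lt`, `val_card`, `card_fixed` are general: cite them). `v(emb x) < 1` iff `x ∈ P = idl p`, iff `p ∣ x` (`SetI.hV`, `SetI.eP`). -/
def S_YUNF : Prop :=
  ∀ (p : ℕ) (A B : ℤ) (P : Ideal (OO A B)) (V : ValuationSubring ℂ) (f : ℕ), SetI p A B P V f →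
    ∀ (F : IntermediateField (kk A B) ℂ) [FiniteDimensional (kk A B) F] [IsGalois (kk A B) F],
    ∀ w ∈ KIn A B V F, V.valuation w < 1 → V.valuation w ≤ V.valuation (p : ℂ)

/-- (YINE) an automorphism which is trivial modulo `V` on `RF (idl m)`, `p ∤ m`, is trivial on it.

USES VPGI. MODEL: the second half of `t_UNRG` (`Pool/Agent/TWT/UNRG.lean`; `TWI/UNRGI.lean` for `SetI`). `s : ℂ ≃+* ℂ` with `FixK` is `kk A B`-linear (`KER.fix`): `s' := AlgEquiv.ofRingEquiv (f := s) ..`, `σ := s'.restrictNormal (RF (idl m))` (`TorX.gal`; `AlgEquiv.restrictNormal_commutes`): `(σ y : ℂ) = s y`. The proof of `t_UNRG` shows `σ = 1`. -/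
def S_YINE : Prop :=
  ∀ (p : ℕ) (A B : ℤ) (P : Ideal (OO A B)) (V : ValuationSubring ℂ) (f : ℕ), SetI p A B P V f →
    TorX A B → ∀ (ι : Type) [Finite ι] (R : Reps A B (p * f) ι), GRd V R →
    ∀ m : ℕ, m ≠ 0 → ¬ p ∣ m → ∀ s : ℂ ≃+* ℂ, FixK A B s →
    (∀ y ∈ (RF (idl m) : IntermediateField (kk A B) ℂ), V.valuation y ≤ 1 →
      V.valuation (s y - y) < 1) →
    ∀ y ∈ (RF (idl m) : IntermediateField (kk A B) ℂ), s y = y

/-! ## 2. Algebraic numbers -/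

/-- (YALT) the coordinates of torsion points are algebraic.

MODEL: `nt_ALT` (`Pool/Agent/NS/T_ALT.lean`), its lemmas `alg_RF`, `wp_mem`. -/
def S_YALT : Prop :=
  ∀ (A B : ℤ), CQ A B → TorX A B → ∀ (b : Ideal (OO A B)) (L : PeriodPair) (om : ℂ),
    IsNL b L om → ∀ N : ℕ, N ≠ 0 → ∀ z, z ∉ L.lattice → (N : ℂ) * z ∈ L.lattice →
    IsAlgebraic ℚ (xn L z) ∧ IsAlgebraic ℚ (yy L z)

/-- (YALV) the values are algebraic.

MODEL: `nt_ALV` (`Pool/Agent/NS/T_ALV.lean`; uses `Sy_ALP`, theorem `Pool.Agent.MUXY.y_ALP`). -/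
def S_YALV : Prop :=
  ∀ (A B : ℤ), CQ A B → TorX A B → ∀ (n : ℕ), 2 ≤ n → ∀ (ι : Type) [Fintype ι]
    (R : Reps A B n ι) (e : OO A B → ℂ), IsEI (idl (A := A) (B := B) n) e →
    ∀ r : ℕ, r ≠ 0 → (∀ x, e x ≠ 0 → e x ^ r = 1) → ∀ kk : ι → ℂ, (∀ i, kk i ^ r = 1) →
    ∀ x y : OnePoint ℚ, IsAlgebraic ℚ (PhiK R e kk x y / R.om R.i0)

/-! ## 3. The action of an automorphism in the inertia group -/

/-- (YACI) the number `c` and the signs `d_i`.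

MODEL: `nt_ACI` (`Pool/Agent/NS/T_ACI.lean`), `3` replaced by `p ≥ 2`; the first part (`Sn_RFIN`) is a hypothesis here. `idl m ≤ idl p ≠ ⊤`. -/
def S_YACI : Prop :=
  ∀ (A B : ℤ), CQ A B → TorX A B → ∀ (n : ℕ) (ι : Type) (R : Reps A B n ι) (p j m' : ℕ),
    2 ≤ p → m' ≠ 0 → ∀ σ : ℂ ≃+* ℂ, FixK A B σ →
    (∀ y ∈ RF (idl (A := A) (B := B) m'), σ y = y) →
    ∃ (c : OO A B) (d : ι → ℤ), c - 1 ∈ idl (A := A) (B := B) m' ∧
      c ∉ idl (A := A) (B := B) p ∧ ActT R (p ^ (j + 1) * m') σ c d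

/-- (YSGN) all signs are `1`.

USES VPGI. MODEL: `nt_SGU` (`Pool/Agent/NS/T_SGU.lean`) with `u = 1`, `L_i` in place of `L_0`. `z = pt R m' i 1 = om_i N(b_i)/m'`: `m' z ∈ L_i` (`N(b_i) ∈ b_i`, `nI_mem`), `2 z ∉ L_i`: otherwise `2 N(b_i) = m' x`, `x ∈ O`, so `m' ∣ 2 N(b_i)` (real parts), `f ∣ 2 N(b_i)`, `f ∣ 2` (`R.cop`), but `f ≥ 6`
(`2 absD ∣ f`, `absD ≥ 3`; this argument is in `T_SGM.lean`). So `z`, `2 z` are not in the kernel of reduction (VPGI, last clause) and `v(yy L_i z) = 1` (`Pool.Agent.MUXV.q_YUN`, or `Pool.Agent.MU3.Val.v_y_unit` as in the model; `GRn` from VPGI). `c z - z ∈ L_i`, `ActT.act i`: `σ(yy z) = yy(d_i c z) = d_i yy z`. If `d_i = -1`: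
`σ(yy z) - yy z = -2 yy z` has valuation `1`, against the hypothesis. -/
def S_YSGN : Prop :=
  ∀ (p : ℕ) (A B : ℤ) (P : Ideal (OO A B)) (V : ValuationSubring ℂ) (f : ℕ), SetI p A B P V f →
    ∀ (ι : Type) (R : Reps A B (p * f) ι), GRd V R → ∀ (j m' : ℕ), m' ≠ 0 → ¬ p ∣ m' → f ∣ m' →
    ∀ (σ : ℂ ≃+* ℂ) (c : OO A B) (d : ι → ℤ), c - 1 ∈ idl (A := A) (B := B) m' →
    ActT R (p ^ (j + 1) * m') σ c d →
    (∀ i, V.valuation (yy (R.L i) (pt R m' i 1)) ≤ 1 →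
      V.valuation (σ (yy (R.L i) (pt R m' i 1)) - yy (R.L i) (pt R m' i 1)) < 1) →
    ∀ i, d i = 1

/-- (YSGM) conjugation of the multipliers.

MODEL: `nt_SGM` (`Pool/Agent/NS/T_SGM.lean`), `3` replaced by `p`. -/
def S_YSGM : Prop :=
  ∀ (A B : ℤ) (p f : ℕ), CQ A B → 1 ≤ p → 3 ≤ f → ∀ (ι : Type) (R : Reps A B (p * f) ι)
    (j m' : ℕ), m' ≠ 0 → f ∣ m' → ∀ (σ : ℂ ≃+* ℂ) (c : OO A B) (d : ι → ℤ),
    c - 1 ∈ idl (A := A) (B := B) m' → ActT R (p ^ (j + 1) * m') σ c d →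
    ∀ i, σ (muX R i) = d R.i0 * d i * muX R i

/-- (YVAL) conjugation of the values.

MODEL: `nt_VAL` (`Pool/Agent/NS/T_VAL.lean`; uses `Sy_RA1`, theorem `Pool.Agent.MUXY.y_RA1`), `3 * f` replaced by `n`. -/
def S_YVAL : Prop :=
  ∀ (A B : ℤ) (n : ℕ), CQ A B → 2 ≤ n → ∀ (ι : Type) (R : Reps A B n ι)
    (e : OO A B → ℂ), IsEI (idl (A := A) (B := B) n) e → ∀ m : ℕ, m ≠ 0 → n ∣ m →
    ∀ (σ : ℂ ≃+* ℂ) (c : OO A B) (d : ι → ℤ), ActT R m σ c d → (∀ x, σ (e x) = e x) →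
    ∀ (i : ι) (x y : OnePoint ℚ), Dn m x → Dn m y →
      e c * σ (PhiI (R.b i) e x y / R.om i) = d i * (PhiI (R.b i) e x y / R.om i)

/-- (YVAK) conjugation of the values of `PhiK/om_0`.

USES YSGM, YVAL. MODEL: `nt_VAK` (`Pool/Agent/NS/T_VAK.lean`) with `u = 1`, `d = 1`. -/
def S_YVAK : Prop :=
  ∀ (A B : ℤ) (p f : ℕ), CQ A B → 1 ≤ p → 3 ≤ f → ∀ (ι : Type) [Fintype ι]
    (R : Reps A B (p * f) ι) (e : OO A B → ℂ), IsEI (idl (A := A) (B := B) (p * f)) e →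
    ∀ (j m' : ℕ), m' ≠ 0 → f ∣ m' → ∀ (σ : ℂ ≃+* ℂ) (c : OO A B) (d : ι → ℤ),
    c - 1 ∈ idl (A := A) (B := B) m' → ActT R (p ^ (j + 1) * m') σ c d → (∀ i, d i = 1) →
    (∀ x, σ (e x) = e x) → ∀ kk : ι → ℂ, (∀ i, σ (kk i) = kk i) →
    ∀ x y : OnePoint ℚ, Dn (p ^ (j + 1) * m') x → Dn (p ^ (j + 1) * m') y →
      e c * σ (PhiK R e kk x y / R.om R.i0) = PhiK R e kk x y / R.om R.i0

/-! ## 4. The number `tau` -/

/-- (YTAU) the number `tau`.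

USES YALT, KRI, TRI, PTI (block A, `StI1.lean`), `t_TEP`. MODEL: `nt_TAU` (`Pool/Agent/NS/T_TAU.lean`). PROOF. `T` with `RepI P T` (TEP), `t(x) = tX (xn L_0) (yy L_0) (pt R p i0 x)`, `tau = Σ_(x ∈ T) (w x)⁻¹ t(x)`. (1) (TRI) `v(t(x) - w x t(1)) ≤ v(t(1))²`, `v(w x) = 1`: `v(tau - (p² - 1) t(1)) ≤ v(t(1))² < v(t(1))`
(`T.card = p² - 1`; `v(t(1)) < 1`, `≠ 0` by (KRI) for `x = 1`), `v(p² - 1) = 1` (TEP): `v(tau) = v(t(1))`. (2) algebraic: (YALT) for `N = p` (`pt R p i0 x ∉ L_0`, KRI), roots of unity. (3) `ActT.act i0` with `d = 1` for `z = pt R p i0 x` (`m z ∈ L_0` as `p ∣ m`): `σ(℘ z) = ℘(emb c z)`, `σ(℘' z) = ℘'(emb c z)`,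
`emb c z = pt R p i0 (c x)` (PTI): `σ(t(x)) = t(c x)`. `F x = (w x)⁻¹ t(x)` depends only on `x` modulo `P` (`TeiI.per`; PTI and the periods of `℘`, `℘'`), `σ tau = Σ (w x)⁻¹ t(c x) = w(c) Σ_(x ∈ T) F(c x) = w(c) tau` (TEP). -/
def S_YTAU : Prop :=
  ∀ (p : ℕ) (A B : ℤ) (P : Ideal (OO A B)) (V : ValuationSubring ℂ) (f : ℕ), SetI p A B P V f →
    TorX A B → ∀ (ι : Type) (R : Reps A B (p * f) ι), GRd V R → ∀ w : OO A B → ℂ, TeiI p P V w →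
    ∃ tau : ℂ, V.valuation tau ^ (p ^ 2 - 1) = V.valuation (p : ℂ) ∧ IsAlgebraic ℚ tau ∧
      ∀ (m : ℕ), p ∣ m → ∀ (σ : ℂ ≃+* ℂ) (c : OO A B) (d : ι → ℤ), ActT R m σ c d →
        (∀ i, d i = 1) → c ∉ P → (∀ x, σ (w x) = w x) → σ tau = w c * tau

/-! ## 5. The result

(TYPI) `S_TYPI` of `DefsI.lean`; `theorem t_TYPI : S_TYPI` in `Pool/Agent/TWI/TYPI.lean`.

USES YUNF, YINE, YALT, YALV, YACI, YSGN, YVAK, YTAU, `t_TEP`, `Pool.Agent.NST.nt_GLC`. MODEL: `nt_TYF` (`Pool/Agent/NS/T_TYF.lean`). PROOF. `e = epI eta w` is `IsEI (idl (p * f))` (`eta` modulo `f`, `w` modulo `P = (p)`; `e(-1) = w(-1) = -1` by TEP; `supp`: prime to `f` and not in `P`). `kk = kkI R kp eta w`. With `r` from `ChD.fin` (`p ∤ r`),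
`s = r (p² - 1)`: `e x ^ s = 1` or `e x = 0`, `kk i ^ s = 1` (`e(nI (b i)) ≠ 0` by `R.cop`), `p ∤ s`. Given `x`, `y`: `D` = the product of the denominators of `x`, `y` (those of `-x`, `-y` are the same), `D = p^j N`, `p ∤ N`; `m' = f N`. `y0 = sgnPart 1 Φ x y = (1/2)(Φ x y + Φ (-x) (-y))`, `Φ = PhiK/om_0`. `tau` (YTAU).
(GLC): `F ⊇ RF (idl m')`, finite Galois over `k`, with `Φ x y`, `Φ (-x) (-y)`, `tau`, the `yy L_i (pt R m' i 1)` (`i ∈ ι`, finite; YALT) and all roots of unity of order dividing `s`. `σ` in `InI A B V F`: YINE, YACI, YSGN; `σ z = z` for `z^s = 1` (`TEP.uniq`; `v(s) = 1`), so `σ (e x) = e x`, `σ (kk i) = kk i`, `σ (w x) = w x`. YVAK: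
`e(c) σ(y0) = y0`; `c ≡ 1` modulo `f`, so `e(c) = w(c)`; YTAU: `σ(y0 tau) = y0 tau`: `g = y0 tau ∈ KIn`. If `1 ≤ v(y0)` and `v(g) < 1`: `v(tau) ≤ v(g) ≤ v(p) = v(tau)^(q-1) < v(tau)` (YUNF; `v(tau) < 1`, `q - 1 ≥ 2`), a contradiction. So `1 ≤ v(g)`, `1 ≤ v(g)^(q-1) = v(y0)^(q-1) v(p)`. -/

end

end Pool.Agent.TWI
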