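import Pool.Agent.TWI.StI4
import Pool.Agent.TWI.SYI
import Pool.Agent.NS.T_TYF
import Pool.Agent.NS.T_GLC
import Pool.Agent.MUX.XLib

/-! # TWI, block C4, module TYPI (helper34): the type of the symbol for an inert prime -/

set_option autoImplicit false

namespace Pool.Agent.TWI

open _root_.MU3 Pool.Agent.MU3A Pool.Agent.MU3B Pool.Agent.MU3C Pool.Agent.RI Pool.Agent.RID
open Pool.Agent.MUX Pool.Agent.MUXU Pool.Agent.MUXW Pool.Agent.TWT
open Pool.Agent.MUXV (GR InK tX)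
open Pool.Agent.MUXY (ActN Dn)
open Pool.Agent.NS (InI)
open Pool.Agent.NST (ActT KIn)
open OnePoint

noncomputable section

namespace TYPI

/-- a common denominator -/
lemma exists_dn (x : OnePoint ℚ) : ∃ D : ℕ, D ≠ 0 ∧ Dn D x := by
  induction x using OnePoint.rec with
  | infty => exact ⟨1, one_ne_zero, fun r hr => absurd hr (OnePoint.infty_ne_coe r)⟩
  | coe q =>
    refine ⟨q.den, q.den_ne_zero, fun r hr => ?_⟩
    rw [OnePoint.coe_injective hr]

lemma dn_neg {m : ℕ} (x : OnePoint ℚ) (hx : Dn m x) :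
    Dn m (Pool.Agent.MuSym.mob (-1) 0 0 1 x) := by
  induction x using OnePoint.rec with
  | infty =>
    intro r hr
    exfalso
    have h1 : Pool.Agent.MuSym.mob (-1) 0 0 1 (∞ : OnePoint ℚ) = ∞ := by
      simp [Pool.Agent.MuSym.mob]
    rw [h1] at hr
    exact OnePoint.infty_ne_coe r hr
  | coe q =>
    intro r hr
    have h1 : Pool.Agent.MuSym.mob (-1) 0 0 1 ((q : ℚ) : OnePoint ℚ) =
        ((-q : ℚ) : OnePoint ℚ) := by
      simp [Pool.Agent.MuSym.mob]
    rw [h1] at hr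
    rw [← OnePoint.coe_injective hr, Rat.neg_den]
    exact hx q rfl

/-- the points of level `m'` -/
lemma pt_not_mem {A B : ℤ} (hQ : CQ A B) {p f m' : ℕ} (hf : f ≠ 1) (hfm : f ∣ m') (hm' : m' ≠ 0)
    {ι : Type} (R : Reps A B (p * f) ι) (i : ι) : pt R m' i 1 ∉ (R.L i).lattice := by
  intro h
  obtain ⟨y, hy, hxy⟩ := ((R.nl i).mem _).1 h
  have ho := (R.nl i).om_ne
  have hmC : (m' : ℂ) ≠ 0 := by exact_mod_cast hm'
  unfold pt at hxy
  rw [div_eq_iff hmC, emb_one hQ, mul_one] at hxy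
  have h2 : emb (((nI (R.b i) : ℕ) : OO A B)) = emb (((m' : ℕ) : OO A B) * y) := by
    rw [emb_mul hQ, emb_natCast hQ, emb_natCast hQ]
    apply mul_left_cancel₀ ho
    linear_combination hxy
  have h3 := congrArg nm (emb_inj hQ h2)
  have hnm : ∀ n : ℕ, nm ((n : ℕ) : OO A B) = (n : ℤ) ^ 2 := by
    intro n
    have := nm_intCast (A := A) (B := B) (n : ℤ)
    rwa [Int.cast_natCast] at this
  rw [nm_mul hQ, hnm, hnm] at h3
  have h4 : (m' : ℤ) ^ 2 ∣ (nI (R.b i) : ℤ) ^ 2 := ⟨nm y, h3⟩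
  have h5 : m' ∣ nI (R.b i) := by
    have h6 : m' ^ 2 ∣ nI (R.b i) ^ 2 := by exact_mod_cast h4
    exact (Nat.pow_dvd_pow_iff two_ne_zero).1 h6
  have h7 : (nI (R.b i)).Coprime f := Nat.Coprime.coprime_mul_left_right (R.cop i)
  exact hf (Nat.eq_one_of_dvd_coprimes h7 (hfm.trans h5) dvd_rfl)

end TYPI

open TYPI in
theorem t_TYPI (hUNF : S_YUNF) (hINE : S_YINE) (hALT : S_YALT) (hALV : S_YALV) (hACI : S_YACI)
    (hSGN : S_YSGN) (hVAK : S_YVAK) (hTAU : S_YTAU) : S_TYPI := by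
  classical
  intro p A B P V f hS hT ι _ R hG w hw kp eta hch x y h1
  have hQ := hS.cq
  have hp := hS.pp
  have hp5 := hS.p5
  have hf0 := hS.f0
  have hD := Pool.Agent.NST.TYF.absD_ge hQ
  have hf6 : 6 ≤ f := by
    have h2 := Int.le_of_dvd (by exact_mod_cast Nat.pos_of_ne_zero hf0) hS.fD
    omega
  have hpf2 : 2 ≤ p * f := by nlinarith
  have hvp : V.valuation (p : ℂ) < 1 := Syi.vp hS
  have hvp0 : V.valuation (p : ℂ) ≠ 0 := by
    rw [Ne, map_eq_zero]
    exact_mod_cast hp.ne_zero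
  obtain ⟨-, hvq, -⟩ := t_TEP p A B P V f hS
  have hq0 : 0 < p ^ 2 - 1 := by
    have : 25 ≤ p ^ 2 := by nlinarith
    omega
  set e : OO A B → ℂ := epI eta w with he
  set ka : ι → ℂ := kkI R kp eta w with hka
  have hei : IsEI (idl (A := A) (B := B) (p * f)) e := Syi.ei hS hw hch
  -- roots of unity
  obtain ⟨r, hpr, hr1, hr2⟩ := hch.fin
  have hr0 : r ≠ 0 := by
    rintro rfl
    exact hpr (dvd_zero p)
  obtain ⟨s, hs⟩ : ∃ s, s = r * (p ^ 2 - 1) := ⟨_, rfl⟩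
  have hs0 : s ≠ 0 := by
    rw [hs]
    exact mul_ne_zero hr0 hq0.ne'
  have hvs : V.valuation (s : ℂ) = 1 := by
    rw [hs, Nat.cast_mul, map_mul, hvq, mul_one]
    have h2 := Syi.vn hS r (fun hd => hpr (by exact_mod_cast hd))
    rwa [Int.cast_natCast] at h2
  have hws : ∀ z, w z ≠ 0 → w z ^ s = 1 := by
    intro z hz
    have hzP : z ∉ P := fun h => hz ((hw.zero z).2 h)
    rw [hs, mul_comm, pow_mul, hw.root z hzP, one_pow]
  have hes : ∀ z, e z ≠ 0 → e z ^ s = 1 := by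
    intro z hz
    have hz' : eta z * w z ≠ 0 := hz
    obtain ⟨hz1, hz2⟩ := mul_ne_zero_iff.1 hz'
    show (eta z * w z) ^ s = 1
    rw [mul_pow, hws z hz2, mul_one, hs, pow_mul, hr2 z hz1, one_pow]
  have hkas : ∀ i, ka i ^ s = 1 := by
    intro i
    have h2 := hes _ (MUXHY.Brg.e_nI R hei (Ideal.mem_span_singleton_self _) i)
    show (kp i * (e ((nI (R.b i) : ℕ) : OO A B))⁻¹) ^ s = 1
    rw [mul_pow, inv_pow]
    have h3 : e ((nI (R.b i) : ℕ) : OO A B) ^ s = 1 := h2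
    rw [h3, inv_one, mul_one, hs, pow_mul, hr1 i, one_pow]
  -- the level
  obtain ⟨D1, hD1, hx1⟩ := exists_dn x
  obtain ⟨D2, hD2, hy1⟩ := exists_dn y
  obtain ⟨j, N, hNp, hDN⟩ := Nat.exists_eq_pow_mul_and_not_dvd (mul_ne_zero hD1 hD2) p
    hp.ne_one
  have hN0 : N ≠ 0 := by
    rintro rfl
    exact hNp (dvd_zero p)
  obtain ⟨m', hm'⟩ : ∃ m', m' = f * N := ⟨_, rfl⟩
  have hm'0 : m' ≠ 0 := by
    rw [hm']
    exact mul_ne_zero hf0 hN0
  have hm'p : ¬ p ∣ m' := by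
    rw [hm']
    intro h
    rcases hp.dvd_mul.1 h with h | h
    · exact hS.fp h
    · exact hNp h
  have hfm : f ∣ m' := hm' ▸ Dvd.intro _ rfl
  have hdvd : D1 * D2 ∣ p ^ (j + 1) * m' := by
    rw [hDN, hm']
    exact mul_dvd_mul (pow_dvd_pow p (Nat.le_succ j)) (Dvd.intro_left _ rfl)
  have hx2 : Dn (p ^ (j + 1) * m') x :=
    Pool.Agent.NST.TYF.dn_mono ((dvd_mul_right D1 D2).trans hdvd) hx1
  have hy2 : Dn (p ^ (j + 1) * m') y :=
    Pool.Agent.NST.TYF.dn_mono ((dvd_mul_left D2 D1).trans hdvd) hy1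
  -- the number `tau`
  obtain ⟨tau, htauv, htaua, htau⟩ := hTAU p A B P V f hS hT ι R hG w hw
  have htau0 : V.valuation tau ≠ 0 := by
    intro h0
    rw [h0, zero_pow hq0.ne'] at htauv
    exact hvp0 htauv.symm
  have htau1 : V.valuation tau < 1 := by
    by_contra hc
    have h4 := one_le_pow₀ (not_lt.1 hc) (n := p ^ 2 - 1)
    rw [htauv] at h4
    exact absurd hvp (not_lt.2 h4)
  -- the field
  obtain ⟨Q, hQd⟩ : ∃ Q : OnePoint ℚ → OnePoint ℚ → ℂ,
      Q = fun x y => PhiK R e ka x y / R.om R.i0 := ⟨_, rfl⟩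
  obtain ⟨x', hx'⟩ : ∃ x', x' = Pool.Agent.MuSym.mob (-1) 0 0 1 x := ⟨_, rfl⟩
  obtain ⟨y', hy'⟩ : ∃ y', y' = Pool.Agent.MuSym.mob (-1) 0 0 1 y := ⟨_, rfl⟩
  have hx2' : Dn (p ^ (j + 1) * m') x' := hx' ▸ dn_neg x hx2
  have hy2' : Dn (p ^ (j + 1) * m') y' := hy' ▸ dn_neg y hy2
  have hy0 : sgnPart 1 (PhI R kp eta w) x y = Q x y + Q x' y' := by
    rw [hQd, hx', hy']
    show PhI R kp eta w x y + 1 * PhI R kp eta w _ _ = _
    rw [one_mul]
    rfl
  have hfne : f ≠ 1 := by omega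
  have hYa : ∀ i, IsAlgebraic ℚ (yy (R.L i) (pt R m' i 1)) := by
    intro i
    refine (hALT A B hQ hT (R.b i) (R.L i) (R.om i) (R.nl i) m' hm'0 (pt R m' i 1)
      (pt_not_mem hQ hfne hfm hm'0 R i) ?_).2
    refine ((R.nl i).mem _).2 ⟨((nI (R.b i) : ℕ) : OO A B), nI_mem hQ (R.nl i).b_ne, ?_⟩
    have hmC : (m' : ℂ) ≠ 0 := by exact_mod_cast hm'0
    unfold pt
    rw [emb_one hQ, emb_natCast hQ]
    field_simp
  set Ts : Set ℂ := ({Q x y, Q x' y', tau} : Set ℂ) ∪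
    (Set.range (fun i => yy (R.L i) (pt R m' i 1)) ∪
      ((Polynomial.nthRootsFinset s (1 : ℂ) : Finset ℂ) : Set ℂ)) with hTs
  have hTfin : Ts.Finite := by
    refine Set.Finite.union (Set.toFinite _) (Set.Finite.union (Set.finite_range _)
      (Finset.finite_toSet _))
  have hTalg : ∀ t ∈ Ts, IsAlgebraic ℚ t := by
    rintro t (ht | (⟨i, rfl⟩ | ht))
    · rcases ht with rfl | rfl | rfl
      · rw [hQd]
        exact hALV A B hQ hT (p * f) hpf2 ι R e hei s hs0 hes ka hkas x y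
      · rw [hQd]
        exact hALV A B hQ hT (p * f) hpf2 ι R e hei s hs0 hes ka hkas x' y'
      · exact htaua
    · exact hYa i
    · rw [Finset.mem_coe, Polynomial.mem_nthRootsFinset (Nat.pos_of_ne_zero hs0)] at ht
      exact IsAlgebraic.of_pow (Nat.pos_of_ne_zero hs0) (by rw [ht]; exact isAlgebraic_one)
  obtain ⟨F, hFf, hFg, hEF, hTF⟩ := Pool.Agent.NST.nt_GLC A B hQ
    (RF (idl (A := A) (B := B) m'))
    (hT.fin _ (Pool.Agent.NST.TYF.idl_ne_bot hQ hm'0)) Ts hTfin hTalg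
  have hQF : Q x y ∈ F := hTF (Or.inl (Or.inl rfl))
  have hQF' : Q x' y' ∈ F := hTF (Or.inl (Or.inr (Or.inl rfl)))
  have htauF : tau ∈ F := hTF (Or.inl (Or.inr (Or.inr rfl)))
  have hyF : ∀ i, yy (R.L i) (pt R m' i 1) ∈ F := fun i => hTF (Or.inr (Or.inl ⟨i, rfl⟩))
  have hrF : ∀ z : ℂ, z ^ s = 1 → z ∈ F := fun z hz => hTF (Or.inr (Or.inr (by
    rw [Finset.mem_coe, Polynomial.mem_nthRootsFinset (Nat.pos_of_ne_zero hs0)]
    exact hz)))
  -- the key point
  have hkey : ∀ σ : ℂ ≃+* ℂ, InI A B V (F : Set ℂ) σ →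
      σ ((Q x y + Q x' y') * tau) = (Q x y + Q x' y') * tau := by
    intro σ hσ
    have hin : ∀ z ∈ F, V.valuation z ≤ 1 → V.valuation (σ z - z) < 1 := by
      intro z hz hzV
      have h2 := hσ.iner z hz ((V.valuation_le_one_iff _).1 hzV)
      rwa [ValuationSubring.mem_nonunits_iff] at h2
    have hRF := hINE p A B P V f hS hT ι R hG m' hm'0 hm'p σ hσ.fix
      (fun z hz hzV => hin z (hEF hz) hzV)
    obtain ⟨c, d, hc1, hc3, hact⟩ := hACI A B hQ hT (p * f) ι R p j m' (by omega) hm'0 σ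
      hσ.fix hRF
    have hcP : c ∉ P := by
      rw [hS.eP]
      exact hc3
    have hd := hSGN p A B P V f hS ι R hG j m' hm'0 hm'p hfm σ c d hc1 hact
      (fun i hi => hin _ (hyF i) hi)
    have hroot : ∀ z : ℂ, (z ≠ 0 → z ^ s = 1) → σ z = z := by
      intro z hz
      by_cases hz0 : z = 0
      · rw [hz0, map_zero]
      · have hz1 := hz hz0
        have hv1 : V.valuation z = 1 := MUXHY.Val.root_one V s z hs0 hz1
        exact TEP.uniq V s (Nat.pos_of_ne_zero hs0) hvs (σ z) z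
          (by rw [← map_pow, hz1, map_one]) hz1 (hin z (hrF z hz1) hv1.le)
    have hse : ∀ z, σ (e z) = e z := fun z => hroot _ (hes z)
    have hsw : ∀ z, σ (w z) = w z := fun z => hroot _ (hws z)
    have hsk : ∀ i, σ (ka i) = ka i := fun i => hroot _ (fun _ => hkas i)
    have h2 : σ tau = w c * tau :=
      htau (p ^ (j + 1) * m') ((dvd_pow_self p (Nat.succ_ne_zero j)).mul_right _) σ c d hact hd
        hcP hsw
    have h3 : e c = w c := by
      show eta c * w c = w c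
      have h5 : c - 1 ∈ (idl f : Ideal (OO A B)) :=
        Pool.Agent.NST.TYF.mem_idl_of_dvd hfm hc1
      rw [hch.per c 1 h5, hch.one, one_mul]
    have h4 : ∀ a b, Dn (p ^ (j + 1) * m') a → Dn (p ^ (j + 1) * m') b →
        w c * σ (Q a b) = Q a b := by
      intro a b ha hb
      rw [← h3, hQd]
      exact hVAK A B p f hQ hp.one_lt.le (by omega) ι R e hei j m' hm'0 hfm σ c d hc1 hact hd
        hse ka hsk a b ha hb
    rw [map_mul, map_add, h2]
    have h5 := h4 x y hx2 hy2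
    have h6 := h4 x' y' hx2' hy2'
    linear_combination tau * (h5 + h6)
  have hgK : (Q x y + Q x' y') * tau ∈ KIn A B V F :=
    ⟨F.mul_mem (F.add_mem hQF hQF') htauF, hkey⟩
  rw [hy0] at h1 ⊢
  have hg1 : 1 ≤ V.valuation ((Q x y + Q x' y') * tau) := by
    by_contra hc
    rw [not_le] at hc
    have h2 := hUNF p A B P V f hS F _ hgK hc
    rw [map_mul] at h2
    have h3 : V.valuation tau ≤ V.valuation tau ^ (p ^ 2 - 1) := by
      rw [htauv]
      exact (le_mul_of_one_le_left' h1).trans h2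
    have h4 : p ^ 2 - 1 = (p ^ 2 - 2) + 1 := by
      have : 25 ≤ p ^ 2 := by nlinarith
      omega
    have h5 : p ^ 2 - 2 ≠ 0 := by
      have : 25 ≤ p ^ 2 := by nlinarith
      omega
    have h6 : V.valuation tau ^ (p ^ 2 - 1) < V.valuation tau := by
      rw [h4, pow_succ]
      have h7 : V.valuation tau ^ (p ^ 2 - 2) < 1 := pow_lt_one₀ zero_le' htau1 h5
      have h8 := mul_lt_mul_of_pos_right h7 (zero_lt_iff.2 htau0)
      rwa [one_mul] at h8
    exact absurd h3 (not_le.2 h6)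
  have h2 := one_le_pow₀ hg1 (n := p ^ 2 - 1)
  rw [map_mul, mul_pow, htauv, mul_comm] at h2
  exact h2

end

end Pool.Agent.TWI
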